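import Mathlib

/-!
Boolean `(m, 0)`-products and `(m, n)`-products: definitions, a general construction, and two
products of two countable atomless Boolean algebras.
-/

set_option autoImplicit false

namespace Pool.Agent.R689.BProd

open Cardinal TopologicalSpace Heyting

/-- Boolean `m`-algebra: all sets of size at most `m` have joins and meets. -/
def IsMAlgebra (m : Cardinal.{0}) (B : Type) [BooleanAlgebra B] : Prop :=
  ∀ s : Set B, #s ≤ m → (∃ b, IsLUB s b) ∧ ∃ b, IsGLB s b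

/-- `m`-homomorphism: preserves all existing joins and meets of at most `m` elements. -/
def IsMHom (m : Cardinal.{0}) {A B : Type} [BooleanAlgebra A] [BooleanAlgebra B]
    (h : BoundedLatticeHom A B) : Prop :=
  ∀ s : Set A, #s ≤ m → (∀ a, IsLUB s a → IsLUB (h '' s) (h a)) ∧
    ∀ a, IsGLB s a → IsGLB (h '' s) (h a)

/-- `(i, B)` is an `(m, 0)`-product of the Boolean algebras `A t`. -/
structure IsProduct (m : Cardinal.{0}) {T : Type} {A : T → Type} [∀ t, BooleanAlgebra (A t)]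
    {B : Type} [BooleanAlgebra B] (i : ∀ t, BoundedLatticeHom (A t) B) : Prop where
  /-- `B` is a Boolean `m`-algebra -/
  alg : IsMAlgebra m B
  /-- the maps are `m`-homomorphisms -/
  hom : ∀ t, IsMHom m (i t)
  /-- the maps are injective -/
  inj : ∀ t, Function.Injective (i t)
  /-- the images are independent -/
  indep : ∀ (T' : Finset T) (a : ∀ t, A t), (∀ t ∈ T', a t ≠ ⊥) → T'.inf (fun t => i t (a t)) ≠ ⊥
  /-- the images generate `B` as a Boolean `m`-algebra -/
  gen : ∀ S : Set B, (∀ t a, i t a ∈ S) → (∀ b ∈ S, bᶜ ∈ S) →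
    (∀ s ⊆ S, #s ≤ m → ∀ b, IsLUB s b → b ∈ S) → ∀ b, b ∈ S

/-- The `(m, 0)`-product is minimal: the meets `⋀_{t ∈ T'} i_t (a_t)`, `T'` finite, are dense. -/
def IsMinimal {T : Type} {A : T → Type} [∀ t, BooleanAlgebra (A t)]
    {B : Type} [BooleanAlgebra B] (i : ∀ t, BoundedLatticeHom (A t) B) : Prop :=
  ∀ b, b ≠ ⊥ → ∃ (T' : Finset T) (a : ∀ t, A t), T'.inf (fun t => i t (a t)) ≠ ⊥ ∧
    T'.inf (fun t => i t (a t)) ≤ b

/-- The images are `n`-independent. -/
def IsIndep (n : Cardinal.{0}) {T : Type} {A : T → Type} [∀ t, BooleanAlgebra (A t)]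
    {B : Type} [BooleanAlgebra B] (i : ∀ t, BoundedLatticeHom (A t) B) : Prop :=
  ∀ (T' : Set T) (a : ∀ t, A t), #T' ≤ n → (∀ t ∈ T', a t ≠ ⊥) →
    ∃ b, IsGLB ((fun t => i t (a t)) '' T') b ∧ b ≠ ⊥

/-- The `(m, n)`-product is minimal: the meets of `i_t (a_t)`, `t ∈ T'`, `T'` of size at most `n`,
are dense. -/
def IsMinimalN (n : Cardinal.{0}) {T : Type} {A : T → Type} [∀ t, BooleanAlgebra (A t)]
    {B : Type} [BooleanAlgebra B] (i : ∀ t, BoundedLatticeHom (A t) B) : Prop :=
  ∀ b, b ≠ ⊥ → ∃ (T' : Set T) (a : ∀ t, A t) (c : B), #T' ≤ n ∧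
    IsGLB ((fun t => i t (a t)) '' T') c ∧ c ≠ ⊥ ∧ c ≤ b

section general

variable {A B R : Type} [BooleanAlgebra A] [BooleanAlgebra B] [BooleanAlgebra R]

lemma isGLB_iff_compl {s : Set B} {b : B} : IsGLB s b ↔ IsLUB (compl '' s) bᶜ := by
  constructor
  · rintro ⟨h1, h2⟩
    refine ⟨?_, ?_⟩
    · rintro _ ⟨x, hx, rfl⟩
      exact compl_le_compl (h1 hx)
    · intro u hu
      have : uᶜ ≤ b := h2 fun x hx => compl_le_iff_compl_le.1 (hu ⟨x, hx, rfl⟩)
      exact compl_le_iff_compl_le.1 this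
  · rintro ⟨h1, h2⟩
    refine ⟨?_, ?_⟩
    · intro x hx
      exact compl_le_compl_iff_le.1 (h1 ⟨x, hx, rfl⟩)
    · intro u hu
      have : bᶜ ≤ uᶜ := h2 (by
        rintro _ ⟨x, hx, rfl⟩
        exact compl_le_compl (hu hx))
      exact compl_le_compl_iff_le.1 this

lemma card_compl {s : Set B} {m : Cardinal.{0}} (hs : #s ≤ m) : #(compl '' s : Set B) ≤ m :=
  mk_image_le.trans hs

lemma isMAlgebra_of {m : Cardinal.{0}} (h : ∀ s : Set B, #s ≤ m → ∃ b, IsLUB s b) :
    IsMAlgebra m B := by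
  intro s hs
  refine ⟨h s hs, ?_⟩
  obtain ⟨b, hb⟩ := h _ (card_compl hs)
  exact ⟨bᶜ, isGLB_iff_compl.2 (by rwa [compl_compl])⟩

lemma image_compl (h : BoundedLatticeHom A B) (s : Set A) :
    h '' (compl '' s) = compl '' (h '' s) := by
  rw [Set.image_image, Set.image_image]
  exact Set.image_congr fun x _ => map_compl' h x

lemma isMHom_of {m : Cardinal.{0}} (h : BoundedLatticeHom A B)
    (H : ∀ (s : Set A), #s ≤ m → ∀ a, IsLUB s a → IsLUB (h '' s) (h a)) : IsMHom m h := by
  intro s hs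
  refine ⟨H s hs, fun a ha => ?_⟩
  rw [isGLB_iff_compl] at ha ⊢
  rw [← image_compl, ← map_compl']
  exact H _ (card_compl hs) _ ha

/-- the `m`-subalgebra generated by `S` -/
inductive Gen (m : Cardinal.{0}) (S : Set R) : R → Prop
  | base {x} : x ∈ S → Gen m S x
  | compl {x} : Gen m S x → Gen m S xᶜ
  | sup {s : Set R} {b} : #s ≤ m → (∀ x ∈ s, Gen m S x) → IsLUB s b → Gen m S b

lemma Gen.pair {m : Cardinal.{0}} (hm : ℵ₀ ≤ m) {S : Set R} {x y : R} (hx : Gen m S x)
    (hy : Gen m S y) : Gen m S (x ⊔ y) := by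
  refine Gen.sup (s := {x, y}) ?_ ?_ isLUB_pair
  · exact (Set.Finite.lt_aleph0 (Set.toFinite _)).le.trans hm
  · rintro z (rfl | rfl)
    · exact hx
    · exact hy

/-- the `m`-subalgebra generated by `S` -/
def clo (m : Cardinal.{0}) (hm : ℵ₀ ≤ m) (S : Set R) : BooleanSubalgebra R where
  carrier := {x | Gen m S x}
  supClosed' := by
    intro x hx y hy
    exact Gen.pair hm hx hy
  infClosed' := by
    intro x hx y hy
    have h : x ⊓ y = (xᶜ ⊔ yᶜ)ᶜ := by rw [compl_sup, compl_compl, compl_compl]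
    change Gen m S (x ⊓ y)
    rw [h]
    exact Gen.compl (Gen.pair hm (Gen.compl hx) (Gen.compl hy))
  compl_mem' := by
    intro x hx
    exact Gen.compl hx
  bot_mem' := by
    refine Gen.sup (s := ∅) ?_ ?_ isLUB_empty
    · rw [mk_eq_zero]; exact zero_le
    · intro x hx
      exact absurd hx (Set.notMem_empty x)

variable {m : Cardinal.{0}} {hm : ℵ₀ ≤ m} {S : Set R}

lemma isLUB_of_coe {L : BooleanSubalgebra R} {s : Set L} {b : L}
    (h : IsLUB ((↑) '' s : Set R) (b : R)) : IsLUB s b := by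
  refine ⟨fun x hx => h.1 ⟨x, hx, rfl⟩, fun u hu => h.2 ?_⟩
  rintro _ ⟨x, hx, rfl⟩
  exact hu hx

lemma coe_isLUB (hR : ∀ s : Set R, ∃ b, IsLUB s b) {s : Set (clo m hm S)} (hs : #s ≤ m) :
    ∃ b : clo m hm S, IsLUB ((↑) '' s : Set R) (b : R) := by
  obtain ⟨b, hb⟩ := hR ((↑) '' s)
  refine ⟨⟨b, ?_⟩, hb⟩
  refine Gen.sup (mk_image_le.trans hs) ?_ hb
  rintro _ ⟨x, _, rfl⟩
  exact x.2

lemma isLUB_coe (hR : ∀ s : Set R, ∃ b, IsLUB s b) {s : Set (clo m hm S)} (hs : #s ≤ m)
    {b : clo m hm S} (hb : IsLUB s b) : IsLUB ((↑) '' s : Set R) (b : R) := by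
  obtain ⟨b', hb'⟩ := coe_isLUB hR hs
  rw [hb.unique (isLUB_of_coe hb')]
  exact hb'

variable {T : Type} {F : T → Type} [∀ t, BooleanAlgebra (F t)]

/-- the images of the maps -/
def img (i : ∀ t, BoundedLatticeHom (F t) R) : Set R := {x | ∃ t a, x = i t a}

/-- the maps into the generated subalgebra -/
def cod (m : Cardinal.{0}) (hm : ℵ₀ ≤ m) (i : ∀ t, BoundedLatticeHom (F t) R) (t : T) :
    BoundedLatticeHom (F t) (clo m hm (img i)) where
  toFun a := ⟨i t a, Gen.base ⟨t, a, rfl⟩⟩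
  map_sup' a b := Subtype.ext (map_sup (i t) a b)
  map_inf' a b := Subtype.ext (map_inf (i t) a b)
  map_top' := Subtype.ext (map_top (i t))
  map_bot' := Subtype.ext (map_bot (i t))

lemma coe_inf (i : ∀ t, BoundedLatticeHom (F t) R) (T' : Finset T) (a : ∀ t, F t) :
    ((T'.inf (fun t => cod m hm i t (a t)) : clo m hm (img i)) : R) =
      T'.inf (fun t => i t (a t)) := by
  classical
  induction T' using Finset.induction_on with
  | empty => rfl
  | insert t T' ht ih => rw [Finset.inf_insert, Finset.inf_insert, ← ih]; rfl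

theorem isProduct_cod (hR : ∀ s : Set R, ∃ b, IsLUB s b) (i : ∀ t, BoundedLatticeHom (F t) R)
    (hi : ∀ t (s : Set (F t)) a, IsLUB s a → IsLUB (i t '' s) (i t a))
    (inj : ∀ t, Function.Injective (i t))
    (indep : ∀ (T' : Finset T) (a : ∀ t, F t), (∀ t ∈ T', a t ≠ ⊥) →
      T'.inf (fun t => i t (a t)) ≠ ⊥) : IsProduct m (cod m hm i) where
  alg := isMAlgebra_of fun s hs => by
    obtain ⟨b, hb⟩ := coe_isLUB hR hs
    exact ⟨b, isLUB_of_coe hb⟩
  hom t := isMHom_of _ fun s _ a ha => by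
    apply isLUB_of_coe
    have h := hi t s a ha
    rw [Set.image_image]
    exact h
  inj t a b hab := inj t (congrArg Subtype.val hab)
  indep T' a ha h := by
    apply indep T' a ha
    rw [← coe_inf (m := m) (hm := hm), h]
    rfl
  gen S' h1 h2 h3 := by
    rintro ⟨b, hb⟩
    have key : ∀ b : R, Gen m (img i) b → ∀ hb : b ∈ clo m hm (img i), (⟨b, hb⟩ : clo m hm (img i)) ∈ S' := by
      intro b hb
      induction hb with
      | base hx =>
        obtain ⟨t, a, rfl⟩ := hx
        intro _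
        exact h1 t a
      | @compl x hx ih => 
        intro _
        exact h2 _ (ih hx)
      | @sup s b hs hx hb ih =>
        intro hb'
        refine h3 (Subtype.val ⁻¹' s : Set (clo m hm (img i)))
          (fun x hx' => ih x.1 hx' x.2) ?_ ⟨b, hb'⟩ ?_
        · exact (mk_preimage_of_injective _ _ Subtype.val_injective).trans hs
        · apply isLUB_of_coe
          have : (Subtype.val '' (Subtype.val ⁻¹' s : Set (clo m hm (img i))) : Set R) = s := by
            ext y
            constructor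
            · rintro ⟨z, hz, rfl⟩
              exact hz
            · intro hy
              exact ⟨⟨y, hx y hy⟩, hy, rfl⟩
          rw [this]
          exact hb
    exact key b hb hb

end general

end Pool.Agent.R689.BProd
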