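import Pool.Agent.R689.BProd

/-!
Two products of two copies of the countable atomless Boolean algebra.
-/

set_option autoImplicit false

namespace Pool.Agent.R689.BProd

open Cardinal TopologicalSpace Heyting

section abstract_

variable {A B R : Type} [BooleanAlgebra A] [BooleanAlgebra B] [BooleanAlgebra R]

lemma lub1 (h : BoundedLatticeHom A R) (inj : ∀ c, h c = ⊥ → c = ⊥)
    (dense : ∀ r, r ≠ ⊥ → ∃ c, c ≠ ⊥ ∧ h c ≤ r) (s : Set A) (a : A) (ha : IsLUB s a) :
    IsLUB (h '' s) (h a) := by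
  have mono : Monotone h := OrderHomClass.mono h
  refine ⟨?_, ?_⟩
  · rintro _ ⟨x, hx, rfl⟩
    exact mono (ha.1 hx)
  · intro u hu
    by_contra hcon
    have h1 : h a ⊓ uᶜ ≠ ⊥ := fun h2 => hcon (by
      rw [← sdiff_eq, sdiff_eq_bot_iff] at h2
      exact h2)
    obtain ⟨c, hc, hcr⟩ := dense _ h1
    have h3 : a ≤ cᶜ := by
      apply ha.2
      intro x hx
      rw [le_compl_iff_disjoint_right, disjoint_iff]
      apply inj
      rw [map_inf, ← le_bot_iff]
      calc h x ⊓ h c ≤ u ⊓ uᶜ := inf_le_inf (hu ⟨x, hx, rfl⟩) (hcr.trans inf_le_right)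
        _ = ⊥ := inf_compl_eq_bot
        _ ≤ ⊥ := le_rfl
    apply hc
    apply inj
    have h4 : h c ≤ (h c)ᶜ := (hcr.trans inf_le_left).trans ((mono h3).trans (map_compl' h c).le)
    have h5 : h c ≤ h c ⊓ (h c)ᶜ := le_inf le_rfl h4
    rwa [inf_compl_eq_bot, le_bot_iff] at h5

lemma lub2 (h k : BoundedLatticeHom A R) (inj : ∀ c d, c ≠ ⊥ → d ≠ ⊥ → h c ⊓ k d ≠ ⊥)
    (dense : ∀ r, r ≠ ⊥ → ∃ c d, h c ⊓ k d ≠ ⊥ ∧ h c ⊓ k d ≤ r) (s : Set A) (a : A)
    (ha : IsLUB s a) : IsLUB (h '' s) (h a) := by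
  have mono : Monotone h := OrderHomClass.mono h
  refine ⟨?_, ?_⟩
  · rintro _ ⟨x, hx, rfl⟩
    exact mono (ha.1 hx)
  · intro u hu
    by_contra hcon
    have h1 : h a ⊓ uᶜ ≠ ⊥ := fun h2 => hcon (by
      rw [← sdiff_eq, sdiff_eq_bot_iff] at h2
      exact h2)
    obtain ⟨c, d, hc, hcr⟩ := dense _ h1
    have hd : d ≠ ⊥ := by
      rintro rfl
      exact hc (by rw [map_bot, inf_bot_eq])
    have h3 : a ≤ cᶜ := by
      apply ha.2
      intro x hx
      rw [le_compl_iff_disjoint_right, disjoint_iff]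
      by_contra hne
      apply inj _ _ hne hd
      rw [map_inf, ← le_bot_iff]
      calc h x ⊓ h c ⊓ k d = h x ⊓ (h c ⊓ k d) := inf_assoc _ _ _
        _ ≤ u ⊓ uᶜ := inf_le_inf (hu ⟨x, hx, rfl⟩) (hcr.trans inf_le_right)
        _ = ⊥ := inf_compl_eq_bot
        _ ≤ ⊥ := le_rfl
    apply hc
    have h4 : h c ⊓ k d ≤ (h c)ᶜ :=
      (hcr.trans inf_le_left).trans ((mono h3).trans (map_compl' h c).le)
    have h5 : h c ⊓ k d ≤ h c ⊓ (h c)ᶜ := le_inf inf_le_left h4
    rwa [inf_compl_eq_bot, le_bot_iff] at h5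

lemma inj_of_ker (h : BoundedLatticeHom A R) (inj : ∀ c, h c = ⊥ → c = ⊥) :
    Function.Injective h := by
  have key : ∀ a b, h a = h b → a ≤ b := by
    intro a b hab
    have h1 : h (a ⊓ bᶜ) = ⊥ := by rw [map_inf, map_compl', hab, inf_compl_eq_bot]
    have h2 := inj _ h1
    rw [← sdiff_eq, sdiff_eq_bot_iff] at h2
    exact h2
  intro a b hab
  exact le_antisymm (key a b hab) (key b a hab.symm)

lemma indep_of_pair [Nontrivial A] (i : Bool → BoundedLatticeHom A R)
    (hi : ∀ c d, c ≠ ⊥ → d ≠ ⊥ → i false c ⊓ i true d ≠ ⊥) (T' : Finset Bool) (a : Bool → A)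
    (ha : ∀ t ∈ T', a t ≠ ⊥) : T'.inf (fun t => i t (a t)) ≠ ⊥ := by
  classical
  set a' : Bool → A := fun t => if t ∈ T' then a t else ⊤ with ha'
  have h1 : ∀ t, a' t ≠ ⊥ := by
    intro t
    rw [ha']
    by_cases ht : t ∈ T'
    · simp only [ht, if_true]; exact ha t ht
    · simp only [ht, if_false]; exact top_ne_bot
  have h2 : i false (a' false) ⊓ i true (a' true) ≤ T'.inf (fun t => i t (a t)) := by
    apply Finset.le_inf
    intro t ht
    have h3 : a' t = a t := if_pos ht
    cases t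
    · rw [h3]; exact inf_le_left
    · rw [h3]; exact inf_le_right
  intro h
  rw [h, le_bot_iff] at h2
  exact hi _ _ (h1 false) (h1 true) h2

end abstract_

/-- the Cantor space -/
abbrev X : Type := ℕ → Bool

/-- the countable atomless Boolean algebra -/
abbrev A : Type := Clopens X

section topological

variable {Y : Type} [TopologicalSpace Y]

/-- the preimage of a clopen set as an open set -/
def op (f : C(Y, X)) (a : A) : Opens Y := ⟨f ⁻¹' a, a.isOpen.preimage f.continuous⟩

lemma op_compl (f : C(Y, X)) (a : A) : (op f a)ᶜ = op f aᶜ := by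
  apply IsCompl.compl_eq
  constructor
  · rw [disjoint_iff]
    apply Opens.ext
    exact Set.inter_compl_self (f ⁻¹' (a : Set X))
  · rw [codisjoint_iff]
    apply Opens.ext
    exact Set.union_compl_self (f ⁻¹' (a : Set X))

lemma op_regular (f : C(Y, X)) (a : A) : IsRegular (op f a) := by
  change (op f a)ᶜᶜ = op f a
  rw [op_compl, op_compl, compl_compl]

/-- the preimage of a clopen set as a regular open set -/
def emb (f : C(Y, X)) : BoundedLatticeHom A (Regular (Opens Y)) where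
  toFun a := ⟨op f a, op_regular f a⟩
  map_sup' a b := by
    apply Regular.coe_injective
    change op f (a ⊔ b) = (op f a ⊔ op f b)ᶜᶜ
    have : op f a ⊔ op f b = op f (a ⊔ b) := rfl
    rw [this]
    exact (op_regular f (a ⊔ b)).symm
  map_inf' a b := rfl
  map_top' := rfl
  map_bot' := rfl

lemma regular_lub (s : Set (Regular (Opens Y))) : ∃ b, IsLUB s b := by
  refine ⟨Regular.toRegular (sSup (Regular.val '' s)), ?_, ?_⟩
  · intro x hx
    rw [← Regular.coe_le_coe, Regular.coe_toRegular]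
    exact (le_sSup (Set.mem_image_of_mem Regular.val hx)).trans le_compl_compl
  · intro u hu
    apply (Regular.gi.gc _ _).2
    apply sSup_le
    rintro _ ⟨x, hx, rfl⟩
    exact hu hx

lemma emb_le {f : C(Y, X)} {a : A} {r : Regular (Opens Y)} (h : ∀ y, f y ∈ a → y ∈ (r : Opens Y)) :
    emb f a ≤ r := by
  rw [← Regular.coe_le_coe]
  exact h

lemma ne_bot_of_mem {r : Regular (Opens Y)} {y : Y} (h : y ∈ (r : Opens Y)) : r ≠ ⊥ := by
  rintro rfl
  exact h

lemma exists_mem {r : Regular (Opens Y)} (h : r ≠ ⊥) : ∃ y, y ∈ (r : Opens Y) := by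
  by_contra hcon
  apply h
  apply Regular.coe_injective
  rw [Regular.coe_bot]
  apply Opens.ext
  rw [Opens.coe_bot, Set.eq_empty_iff_forall_notMem]
  intro y hy
  exact hcon ⟨y, hy⟩

end topological

/-- flipping the coordinates in the finite set `g` -/
def tr (g : Finset ℕ) : C(X, X) where
  toFun x k := if k ∈ g then !(x k) else x k
  continuous_toFun := by
    apply continuous_pi
    intro k
    by_cases hk : k ∈ g
    · simp only [hk, if_true]
      exact (continuous_of_discreteTopology (f := fun b : Bool => !b)).comp (continuous_apply k)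
    · simp only [hk, if_false]
      exact continuous_apply k

lemma tr_apply (g : Finset ℕ) (x : X) (k : ℕ) : tr g x k = if k ∈ g then !(x k) else x k := rfl

lemma tr_tr (g : Finset ℕ) (x : X) : tr g (tr g x) = x := by
  funext k
  rw [tr_apply, tr_apply]
  by_cases hk : k ∈ g <;> simp [hk]

/-- the coordinate maps of the first product -/
def ph (b : Bool) (g : Finset ℕ) : C(X, X) := if b then tr g else ContinuousMap.id X

lemma ph_ph (b : Bool) (g : Finset ℕ) (x : X) : ph b g (ph b g x) = x := by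
  cases b
  · rfl
  · exact tr_tr g x

lemma exists_mem_A {a : A} (h : a ≠ ⊥) : ∃ x, x ∈ a := by
  by_contra hcon
  apply h
  apply Clopens.ext
  rw [Clopens.coe_bot, Set.eq_empty_iff_forall_notMem]
  intro y hy
  exact hcon ⟨y, hy⟩

lemma ne_bot_A {a : A} {x : X} (h : x ∈ a) : a ≠ ⊥ := by
  rintro rfl
  exact h

lemma exists_finset {a : A} {x : X} (h : x ∈ a) :
    ∃ F : Finset ℕ, ∀ z : X, (∀ k ∈ F, z k = x k) → z ∈ a := by
  obtain ⟨F, u, hu, hF⟩ := isOpen_pi_iff.1 a.isOpen x h
  refine ⟨F, fun z hz => hF ?_⟩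
  intro k hk
  rw [hz k hk]
  exact (hu k hk).2

lemma exists_clopen {U : Set X} (hU : IsOpen U) {x : X} (hx : x ∈ U) :
    ∃ c : A, x ∈ c ∧ ∀ z ∈ c, z ∈ U := by
  obtain ⟨V, hV, hxV, hVU⟩ := compact_exists_isClopen_in_isOpen hU hx
  exact ⟨⟨V, hV⟩, hxV, fun z hz => hVU hz⟩

instance : Nontrivial A := ⟨⟨⊥, ⊤, (ne_bot_A (x := fun _ => false) (a := ⊤) trivial).symm⟩⟩

/-- the clopen set of all `x` with `x k = true` -/
def cy (k : ℕ) : A := ⟨{x | x k = true}, (isClopen_discrete {true}).preimage (continuous_apply k)⟩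

lemma mem_cy {k : ℕ} {x : X} : x ∈ cy k ↔ x k = true := Iff.rfl

lemma exists_split {a c : A} (ha : a ≠ ⊥) (hc : c ≠ ⊥) :
    ∃ k, a ⊓ cy k ≠ ⊥ ∧ c ⊓ cy k ≠ ⊥ ∧ c ⊓ (cy k)ᶜ ≠ ⊥ := by
  obtain ⟨x, hx⟩ := exists_mem_A ha
  obtain ⟨y, hy⟩ := exists_mem_A hc
  obtain ⟨F, hF⟩ := exists_finset hx
  obtain ⟨G, hG⟩ := exists_finset hy
  obtain ⟨k, hk⟩ := Infinite.exists_notMem_finset (F ∪ G)
  rw [Finset.mem_union, not_or] at hk
  refine ⟨k, ?_, ?_, ?_⟩
  · apply ne_bot_A (x := Function.update x k true)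
    refine ⟨hF _ fun l hl => ?_, ?_⟩
    · exact Function.update_of_ne (by rintro rfl; exact hk.1 hl) _ _
    · exact Function.update_self _ _ _
  · apply ne_bot_A (x := Function.update y k true)
    refine ⟨hG _ fun l hl => ?_, ?_⟩
    · exact Function.update_of_ne (by rintro rfl; exact hk.2 hl) _ _
    · exact Function.update_self _ _ _
  · apply ne_bot_A (x := Function.update y k false)
    refine ⟨hG _ fun l hl => ?_, ?_⟩
    · exact Function.update_of_ne (by rintro rfl; exact hk.2 hl) _ _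
    · change ¬ (Function.update y k false k = true)
      rw [Function.update_self]
      exact Bool.false_ne_true

/-! ### The first product -/

/-- the big complete Boolean algebra -/
abbrev CC : Type := Finset ℕ → Regular (Opens X)

/-- the two maps of the first product -/
def ii (b : Bool) : BoundedLatticeHom A CC where
  toFun a g := emb (ph b g) a
  map_sup' a c := funext fun g => (emb (ph b g)).map_sup' a c
  map_inf' a c := funext fun g => (emb (ph b g)).map_inf' a c
  map_top' := funext fun g => (emb (ph b g)).map_top'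
  map_bot' := funext fun g => (emb (ph b g)).map_bot'

lemma cc_lub (s : Set CC) : ∃ b, IsLUB s b := by
  choose b hb using fun g => regular_lub (Function.eval g '' s)
  exact ⟨b, isLUB_pi.2 hb⟩

lemma emb_eq_bot (b : Bool) (g : Finset ℕ) (c : A) (h : emb (ph b g) c = ⊥) : c = ⊥ := by
  by_contra hc
  obtain ⟨x, hx⟩ := exists_mem_A hc
  refine ne_bot_of_mem (r := emb (ph b g) c) (y := ph b g x) ?_ h
  change ph b g (ph b g x) ∈ c
  rwa [ph_ph]

lemma emb_dense (b : Bool) (g : Finset ℕ) (r : Regular (Opens X)) (hr : r ≠ ⊥) :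
    ∃ c, c ≠ ⊥ ∧ emb (ph b g) c ≤ r := by
  obtain ⟨y, hy⟩ := exists_mem hr
  have hU : IsOpen (ph b g ⁻¹' ((r : Opens X) : Set X)) :=
    (r : Opens X).isOpen.preimage (ph b g).continuous
  obtain ⟨c, hc, hc'⟩ := exists_clopen hU (x := ph b g y) (by
    change ph b g (ph b g y) ∈ (r : Opens X)
    rwa [ph_ph])
  refine ⟨c, ne_bot_A hc, emb_le fun z hz => ?_⟩
  have := hc' _ hz
  change ph b g (ph b g z) ∈ (r : Opens X) at this
  rwa [ph_ph] at this

lemma ii_lub (b : Bool) (s : Set A) (a : A) (ha : IsLUB s a) : IsLUB (ii b '' s) (ii b a) := by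
  rw [isLUB_pi]
  intro g
  rw [Set.image_image]
  exact lub1 (emb (ph b g)) (emb_eq_bot b g) (emb_dense b g) s a ha

lemma ii_inj (b : Bool) : Function.Injective (ii b) := by
  apply inj_of_ker
  intro c hc
  exact emb_eq_bot b ∅ c (congrFun hc ∅)

lemma ii_pair (c d : A) (hc : c ≠ ⊥) (hd : d ≠ ⊥) : ii false c ⊓ ii true d ≠ ⊥ := by
  intro h
  obtain ⟨x, hx⟩ := exists_mem_A hc
  obtain ⟨y, hy⟩ := exists_mem_A hd
  obtain ⟨F, hF⟩ := exists_finset hx
  classical
  set g : Finset ℕ := F.filter fun k => x k ≠ y k with hg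
  set z : X := fun k => if k ∈ F then x k else y k with hz
  have h1 : z ∈ c := hF z fun k hk => if_pos hk
  have h2 : tr g z = y := by
    funext k
    rw [tr_apply, hg, hz]
    by_cases hk : k ∈ F
    · by_cases hk' : x k = y k
      · simp [hk, hk']
      · simp only [Finset.mem_filter, hk, true_and, ne_eq, hk', not_false_eq_true, if_true]
        revert hk'
        cases x k <;> cases y k <;> simp
    · simp [hk]
  have h3 : (ii false c ⊓ ii true d) g ≠ ⊥ := by
    apply ne_bot_of_mem (y := z)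
    refine ⟨h1, ?_⟩
    change tr g z ∈ d
    rwa [h2]
  exact h3 (congrFun h g)

end Pool.Agent.R689.BProd
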