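import Pool.Agent.R689.BProd2

/-!
The minimal product is not below the first product.
-/

set_option autoImplicit false

namespace Pool.Agent.R689.BProd

open Cardinal TopologicalSpace Heyting

/-! ### The minimal product -/

/-- the projections of `X × X` -/
def pr (b : Bool) : C(X × X, X) := if b then ⟨Prod.snd, continuous_snd⟩ else ⟨Prod.fst, continuous_fst⟩

/-- the two maps of the minimal product -/
def jj (b : Bool) : BoundedLatticeHom A (Regular (Opens (X × X))) := emb (pr b)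

lemma jj_pair (c d : A) (hc : c ≠ ⊥) (hd : d ≠ ⊥) : jj false c ⊓ jj true d ≠ ⊥ := by
  obtain ⟨x, hx⟩ := exists_mem_A hc
  obtain ⟨y, hy⟩ := exists_mem_A hd
  exact ne_bot_of_mem (y := (x, y)) ⟨hx, hy⟩

lemma jj_dense (r : Regular (Opens (X × X))) (hr : r ≠ ⊥) :
    ∃ c d, jj false c ⊓ jj true d ≠ ⊥ ∧ jj false c ⊓ jj true d ≤ r := by
  obtain ⟨⟨x, y⟩, hxy⟩ := exists_mem hr
  obtain ⟨u, v, hu, hv, hxu, hyv, huv⟩ := isOpen_prod_iff.1 (r : Opens (X × X)).isOpen x y hxy
  obtain ⟨c, hc, hc'⟩ := exists_clopen hu hxu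
  obtain ⟨d, hd, hd'⟩ := exists_clopen hv hyv
  refine ⟨c, d, jj_pair c d (ne_bot_A hc) (ne_bot_A hd), ?_⟩
  rw [← Regular.coe_le_coe]
  rintro ⟨z, w⟩ ⟨hz, hw⟩
  exact huv ⟨hc' z hz, hd' w hw⟩

lemma jj_lub (b : Bool) (s : Set A) (a : A) (ha : IsLUB s a) : IsLUB (jj b '' s) (jj b a) := by
  cases b
  · exact lub2 (jj false) (jj true) jj_pair jj_dense s a ha
  · refine lub2 (jj true) (jj false) ?_ ?_ s a ha
    · intro c d hc hd
      rw [inf_comm]
      exact jj_pair d c hd hc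
    · intro r hr
      obtain ⟨c, d, h1, h2⟩ := jj_dense r hr
      refine ⟨d, c, ?_, ?_⟩
      · rwa [inf_comm]
      · rwa [inf_comm]

lemma jj_inj (b : Bool) : Function.Injective (jj b) := by
  apply inj_of_ker
  intro c hc
  by_contra hne
  cases b
  · exact jj_pair c ⊤ hne top_ne_bot (by rw [hc]; exact bot_inf_eq _)
  · exact jj_pair ⊤ c top_ne_bot hne (by rw [hc]; exact inf_bot_eq _)

variable (m : Cardinal.{0}) (hm : ℵ₀ ≤ m)

/-- the algebra of the minimal product -/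
abbrev MM : Type := clo m hm (img (F := fun _ : Bool => A) jj)

/-- the algebra of the other product -/
abbrev BB : Type := clo m hm (img (F := fun _ : Bool => A) ii)

theorem isProduct_M : IsProduct m (cod (F := fun _ : Bool => A) m hm jj) :=
  isProduct_cod regular_lub jj jj_lub jj_inj (indep_of_pair jj jj_pair)

theorem isProduct_B : IsProduct m (cod (F := fun _ : Bool => A) m hm ii) :=
  isProduct_cod cc_lub ii ii_lub ii_inj (indep_of_pair ii ii_pair)

lemma pairDense_M (b : MM m hm) (hb : b ≠ ⊥) : ∃ c d : A,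
    cod (F := fun _ : Bool => A) m hm jj false c ⊓ cod (F := fun _ : Bool => A) m hm jj true d ≠ ⊥ ∧
    cod (F := fun _ : Bool => A) m hm jj false c ⊓
      cod (F := fun _ : Bool => A) m hm jj true d ≤ b := by
  have hb' : (b : Regular (Opens (X × X))) ≠ ⊥ := fun h => hb (Subtype.ext h)
  obtain ⟨c, d, h1, h2⟩ := jj_dense _ hb'
  exact ⟨c, d, fun h => h1 (congrArg Subtype.val h), h2⟩

theorem isMinimal_M : IsMinimal (cod (F := fun _ : Bool => A) m hm jj) := by
  intro b hb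
  obtain ⟨c, d, h1, h2⟩ := pairDense_M m hm b hb
  refine ⟨{false, true}, fun t => if t then d else c, ?_⟩
  rw [Finset.inf_insert, Finset.inf_singleton]
  exact ⟨h1, h2⟩

/-! ### The main argument -/

section core

variable {m : Cardinal.{0}} {hm : ℵ₀ ≤ m} {M : Type} [BooleanAlgebra M]

/-- the second coordinate set -/
def dd (g : Finset ℕ) (k : ℕ) : A := if k ∈ g then (cy k)ᶜ else cy k

/-- `x k = y k` or `x k ≠ y k` -/
def vv {R : Type} [BooleanAlgebra R] (i : Bool → BoundedLatticeHom A R) (g : Finset ℕ) (k : ℕ) : R :=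
  (i false (cy k) ⊓ i true (dd g k)) ⊔ (i false (cy k)ᶜ ⊓ i true (dd g k)ᶜ)

lemma tr_dd (g : Finset ℕ) (k : ℕ) (x : X) : tr g x ∈ dd g k ↔ x ∈ cy k := by
  rw [dd]
  by_cases hk : k ∈ g
  · rw [if_pos hk]
    change ¬ (tr g x k = true) ↔ x k = true
    rw [tr_apply, if_pos hk]
    cases x k <;> simp
  · rw [if_neg hk]
    change tr g x k = true ↔ x k = true
    rw [tr_apply, if_neg hk]

lemma vtop {R : Type} [BooleanAlgebra R] (e : R) : (e ⊓ e) ⊔ (eᶜ ⊓ eᶜ) = ⊤ := by
  rw [inf_idem, inf_idem, sup_compl_eq_top]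

lemma vv_ii (g : Finset ℕ) (k : ℕ) : vv ii g k g = ⊤ := by
  have h1 : ∀ a : A, ii true a g = emb (tr g) a := fun a => rfl
  have h2 : emb (tr g) (dd g k) = emb (ph false g) (cy k) := by
    apply Regular.coe_injective
    apply Opens.ext
    ext x
    exact tr_dd g k x
  change (emb (ph false g) (cy k) ⊓ emb (tr g) (dd g k)) ⊔
    (emb (ph false g) (cy k)ᶜ ⊓ emb (tr g) (dd g k)ᶜ) = ⊤
  rw [map_compl', map_compl', h2]
  exact vtop _

lemma vv_cod (g : Finset ℕ) (k : ℕ) :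
    ((vv (cod (F := fun _ : Bool => A) m hm ii) g k : BB m hm) : CC) = vv ii g k := rfl

theorem core (j : Bool → BoundedLatticeHom A M)
    (pd : ∀ b, b ≠ ⊥ → ∃ c d : A, j false c ⊓ j true d ≠ ⊥ ∧ j false c ⊓ j true d ≤ b)
    (pi : ∀ c d, c ≠ ⊥ → d ≠ ⊥ → j false c ⊓ j true d ≠ ⊥)
    (h : BoundedLatticeHom (BB m hm) M) (hh : IsMHom m h)
    (hj : ∀ t a, j t a = h (cod (F := fun _ : Bool => A) m hm ii t a)) : False := by
  -- the meets
  have hle : ∀ {ι : Type} [Countable ι] (f : ι → BB m hm), #(Set.range f) ≤ m := by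
    intro ι _ f
    exact (mk_range_le.trans (mk_le_aleph0 (α := ι))).trans hm
  choose w hw using fun g : Finset ℕ =>
    ((isProduct_B m hm).alg (Set.range (vv (cod (F := fun _ : Bool => A) m hm ii) g)) (hle _)).2
  -- the join of the meets is `⊤`
  have htop : IsLUB (Set.range w) (⊤ : BB m hm) := by
    refine ⟨fun _ _ => le_top, ?_⟩
    intro u hu
    have h1 : (u : CC) = ⊤ := by
      funext g
      have h2 : IsLUB (compl '' Set.range (vv (cod (F := fun _ : Bool => A) m hm ii) g)) (w g)ᶜ :=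
        isGLB_iff_compl.1 (hw g)
      have h3 := isLUB_coe (m := m) (hm := hm) cc_lub (card_compl (hle _)) h2
      have h4 := (isLUB_pi.1 h3) g
      have h5 : (((w g)ᶜ : BB m hm) : CC) g ≤ ⊥ := by
        apply h4.2
        rintro _ ⟨_, ⟨_, ⟨_, ⟨k, rfl⟩, rfl⟩, rfl⟩, rfl⟩
        change (vv ii g k g)ᶜ ≤ ⊥
        rw [vv_ii, compl_top]
      have h6 : ((w g : CC) g)ᶜ ≤ ⊥ := h5
      rw [le_bot_iff, compl_eq_bot] at h6
      have h7 : (w g : CC) g ≤ (u : CC) g := hu ⟨g, rfl⟩ g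
      rw [h6, top_le_iff] at h7
      exact h7
    exact (Subtype.ext h1 : u = ⊤).ge
  -- the images of the meets are `⊥`
  have hbot : ∀ g, h (w g) = ⊥ := by
    intro g
    by_contra hne
    obtain ⟨c, d, h1, h2⟩ := pd _ hne
    have hc : c ≠ ⊥ := by
      rintro rfl
      exact h1 (by rw [map_bot, bot_inf_eq])
    have hd : d ≠ ⊥ := by
      rintro rfl
      exact h1 (by rw [map_bot, inf_bot_eq])
    obtain ⟨k, hk1, hk2, hk3⟩ := exists_split hc hd
    have hk4 : d ⊓ (dd g k)ᶜ ≠ ⊥ := by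
      rw [dd]
      by_cases hk : k ∈ g
      · rw [if_pos hk, compl_compl]; exact hk2
      · rw [if_neg hk]; exact hk3
    apply pi _ _ hk1 hk4
    have h3 : h (w g) ≤ vv j g k := by
      have h4 : w g ≤ vv (cod (F := fun _ : Bool => A) m hm ii) g k := (hw g).1 ⟨k, rfl⟩
      have h5 := (OrderHomClass.mono h) h4
      have h6 : h (vv (cod (F := fun _ : Bool => A) m hm ii) g k) = vv j g k := by
        rw [vv, vv, map_sup, map_inf, map_inf, ← hj, ← hj, ← hj, ← hj]
      rwa [h6] at h5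
    have mono : ∀ t, Monotone (j t) := fun t => OrderHomClass.mono (j t)
    have h7 : j false (c ⊓ cy k) ⊓ j true (d ⊓ (dd g k)ᶜ) ≤ vv j g k :=
      (inf_le_inf (mono _ inf_le_left) (mono _ inf_le_left)).trans (h2.trans h3)
    have h8 : j false (c ⊓ cy k) ⊓ j true (d ⊓ (dd g k)ᶜ) ≤
        j false (cy k) ⊓ (j true (dd g k))ᶜ := by
      rw [← map_compl']
      exact inf_le_inf (mono _ inf_le_right) (mono _ inf_le_right)
    have h9 := le_inf h8 h7
    rw [vv, map_compl', map_compl', inf_sup_left] at h9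
    have h10 : j false (cy k) ⊓ (j true (dd g k))ᶜ ⊓ (j false (cy k) ⊓ j true (dd g k)) = ⊥ := by
      rw [← le_bot_iff]
      calc _ ≤ (j true (dd g k))ᶜ ⊓ j true (dd g k) := inf_le_inf inf_le_right inf_le_right
        _ = ⊥ := compl_inf_eq_bot
        _ ≤ ⊥ := le_rfl
    have h11 : j false (cy k) ⊓ (j true (dd g k))ᶜ ⊓
        ((j false (cy k))ᶜ ⊓ (j true (dd g k))ᶜ) = ⊥ := by
      rw [← le_bot_iff]
      calc _ ≤ j false (cy k) ⊓ (j false (cy k))ᶜ := inf_le_inf inf_le_left inf_le_left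
        _ = ⊥ := inf_compl_eq_bot
        _ ≤ ⊥ := le_rfl
    rw [h10, h11, sup_idem, le_bot_iff] at h9
    exact h9
  have hlub := (hh (Set.range w) (hle _)).1 ⊤ htop
  have h12 : h ⊤ ≤ (⊥ : M) := by
    apply hlub.2
    rintro _ ⟨_, ⟨g, rfl⟩, rfl⟩
    exact (hbot g).le
  rw [map_top, le_bot_iff] at h12
  apply pi ⊤ ⊤ top_ne_bot top_ne_bot
  rw [map_top, map_top, inf_idem, h12]

end core

end Pool.Agent.R689.BProd
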