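import Mathlib

/-!
Tensor square of a square-zero matrix over a commutative ring of characteristic two, together
with the swap: the conjugation lemma and the semicontinuity of the rank.
-/

set_option autoImplicit false

namespace Pool.Agent.R689.Carl

open Matrix

section conj

variable {R : Type*} [CommRing R] {n : Type*} [Fintype n] [DecidableEq n]

/-- the matrix of the swap of `Rⁿ ⊗ Rⁿ` -/
def sw (R : Type*) [CommRing R] (n : Type*) [Fintype n] [DecidableEq n] :
    Matrix (n × n) (n × n) R := (Equiv.prodComm n n).toPEquiv.toMatrix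

lemma sw_mul (M : Matrix (n × n) (n × n) R) : sw R n * M = M.submatrix Prod.swap id := by
  rw [sw, PEquiv.toMatrix_toPEquiv_mul]
  rfl

lemma mul_sw (M : Matrix (n × n) (n × n) R) : M * sw R n = M.submatrix id Prod.swap := by
  rw [sw, PEquiv.mul_toMatrix_toPEquiv]
  rfl

lemma sw_kron (A B : Matrix n n R) : sw R n * (kronecker A B) = (kronecker B A) * sw R n := by
  rw [sw_mul, mul_sw]
  ext ⟨a, b⟩ ⟨c, d⟩
  simp [kroneckerMap_apply, mul_comm]

lemma sw_sw : sw R n * sw R n = 1 := by
  rw [sw_mul, sw]
  ext ⟨a, b⟩ ⟨c, d⟩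
  simp [PEquiv.toMatrix_apply, Matrix.one_apply, Prod.ext_iff]

/-- the differential of the tensor square -/
def T (D : Matrix n n R) : Matrix (n × n) (n × n) R := kronecker D 1 + kronecker 1 D

lemma sw_T (D : Matrix n n R) : sw R n * T D = T D * sw R n := by
  rw [T, mul_add, add_mul, sw_kron, sw_kron, add_comm]

lemma kron_mul (A B C D : Matrix n n R) :
    kronecker A B * kronecker C D = kronecker (A * C) (B * D) :=
  (Matrix.mul_kronecker_mul A C B D).symm

/-- `W = (N ⊗ 1) τ` -/
def W (N : Matrix n n R) : Matrix (n × n) (n × n) R := kronecker N 1 * sw R n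

lemma W_sw (N : Matrix n n R) : W N * sw R n = kronecker N 1 := by
  rw [W, mul_assoc, sw_sw, mul_one]

lemma sw_W (N : Matrix n n R) : sw R n * W N = kronecker 1 N := by
  rw [W, ← mul_assoc, sw_kron, mul_assoc, sw_sw, mul_one]

lemma two_smul_mat (h2 : (2 : R) = 0) {m : Type*} (M : Matrix m m R) : M + M = 0 := by
  ext i j
  have : M i j + M i j = (2 : R) * M i j := by ring
  simp [this, h2]

lemma W_T (h2 : (2 : R) = 0) {A N : Matrix n n R} (h : N * A + A * N = 0) :
    W N * T A + T A * W N = 0 := by
  have e1 : W N * T A = kronecker N 1 * T A * sw R n := by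
    rw [W, mul_assoc, sw_T, ← mul_assoc]
  have e2 : T A * W N = T A * kronecker N 1 * sw R n := by
    rw [W, ← mul_assoc]
  have h4 : kronecker (N * A) (1 : Matrix n n R) + kronecker (A * N) 1 = 0 := by
    have := Matrix.add_kronecker (N * A) (A * N) (1 : Matrix n n R)
    rw [h, Matrix.zero_kronecker] at this
    exact this.symm
  have hs : kronecker N 1 * T A + T A * kronecker N 1 = 0 := by
    calc kronecker N 1 * T A + T A * kronecker N 1
        = (kronecker (N * A) 1 + kronecker (A * N) 1) + (kronecker N A + kronecker N A) := by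
          rw [T, mul_add, add_mul]
          simp only [kron_mul, mul_one, one_mul]
          abel
      _ = 0 := by rw [h4, two_smul_mat h2, add_zero]
  rw [e1, e2, ← add_mul, hs, zero_mul]

lemma comm_aux (h2 : (2 : R) = 0) {A N D : Matrix n n R} {x : R}
    (hD : D = A + x • N) (h : D * N + N * D = 0) : N * A + A * N = 0 := by
  have h5 : D * N + N * D = (N * A + A * N) + x • (N * N + N * N) := by
    rw [hD]
    simp only [add_mul, mul_add, Matrix.smul_mul, Matrix.mul_smul, smul_add]
    abel
  rw [h, two_smul_mat h2, smul_zero, add_zero] at h5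
  exact h5.symm

/-- The conjugation lemma. -/
lemma conj (h2 : (2 : R) = 0) {A N D : Matrix n n R} {x : R} (hx : x * x = 0)
    (hD : D = A + x • N) (h : N * A + A * N = 0) :
    1 + sw R n + T D = (1 + x • W N) * (1 + sw R n + T A) * (1 + x • W N) := by
  have hTD : T D = T A + x • (kronecker N 1 + kronecker 1 N) := by
    simp only [hD, T, kronecker, Matrix.add_kronecker, Matrix.kronecker_add,
      Matrix.smul_kronecker, Matrix.kronecker_smul, smul_add]
    abel
  set S := 1 + sw R n + T A with hS
  have hWS : W N * S + S * W N = kronecker N 1 + kronecker 1 N := by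
    rw [hS, mul_add, mul_add, add_mul, add_mul, W_sw, sw_W, mul_one, one_mul]
    have h3 := W_T h2 h
    calc _ = (W N + W N) + (kronecker N 1 + kronecker 1 N) + (W N * T A + T A * W N) := by abel
      _ = _ := by rw [h3, two_smul_mat h2, zero_add, add_zero]
  have h5 : (1 + x • W N) * S * (1 + x • W N) = S + x • (W N * S + S * W N) := by
    have e : (1 + x • W N) * S * (1 + x • W N)
        = S + x • (W N * S + S * W N) + (x * x) • (W N * S * W N) := by
      simp only [add_mul, mul_add, one_mul, mul_one, Matrix.smul_mul, Matrix.mul_smul, smul_add,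
        smul_smul]
      abel
    rw [e, hx, zero_smul, add_zero]
  rw [h5, hWS, hTD, hS]
  abel

end conj

section semicont

variable {k : Type*} [Field k] {V : Type*} [AddCommGroup V] [Module k V] [FiniteDimensional k V]

/-- the filtration of a submodule -/
def filt (π : ℕ → V →ₗ[k] V) (P : Submodule k V) : ℕ → Submodule k V
  | 0 => P
  | j + 1 => filt π P j ⊓ LinearMap.ker (π j)

lemma mem_filt {π : ℕ → V →ₗ[k] V} {P : Submodule k V} {j : ℕ} {v : V} :
    v ∈ filt π P j ↔ v ∈ P ∧ ∀ i < j, π i v = 0 := by
  induction j with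
  | zero => simp [filt]
  | succ j ih =>
    rw [filt, Submodule.mem_inf, ih, LinearMap.mem_ker, and_assoc]
    constructor
    · rintro ⟨h1, h2, h3⟩
      refine ⟨h1, fun i hi => ?_⟩
      rcases Nat.lt_succ_iff_lt_or_eq.mp hi with h | h
      · exact h2 i h
      · rw [h]; exact h3
    · rintro ⟨h1, h2⟩
      exact ⟨h1, fun i hi => h2 i (by omega), h2 j (by omega)⟩

lemma finrank_split (f : V →ₗ[k] V) (P : Submodule k V) :
    Module.finrank k P = Module.finrank k (P.map f) +
      Module.finrank k (P ⊓ LinearMap.ker f : Submodule k V) := by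
  have h1 := (f.domRestrict P).finrank_range_add_finrank_ker
  rw [LinearMap.range_domRestrict] at h1
  have h2 : LinearMap.ker (f.domRestrict P) = (P ⊓ LinearMap.ker f).comap P.subtype := by
    ext ⟨x, hx⟩
    simp [hx]
  have h3 : Module.finrank k ((P ⊓ LinearMap.ker f).comap P.subtype) =
      Module.finrank k (P ⊓ LinearMap.ker f : Submodule k V) :=
    (Submodule.comapSubtypeEquivOfLe (inf_le_left)).finrank_eq
  rw [h2, h3] at h1
  exact h1.symm

lemma ker_le (π : ℕ → V →ₗ[k] V) (m : ℕ) (T S : V →ₗ[k] V)
    (h0 : ∀ v, (∀ j < m, π j v = 0) → v = 0)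
    (hpp : ∀ j v, π j (π j v) = π j v) (hpq : ∀ i j v, i ≠ j → π i (π j v) = 0)
    (hT : ∀ j v, π j (T v) = T (π (j + 1) v)) (hT0 : ∀ v, T (π 0 v) = 0)
    (hS : ∀ j v, π j (S v) = S (π j v)) :
    Module.finrank k (LinearMap.ker (T + S)) ≤ Module.finrank k (LinearMap.ker T) := by
  have key : ∀ i j, i + j = m → Module.finrank k (filt π (LinearMap.ker (T + S)) j) ≤
      Module.finrank k (filt π (LinearMap.ker T) j) := by
    intro i
    induction i with
    | zero =>
      intro j hj
      have : filt π (LinearMap.ker (T + S)) j = ⊥ := by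
        rw [eq_bot_iff]
        intro v hv
        rw [mem_filt] at hv
        exact h0 v fun i hi => hv.2 i (by omega)
      rw [this, finrank_bot]
      exact Nat.zero_le _
    | succ i ih =>
      intro j hj
      rw [finrank_split (π j) (filt π (LinearMap.ker (T + S)) j),
        finrank_split (π j) (filt π (LinearMap.ker T) j)]
      refine add_le_add ?_ (ih (j + 1) (by omega))
      refine Submodule.finrank_mono ?_
      rintro _ ⟨v, hv, rfl⟩
      rw [SetLike.mem_coe, mem_filt] at hv
      refine ⟨π j v, ?_, hpp j v⟩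
      rw [SetLike.mem_coe, mem_filt]
      refine ⟨?_, fun i hi => hpq i j v (by omega)⟩
      rw [LinearMap.mem_ker]
      rcases Nat.eq_zero_or_pos j with h | h
      · rw [h]; exact hT0 v
      · obtain ⟨l, rfl⟩ : ∃ l, j = l + 1 := ⟨j - 1, by omega⟩
        have h1 : π l ((T + S) v) = 0 := by
          rw [LinearMap.mem_ker.mp hv.1, map_zero]
        rw [LinearMap.add_apply, map_add, hT, hS, hv.2 l (by omega), map_zero, add_zero] at h1
        exact h1
  exact key m 0 (by omega)

lemma range_le (π : ℕ → V →ₗ[k] V) (m : ℕ) (T S : V →ₗ[k] V)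
    (h0 : ∀ v, (∀ j < m, π j v = 0) → v = 0)
    (hpp : ∀ j v, π j (π j v) = π j v) (hpq : ∀ i j v, i ≠ j → π i (π j v) = 0)
    (hT : ∀ j v, π j (T v) = T (π (j + 1) v)) (hT0 : ∀ v, T (π 0 v) = 0)
    (hS : ∀ j v, π j (S v) = S (π j v)) :
    Module.finrank k (LinearMap.range T) ≤ Module.finrank k (LinearMap.range (T + S)) := by
  have h1 := ker_le π m T S h0 hpp hpq hT hT0 hS
  have h2 := T.finrank_range_add_finrank_ker
  have h3 := (T + S).finrank_range_add_finrank_ker
  omega

end semicont

end Pool.Agent.R689.Carl
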