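import Mathlib

/-!
The ring `R = k[x_1, ..., x_d] / (x_1 ^ 2, ..., x_d ^ 2)`, `k` a field of characteristic two:
the endomorphisms `x_j ↦ 0`, the derivations `∂ / ∂ x_j` and the dimension `2 ^ d`.
-/

set_option autoImplicit false

namespace Pool.Agent.R689.Carl

open MvPolynomial

variable {k : Type} [Field k] {d : ℕ}

/-- the ideal of the squares -/
noncomputable def sq (k : Type) [Field k] (d : ℕ) : Ideal (MvPolynomial (Fin d) k) :=
  Ideal.span (Set.range (fun i : Fin d => (X i : MvPolynomial (Fin d) k) ^ 2))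

/-- the ring -/
abbrev Rg (k : Type) [Field k] (d : ℕ) : Type := MvPolynomial (Fin d) k ⧸ sq k d

/-- the variable -/
noncomputable def x (k : Type) [Field k] {d : ℕ} (i : Fin d) : Rg k d :=
  Ideal.Quotient.mk (sq k d) (X i)

lemma x_mul_x (i : Fin d) : x k i * x k i = 0 := by
  rw [x, ← map_mul, ← pow_two]
  exact Ideal.Quotient.eq_zero_iff_mem.mpr (Ideal.subset_span ⟨i, rfl⟩)

/-- lifting property -/
noncomputable def lft {B : Type} [CommRing B] [Algebra k B] (y : Fin d → B)
    (hy : ∀ i, y i ^ 2 = 0) : Rg k d →ₐ[k] B :=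
  Ideal.Quotient.liftₐ (sq k d) (aeval y) (by
    intro a ha
    have : sq k d ≤ RingHom.ker (aeval y : MvPolynomial (Fin d) k →ₐ[k] B) := by
      rw [sq, Ideal.span_le]
      rintro _ ⟨i, rfl⟩
      simp [RingHom.mem_ker, hy]
    exact this ha)

lemma lft_x {B : Type} [CommRing B] [Algebra k B] (y : Fin d → B)
    (hy : ∀ i, y i ^ 2 = 0) (i : Fin d) : lft (k := k) y hy (x k i) = y i := by
  have : lft (k := k) y hy (x k i) = aeval y (X i) := rfl
  rw [this, aeval_X]

/-- two algebra maps agreeing on the variables are equal -/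
lemma hom_ext {B : Type} [CommRing B] [Algebra k B] {f g : Rg k d →ₐ[k] B}
    (h : ∀ i, f (x k i) = g (x k i)) : f = g := by
  apply Ideal.Quotient.algHom_ext
  apply MvPolynomial.algHom_ext
  intro i
  exact h i

/-- `x_j ↦ 0` -/
noncomputable def ev (j : Fin d) : Rg k d →ₐ[k] Rg k d :=
  lft (fun i => if i = j then 0 else x k i) (by
    intro i
    by_cases h : i = j
    · simp [h]
    · simp [h, pow_two, x_mul_x])

lemma ev_x_self (j : Fin d) : ev j (x k j) = 0 := by
  rw [ev, lft_x, if_pos rfl]

lemma ev_x_ne {i j : Fin d} (h : i ≠ j) : ev j (x k i) = x k i := by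
  rw [ev, lft_x, if_neg h]

variable [CharP k 2]

omit [CharP k 2] in
lemma two_eq [CharP k 2] : (2 : Rg k d) = 0 := by
  have h : ((2 : ℕ) : k) = 0 := CharP.cast_eq_zero k 2
  have h2 := congrArg (algebraMap k (Rg k d)) h
  rw [map_natCast, map_zero] at h2
  exact_mod_cast h2

/-- the images of the variables -/
noncomputable def yy (k : Type) [Field k] {d : ℕ} (j i : Fin d) :
    TrivSqZeroExt (Rg k d) (Rg k d) :=
  TrivSqZeroExt.inl (x k i) + (if i = j then TrivSqZeroExt.inr 1 else 0)

lemma yy_fst (j i : Fin d) : (yy k j i).fst = x k i := by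
  rw [yy, TrivSqZeroExt.fst_add, TrivSqZeroExt.fst_inl]
  by_cases h : i = j <;> simp [h]

lemma yy_snd (j i : Fin d) : (yy k j i).snd = if i = j then 1 else 0 := by
  rw [yy, TrivSqZeroExt.snd_add, TrivSqZeroExt.snd_inl]
  by_cases h : i = j <;> simp [h]

/-- the algebra map `r ↦ r + ε ∂_j r` -/
noncomputable def Th (j : Fin d) : Rg k d →ₐ[k] TrivSqZeroExt (Rg k d) (Rg k d) :=
  lft (yy k j) (by
    intro i
    have h2 := two_eq (k := k) (d := d)
    rw [pow_two]
    ext
    · rw [TrivSqZeroExt.fst_mul, yy_fst, x_mul_x, TrivSqZeroExt.fst_zero]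
    · rw [TrivSqZeroExt.snd_mul, yy_fst, yy_snd, TrivSqZeroExt.snd_zero]
      by_cases h : i = j
      · simp only [h, if_true, smul_eq_mul, mul_one, MulOpposite.smul_eq_mul_unop,
          MulOpposite.unop_op, one_mul]
        rw [← two_mul, h2, zero_mul]
      · simp [h])

lemma Th_fst (j : Fin d) (r : Rg k d) : (Th j r).fst = r := by
  have : (TrivSqZeroExt.fstHom k (Rg k d) (Rg k d)).comp (Th j) = AlgHom.id k (Rg k d) := by
    apply hom_ext
    intro i
    rw [AlgHom.comp_apply, Th, lft_x]
    exact yy_fst j i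
  exact congrArg (fun f => f r) this

/-- the derivation `∂_j` -/
noncomputable def dd (j : Fin d) (r : Rg k d) : Rg k d := (Th j r).snd

lemma dd_add (j : Fin d) (r s : Rg k d) : dd j (r + s) = dd j r + dd j s := by
  rw [dd, map_add, TrivSqZeroExt.snd_add]; rfl

lemma dd_zero (j : Fin d) : dd j (0 : Rg k d) = 0 := by
  rw [dd, map_zero, TrivSqZeroExt.snd_zero]

lemma dd_mul (j : Fin d) (r s : Rg k d) : dd j (r * s) = r * dd j s + dd j r * s := by
  rw [dd, map_mul, TrivSqZeroExt.snd_mul, Th_fst, Th_fst]
  simp [dd, mul_comm]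

lemma dd_algebraMap (j : Fin d) (c : k) : dd j (algebraMap k (Rg k d) c) = 0 := by
  rw [dd, AlgHom.commutes]
  rfl

lemma dd_x_self (j : Fin d) : dd j (x k j) = 1 := by
  rw [dd, Th, lft_x, yy_snd, if_pos rfl]

lemma dd_x_ne {i j : Fin d} (h : i ≠ j) : dd j (x k i) = 0 := by
  rw [dd, Th, lft_x, yy_snd, if_neg h]

lemma dd_sum (j : Fin d) {ι : Type*} (s : Finset ι) (f : ι → Rg k d) :
    dd j (∑ i ∈ s, f i) = ∑ i ∈ s, dd j (f i) := by
  classical
  induction s using Finset.induction_on with
  | empty => simp [dd_zero]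
  | insert a s ha ih => rw [Finset.sum_insert ha, Finset.sum_insert ha, dd_add, ih]

/-- the decomposition `r = r|_{x_j = 0} + x_j ∂_j r` -/
lemma decomp (j : Fin d) (r : Rg k d) : r = ev j r + x k j * dd j r := by
  obtain ⟨p, rfl⟩ := Ideal.Quotient.mk_surjective r
  induction p using MvPolynomial.induction_on with
  | C a =>
    have h1 : Ideal.Quotient.mk (sq k d) (C a) = algebraMap k (Rg k d) a := rfl
    rw [h1, AlgHom.commutes, dd_algebraMap, mul_zero, add_zero]
  | add p q hp hq =>
    rw [map_add, map_add, dd_add, mul_add]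
    nth_rewrite 1 [hp]
    nth_rewrite 1 [hq]
    ring
  | mul_X p i hp =>
    have h1 : Ideal.Quotient.mk (sq k d) (X i) = x k i := rfl
    have h2 := two_eq (k := k) (d := d)
    have hx := x_mul_x (k := k) j
    rw [map_mul, h1, map_mul, dd_mul]
    set r := Ideal.Quotient.mk (sq k d) p with hr
    by_cases h : i = j
    · subst h
      rw [ev_x_self, dd_x_self]
      linear_combination (-dd i r) * hx
    · rw [ev_x_ne h, dd_x_ne h]
      linear_combination (x k i) * hp

section dimension

omit [CharP k 2]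

/-- the exponent vector of a squarefree monomial -/
noncomputable def ind (s : Finset (Fin d)) : Fin d →₀ ℕ :=
  Finsupp.indicator s (fun _ _ => 1)

lemma ind_apply (s : Finset (Fin d)) (i : Fin d) : ind s i = if i ∈ s then 1 else 0 := by
  rw [ind, Finsupp.indicator_apply]
  by_cases h : i ∈ s <;> simp [h]

lemma ind_injective : Function.Injective (ind : Finset (Fin d) → (Fin d →₀ ℕ)) := by
  intro s t h
  ext i
  have := congrArg (fun f => f i) h
  simp only [ind_apply] at this
  by_cases h1 : i ∈ s <;> by_cases h2 : i ∈ t <;> simp_all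

/-- the coefficients of the squarefree monomials -/
noncomputable def phi (k : Type) [Field k] (d : ℕ) :
    MvPolynomial (Fin d) k →ₗ[k] (Finset (Fin d) → k) :=
  LinearMap.pi fun s => MvPolynomial.lcoeff k (ind s)

lemma phi_apply (p : MvPolynomial (Fin d) k) (s : Finset (Fin d)) :
    phi k d p s = coeff (ind s) p := rfl

lemma mem_sq (p : MvPolynomial (Fin d) k) :
    p ∈ sq k d ↔ ∀ m ∈ p.support, ∃ i, 2 ≤ m i := by
  have h : sq k d = Ideal.span ((fun s => (monomial s) (1 : k)) ''
      (Set.range fun i : Fin d => Finsupp.single i 2)) := by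
    rw [sq, ← Set.range_comp]
    congr 1
    ext f
    simp only [Set.mem_range, Function.comp_apply]
    constructor <;> rintro ⟨i, rfl⟩ <;> exact ⟨i, by rw [X_pow_eq_monomial]⟩
  rw [h, mem_ideal_span_monomial_image]
  refine forall₂_congr fun m _ => ?_
  constructor
  · rintro ⟨_, ⟨i, rfl⟩, h⟩
    exact ⟨i, by simpa using h i⟩
  · rintro ⟨i, h⟩
    exact ⟨_, ⟨i, rfl⟩, by simpa using h⟩

lemma ker_phi : LinearMap.ker (phi k d) = (sq k d).restrictScalars k := by
  ext p
  rw [LinearMap.mem_ker, Submodule.restrictScalars_mem, mem_sq]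
  constructor
  · intro h m hm
    by_contra hcon
    push Not at hcon
    have h1 : m = ind (Finset.univ.filter fun i => m i = 1) := by
      ext i
      rw [ind_apply]
      have := hcon i
      by_cases h2 : m i = 1
      · simp [h2]
      · simp [h2]
        omega
    have h2 := congrFun h (Finset.univ.filter fun i => m i = 1)
    rw [phi_apply, ← h1] at h2
    exact (mem_support_iff.mp hm) h2
  · intro h
    funext s
    rw [phi_apply]
    by_contra hcon
    obtain ⟨i, hi⟩ := h (ind s) (mem_support_iff.mpr hcon)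
    rw [ind_apply] at hi
    split_ifs at hi <;> omega

lemma phi_surjective : Function.Surjective (phi k d) := by
  classical
  intro c
  refine ⟨∑ s, monomial (ind s) (c s), ?_⟩
  funext t
  rw [phi_apply, coeff_sum, Finset.sum_eq_single t]
  · rw [coeff_monomial, if_pos rfl]
  · intro s _ hs
    rw [coeff_monomial, if_neg fun h => hs (ind_injective h)]
  · intro h; exact absurd (Finset.mem_univ t) h

/-- the linear equivalence with the functions on subsets -/
noncomputable def eqv (k : Type) [Field k] (d : ℕ) : Rg k d ≃ₗ[k] (Finset (Fin d) → k) :=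
  (Submodule.Quotient.restrictScalarsEquiv k (sq k d)).symm.trans
    ((Submodule.quotEquivOfEq _ _ ker_phi.symm).trans
      (LinearMap.quotKerEquivOfSurjective (phi k d) phi_surjective))

instance finite_Rg : Module.Finite k (Rg k d) := Module.Finite.equiv (eqv k d).symm

lemma finrank_Rg : Module.finrank k (Rg k d) = 2 ^ d := by
  rw [(eqv k d).finrank_eq, Module.finrank_fintype_fun_eq_card, Fintype.card_finset,
    Fintype.card_fin]

instance nontrivial_Rg : Nontrivial (Rg k d) := by
  refine ⟨⟨(eqv k d).symm (fun _ => 1), 0, fun h => ?_⟩⟩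
  have := congrArg (eqv k d) h
  rw [LinearEquiv.apply_symm_apply, map_zero] at this
  exact one_ne_zero (congrFun this ∅)

end dimension

end Pool.Agent.R689.Carl
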