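import Pool.Agent.R689.CarlA
import Pool.Agent.R689.CarlB

/-!
Total homology of the tensor square of a finite free complex over
`k[x_1, ..., x_d] / (x_1 ^ 2, ..., x_d ^ 2)`, `k` of characteristic two.
-/

set_option autoImplicit false

namespace Pool.Agent.R689.Carl

open Matrix

section lin

variable {k : Type} [Field k] {R : Type} [CommRing R] [Algebra k R] {ι : Type} [Fintype ι]

/-- the `k`-linear map of a matrix -/
def L (k : Type) [Field k] {R : Type} [CommRing R] [Algebra k R] {ι : Type} [Fintype ι]
    (M : Matrix ι ι R) : (ι → R) →ₗ[k] (ι → R) := (Matrix.mulVecLin M).restrictScalars k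

lemma L_apply (M : Matrix ι ι R) (v : ι → R) : L k M v = M *ᵥ v := rfl

lemma L_mul (A B : Matrix ι ι R) : L k (A * B) = (L k A).comp (L k B) := by
  ext1 v
  rw [LinearMap.comp_apply, L_apply, L_apply, L_apply, Matrix.mulVec_mulVec]

lemma L_add (A B : Matrix ι ι R) : L k (A + B) = L k A + L k B := by
  ext1 v
  rw [LinearMap.add_apply, L_apply, L_apply, L_apply, Matrix.add_mulVec]

/-- the rank over `k` -/
noncomputable def rk (k : Type) [Field k] {R : Type} [CommRing R] [Algebra k R] {ι : Type}
    [Fintype ι] (M : Matrix ι ι R) : ℕ := Module.finrank k (LinearMap.range (L k M))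

lemma rk_mul [Module.Finite k R] (A B C : Matrix ι ι R) : rk k (A * B * C) ≤ rk k B := by
  rw [rk, rk, L_mul, L_mul]
  refine le_trans (Submodule.finrank_mono (LinearMap.range_comp_le_range _ _)) ?_
  rw [LinearMap.range_comp]
  exact Submodule.finrank_map_le _ _

/-- the projection to the coordinates of weight `j` -/
def pr (k : Type) [Field k] {R : Type} [CommRing R] [Algebra k R] {ι : Type}
    (w : ι → ℕ) (j : ℕ) : (ι → R) →ₗ[k] (ι → R) where
  toFun v p := if w p = j then v p else 0
  map_add' u v := by
    funext p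
    by_cases h : w p = j <;> simp [h]
  map_smul' c v := by
    funext p
    by_cases h : w p = j <;> simp [h]

lemma pr_apply (w : ι → ℕ) (j : ℕ) (v : ι → R) (p : ι) :
    pr k w j v p = if w p = j then v p else 0 := rfl

lemma pr_L (w : ι → ℕ) (c : ℕ) (M : Matrix ι ι R) (hM : ∀ p q, M p q ≠ 0 → w q = w p + c)
    (j : ℕ) (v : ι → R) : pr k w j (L k M v) = L k M (pr k w (j + c) v) := by
  funext p
  rw [pr_apply, L_apply, L_apply, Matrix.mulVec, Matrix.mulVec, dotProduct, dotProduct]
  by_cases h : w p = j
  · rw [if_pos h]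
    refine Finset.sum_congr rfl fun q _ => ?_
    by_cases h0 : M p q = 0
    · rw [h0, zero_mul, zero_mul]
    · rw [pr_apply, if_pos (by rw [hM p q h0, h])]
  · rw [if_neg h]
    symm
    refine Finset.sum_eq_zero fun q _ => ?_
    by_cases h0 : M p q = 0
    · rw [h0, zero_mul]
    · rw [pr_apply, if_neg (by rw [hM p q h0]; omega), mul_zero]

/-- lower semicontinuity of the rank -/
lemma rk_le_add [Module.Finite k R] (w : ι → ℕ) (M S : Matrix ι ι R)
    (hM : ∀ p q, M p q ≠ 0 → w q = w p + 1) (hS : ∀ p q, S p q ≠ 0 → w q = w p) :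
    rk k M ≤ rk k (M + S) := by
  rw [rk, rk, L_add]
  refine range_le (pr k w) (Finset.univ.sup w + 1) (L k M) (L k S) ?_ ?_ ?_ ?_ ?_ ?_
  · intro v h
    funext p
    have h1 := congrFun (h (w p) (Nat.lt_succ_of_le (Finset.le_sup (Finset.mem_univ p)))) p
    rwa [pr_apply, if_pos rfl] at h1
  · intro j v
    funext p
    rw [pr_apply, pr_apply]
    by_cases h : w p = j <;> simp [h]
  · intro i j v hij
    funext p
    rw [pr_apply, pr_apply]
    by_cases h : w p = j
    · rw [if_neg (by omega)]; rfl
    · simp [h]
  · intro j v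
    exact pr_L w 1 M hM j v
  · intro v
    funext p
    rw [L_apply, Matrix.mulVec, dotProduct]
    refine Finset.sum_eq_zero fun q _ => ?_
    by_cases h0 : M p q = 0
    · rw [h0, zero_mul]
    · rw [pr_apply, if_neg (by rw [hM p q h0]; omega), mul_zero]
  · intro j v
    exact pr_L w 0 S (fun p q h => by rw [hS p q h, add_zero]) j v

end lin

section swap

variable {k : Type} [Field k] {R : Type} [CommRing R] [Algebra k R] {n : ℕ}

lemma swap_apply (v : Fin n × Fin n → R) (p : Fin n × Fin n) :
    (L k (1 + sw R (Fin n)) v) p = v p + v p.swap := by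
  rw [L_add, LinearMap.add_apply, Pi.add_apply, L_apply, L_apply, Matrix.one_mulVec]
  congr 1
  rw [sw, PEquiv.toMatrix_toPEquiv_mulVec]
  rfl

/-- the diagonal -/
def diag (k : Type) [Field k] (R : Type) [CommRing R] [Algebra k R] (n : ℕ) :
    (Fin n → R) →ₗ[k] (Fin n × Fin n → R) where
  toFun v p := if p.1 = p.2 then v p.1 else 0
  map_add' u v := by
    funext p
    by_cases h : p.1 = p.2 <;> simp [h]
  map_smul' c v := by
    funext p
    by_cases h : p.1 = p.2 <;> simp [h]

lemma diag_apply (v : Fin n → R) (p : Fin n × Fin n) :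
    diag k R n v p = if p.1 = p.2 then v p.1 else 0 := rfl

/-- twice the rank of `1 + τ` plus `n · dim R` is at most the dimension -/
lemma two_rk_swap [Module.Finite k R] (h2 : (2 : R) = 0) :
    2 * rk k (1 + sw R (Fin n)) + n * Module.finrank k R ≤
      Module.finrank k (Fin n × Fin n → R) := by
  set f := L k (1 + sw R (Fin n)) with hf
  have h1 : LinearMap.range f ⊔ LinearMap.range (diag k R n) ≤ LinearMap.ker f := by
    rw [sup_le_iff]
    constructor
    · rintro _ ⟨v, rfl⟩
      rw [LinearMap.mem_ker]
      funext p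
      rw [hf, swap_apply, swap_apply, swap_apply, Prod.swap_swap]
      have : v p + v p.swap + (v p.swap + v p) = 2 * (v p + v p.swap) := by ring
      rw [this, h2, zero_mul]; rfl
    · rintro _ ⟨v, rfl⟩
      rw [LinearMap.mem_ker]
      funext p
      rw [hf, swap_apply, diag_apply, diag_apply]
      by_cases h : p.1 = p.2
      · rw [if_pos h, if_pos (by simp [h]), Prod.fst_swap, ← h, ← two_mul, h2, zero_mul]; rfl
      · rw [if_neg h, if_neg (fun h' => h (by simpa using h'.symm)), add_zero]; rfl
  have hd : Disjoint (LinearMap.range f) (LinearMap.range (diag k R n)) := by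
    rw [Submodule.disjoint_def]
    rintro _ ⟨v, rfl⟩ ⟨u, hu⟩
    funext p
    have h3 := congrFun hu p
    rw [diag_apply] at h3
    by_cases h : p.1 = p.2
    · rw [hf, swap_apply]
      have : p.swap = p := by
        ext <;> simp [h]
      rw [this, ← two_mul, h2, zero_mul]; rfl
    · rw [if_neg h] at h3
      rw [← h3]; rfl
  have h3 : Module.finrank k (LinearMap.range (diag k R n)) = n * Module.finrank k R := by
    have hinj : Function.Injective (diag k R n) := by
      intro u v h
      funext i
      have := congrFun h (i, i)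
      rw [diag_apply, diag_apply, if_pos rfl, if_pos rfl] at this
      exact this
    rw [LinearMap.finrank_range_of_inj hinj, Module.finrank_pi_fintype]
    simp
  have h4 := Submodule.finrank_sup_add_finrank_inf_eq (LinearMap.range f)
    (LinearMap.range (diag k R n))
  rw [hd.eq_bot, finrank_bot] at h4
  have h5 := Submodule.finrank_mono h1
  have h6 := f.finrank_range_add_finrank_ker
  change 2 * Module.finrank k (LinearMap.range f) + _ ≤ _
  omega

end swap

section main

variable {k : Type} [Field k] [CharP k 2] {d n : ℕ}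

lemma step (j : Fin d) (D : Matrix (Fin n) (Fin n) (Rg k d)) (hD : D * D = 0) :
    rk k (1 + sw (Rg k d) (Fin n) + T D) ≤
      rk k (1 + sw (Rg k d) (Fin n) + T (D.map (ev j))) := by
  set A := D.map (ev j) with hA
  set N := D.map (dd j) with hN
  have h2 := two_eq (k := k) (d := d)
  have hdec : D = A + x k j • N := by
    ext a b
    rw [Matrix.add_apply, Matrix.smul_apply, hA, hN, Matrix.map_apply, Matrix.map_apply,
      smul_eq_mul]
    exact decomp j (D a b)
  have h1 : D * N + N * D = 0 := by
    ext a b
    have h3 := congrArg (dd j) (congrFun (congrFun hD a) b)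
    rw [Matrix.mul_apply, dd_sum, Matrix.zero_apply, dd_zero] at h3
    rw [Matrix.add_apply, Matrix.mul_apply, Matrix.mul_apply, ← Finset.sum_add_distrib,
      Matrix.zero_apply, ← h3]
    refine Finset.sum_congr rfl fun c _ => ?_
    rw [dd_mul, hN, Matrix.map_apply, Matrix.map_apply]
  have h4 : N * A + A * N = 0 := comm_aux h2 hdec h1
  rw [conj h2 (x_mul_x j) hdec h4]
  exact rk_mul _ _ _

/-- evaluation of a list of variables at zero -/
noncomputable def evl (k : Type) [Field k] {d : ℕ} : List (Fin d) → (Rg k d →ₐ[k] Rg k d)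
  | [] => AlgHom.id k _
  | j :: l => (evl k l).comp (ev j)

omit [CharP k 2] in
lemma evl_x {l : List (Fin d)} {i : Fin d} (h : i ∈ l) : evl k l (x k i) = 0 := by
  induction l with
  | nil => simp at h
  | cons j l ih =>
    rw [evl, AlgHom.comp_apply]
    by_cases hij : i = j
    · rw [hij, ev_x_self, map_zero]
    · rw [ev_x_ne hij]
      exact ih (by simpa [hij] using h)

lemma steps (l : List (Fin d)) : ∀ (D : Matrix (Fin n) (Fin n) (Rg k d)), D * D = 0 →
    rk k (1 + sw (Rg k d) (Fin n) + T D) ≤
      rk k (1 + sw (Rg k d) (Fin n) + T (D.map (evl k l))) := by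
  induction l with
  | nil =>
    intro D _
    have : D.map (evl k []) = D := by ext a b; rfl
    rw [this]
  | cons j l ih =>
    intro D hD
    refine (step j D hD).trans ?_
    have h1 : (D.map (ev j)) * (D.map (ev j)) = 0 := by
      have := congrArg (fun M => M.map (ev j)) hD
      simp only [Matrix.map_mul] at this
      rw [this]
      ext a b
      simp
    refine (ih _ h1).trans_eq ?_
    congr 3

omit [CharP k 2] in
lemma eval_zero (r : Rg k d) : ∃ c : k, evl k (List.finRange d) r = algebraMap k (Rg k d) c := by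
  obtain ⟨p, rfl⟩ := Ideal.Quotient.mk_surjective r
  refine ⟨MvPolynomial.aeval (fun _ => (0 : k)) p, ?_⟩
  have h : (evl k (List.finRange d)).comp (Ideal.Quotient.mkₐ k (sq k d)) =
      (Algebra.ofId k (Rg k d)).comp (MvPolynomial.aeval (fun _ => (0 : k))) := by
    apply MvPolynomial.algHom_ext
    intro i
    rw [AlgHom.comp_apply, AlgHom.comp_apply, MvPolynomial.aeval_X, map_zero]
    exact evl_x (List.mem_finRange i)
  exact congrArg (fun f => f p) h

/-- The main inequality. -/
theorem main (D : Matrix (Fin n) (Fin n) (Rg k d)) (hD : D * D = 0) (deg : Fin n → ℕ)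
    (hdeg : ∀ i j, D i j ≠ 0 → deg j = deg i + 1) (hnil : ∀ i j, IsNilpotent (D i j)) :
    2 ^ d * n + Module.finrank k (LinearMap.range (L k (T D))) ≤
      Module.finrank k (LinearMap.ker (L k (T D))) := by
  have h2 := two_eq (k := k) (d := d)
  have h0 : D.map (evl k (List.finRange d)) = 0 := by
    ext a b
    rw [Matrix.map_apply, Matrix.zero_apply]
    obtain ⟨c, hc⟩ := eval_zero (D a b)
    obtain ⟨m, hm⟩ := hnil a b
    have h1 : algebraMap k (Rg k d) (c ^ m) = 0 := by
      rw [map_pow, ← hc, ← map_pow, hm, map_zero]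
    have h3 : c ^ m = 0 := by
      rw [← map_zero (algebraMap k (Rg k d))] at h1
      exact (algebraMap k (Rg k d)).injective h1
    rw [hc, IsNilpotent.eq_zero ⟨m, h3⟩, map_zero]
  have h3 : T (0 : Matrix (Fin n) (Fin n) (Rg k d)) = 0 := by
    simp [T]
  have h4 : rk k (T D) ≤ rk k (1 + sw (Rg k d) (Fin n)) := by
    have h5 := steps (List.finRange d) D hD
    rw [h0, h3, add_zero] at h5
    refine le_trans ?_ h5
    rw [add_comm _ (T D)]
    refine rk_le_add (fun p : Fin n × Fin n => deg p.1 + deg p.2) _ _ ?_ ?_
    · rintro ⟨a, b⟩ ⟨a', b'⟩ h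
      simp only [T, Matrix.add_apply, kronecker, Matrix.kroneckerMap_apply] at h
      dsimp only
      by_cases h6 : D a a' * (1 : Matrix (Fin n) (Fin n) (Rg k d)) b b' = 0
      · rw [h6, zero_add] at h
        have h7 : a = a' := by
          by_contra hc
          exact h (by rw [Matrix.one_apply_ne hc, zero_mul])
        have h8 : D b b' ≠ 0 := fun hc => h (by rw [hc, mul_zero])
        rw [hdeg b b' h8, h7]; omega
      · have h7 : b = b' := by
          by_contra hc
          exact h6 (by rw [Matrix.one_apply_ne hc, mul_zero])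
        have h8 : D a a' ≠ 0 := fun hc => h6 (by rw [hc, zero_mul])
        rw [hdeg a a' h8, h7]; omega
    · rintro ⟨a, b⟩ ⟨a', b'⟩ h
      dsimp only
      rw [Matrix.add_apply] at h
      by_cases h6 : (1 : Matrix (Fin n × Fin n) (Fin n × Fin n) (Rg k d)) (a, b) (a', b') = 0
      · rw [h6, zero_add, sw, PEquiv.toMatrix_apply] at h
        have h7 : (a', b') = (b, a) := by
          by_contra hc
          apply h
          rw [if_neg]
          intro h8
          apply hc
          simp only [Equiv.toPEquiv_apply, Equiv.prodComm_apply, Prod.swap_prod_mk,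
            Option.mem_def, Option.some.injEq] at h8
          exact h8.symm
        rw [Prod.mk.injEq] at h7
        rw [h7.1, h7.2]; omega
      · have h7 : (a, b) = (a', b') := by
          by_contra hc
          exact h6 (Matrix.one_apply_ne hc)
        rw [Prod.mk.injEq] at h7
        rw [h7.1, h7.2]
  have h5 := two_rk_swap (k := k) (n := n) h2
  have h6 := (L k (T D)).finrank_range_add_finrank_ker
  rw [finrank_Rg] at h5
  rw [rk] at h4
  have h7 : n * 2 ^ d = 2 ^ d * n := mul_comm _ _
  omega

end main

end Pool.Agent.R689.Carl
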