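import Mathlib

/-!
Localization functors on the category of groups, flat extensions, conditionally flat functors.
-/

set_option autoImplicit false

universe u

namespace Pool.Agent.R689.CF

open CategoryTheory

/-- `1 → N → E → G → 1` is a short exact sequence of groups. -/
def ShortExact {N E G : GrpCat.{u}} (i : N ⟶ E) (p : E ⟶ G) : Prop :=
  Function.Injective i.hom ∧ Function.Surjective p.hom ∧ i.hom.range = p.hom.ker

/-- The pullback `E ×_G H` as a subgroup of `E × H`. -/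
def pbSub {E G H : GrpCat.{u}} (p : E ⟶ G) (f : H ⟶ G) : Subgroup (E × H) where
  carrier := {x | p.hom x.1 = f.hom x.2}
  mul_mem' {a b} ha hb := by
    rw [Set.mem_ofPred_eq] at ha hb ⊢
    rw [Prod.fst_mul, Prod.snd_mul, map_mul, map_mul, ha, hb]
  one_mem' := by
    rw [Set.mem_ofPred_eq, Prod.fst_one, Prod.snd_one, map_one, map_one]
  inv_mem' {a} ha := by
    rw [Set.mem_ofPred_eq] at ha ⊢
    rw [Prod.fst_inv, Prod.snd_inv, map_inv, map_inv, ha]

/-- The pullback `E ×_G H`. -/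
def pb {E G H : GrpCat.{u}} (p : E ⟶ G) (f : H ⟶ G) : GrpCat.{u} := GrpCat.of (pbSub p f)

/-- The projection `E ×_G H → H`. -/
def pbSnd {E G H : GrpCat.{u}} (p : E ⟶ G) (f : H ⟶ G) : pb p f ⟶ H :=
  GrpCat.ofHom ((MonoidHom.snd E H).comp (pbSub p f).subtype)

/-- The projection `E ×_G H → E`. -/
def pbFst {E G H : GrpCat.{u}} (p : E ⟶ G) (f : H ⟶ G) : pb p f ⟶ E :=
  GrpCat.ofHom ((MonoidHom.fst E H).comp (pbSub p f).subtype)

/-- The map `N → E ×_G H`, `n ↦ (i n, 1)`, for an extension `N → E → G`. -/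
def pbIncl {N E G H : GrpCat.{u}} (i : N ⟶ E) (p : E ⟶ G) (h : ShortExact i p) (f : H ⟶ G) :
    N ⟶ pb p f :=
  GrpCat.ofHom (((MonoidHom.inl E H).comp i.hom).codRestrict (pbSub p f) (fun n => by
    change p.hom (i.hom n) = f.hom 1
    have : i.hom n ∈ p.hom.ker := by rw [← h.2.2]; exact ⟨n, rfl⟩
    rw [map_one]
    exact this))

/-- `L` with the natural transformation `η : Id → L` is a localization functor: `L (η_G)` and
`η_(L G)` are equal isomorphisms `L G → L (L G)` for every group `G`. -/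
def IsLocalizationFunctor (L : GrpCat.{u} ⥤ GrpCat.{u}) (η : 𝟭 GrpCat.{u} ⟶ L) : Prop :=
  ∀ G : GrpCat.{u}, L.map (η.app G) = η.app (L.obj G) ∧ IsIso (η.app (L.obj G))

/-- `L` is an epireflection: `η_G : G → L G` is surjective for every group `G`. -/
def IsEpireflection (L : GrpCat.{u} ⥤ GrpCat.{u}) (η : 𝟭 GrpCat.{u} ⟶ L) : Prop :=
  ∀ G : GrpCat.{u}, Function.Surjective (η.app G).hom

/-- The extension `N → E → G` is `L`-flat: `1 → L N → L E → L G → 1` is short exact. -/
def Flat (L : GrpCat.{u} ⥤ GrpCat.{u}) {N E G : GrpCat.{u}} (i : N ⟶ E) (p : E ⟶ G) : Prop :=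
  ShortExact (L.map i) (L.map p)

/-- `L` is conditionally flat: the pullback of every `L`-flat extension along every homomorphism
is `L`-flat. -/
def ConditionallyFlat (L : GrpCat.{u} ⥤ GrpCat.{u}) : Prop :=
  ∀ (N E G : GrpCat.{u}) (i : N ⟶ E) (p : E ⟶ G) (h : ShortExact i p), Flat L i p →
    ∀ (H : GrpCat.{u}) (f : H ⟶ G), Flat L (pbIncl i p h f) (pbSnd p f)

lemma pb_shortExact {N E G H : GrpCat.{u}} (i : N ⟶ E) (p : E ⟶ G) (h : ShortExact i p)
    (f : H ⟶ G) : ShortExact (pbIncl i p h f) (pbSnd p f) := by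
  refine ⟨?_, ?_, ?_⟩
  · intro a b hab
    apply h.1
    exact congrArg (fun x : pbSub p f => x.1.1) hab
  · intro x
    obtain ⟨e, he⟩ := h.2.1 (f.hom x)
    exact ⟨⟨(e, x), he⟩, rfl⟩
  · ext x
    constructor
    · rintro ⟨n, rfl⟩
      rfl
    · intro hx
      obtain ⟨⟨e, y⟩, hy⟩ := x
      have hy1 : y = 1 := hx
      subst hy1
      have he : e ∈ p.hom.ker := by
        have h1 : p.hom e = f.hom 1 := hy
        rw [map_one] at h1
        exact h1
      rw [← h.2.2] at he
      obtain ⟨n, rfl⟩ := he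
      exact ⟨n, rfl⟩

end Pool.Agent.R689.CF
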