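import Mathlib

/-! Complexes with anticommuting operators, Koszul cones, relative lengths. -/

namespace R689FC

universe u

open Finset

section rlen

variable {R : Type u} [CommRing R]

/-- The length of `P / B` for submodules `B ≤ P`. -/
noncomputable def rlen {M : Type*} [AddCommGroup M] [Module R M] (P B : Submodule R M) : ℕ∞ :=
  Module.length R (P ⧸ B.submoduleOf P)

variable {M M₁ M₂ : Type*} [AddCommGroup M] [Module R M] [AddCommGroup M₁] [Module R M₁]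
  [AddCommGroup M₂] [Module R M₂]

/-- The map induced on `P / B`. -/
noncomputable def rmap (f : M₁ →ₗ[R] M) {P₁ B₁ : Submodule R M₁} {P B : Submodule R M}
    (hP : ∀ z ∈ P₁, f z ∈ P) (hB : ∀ z ∈ B₁, f z ∈ B) :
    (P₁ ⧸ B₁.submoduleOf P₁) →ₗ[R] (P ⧸ B.submoduleOf P) :=
  Submodule.mapQ _ _ (f.restrict hP) (fun z hz => hB z.1 hz)

theorem rmap_mk (f : M₁ →ₗ[R] M) {P₁ B₁ : Submodule R M₁} {P B : Submodule R M}
    (hP : ∀ z ∈ P₁, f z ∈ P) (hB : ∀ z ∈ B₁, f z ∈ B) (z : P₁) :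
    rmap f hP hB (Submodule.Quotient.mk z) = Submodule.Quotient.mk ⟨f z.1, hP z.1 z.2⟩ := rfl

theorem rmk_eq_zero {P B : Submodule R M} (z : P) :
    (Submodule.Quotient.mk z : P ⧸ B.submoduleOf P) = 0 ↔ z.1 ∈ B := by
  rw [Submodule.Quotient.mk_eq_zero]; rfl

theorem rlen_le_of_inj (f : M₁ →ₗ[R] M) {P₁ B₁ : Submodule R M₁} {P B : Submodule R M}
    (hP : ∀ z ∈ P₁, f z ∈ P) (hB : ∀ z ∈ B₁, f z ∈ B) (hi : ∀ z ∈ P₁, f z ∈ B → z ∈ B₁) :
    rlen P₁ B₁ ≤ rlen P B := by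
  refine Module.length_le_of_injective (rmap f hP hB) ?_
  rw [injective_iff_map_eq_zero]
  intro z hz
  obtain ⟨z, rfl⟩ := Submodule.Quotient.mk_surjective _ z
  rw [rmap_mk, rmk_eq_zero] at hz
  rw [rmk_eq_zero]
  exact hi z.1 z.2 hz

theorem rlen_le_add (f : M₁ →ₗ[R] M) (g : M →ₗ[R] M₂) {P₁ B₁ : Submodule R M₁}
    {P B : Submodule R M} {P₂ B₂ : Submodule R M₂}
    (hP : ∀ z ∈ P₁, f z ∈ P) (hB : ∀ z ∈ B₁, f z ∈ B)
    (hP2 : ∀ z ∈ P, g z ∈ P₂) (hB2 : ∀ z ∈ B, g z ∈ B₂)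
    (hex : ∀ z ∈ P, g z ∈ B₂ → ∃ w ∈ P₁, z - f w ∈ B) :
    rlen P B ≤ rlen P₁ B₁ + rlen P₂ B₂ := by
  have h1 : Module.length R (P ⧸ B.submoduleOf P)
      = Module.length R (LinearMap.ker (rmap g hP2 hB2)) +
        Module.length R (LinearMap.range (rmap g hP2 hB2)) := by
    refine Module.length_eq_add_of_exact (LinearMap.ker (rmap g hP2 hB2)).subtype
      (rmap g hP2 hB2).rangeRestrict Subtype.val_injective
      (LinearMap.surjective_rangeRestrict _) ?_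
    rw [LinearMap.exact_iff, LinearMap.ker_rangeRestrict, Submodule.range_subtype]
  have h2 : Module.length R (LinearMap.ker (rmap g hP2 hB2)) ≤ rlen P₁ B₁ := by
    have hk : ∀ z, rmap g hP2 hB2 (rmap f hP hB z) = 0 ∨ True := fun _ => Or.inr trivial
    -- the submodule `f (P₁)` covers the kernel
    let W : Submodule R (P₁ ⧸ B₁.submoduleOf P₁) := LinearMap.ker
      ((rmap g hP2 hB2).comp (rmap f hP hB))
    let φ : W →ₗ[R] LinearMap.ker (rmap g hP2 hB2) :=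
      ((rmap f hP hB).comp W.subtype).codRestrict _ (fun w => w.2)
    have hφ : Function.Surjective φ := by
      rintro ⟨z, hz⟩
      obtain ⟨z, rfl⟩ := Submodule.Quotient.mk_surjective _ z
      have hz' := hz
      rw [LinearMap.mem_ker, rmap_mk, rmk_eq_zero] at hz'
      obtain ⟨w, hw, hzw⟩ := hex z.1 z.2 hz'
      have heq : rmap f hP hB (Submodule.Quotient.mk ⟨w, hw⟩) = Submodule.Quotient.mk z := by
        rw [rmap_mk, eq_comm, ← sub_eq_zero, ← Submodule.Quotient.mk_sub, rmk_eq_zero]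
        exact hzw
      refine ⟨⟨Submodule.Quotient.mk ⟨w, hw⟩, ?_⟩, Subtype.ext heq⟩
      change rmap g hP2 hB2 (rmap f hP hB (Submodule.Quotient.mk ⟨w, hw⟩)) = 0
      rw [heq]; exact hz
    exact (Module.length_le_of_surjective φ hφ).trans
      (Module.length_le_of_injective W.subtype Subtype.val_injective)
  have h3 : Module.length R (LinearMap.range (rmap g hP2 hB2)) ≤ rlen P₂ B₂ :=
    Module.length_le_of_injective (Submodule.subtype _) Subtype.val_injective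
  unfold rlen at *
  rw [h1]
  exact add_le_add h2 h3

end rlen

/-- A graded complex with a family of operators anticommuting with the differential and with each
other. -/
structure OCx (R : Type u) [CommRing R] where
  E : Type u
  [ag : AddCommGroup E]
  [md : Module R E]
  G : ℤ → Submodule R E
  d : E →ₗ[R] E
  s : ℕ → E →ₗ[R] E
  dG : ∀ i a, a ∈ G i → d a ∈ G (i + 1)
  sG : ∀ j i a, a ∈ G i → s j a ∈ G (i + 1)
  dd : ∀ a, d (d a) = 0
  ds : ∀ j a, d (s j a) = - s j (d a)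
  ss : ∀ j a, s j (s j a) = 0
  sc : ∀ j k a, s j (s k a) = - s k (s j a)

attribute [instance] OCx.ag OCx.md

section cones

variable {R : Type u} [CommRing R]

/-- The Koszul cone of multiplication by `y`. -/
noncomputable def cone (y : R) (D : OCx R) : OCx R where
  E := D.E × D.E
  G i := (D.G i).prod (D.G (i - 1))
  d := LinearMap.prod (D.d ∘ₗ LinearMap.fst R D.E D.E)
    (y • LinearMap.fst R D.E D.E - D.d ∘ₗ LinearMap.snd R D.E D.E)
  s j := LinearMap.prod (D.s j ∘ₗ LinearMap.fst R D.E D.E) (-(D.s j ∘ₗ LinearMap.snd R D.E D.E))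
  dG := by
    rintro i ⟨a, b⟩ ⟨ha, hb⟩
    refine ⟨D.dG i a ha, ?_⟩
    change y • a - D.d b ∈ D.G (i + 1 - 1)
    have h1 := D.dG _ b hb
    rw [sub_add_cancel] at h1
    rw [add_sub_cancel_right]
    exact Submodule.sub_mem _ (Submodule.smul_mem _ _ ha) h1
  sG := by
    rintro j i ⟨a, b⟩ ⟨ha, hb⟩
    refine ⟨D.sG j i a ha, ?_⟩
    change -(D.s j b) ∈ D.G (i + 1 - 1)
    have h1 := D.sG j _ b hb
    rw [sub_add_cancel] at h1
    rw [add_sub_cancel_right]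
    exact Submodule.neg_mem _ h1
  dd := by
    rintro ⟨a, b⟩
    change (D.d (D.d a), y • D.d a - D.d (y • a - D.d b)) = 0
    rw [D.dd, map_sub, D.dd, map_smul]
    simp
  ds := by
    rintro j ⟨a, b⟩
    change (D.d (D.s j a), y • D.s j a - D.d (-(D.s j b))) =
      -(D.s j (D.d a), -(D.s j (y • a - D.d b)))
    rw [D.ds, map_neg, D.ds, map_sub, map_smul, Prod.neg_mk]
    congr 1
    abel
  ss := by
    rintro j ⟨a, b⟩
    change (D.s j (D.s j a), -(D.s j (-(D.s j b)))) = 0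
    rw [D.ss, map_neg, D.ss]; simp
  sc := by
    rintro j k ⟨a, b⟩
    change (D.s j (D.s k a), -(D.s j (-(D.s k b)))) =
      -(D.s k (D.s j a), -(D.s k (-(D.s j b))))
    rw [map_neg, map_neg, D.sc j k a, D.sc j k b, Prod.neg_mk]

theorem cone_d (y : R) (D : OCx R) (a b : D.E) :
    (cone y D).d ((a, b) : D.E × D.E) = ((D.d a, y • a - D.d b) : D.E × D.E) := rfl

theorem cone_s (y : R) (D : OCx R) (j : ℕ) (a b : D.E) :
    (cone y D).s j ((a, b) : D.E × D.E) = ((D.s j a, -(D.s j b)) : D.E × D.E) := rfl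

/-- Coboundaries of degree `i`. -/
def OCx.Bd (D : OCx R) (i : ℤ) : Submodule R D.E := (D.G (i - 1)).map D.d

/-- Frobenius semilinear maps of complexes. -/
structure FM (D D' : OCx R) (Q : ℕ) where
  f : D.E →+ D'.E
  fr : ∀ (r : R) a, f (r • a) = r ^ Q • f a
  fG : ∀ i a, a ∈ D.G i → f a ∈ D'.G i
  fd : ∀ a, f (D.d a) = D'.d (f a)
  fs : ∀ j a, f (D.s j a) = D'.s j (f a)

/-- The map induced on cones. -/
noncomputable def FM.cone {D D' : OCx R} {Q : ℕ} (Φ : FM D D' Q) (y : R) :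
    FM (R689FC.cone y D) (R689FC.cone (y ^ Q) D') Q where
  f := AddMonoidHom.prodMap Φ.f Φ.f
  fr := by
    rintro r ⟨a, b⟩
    change (Φ.f (r • a), Φ.f (r • b)) = r ^ Q • (Φ.f a, Φ.f b)
    rw [Φ.fr, Φ.fr]; rfl
  fG := by
    rintro i ⟨a, b⟩ ⟨ha, hb⟩
    exact ⟨Φ.fG _ _ ha, Φ.fG _ _ hb⟩
  fd := by
    rintro ⟨a, b⟩
    change (Φ.f (D.d a), Φ.f (y • a - D.d b)) = (D'.d (Φ.f a), y ^ Q • Φ.f a - D'.d (Φ.f b))
    rw [Φ.fd, map_sub, Φ.fr, Φ.fd]
  fs := by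
    rintro j ⟨a, b⟩
    change (Φ.f (D.s j a), Φ.f (-(D.s j b))) = (D'.s j (Φ.f a), -(D'.s j (Φ.f b)))
    rw [Φ.fs, map_neg, Φ.fs]

theorem FM.cone_f {D D' : OCx R} {Q : ℕ} (Φ : FM D D' Q) (y : R) (a b : D.E) :
    (Φ.cone y).f ((a, b) : D.E × D.E) = ((Φ.f a, Φ.f b) : D'.E × D'.E) := rfl

/-- Cocycles of degree `i` whose image under `Φ` is a coboundary. -/
def Pn {D D' : OCx R} {Q : ℕ} (Φ : FM D D' Q) (i : ℤ) : Submodule R D.E where
  carrier := {a | a ∈ D.G i ∧ D.d a = 0 ∧ Φ.f a ∈ D'.Bd i}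
  zero_mem' := ⟨Submodule.zero_mem _, map_zero _, by rw [map_zero]; exact Submodule.zero_mem _⟩
  add_mem' := by
    rintro a b ⟨h1, h2, h3⟩ ⟨h4, h5, h6⟩
    refine ⟨Submodule.add_mem _ h1 h4, by rw [map_add, h2, h5, add_zero], ?_⟩
    rw [map_add]; exact Submodule.add_mem _ h3 h6
  smul_mem' := by
    rintro r a ⟨h1, h2, h3⟩
    refine ⟨Submodule.smul_mem _ _ h1, by rw [map_smul, h2, smul_zero], ?_⟩
    rw [Φ.fr]; exact Submodule.smul_mem _ _ h3

theorem mem_Pn {D D' : OCx R} {Q : ℕ} {Φ : FM D D' Q} {i : ℤ} {a : D.E} :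
    a ∈ Pn Φ i ↔ a ∈ D.G i ∧ D.d a = 0 ∧ Φ.f a ∈ D'.Bd i := Iff.rfl

/-- `z` kills the cohomology in degree `i`. -/
def Kl (D : OCx R) (z : R) (i : ℤ) : Prop := ∀ a ∈ D.G i, D.d a = 0 → z • a ∈ D.Bd i

theorem Kl.mul {D : OCx R} {z : R} {i : ℤ} (h : Kl D z i) (w : R) : Kl D (w * z) i := by
  intro a ha hd
  rw [mul_smul]
  exact Submodule.smul_mem _ _ (h a ha hd)

theorem Kl.cone {D : OCx R} {z₁ z₂ : R} {i : ℤ} (h1 : Kl D z₁ i) (h2 : Kl D z₂ (i - 1)) (y : R) :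
    Kl (cone y D) (z₁ * z₂) i := by
  rintro ⟨a, b⟩ ⟨ha, hb⟩ hd
  replace hd : ((D.d a, y • a - D.d b) : D.E × D.E) = 0 := hd
  rw [Prod.mk_eq_zero] at hd
  obtain ⟨e, he, hea⟩ := h1 a ha hd.1
  have hw : z₁ • b - y • e ∈ D.G (i - 1) :=
    Submodule.sub_mem _ (Submodule.smul_mem _ _ hb) (Submodule.smul_mem _ _ he)
  have hdw : D.d (z₁ • b - y • e) = 0 := by
    rw [map_sub, map_smul, map_smul, hea, ← sub_eq_zero.mp hd.2, smul_comm, sub_self]
  obtain ⟨g, hg, hgw⟩ := h2 _ hw hdw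
  refine ⟨((z₂ • e, -g) : D.E × D.E), ⟨Submodule.smul_mem _ _ he, Submodule.neg_mem _ hg⟩, ?_⟩
  change ((D.d (z₂ • e), y • z₂ • e - D.d (-g)) : D.E × D.E) = ((z₁ * z₂) • a, (z₁ * z₂) • b)
  rw [map_smul, hea, map_neg, hgw, smul_smul, mul_comm z₂ z₁]
  congr 1
  rw [smul_sub, smul_smul, smul_smul, smul_smul, mul_comm z₂ z₁, mul_comm y z₂]
  abel

theorem rlen_cone {D D' : OCx R} {Q : ℕ} (Φ : FM D D' Q) (y : R) (i : ℤ)
    (hk : Kl D' (y ^ Q) (i - 1)) :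
    rlen (Pn (Φ.cone y) i) ((cone y D).Bd i) ≤
      rlen (Pn Φ (i - 1)) (D.Bd (i - 1)) + rlen (Pn Φ i) (D.Bd i) := by
  refine rlen_le_add (LinearMap.inr R D.E D.E) (LinearMap.fst R D.E D.E) ?_ ?_ ?_ ?_ ?_
  · rintro w ⟨hw1, hw2, ⟨g, hg, hgw⟩⟩
    refine ⟨⟨Submodule.zero_mem _, hw1⟩, ?_, ?_⟩
    · change ((D.d 0, y • (0 : D.E) - D.d w) : D.E × D.E) = 0
      rw [map_zero, smul_zero, hw2, sub_zero]; rfl
    · refine ⟨((0, -g) : D'.E × D'.E), ⟨Submodule.zero_mem _, Submodule.neg_mem _ hg⟩, ?_⟩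
      change ((D'.d 0, y ^ Q • (0 : D'.E) - D'.d (-g)) : D'.E × D'.E) = (Φ.f 0, Φ.f w)
      rw [map_zero, map_zero, smul_zero, map_neg, hgw, zero_sub, neg_neg]
  · rintro w ⟨g, hg, hgw⟩
    refine ⟨((0, -g) : D.E × D.E), ⟨Submodule.zero_mem _, Submodule.neg_mem _ hg⟩, ?_⟩
    change ((D.d 0, y • (0 : D.E) - D.d (-g)) : D.E × D.E) = (0, w)
    rw [map_zero, smul_zero, map_neg, hgw, zero_sub, neg_neg]
  · rintro ⟨a, b⟩ ⟨⟨ha, hb⟩, hd, ⟨⟨e', f'⟩, ⟨he', hf'⟩, hef⟩⟩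
    replace hd : ((D.d a, y • a - D.d b) : D.E × D.E) = 0 := hd
    rw [Prod.mk_eq_zero] at hd
    replace hef : ((D'.d e', y ^ Q • e' - D'.d f') : D'.E × D'.E) = (Φ.f a, Φ.f b) := hef
    rw [Prod.mk.injEq] at hef
    exact ⟨ha, hd.1, ⟨e', he', hef.1⟩⟩
  · rintro ⟨a, b⟩ ⟨⟨e, f⟩, ⟨he, hf⟩, hef⟩
    replace hef : ((D.d e, y • e - D.d f) : D.E × D.E) = (a, b) := hef
    rw [Prod.mk.injEq] at hef
    exact ⟨e, he, hef.1⟩
  · rintro ⟨a, b⟩ ⟨⟨ha, hb⟩, hd, ⟨⟨e', f'⟩, ⟨he', hf'⟩, hef⟩⟩ ⟨e, he, hea⟩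
    replace hd : ((D.d a, y • a - D.d b) : D.E × D.E) = 0 := hd
    rw [Prod.mk_eq_zero] at hd
    replace hef : ((D'.d e', y ^ Q • e' - D'.d f') : D'.E × D'.E) = (Φ.f a, Φ.f b) := hef
    rw [Prod.mk.injEq] at hef
    replace hea : D.d e = a := hea
    refine ⟨b - y • e, ⟨?_, ?_, ?_⟩, ?_⟩
    · exact Submodule.sub_mem _ hb (Submodule.smul_mem _ _ he)
    · rw [map_sub, map_smul, hea, ← sub_eq_zero.mp hd.2, sub_self]
    · have h1 : e' - Φ.f e ∈ D'.G (i - 1) := Submodule.sub_mem _ he' (Φ.fG _ _ he)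
      have h2 : D'.d (e' - Φ.f e) = 0 := by
        rw [map_sub, hef.1, ← Φ.fd, hea, sub_self]
      have h3 := hk _ h1 h2
      have h4 : Φ.f (b - y • e) = y ^ Q • (e' - Φ.f e) - D'.d f' := by
        rw [map_sub, Φ.fr, ← hef.2, smul_sub]; abel
      rw [h4]
      exact Submodule.sub_mem _ h3 ⟨f', hf', rfl⟩
    · refine ⟨((e, 0) : D.E × D.E), ⟨he, Submodule.zero_mem _⟩, ?_⟩
      change ((D.d e, y • e - D.d 0) : D.E × D.E) = (a - 0, b - (b - y • e))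
      rw [hea, map_zero, sub_zero, sub_zero, sub_sub_cancel]

/-- Iterated cones. -/
noncomputable def tow (C : OCx R) (y : ℕ → R) : ℕ → OCx R
  | 0 => C
  | (j + 1) => cone (y j) (tow C y j)

/-- The Frobenius maps of the towers. -/
noncomputable def towF {C C' : OCx R} {Q : ℕ} (Φ : FM C C' Q) (y : ℕ → R) :
    ∀ j, FM (tow C y j) (tow C' (fun k => y k ^ Q) j) Q
  | 0 => Φ
  | (j + 1) => (towF Φ y j).cone (y j)

theorem Kl_tow {C : OCx R} (y : ℕ → R) {v : R} {n : ℤ} (h : ∀ i < n, Kl C v i) (j : ℕ) :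
    ∀ i < n, Kl (tow C y j) (v ^ (2 ^ j)) i := by
  induction j with
  | zero => intro i hi; rw [pow_zero, pow_one]; exact h i hi
  | succ j ih =>
    intro i hi
    rw [pow_succ, mul_two, pow_add]
    exact Kl.cone (ih i hi) (ih (i - 1) (by omega)) (y j)

theorem rlen_tow {C C' : OCx R} {Q : ℕ} (Φ : FM C C' Q) (y : ℕ → R) {n : ℕ}
    (hk : ∀ j < n, ∀ i < (n : ℤ), Kl (tow C' (fun k => y k ^ Q) j) (y j ^ Q) i) :
    ∀ j ≤ n, ∀ i ≤ (n : ℤ), rlen (Pn (towF Φ y j) i) ((tow C y j).Bd i) ≤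
      ∑ k ∈ range (j + 1), (j.choose k : ℕ∞) * rlen (Pn Φ (i - k)) (C.Bd (i - k)) := by
  intro j
  induction j with
  | zero =>
    intro _ i _
    rw [zero_add, sum_range_one, Nat.choose_zero_right, Nat.cast_one, one_mul, Nat.cast_zero,
      sub_zero]
    exact le_refl _
  | succ j ih =>
    intro hj i hi
    refine (rlen_cone (towF Φ y j) (y j) i (hk j (by omega) (i - 1) (by omega))).trans ?_
    refine (add_le_add (ih (by omega) (i - 1) (by omega)) (ih (by omega) i hi)).trans ?_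
    set g : ℕ → ℕ∞ := fun k => rlen (Pn Φ (i - k)) (C.Bd (i - k)) with hg
    have h1 : ∀ k : ℕ, rlen (Pn Φ (i - 1 - k)) (C.Bd (i - 1 - k)) = g (k + 1) := by
      intro k
      rw [hg]
      have : i - 1 - (k : ℤ) = i - ((k + 1 : ℕ) : ℤ) := by push_cast; ring
      simp only [this]
    simp only [h1]
    change _ ≤ ∑ k ∈ range (j + 1 + 1), ((j + 1).choose k : ℕ∞) * g k
    rw [sum_range_succ' (fun k => ((j + 1).choose k : ℕ∞) * g k) (j + 1)]
    have h2 : ∀ k, (((j + 1).choose (k + 1) : ℕ) : ℕ∞) * g (k + 1) =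
        (j.choose k : ℕ∞) * g (k + 1) + (j.choose (k + 1) : ℕ∞) * g (k + 1) := by
      intro k
      rw [Nat.choose_succ_succ, Nat.cast_add, add_mul]
    simp only [h2]
    rw [sum_add_distrib, add_assoc]
    refine add_le_add_right ?_ _
    rw [sum_range_succ' (fun k => (j.choose k : ℕ∞) * g k) j]
    simp only [Nat.choose_zero_right]
    refine add_le_add_left ?_ _
    refine sum_le_sum_of_subset ?_
    exact range_subset_range.mpr (by omega)

end cones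

end R689FC
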