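import Pool.Agent.R689.FC1

/-! The top class in the tower of cones. -/

namespace R689FC

universe u

open Finset

variable {R : Type u} [CommRing R]

/-- Elements of the cone. -/
def pr (y : R) (D : OCx R) (a b : D.E) : (cone y D).E := ((a, b) : D.E × D.E)

section pr

variable (y : R) (D : OCx R)

theorem pr_d (a b : D.E) : (cone y D).d (pr y D a b) = pr y D (D.d a) (y • a - D.d b) := rfl

theorem pr_s (j : ℕ) (a b : D.E) :
    (cone y D).s j (pr y D a b) = pr y D (D.s j a) (-(D.s j b)) := rfl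

theorem pr_smul (r : R) (a b : D.E) : r • pr y D a b = pr y D (r • a) (r • b) := rfl

theorem pr_add (a b a' b' : D.E) : pr y D a b + pr y D a' b' = pr y D (a + a') (b + b') := rfl

theorem pr_zero : pr y D 0 0 = 0 := rfl

theorem pr_sum (S : Finset ℕ) (f g : ℕ → D.E) :
    ∑ k ∈ S, pr y D (f k) (g k) = pr y D (∑ k ∈ S, f k) (∑ k ∈ S, g k) := by
  classical
  induction S using Finset.induction_on with
  | empty => rw [sum_empty, sum_empty, sum_empty]; rfl
  | insert a S ha ih => rw [sum_insert ha, sum_insert ha, sum_insert ha, ih, pr_add]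

theorem pr_G (i : ℤ) {a b : D.E} (ha : a ∈ D.G i) (hb : b ∈ D.G (i - 1)) :
    pr y D a b ∈ (cone y D).G i := ⟨ha, hb⟩

end pr

/-- The operators `∏ (e_j + σ_j)`. -/
noncomputable def UU (C : OCx R) (y : ℕ → R) : ∀ j, C.E →ₗ[R] (tow C y j).E
  | 0 => LinearMap.id
  | (j + 1) => LinearMap.prod ((tow C y j).s j ∘ₗ UU C y j) (UU C y j)

theorem UU_succ (C : OCx R) (y : ℕ → R) (j : ℕ) (c : C.E) :
    UU C y (j + 1) c = pr (y j) (tow C y j) ((tow C y j).s j (UU C y j c)) (UU C y j c) := rfl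

/-- The top component. -/
noncomputable def TT (C : OCx R) (y : ℕ → R) : ∀ j, (tow C y j).E →ₗ[R] C.E
  | 0 => LinearMap.id
  | (j + 1) => TT C y j ∘ₗ LinearMap.snd R (tow C y j).E (tow C y j).E

theorem TT_UU (C : OCx R) (y : ℕ → R) (c : C.E) : ∀ j, TT C y j (UU C y j c) = c
  | 0 => rfl
  | (j + 1) => TT_UU C y c j

theorem UU_mem (C : OCx R) (y : ℕ → R) {c : C.E} (hc : c ∈ C.G 0) :
    ∀ j : ℕ, UU C y j c ∈ (tow C y j).G j
  | 0 => hc
  | (j + 1) => by
    have h := UU_mem C y hc j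
    refine ⟨?_, ?_⟩
    · change (tow C y j).s j (UU C y j c) ∈ (tow C y j).G ((j + 1 : ℕ) : ℤ)
      rw [Nat.cast_succ]
      exact (tow C y j).sG _ _ _ h
    · change UU C y j c ∈ (tow C y j).G (((j + 1 : ℕ) : ℤ) - 1)
      rw [Nat.cast_succ, add_sub_cancel_right]
      exact h

theorem step_calc (D : OCx R) (y : ℕ → R) {j n : ℕ} (hj : j < n) (u z : D.E)
    (hu : D.d u = ∑ k ∈ Ico j n, y k • D.s k u + z) :
    (cone (y j) D).d (pr (y j) D (-(D.s j u)) (-u)) =
      ∑ k ∈ Ico (j + 1) n, y k • (cone (y j) D).s k (pr (y j) D (-(D.s j u)) (-u)) +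
        pr (y j) D (D.s j z) z := by
  have h1 : ∀ k, y k • (cone (y j) D).s k (pr (y j) D (-(D.s j u)) (-u)) =
      pr (y j) D (-(y k • D.s k (D.s j u))) (y k • D.s k u) := by
    intro k
    rw [pr_s, pr_smul, map_neg, map_neg, neg_neg, smul_neg]
  simp only [h1]
  rw [pr_sum, pr_add, pr_d, map_neg, map_neg, D.ds, hu, neg_neg,
    sum_eq_sum_Ico_succ_bot hj, map_add, map_add, map_sum, map_smul, D.ss, smul_zero,
    zero_add, smul_neg, sub_neg_eq_add, sum_neg_distrib]
  have h2 : ∀ k, D.s j (y k • D.s k u) = -(y k • D.s k (D.s j u)) := by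
    intro k
    rw [map_smul, D.sc j k, smul_neg]
  simp only [h2]
  rw [sum_neg_distrib]
  congr 1
  abel

theorem step_calc0 (D : OCx R) (y : ℕ → R) {j n : ℕ} (hj : j < n) (u : D.E)
    (hu : D.d u = ∑ k ∈ Ico j n, y k • D.s k u) :
    (cone (y j) D).d (pr (y j) D (D.s j u) u) =
      ∑ k ∈ Ico (j + 1) n, y k • (cone (y j) D).s k (pr (y j) D (D.s j u) u) := by
  have h := step_calc D y hj u 0 (by rw [add_zero]; exact hu)
  have h0 : pr (y j) D (-(D.s j u)) (-u) = -pr (y j) D (D.s j u) u := rfl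
  rw [map_zero, pr_zero, add_zero, h0, map_neg] at h
  have h1 : ∀ k, y k • (cone (y j) D).s k (-pr (y j) D (D.s j u) u) =
      -(y k • (cone (y j) D).s k (pr (y j) D (D.s j u) u)) := by
    intro k
    rw [map_neg, smul_neg]
  simp only [h1] at h
  rw [sum_neg_distrib, neg_inj] at h
  exact h

theorem step_base (D : OCx R) (y : ℕ → R) {j n : ℕ} (hj : j < n) (u : D.E)
    (hu : D.d u = ∑ k ∈ Ico j n, y k • D.s k u) :
    (cone (y j) D).d (pr (y j) D u 0) =
      ∑ k ∈ Ico (j + 1) n, y k • (cone (y j) D).s k (pr (y j) D u 0) +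
        y j • pr (y j) D (D.s j u) u := by
  have h1 : ∀ k, y k • (cone (y j) D).s k (pr (y j) D u 0) =
      pr (y j) D (y k • D.s k u) 0 := by
    intro k
    rw [pr_s, pr_smul, map_zero, neg_zero, smul_zero]
  simp only [h1]
  rw [pr_sum, pr_smul, pr_add, pr_d, map_zero, sub_zero, hu, sum_eq_sum_Ico_succ_bot hj,
    sum_const_zero, zero_add, add_comm]

theorem UU_d (C : OCx R) (y : ℕ → R) {n : ℕ} {c : C.E}
    (hc : C.d c = ∑ k ∈ range n, y k • C.s k c) :
    ∀ j ≤ n, (tow C y j).d (UU C y j c) = ∑ k ∈ Ico j n, y k • (tow C y j).s k (UU C y j c) := by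
  intro j
  induction j with
  | zero =>
    intro _
    rw [← range_eq_Ico]
    exact hc
  | succ j ih =>
    intro hj
    exact step_calc0 (tow C y j) y (Nat.lt_of_succ_le hj) (UU C y j c) (ih (by omega))

theorem UU_cob (C : OCx R) (y : ℕ → R) {n : ℕ} {c : C.E} (hc0 : c ∈ C.G 0)
    (hc : C.d c = ∑ k ∈ range n, y k • C.s k c) (i : ℕ) :
    ∀ j, i < j → j ≤ n → ∃ w ∈ (tow C y j).G ((j : ℤ) - 1),
      (tow C y j).d w = ∑ k ∈ Ico j n, y k • (tow C y j).s k w + y i • UU C y j c := by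
  intro j
  induction j with
  | zero => intro h; omega
  | succ j ih =>
    intro hij hj
    rcases Nat.lt_or_ge i j with h | h
    · obtain ⟨w, hw, hdw⟩ := ih h (by omega)
      have h2 := step_calc (tow C y j) y (Nat.lt_of_succ_le hj) w (y i • UU C y j c) hdw
      refine ⟨pr (y j) (tow C y j) (-((tow C y j).s j w)) (-w), ?_, ?_⟩
      · refine pr_G (y j) (tow C y j) _ (Submodule.neg_mem _ ?_) (Submodule.neg_mem _ ?_)
        · have := (tow C y j).sG j _ _ hw
          rw [sub_add_cancel] at this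
          rw [Nat.cast_succ, add_sub_cancel_right]
          exact this
        · rw [Nat.cast_succ, add_sub_cancel_right]
          exact hw
      · refine h2.trans ?_
        rw [map_smul]
        rfl
    · have hij' : i = j := by omega
      subst hij'
      refine ⟨pr (y i) (tow C y i) (UU C y i c) 0, ?_, ?_⟩
      · refine pr_G (y i) (tow C y i) _ ?_ (Submodule.zero_mem _)
        rw [Nat.cast_succ, add_sub_cancel_right]
        exact UU_mem C y hc0 i
      · exact step_base (tow C y i) y (Nat.lt_of_succ_le hj) (UU C y i c)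
          (UU_d C y hc i (by omega))

theorem UU_top_d (C : OCx R) (y : ℕ → R) {n : ℕ} {c : C.E}
    (hc : C.d c = ∑ k ∈ range n, y k • C.s k c) : (tow C y n).d (UU C y n c) = 0 := by
  rw [UU_d C y hc n (le_refl _), Ico_self, sum_empty]

theorem UU_top_cob (C : OCx R) (y : ℕ → R) {n : ℕ} {c : C.E} (hc0 : c ∈ C.G 0)
    (hc : C.d c = ∑ k ∈ range n, y k • C.s k c) {i : ℕ} (hi : i < n) :
    y i • UU C y n c ∈ (tow C y n).Bd n := by
  obtain ⟨w, hw, hdw⟩ := UU_cob C y hc0 hc i n hi (le_refl _)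
  rw [Ico_self, sum_empty, zero_add] at hdw
  exact ⟨w, hw, hdw⟩

/-- The top component of a coboundary lies in the ideal of the `y`'s. -/
theorem TT_cob (C : OCx R) (y : ℕ → R) (φ : C.E →ₗ[R] R) (hneg : ∀ a ∈ C.G (-1), a = 0)
    (I : Ideal R) :
    ∀ j : ℕ, (∀ i < j, y i ∈ I) → ∀ b ∈ (tow C y j).G ((j : ℤ) - 1),
      φ (TT C y j ((tow C y j).d b)) ∈ I := by
  intro j
  induction j with
  | zero =>
    intro _ b hb
    have hb' : b ∈ C.G (-1) := by
      have : ((0 : ℕ) : ℤ) - 1 = -1 := by norm_num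
      rw [this] at hb
      exact hb
    have h1 := hneg b hb'
    subst h1
    change φ (C.d 0) ∈ I
    rw [map_zero, map_zero]; exact I.zero_mem
  | succ j ih =>
    rintro hy ⟨a, b⟩ ⟨ha, hb⟩
    change φ (TT C y j (y j • a - (tow C y j).d b)) ∈ I
    rw [map_sub, map_smul, map_sub, map_smul]
    refine I.sub_mem (I.mul_mem_right _ (hy j (by omega))) (ih (fun i hi => hy i (by omega)) b ?_)
    have hb' : b ∈ (tow C y j).G (((j + 1 : ℕ) : ℤ) - 1 - 1) := hb
    rw [Nat.cast_succ, add_sub_cancel_right] at hb'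
    exact hb'

theorem UU_inj (C : OCx R) (y : ℕ → R) (φ : C.E →ₗ[R] R) (hneg : ∀ a ∈ C.G (-1), a = 0)
    (I : Ideal R) {n : ℕ} (hy : ∀ i < n, y i ∈ I) {c : C.E}
    (h : UU C y n c ∈ (tow C y n).Bd n) : φ c ∈ I := by
  obtain ⟨b, hb, hbc⟩ := h
  have h1 := TT_cob C y φ hneg I n hy b hb
  rw [hbc, TT_UU] at h1
  exact h1

theorem towF_UU {C C' : OCx R} {Q : ℕ} (Φ : FM C C' Q) (y : ℕ → R) (c : C.E) :
    ∀ j, (towF Φ y j).f (UU C y j c) = UU C' (fun k => y k ^ Q) j (Φ.f c)
  | 0 => rfl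
  | (j + 1) => by
    change ((towF Φ y j).f ((tow C y j).s j (UU C y j c)), (towF Φ y j).f (UU C y j c)) =
      ((tow C' (fun k => y k ^ Q) j).s j (UU C' (fun k => y k ^ Q) j (Φ.f c)),
        UU C' (fun k => y k ^ Q) j (Φ.f c))
    rw [(towF Φ y j).fs, towF_UU Φ y c j]

end R689FC
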