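import Pool.Agent.R689.FC2

/-! The Cech complex of a sequence of elements. -/

namespace R689FC

universe u

open Finset

section Cech

variable {R : Type u} [CommRing R] {d : ℕ} (x : Fin d → R)

/-- The localization `R_{x_B}` of `R` at the product of the `x i`, `i ∈ B`. -/
abbrev Loc (B : Finset (Fin d)) : Type u := Localization.Away (∏ i ∈ B, x i)

theorem isUnit_x {B : Finset (Fin d)} {i : Fin d} (hi : i ∈ B) :
    IsUnit (algebraMap R (Loc x B) (x i)) := by
  have h := IsLocalization.Away.algebraMap_isUnit (S := Loc x B) (∏ i ∈ B, x i)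
  exact isUnit_of_dvd_unit (map_dvd (algebraMap R (Loc x B)) (Finset.dvd_prod_of_mem x hi)) h

theorem isUnit_prod {B B' : Finset (Fin d)} (h : B ⊆ B') :
    IsUnit (algebraMap R (Loc x B') (∏ i ∈ B, x i)) := by
  have h1 := IsLocalization.Away.algebraMap_isUnit (S := Loc x B') (∏ i ∈ B', x i)
  exact isUnit_of_dvd_unit (map_dvd (algebraMap R (Loc x B'))
    (Finset.prod_dvd_prod_of_subset B B' x h)) h1

/-- The canonical map `R_{x_B} → R_{x_{B'}}` for `B ⊆ B'`. -/
noncomputable def rs {B B' : Finset (Fin d)} (h : B ⊆ B') : Loc x B →ₐ[R] Loc x B' :=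
  IsLocalization.liftAlgHom (M := Submonoid.powers (∏ i ∈ B, x i))
    (f := Algebra.ofId R (Loc x B')) (by
      rintro ⟨_, n, rfl⟩
      change IsUnit (algebraMap R (Loc x B') ((∏ i ∈ B, x i) ^ n))
      rw [map_pow]
      exact (isUnit_prod x h).pow n)

theorem algHom_eq {B : Finset (Fin d)} {A : Type*} [CommRing A] [Algebra R A]
    (f g : Loc x B →ₐ[R] A) : f = g := by
  have : Subsingleton (Loc x B →ₐ[R] A) :=
    IsLocalization.algHom_subsingleton (Submonoid.powers (∏ i ∈ B, x i))
  exact Subsingleton.elim f g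

theorem rs_rs {B₁ B₂ B₃ : Finset (Fin d)} (h₁ : B₁ ⊆ B₂) (h₂ : B₂ ⊆ B₃) (a : Loc x B₁) :
    rs x h₂ (rs x h₁ a) = rs x (h₁.trans h₂) a := by
  have h : (rs x h₂).comp (rs x h₁) = rs x (h₁.trans h₂) := algHom_eq x _ _
  exact DFunLike.congr_fun h a

/-- The Cech module `⨁_B R_{x_B}`; its part of degree `i` consists of the families supported on
the subsets `B` with `i` elements. -/
abbrev Cech : Type u := ∀ B : Finset (Fin d), Loc x B

noncomputable instance (priority := 2000) cechGrp : AddCommGroup (Cech x) :=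
  Pi.addCommGroup

noncomputable instance (priority := 2000) cechMod : Module R (Cech x) :=
  Pi.module (Finset (Fin d)) (fun B => Loc x B) R

theorem rs_congr (c : Cech x) {B₁ B₂ B : Finset (Fin d)} (e : B₁ = B₂) (h₁ : B₁ ⊆ B)
    (h₂ : B₂ ⊆ B) : rs x h₁ (c B₁) = rs x h₂ (c B₂) := by
  subst e; rfl

/-- The part of degree `i` of the Cech module. -/
def cechDeg (i : ℤ) : Submodule R (Cech x) where
  carrier := {c | ∀ B, (B.card : ℤ) ≠ i → c B = 0}
  zero_mem' := fun _ _ => rfl
  add_mem' := by
    intro a b ha hb B hB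
    rw [Pi.add_apply, ha B hB, hb B hB, add_zero]
  smul_mem' := by
    intro r a ha B hB
    rw [Pi.smul_apply, ha B hB, smul_zero]

/-- The sign `(-1)^{#{b ∈ B : b < j}}`. -/
def sg (R : Type u) [CommRing R] {d : ℕ} (j : Fin d) (B : Finset (Fin d)) : R :=
  (-1) ^ (B.filter (· < j)).card

/-- The differential of the Cech complex: the component at `B` of `∂c` is
`∑_{j ∈ B} (-1)^{#{b ∈ B : b < j}} c_{B ∖ j}|_{R_{x_B}}`. -/
noncomputable def cechD : Cech x →ₗ[R] Cech x where
  toFun c B := ∑ j ∈ B, sg R j B • rs x (B.erase_subset j) (c (B.erase j))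
  map_add' := by
    intro a b
    funext B
    rw [Pi.add_apply, ← sum_add_distrib]
    refine sum_congr rfl fun j _ => ?_
    rw [Pi.add_apply, map_add, smul_add]
  map_smul' := by
    intro r a
    funext B
    rw [RingHom.id_apply, Pi.smul_apply, smul_sum]
    refine sum_congr rfl fun j _ => ?_
    rw [Pi.smul_apply, map_smul, smul_comm]

/-- The operator `x_j^{-n} ε_j ∧`. -/
noncomputable def eps (n : ℕ) (j : Fin d) : Cech x →ₗ[R] Cech x where
  toFun c B := if j ∈ B then sg R j B • ((Ring.inverse (algebraMap R (Loc x B) (x j))) ^ n *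
    rs x (B.erase_subset j) (c (B.erase j))) else 0
  map_add' := by
    intro a b
    funext B
    by_cases h : j ∈ B
    · simp only [if_pos h, Pi.add_apply, map_add, mul_add, smul_add]
    · simp only [if_neg h, Pi.add_apply, add_zero]
  map_smul' := by
    intro r a
    funext B
    by_cases h : j ∈ B
    · simp only [if_pos h, Pi.smul_apply, RingHom.id_apply, map_smul]
      rw [mul_smul_comm, smul_comm]
    · simp only [if_neg h, Pi.smul_apply, smul_zero]

theorem eps_apply (n : ℕ) (j : Fin d) (c : Cech x) (B : Finset (Fin d)) :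
    eps x n j c B = if j ∈ B then sg R j B • ((Ring.inverse (algebraMap R (Loc x B) (x j))) ^ n *
    rs x (B.erase_subset j) (c (B.erase j))) else 0 := rfl

theorem cechD_eq_sum : cechD x = ∑ j, eps x 0 j := by
  refine LinearMap.ext fun c => ?_
  funext B
  rw [LinearMap.sum_apply, Finset.sum_apply]
  simp only [eps_apply, pow_zero, one_mul]
  rw [Finset.sum_ite_mem, Finset.univ_inter]
  rfl

theorem sg_anti {i j : Fin d} {B : Finset (Fin d)} (hi : i ∈ B) (hj : j ∈ B) (hij : i < j) :
    sg R i B * sg R j (B.erase i) = -(sg R j B * sg R i (B.erase j)) := by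
  unfold sg
  have h1 : ((B.erase i).filter (· < j)).card + 1 = (B.filter (· < j)).card := by
    rw [Finset.filter_erase, Finset.card_erase_add_one]
    exact mem_filter.mpr ⟨hi, hij⟩
  have h2 : (B.erase j).filter (· < i) = B.filter (· < i) := by
    rw [Finset.filter_erase, Finset.erase_eq_of_notMem]
    intro h
    exact absurd (mem_filter.mp h).2 (not_lt.mpr hij.le)
  rw [h2, ← h1, pow_succ]
  ring

theorem sg_anti' {i j : Fin d} {B : Finset (Fin d)} (hi : i ∈ B) (hj : j ∈ B) (hij : i ≠ j) :
    sg R i B * sg R j (B.erase i) = -(sg R j B * sg R i (B.erase j)) := by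
  rcases lt_or_gt_of_ne hij with h | h
  · exact sg_anti hi hj h
  · rw [sg_anti hj hi h, neg_neg]

theorem map_inverse {A A' : Type*} [CommRing A] [CommRing A'] (f : A →+* A') {a : A}
    (ha : IsUnit a) : f (Ring.inverse a) = Ring.inverse (f a) := by
  obtain ⟨u, rfl⟩ := ha
  rw [Ring.inverse_unit, show f (u : A) = ((Units.map (f : A →* A') u : A'ˣ) : A') from rfl,
    Ring.inverse_unit]
  rfl

theorem eps_eps (n m : ℕ) {i j : Fin d} (hij : i ≠ j) (c : Cech x) :
    eps x n i (eps x m j c) = - eps x m j (eps x n i c) := by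
  funext B
  rw [Pi.neg_apply, eps_apply, eps_apply, eps_apply, eps_apply]
  by_cases hi : i ∈ B
  · by_cases hj : j ∈ B
    · rw [if_pos hi, if_pos hj, if_pos (mem_erase.mpr ⟨hij.symm, hj⟩),
        if_pos (mem_erase.mpr ⟨hij, hi⟩), map_smul, map_smul, map_mul, map_mul, map_pow, map_pow,
        rs_rs, rs_rs]
      have e1 : rs x (B.erase_subset i) (Ring.inverse (algebraMap R (Loc x (B.erase i)) (x j))) =
          Ring.inverse (algebraMap R (Loc x B) (x j)) := by
        have := map_inverse (rs x (B.erase_subset i)).toRingHom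
          (isUnit_x x (mem_erase.mpr ⟨hij.symm, hj⟩ : j ∈ B.erase i))
        refine this.trans ?_
        congr 1
        exact (rs x (B.erase_subset i)).commutes (x j)
      have e2 : rs x (B.erase_subset j) (Ring.inverse (algebraMap R (Loc x (B.erase j)) (x i))) =
          Ring.inverse (algebraMap R (Loc x B) (x i)) := by
        have := map_inverse (rs x (B.erase_subset j)).toRingHom
          (isUnit_x x (mem_erase.mpr ⟨hij, hi⟩ : i ∈ B.erase j))
        refine this.trans ?_
        congr 1
        exact (rs x (B.erase_subset j)).commutes (x i)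
      rw [e1, e2, rs_congr x c (Finset.erase_right_comm : (B.erase i).erase j = (B.erase j).erase i)
        _ (((B.erase j).erase_subset i).trans (B.erase_subset j))]
      have hneg : ∀ (r : R) (m : Loc x B), (-r) • m = -(r • m) := fun r m => neg_smul r m
      rw [mul_smul_comm, smul_smul, mul_smul_comm, smul_smul, sg_anti' hi hj hij, hneg]
      congr 2
      ring
    · rw [if_pos hi, if_neg hj, if_neg (fun h => hj (mem_of_mem_erase h)), map_zero, mul_zero,
        smul_zero, neg_zero]
  · by_cases hj : j ∈ B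
    · rw [if_neg hi, if_pos hj, if_neg (fun h => hi (mem_of_mem_erase h)), map_zero, mul_zero,
        smul_zero, neg_zero]
    · rw [if_neg hi, if_neg hj, neg_zero]

theorem eps_self (n m : ℕ) (i : Fin d) (c : Cech x) : eps x n i (eps x m i c) = 0 := by
  funext B
  rw [eps_apply, eps_apply]
  by_cases hi : i ∈ B
  · rw [if_pos hi, if_neg (Finset.notMem_erase i B), map_zero, mul_zero, smul_zero]; rfl
  · rw [if_neg hi]; rfl

theorem eps_anti (n m : ℕ) (i j : Fin d) (c : Cech x) :
    eps x n i (eps x m j c) = - eps x m j (eps x n i c) := by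
  by_cases h : i = j
  · subst h; rw [eps_self, eps_self, neg_zero]
  · exact eps_eps x n m h c

theorem eps_deg (n : ℕ) (j : Fin d) (i : ℤ) {c : Cech x} (hc : c ∈ cechDeg x i) :
    eps x n j c ∈ cechDeg x (i + 1) := by
  intro B hB
  rw [eps_apply]
  by_cases hj : j ∈ B
  · rw [if_pos hj, hc (B.erase j), map_zero, mul_zero, smul_zero]
    intro h
    apply hB
    rw [← h, ← Finset.card_erase_add_one hj]
    push_cast; rfl
  · rw [if_neg hj]

theorem x_eps (n : ℕ) (j : Fin d) (c : Cech x) : x j ^ n • eps x n j c = eps x 0 j c := by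
  funext B
  rw [Pi.smul_apply, eps_apply, eps_apply]
  by_cases hj : j ∈ B
  · rw [if_pos hj, if_pos hj, smul_comm, ← smul_mul_assoc,
      Algebra.smul_def (x j ^ n), map_pow, ← mul_pow,
      Ring.mul_inverse_cancel _ (isUnit_x x hj), one_pow, pow_zero]
  · rw [if_neg hj, if_neg hj, smul_zero]

/-- The Cech complex with the operators `x_j^{-n} ε_j ∧`. -/
noncomputable def CC (n : ℕ) : OCx R where
  E := Cech x
  G := cechDeg x
  d := cechD x
  s j := if h : j < d then eps x n ⟨j, h⟩ else 0
  dG := by
    intro i a ha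
    rw [cechD_eq_sum, LinearMap.sum_apply]
    exact Submodule.sum_mem _ fun j _ => eps_deg x 0 j i ha
  sG := by
    intro j i a ha
    by_cases h : j < d
    · rw [dif_pos h]; exact eps_deg x n _ i ha
    · rw [dif_neg h]; exact Submodule.zero_mem _
  dd := by
    intro a
    rw [cechD_eq_sum, LinearMap.sum_apply]
    simp only [LinearMap.sum_apply, map_sum]
    -- antisymmetric double sum with zero diagonal
    have key : ∀ S : Finset (Fin d), ∑ i ∈ S, ∑ j ∈ S, eps x 0 i (eps x 0 j a) = 0 := by
      intro S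
      induction S using Finset.induction_on with
      | empty => rfl
      | insert k S hk ih =>
        rw [sum_insert hk, sum_insert hk, eps_self, zero_add]
        have h1 : ∀ i, ∑ j ∈ insert k S, eps x 0 i (eps x 0 j a) =
            eps x 0 i (eps x 0 k a) + ∑ j ∈ S, eps x 0 i (eps x 0 j a) :=
          fun i => sum_insert hk
        simp only [h1]
        rw [sum_add_distrib, ih, add_zero, ← sum_add_distrib]
        refine sum_eq_zero fun i _ => ?_
        rw [eps_anti x 0 0 i k, add_neg_cancel]
    exact key univ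
  ds := by
    intro j a
    by_cases h : j < d
    · rw [dif_pos h, cechD_eq_sum, LinearMap.sum_apply, LinearMap.sum_apply, map_sum,
        ← sum_neg_distrib]
      exact sum_congr rfl fun i _ => eps_anti x 0 n i ⟨j, h⟩ a
    · rw [dif_neg h, LinearMap.zero_apply, LinearMap.zero_apply, map_zero, neg_zero]
  ss := by
    intro j a
    by_cases h : j < d
    · rw [dif_pos h]; exact eps_self x n n _ a
    · rw [dif_neg h]; rfl
  sc := by
    intro j k a
    by_cases hj : j < d
    · by_cases hk : k < d
      · rw [dif_pos hj, dif_pos hk]; exact eps_anti x n n _ _ a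
      · rw [dif_pos hj, dif_neg hk, LinearMap.zero_apply, LinearMap.zero_apply, map_zero, neg_zero]
    · by_cases hk : k < d
      · rw [dif_neg hj, dif_pos hk, LinearMap.zero_apply, LinearMap.zero_apply, map_zero, neg_zero]
      · rw [dif_neg hj, dif_neg hk, LinearMap.zero_apply, neg_zero]

/-- The sequence `x_0^n, ..., x_{d-1}^n, 0, ...`. -/
noncomputable def yy (n : ℕ) (k : ℕ) : R := if h : k < d then x ⟨k, h⟩ ^ n else 0

theorem CC_base (n : ℕ) (c : Cech x) :
    (CC x n).d c = ∑ k ∈ range d, yy x n k • (CC x n).s k c := by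
  rw [Finset.sum_range]
  change cechD x c = _
  rw [cechD_eq_sum, LinearMap.sum_apply]
  refine sum_congr rfl fun j _ => ?_
  have h1 : yy x n (j : ℕ) = x j ^ n := by
    unfold yy; rw [dif_pos j.2]
  have h2 : (CC x n).s (j : ℕ) = eps x n j := by
    change (if h : (j : ℕ) < d then eps x n ⟨j, h⟩ else 0) = _
    rw [dif_pos j.2]
  rw [h1, h2]
  exact (x_eps x n j c).symm

theorem CC_neg (n : ℕ) {i : ℤ} (hi : i < 0) : ∀ a ∈ (CC x n).G i, a = 0 := by
  intro a ha
  funext B
  exact ha B (by have := Int.natCast_nonneg B.card; omega)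

/-- Powers are additive when `p = 0`. -/
theorem pow_add_of_zero {A : Type*} [CommRing A] {p : ℕ} (hp : p.Prime) (h0 : (p : A) = 0)
    (a b : A) (e : ℕ) : (a + b) ^ p ^ e = a ^ p ^ e + b ^ p ^ e := by
  obtain ⟨r, hr⟩ := exists_add_pow_prime_pow_eq hp a b e
  rw [hr, h0]
  ring

variable (p : ℕ) [hp : Fact p.Prime] [CharP R p]

/-- The `e`-th iterate of the Frobenius action on the Cech module: componentwise `p^e`-th
powers. -/
noncomputable def frobC (e : ℕ) : Cech x →+ Cech x where
  toFun c B := c B ^ p ^ e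
  map_zero' := by
    funext B
    exact zero_pow (pow_ne_zero _ hp.out.ne_zero)
  map_add' := by
    intro a b
    funext B
    refine pow_add_of_zero hp.out ?_ _ _ e
    rw [← map_natCast (algebraMap R (Loc x B)), CharP.cast_eq_zero, map_zero]

theorem frobC_apply (e : ℕ) (c : Cech x) (B : Finset (Fin d)) : frobC x p e c B = c B ^ p ^ e :=
  rfl

omit hp [CharP R p] in
theorem sg_pow [Fact p.Prime] [CharP R p] (e : ℕ) (j : Fin d) (B : Finset (Fin d)) :
    sg R j B ^ p ^ e = sg R j B := by
  unfold sg
  rw [← pow_mul, mul_comm, pow_mul, neg_one_pow_char_pow]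

theorem frobC_eps (e n : ℕ) (j : Fin d) (c : Cech x) :
    frobC x p e (eps x n j c) = eps x (n * p ^ e) j (frobC x p e c) := by
  funext B
  rw [frobC_apply, eps_apply, eps_apply]
  by_cases hj : j ∈ B
  · rw [if_pos hj, if_pos hj, smul_pow, sg_pow, mul_pow, ← pow_mul, frobC_apply, map_pow]
  · rw [if_neg hj, if_neg hj, zero_pow (pow_ne_zero _ hp.out.ne_zero)]

theorem frobC_D (e : ℕ) (a : Cech x) : frobC x p e (cechD x a) = cechD x (frobC x p e a) := by
  rw [cechD_eq_sum, LinearMap.sum_apply, LinearMap.sum_apply, map_sum]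
  refine sum_congr rfl fun j _ => ?_
  rw [frobC_eps, zero_mul]

theorem frobC_deg (e : ℕ) (i : ℤ) {a : Cech x} (ha : a ∈ cechDeg x i) :
    frobC x p e a ∈ cechDeg x i := by
  intro B hB
  rw [frobC_apply, ha B hB, zero_pow (pow_ne_zero _ hp.out.ne_zero)]

theorem frobC_smul (e : ℕ) (r : R) (a : Cech x) :
    frobC x p e (r • a) = r ^ p ^ e • frobC x p e a := by
  funext B
  change (r • a B) ^ p ^ e = r ^ p ^ e • a B ^ p ^ e
  rw [smul_pow]

theorem frobC_s (e : ℕ) (j : ℕ) (a : Cech x) :
    frobC x p e ((if h : j < d then eps x 1 ⟨j, h⟩ else 0) a) =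
      (if h : j < d then eps x (p ^ e) ⟨j, h⟩ else 0) (frobC x p e a) := by
  by_cases h : j < d
  · rw [dif_pos h, dif_pos h, frobC_eps, one_mul]
  · rw [dif_neg h, dif_neg h, LinearMap.zero_apply, LinearMap.zero_apply, map_zero]

/-- Frobenius as a semilinear map of complexes. -/
noncomputable def FF (e : ℕ) : FM (CC x 1) (CC x (p ^ e)) (p ^ e) where
  f := frobC x p e
  fr := frobC_smul x p e
  fG := fun i _ ha => frobC_deg x p e i ha
  fd := frobC_D x p e
  fs := frobC_s x p e

end Cech

end R689FC
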