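import Pool.Agent.R689.FC3

/-! Local cohomology by the Cech complex, its Frobenius action, Frobenius closure, and the length
inequality. -/

namespace R689FC

universe u

open Finset

section defs

variable {R : Type u} [CommRing R] {d : ℕ} (x : Fin d → R)

/-- Cocycles of degree `i` of the Cech complex. -/
noncomputable def cocyc (i : ℤ) : Submodule R (Cech x) := LinearMap.ker (cechD x) ⊓ cechDeg x i

/-- Coboundaries of degree `i` of the Cech complex. -/
noncomputable def cobound (i : ℤ) : Submodule R (Cech x) := (cechDeg x (i - 1)).map (cechD x)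

variable (p : ℕ) [hp : Fact p.Prime] [CharP R p]

theorem frob_mem_cobound (e : ℕ) (i : ℤ) {c : Cech x} (hc : c ∈ cobound x i) :
    frobC x p e c ∈ cobound x i := by
  obtain ⟨b, hb, rfl⟩ := hc
  exact ⟨frobC x p e b, frobC_deg x p e _ hb, (frobC_D x p e b).symm⟩

theorem frobC_frobC (e f : ℕ) (c : Cech x) :
    frobC x p e (frobC x p f c) = frobC x p (f + e) c := by
  funext B
  rw [frobC_apply, frobC_apply, frobC_apply, ← pow_mul, ← pow_add]

theorem frob_cobound_mono {e f : ℕ} (h : e ≤ f) (i : ℤ) {c : Cech x}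
    (hc : frobC x p e c ∈ cobound x i) : frobC x p f c ∈ cobound x i := by
  obtain ⟨m, rfl⟩ := Nat.exists_eq_add_of_le h
  rw [← frobC_frobC]
  exact frob_mem_cobound x p m i hc

theorem nil_add (i : ℤ) {a b : Cech x} (ha : ∃ e, frobC x p e a ∈ cobound x i)
    (hb : ∃ e, frobC x p e b ∈ cobound x i) : ∃ e, frobC x p e (a + b) ∈ cobound x i := by
  obtain ⟨e, he⟩ := ha
  obtain ⟨f, hf⟩ := hb
  refine ⟨max e f, ?_⟩
  rw [map_add]
  exact Submodule.add_mem _ (frob_cobound_mono x p (le_max_left _ _) i he)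
    (frob_cobound_mono x p (le_max_right _ _) i hf)

theorem nil_zero (i : ℤ) : ∃ e, frobC x p e 0 ∈ cobound x i :=
  ⟨0, by rw [map_zero]; exact Submodule.zero_mem _⟩

theorem nil_smul (i : ℤ) (r : R) {a : Cech x} (ha : ∃ e, frobC x p e a ∈ cobound x i) :
    ∃ e, frobC x p e (r • a) ∈ cobound x i := by
  obtain ⟨e, he⟩ := ha
  exact ⟨e, by rw [frobC_smul]; exact Submodule.smul_mem _ _ he⟩

/-- The cocycles `c` of degree `i` whose class is killed by a power of Frobenius: for some `e`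
the componentwise `p^e`-th power of `c` is a coboundary. -/
noncomputable def nilCocyc (i : ℤ) : Submodule R (Cech x) where
  carrier := {c | c ∈ cocyc x i ∧ ∃ e : ℕ, frobC x p e c ∈ cobound x i}
  zero_mem' := ⟨Submodule.zero_mem _, nil_zero x p i⟩
  add_mem' := fun ha hb => ⟨Submodule.add_mem _ ha.1 hb.1, nil_add x p i ha.2 hb.2⟩
  smul_mem' := fun r _ ha => ⟨Submodule.smul_mem _ r ha.1, nil_smul x p i r ha.2⟩

theorem rlen_Pn_le (e : ℕ) (i : ℕ) :
    rlen (Pn (FF x p e) i) ((CC x 1).Bd i) ≤ rlen (nilCocyc x p i) (cobound x i) := by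
  refine rlen_le_of_inj (LinearMap.id : Cech x →ₗ[R] Cech x) ?_ (fun z hz => hz)
    (fun z _ hz => hz)
  intro z hz
  exact ⟨⟨LinearMap.mem_ker.mpr hz.2.1, hz.1⟩, ⟨e, hz.2.2⟩⟩

end defs

section closure

variable {R : Type u} [CommRing R] (p : ℕ) [hp : Fact p.Prime] [CharP R p]

/-- The Frobenius power `q^{[p^e]}`, the ideal generated by the `p^e`-th powers of the elements
of `q`. -/
def frobPow (e : ℕ) (q : Ideal R) : Ideal R := Ideal.span ((fun a => a ^ p ^ e) '' (q : Set R))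

theorem frobPow_eq (e : ℕ) (q : Ideal R) :
    frobPow p e q = q.map (iterateFrobenius R p e) := rfl

/-- The ideal of the elements whose `p^e`-th power lies in `q^{[p^e]}`. -/
def frobK (q : Ideal R) (e : ℕ) : Ideal R := (frobPow p e q).comap (iterateFrobenius R p e)

theorem mem_frobK {q : Ideal R} {e : ℕ} {r : R} : r ∈ frobK p q e ↔ r ^ p ^ e ∈ frobPow p e q :=
  Iff.rfl

theorem frobK_mono (q : Ideal R) : Monotone (frobK p q) := by
  refine monotone_nat_of_le_succ fun e r hr => ?_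
  rw [mem_frobK] at hr ⊢
  have h1 : (r ^ p ^ e) ^ p ∈ (frobPow p e q).map (frobenius R p) := Ideal.mem_map_of_mem _ hr
  rw [pow_succ, pow_mul]
  have h2 : (frobPow p e q).map (frobenius R p) ≤ frobPow p (e + 1) q := by
    rw [Ideal.map_le_iff_le_comap]
    refine Ideal.span_le.mpr ?_
    rintro _ ⟨a, ha, rfl⟩
    change (a ^ p ^ e) ^ p ∈ frobPow p (e + 1) q
    rw [← pow_mul, ← pow_succ]
    exact Ideal.subset_span ⟨a, ha, rfl⟩
  exact h2 h1

/-- The Frobenius closure `q^F` of `q`. -/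
def frobClosure (q : Ideal R) : Ideal R where
  carrier := {r | ∃ e : ℕ, r ^ p ^ e ∈ frobPow p e q}
  zero_mem' := ⟨0, by rw [pow_zero, pow_one]; exact Ideal.zero_mem _⟩
  add_mem' := by
    rintro a b ⟨e, he⟩ ⟨f, hf⟩
    exact ⟨max e f, (frobK p q (max e f)).add_mem (frobK_mono p q (le_max_left e f) he)
      (frobK_mono p q (le_max_right e f) hf)⟩
  smul_mem' := by
    rintro r a ⟨e, he⟩
    exact ⟨e, (frobK p q e).mul_mem_left r he⟩

theorem frobClosure_eq [IsNoetherianRing R] (q : Ideal R) :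
    ∃ n, ∀ m, n ≤ m → frobClosure p q = frobK p q m := by
  obtain ⟨n, hn⟩ := monotone_stabilizes_iff_noetherian.mpr (inferInstance : IsNoetherian R R)
    ⟨frobK p q, frobK_mono p q⟩
  refine ⟨n, fun m hm => le_antisymm ?_ (fun r hr => ⟨m, hr⟩)⟩
  rintro r ⟨e, he⟩
  have h1 : r ∈ frobK p q (max e n) := frobK_mono p q (le_max_left e n) he
  have h2 : frobK p q n = frobK p q (max e n) := hn _ (le_max_right e n)
  have h3 : frobK p q n = frobK p q m := hn _ hm
  rw [← h3, h2]
  exact h1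

theorem frobPow_span (e : ℕ) {d : ℕ} (x : Fin d → R) :
    frobPow p e (Ideal.span (Set.range x)) ≤ Ideal.span (Set.range fun j => x j ^ p ^ e) := by
  rw [frobPow_eq, Ideal.map_span]
  refine Ideal.span_mono ?_
  rintro _ ⟨_, ⟨j, rfl⟩, rfl⟩
  exact ⟨j, rfl⟩

end closure

section kill

variable {R : Type u} [CommRing R] [IsLocalRing R]

theorem exists_pow_kill {M : Type*} [AddCommGroup M] [Module R M] (h : Module.length R M ≠ ⊤)
    {v : R} (hv : v ∈ IsLocalRing.maximalIdeal R) : ∃ N : ℕ, ∀ a : M, v ^ N • a = 0 := by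
  rw [Module.length_ne_top_iff, isFiniteLength_iff_isNoetherian_isArtinian] at h
  obtain ⟨h1, h2⟩ := h
  let I : Ideal R := Ideal.span {v}
  obtain ⟨n, hn⟩ := IsArtinian.monotone_stabilizes (R := R) (M := M)
    ⟨fun n => OrderDual.toDual (I ^ n • (⊤ : Submodule R M)), fun a b hab =>
      Submodule.smul_mono_left (Ideal.pow_le_pow_right hab)⟩
  have h3 : I ^ n • (⊤ : Submodule R M) = I ^ (n + 1) • (⊤ : Submodule R M) :=
    hn (n + 1) (Nat.le_succ n)
  have h4 : I ^ n • (⊤ : Submodule R M) = ⊥ := by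
    refine Submodule.eq_bot_of_le_smul_of_le_jacobson_bot I _ (IsNoetherian.noetherian _) ?_ ?_
    · rw [← Submodule.mul_smul, ← pow_succ', ← h3]
    · rw [IsLocalRing.jacobson_eq_maximalIdeal _ bot_ne_top]
      exact (Ideal.span_singleton_le_iff_mem _).mpr hv
  refine ⟨n, fun a => ?_⟩
  have h5 : v ^ n • a ∈ I ^ n • (⊤ : Submodule R M) :=
    Submodule.smul_mem_smul (Ideal.pow_mem_pow (Ideal.mem_span_singleton_self v) n) trivial
  rw [h4] at h5
  exact (Submodule.mem_bot R).mp h5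

end kill

section main

variable {R : Type u} [CommRing R] {d : ℕ} (x : Fin d → R)

/-- The element `1` in degree zero. -/
noncomputable def dl : Cech x := Pi.single ∅ 1

theorem dl_mem (r : R) : r • dl x ∈ cechDeg x 0 := by
  intro B hB
  have hB' : B ≠ ∅ := by rintro rfl; exact hB rfl
  rw [Pi.smul_apply, dl, Pi.single_eq_of_ne hB', smul_zero]

theorem dl_frob (p : ℕ) [hp : Fact p.Prime] [CharP R p] (e : ℕ) : frobC x p e (dl x) = dl x := by
  funext B
  rw [frobC_apply]
  by_cases h : B = ∅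
  · subst h; rw [dl, Pi.single_eq_same, one_pow]
  · rw [dl, Pi.single_eq_of_ne h, zero_pow (pow_ne_zero _ hp.out.ne_zero)]

theorem unit0 : Submonoid.powers (∏ i ∈ (∅ : Finset (Fin d)), x i) ≤ IsUnit.submonoid R := by
  intro r hr
  obtain ⟨n, rfl⟩ := hr
  rw [Finset.prod_empty]
  change IsUnit ((1 : R) ^ n)
  rw [one_pow]
  exact isUnit_one

/-- The projection onto the degree zero component. -/
noncomputable def pj : Cech x →ₗ[R] R :=
  (IsLocalization.atUnits R (Submonoid.powers (∏ i ∈ (∅ : Finset (Fin d)), x i))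
    (S := Loc x ∅) (unit0 x)).symm.toLinearMap ∘ₗ LinearMap.proj ∅

theorem pj_dl (r : R) : pj x (r • dl x) = r := by
  rw [map_smul]
  have : pj x (dl x) = 1 := by
    change (IsLocalization.atUnits R (Submonoid.powers (∏ i ∈ (∅ : Finset (Fin d)), x i))
      (S := Loc x ∅) (unit0 x)).symm (dl x ∅) = 1
    rw [dl, Pi.single_eq_same, map_one]
  rw [this, smul_eq_mul, mul_one]

theorem yy_lt (n : ℕ) (j : Fin d) : yy x n (j : ℕ) = x j ^ n := by
  unfold yy; rw [dif_pos j.2]

theorem yy_pow {n : ℕ} (hn : n ≠ 0) : (fun k => yy x 1 k ^ n) = yy x n := by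
  funext k
  unfold yy
  by_cases h : k < d
  · rw [dif_pos h, dif_pos h, pow_one]
  · rw [dif_neg h, dif_neg h, zero_pow hn]

/-- The linear map `r ↦ r ∏ (e_j + σ_j)`. -/
noncomputable def ul (n : ℕ) (y : ℕ → R) : R →ₗ[R] (tow (CC x n) y d).E :=
  UU (CC x n) y d ∘ₗ LinearMap.toSpanSingleton R (Cech x) (dl x)

theorem ul_apply (n : ℕ) (y : ℕ → R) (r : R) : ul x n y r = UU (CC x n) y d (r • dl x) := rfl

theorem ul_cob (n : ℕ) (r : R) (hr : r ∈ Ideal.span (Set.range fun j => x j ^ n)) :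
    ul x n (yy x n) r ∈ (tow (CC x n) (yy x n) d).Bd d := by
  have h : Ideal.span (Set.range fun j => x j ^ n) ≤
      Submodule.comap (ul x n (yy x n)) ((tow (CC x n) (yy x n) d).Bd d) := by
    refine Ideal.span_le.mpr ?_
    rintro _ ⟨j, rfl⟩
    change ul x n (yy x n) (x j ^ n) ∈ (tow (CC x n) (yy x n) d).Bd d
    have h1 := UU_top_cob (CC x n) (yy x n) (n := d) (c := (dl x)) (by
      have := dl_mem x 1
      rw [one_smul] at this
      exact this) (CC_base x n _) j.2
    rw [ul_apply]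
    have h2 : UU (CC x n) (yy x n) d (x j ^ n • dl x) =
        x j ^ n • UU (CC x n) (yy x n) d (dl x) := map_smul (UU (CC x n) (yy x n) d) _ _
    rw [h2, ← yy_lt x n j]
    exact h1
  exact h hr

end main

theorem main_ineq {R : Type u} [CommRing R] [IsNoetherianRing R] [IsLocalRing R] (p : ℕ)
    [hp : Fact p.Prime] [CharP R p] {d : ℕ} (x : Fin d → R)
    (hx : ∀ j, x j ∈ IsLocalRing.maximalIdeal R)
    (hgcm : ∀ i < d, rlen (cocyc x i) (cobound x i) ≠ ⊤) :
    rlen (frobClosure p (Ideal.span (Set.range x))) (Ideal.span (Set.range x)) ≤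
      ∑ i ∈ range (d + 1), (d.choose i : ℕ∞) * rlen (nilCocyc x p i) (cobound x i) := by
  classical
  set q : Ideal R := Ideal.span (Set.range x) with hq
  obtain ⟨n₀, hn₀⟩ := frobClosure_eq p q
  -- a uniform killing exponent
  have hN : ∃ N : ℕ, ∀ j : Fin d, ∀ i < d,
      ∀ a : cocyc x i ⧸ (cobound x i).submoduleOf (cocyc x i), x j ^ N • a = 0 := by
    have h1 : ∀ j : Fin d, ∀ i : Fin d, ∃ N : ℕ,
        ∀ a : cocyc x i ⧸ (cobound x i).submoduleOf (cocyc x i), x j ^ N • a = 0 :=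
      fun j i => exists_pow_kill (hgcm i i.2) (hx j)
    choose N hN using h1
    refine ⟨∑ j, ∑ i, N j i, fun j i hi a => ?_⟩
    have h2 : N j ⟨i, hi⟩ ≤ ∑ j, ∑ i, N j i :=
      (Finset.single_le_sum (f := fun i => N j i) (fun _ _ => Nat.zero_le _)
        (mem_univ (⟨i, hi⟩ : Fin d))).trans
        (Finset.single_le_sum (f := fun j => ∑ i, N j i) (fun _ _ => Nat.zero_le _) (mem_univ j))
    obtain ⟨m, hm⟩ := Nat.exists_eq_add_of_le h2
    rw [hm, pow_add, mul_comm, mul_smul, hN j ⟨i, hi⟩ a, smul_zero]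
  obtain ⟨N, hN⟩ := hN
  obtain ⟨e, he1, he2⟩ : ∃ e, n₀ ≤ e ∧ N * 2 ^ d ≤ p ^ e := by
    refine ⟨max n₀ (N * 2 ^ d), le_max_left _ _, ?_⟩
    exact (le_max_right n₀ _).trans (Nat.lt_pow_self hp.out.one_lt).le
  have hQ : p ^ e ≠ 0 := pow_ne_zero _ hp.out.ne_zero
  rw [hn₀ e he1]
  -- killing
  have hKl : ∀ n : ℕ, ∀ j : Fin d, ∀ i < (d : ℤ), Kl (CC x n) (x j ^ N) i := by
    intro n j i hi a ha hda
    rcases lt_or_ge i 0 with h0 | h0
    · rw [CC_neg x n h0 a ha, smul_zero]; exact Submodule.zero_mem _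
    · obtain ⟨i', rfl⟩ := Int.eq_ofNat_of_zero_le h0
      have h1 : (⟨a, ⟨LinearMap.mem_ker.mpr hda, ha⟩⟩ : cocyc x i') = ⟨a, _⟩ := rfl
      have h2 := hN j i' (by exact_mod_cast hi)
        (Submodule.Quotient.mk ⟨a, ⟨LinearMap.mem_ker.mpr hda, ha⟩⟩)
      rw [← Submodule.Quotient.mk_smul, Submodule.Quotient.mk_eq_zero] at h2
      exact h2
  have hk : ∀ j < d, ∀ i < (d : ℤ),
      Kl (tow (CC x (p ^ e)) (fun k => yy x 1 k ^ p ^ e) j) (yy x 1 j ^ p ^ e) i := by
    intro j hj i hi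
    have h1 := Kl_tow (C := CC x (p ^ e)) (fun k => yy x 1 k ^ p ^ e)
      (fun i hi => hKl (p ^ e) ⟨j, hj⟩ i hi) j i hi
    have h2 : N * 2 ^ j ≤ p ^ e :=
      (Nat.mul_le_mul_left N (Nat.pow_le_pow_right (by norm_num) hj.le)).trans he2
    obtain ⟨m, hm⟩ := Nat.exists_eq_add_of_le' h2
    have h3 : yy x 1 j ^ p ^ e = x ⟨j, hj⟩ ^ m * (x ⟨j, hj⟩ ^ N) ^ 2 ^ j := by
      have : yy x 1 j = x ⟨j, hj⟩ := by
        have := yy_lt x 1 ⟨j, hj⟩
        rw [pow_one] at this
        exact this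
      rw [this, hm, pow_add, pow_mul]
    rw [h3]
    exact h1.mul _
  have hmain := rlen_tow (FF x p e) (yy x 1) hk d (le_refl _) d (le_refl _)
  -- the left hand side
  have hL : rlen (frobK p q e) q ≤
      rlen (Pn (towF (FF x p e) (yy x 1) d) d) ((tow (CC x 1) (yy x 1) d).Bd d) := by
    have hq1 : q = Ideal.span (Set.range fun j => x j ^ 1) := by simp only [pow_one, hq]
    refine rlen_le_of_inj (ul x 1 (yy x 1)) ?_ ?_ ?_
    · intro z hz
      refine ⟨UU_mem _ _ (dl_mem x z) d, UU_top_d _ _ (CC_base x 1 _), ?_⟩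
      have h1 : (towF (FF x p e) (yy x 1) d).f (ul x 1 (yy x 1) z) =
          UU (CC x (p ^ e)) (fun k => yy x 1 k ^ p ^ e) d (frobC x p e (z • dl x)) :=
        towF_UU (FF x p e) (yy x 1) (z • dl x : Cech x) d
      rw [h1, frobC_smul, dl_frob, yy_pow x hQ]
      exact ul_cob x (p ^ e) _ (frobPow_span p e x ((mem_frobK p).mp hz))
    · intro z hz
      refine ul_cob x 1 z ?_
      rw [← hq1]; exact hz
    · intro z _ hz
      have h1 := UU_inj (CC x 1) (yy x 1) (pj x) (CC_neg x 1 (by norm_num)) q (n := d) (by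
        intro i hi
        have := yy_lt x 1 ⟨i, hi⟩
        rw [pow_one] at this
        change yy x 1 i ∈ q
        have h2 : yy x 1 i = x ⟨i, hi⟩ := this
        rw [h2]
        exact Ideal.subset_span ⟨_, rfl⟩) hz
      rw [← pj_dl x z]
      exact h1
  refine hL.trans (hmain.trans ?_)
  -- the right hand side
  rw [← Finset.sum_range_reflect (fun i => (d.choose i : ℕ∞) * rlen (nilCocyc x p i) (cobound x i))]
  refine sum_le_sum fun k hk' => ?_
  have hkd : k ≤ d := Nat.lt_succ_iff.mp (mem_range.mp hk')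
  have h1 : d + 1 - 1 - k = d - k := by omega
  have h2 : (d : ℤ) - (k : ℤ) = ((d - k : ℕ) : ℤ) := by omega
  rw [h1, Nat.choose_symm hkd, h2]
  exact mul_le_mul_right (rlen_Pn_le x p e (d - k)) _

end R689FC
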