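import Mathlib

/-!
Products of linear forms `x - a_i z`, `y - a_j z` and the staircase Nullstellensatz.
-/

set_option autoImplicit false

namespace Pool.Agent.R689.JP

open MvPolynomial

/-- the polynomial ring `ℂ[x,y,z]` -/
abbrev S := MvPolynomial (Fin 3) ℂ

/-- the linear form `x - a_i z` -/
noncomputable def Lf (a : ℕ → ℂ) (i : ℕ) : S := X 0 - C (a i) * X 2

/-- the linear form `y - a_j z` -/
noncomputable def Rf (a : ℕ → ℂ) (j : ℕ) : S := X 1 - C (a j) * X 2

/-- restriction to the line over the point `(a_i, a_j)` -/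
noncomputable def ev (a : ℕ → ℂ) (i j : ℕ) : S →ₐ[ℂ] S :=
  aeval ![C (a i) * X 2, C (a j) * X 2, X 2]

lemma ev_X0 (a : ℕ → ℂ) (i j : ℕ) : ev a i j (X 0) = C (a i) * X 2 := by
  simp [ev]

lemma ev_X1 (a : ℕ → ℂ) (i j : ℕ) : ev a i j (X 1) = C (a j) * X 2 := by
  simp [ev]

lemma ev_X2 (a : ℕ → ℂ) (i j : ℕ) : ev a i j (X 2) = X 2 := by
  simp [ev]

lemma ev_C (a : ℕ → ℂ) (i j : ℕ) (c : ℂ) : ev a i j (C c) = C c := by
  simp [ev]

lemma ev_L (a : ℕ → ℂ) (i j i' : ℕ) : ev a i j (Lf a i') = C (a i - a i') * X 2 := by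
  rw [Lf, map_sub, map_mul, ev_X0, ev_C, ev_X2, C_sub]; ring

lemma ev_R (a : ℕ → ℂ) (i j j' : ℕ) : ev a i j (Rf a j') = C (a j - a j') * X 2 := by
  rw [Rf, map_sub, map_mul, ev_X1, ev_C, ev_X2, C_sub]; ring

lemma CX_ne {c : ℂ} (hc : c ≠ 0) : (C c * X 2 : S) ≠ 0 :=
  mul_ne_zero (by simpa using hc) (X_ne_zero 2)

lemma ev_L_ne {a : ℕ → ℂ} (ha : Function.Injective a) {i i' : ℕ} (j : ℕ) (h : i ≠ i') :
    ev a i j (Lf a i') ≠ 0 := by
  rw [ev_L]
  exact CX_ne (sub_ne_zero.2 fun e => h (ha e))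

lemma ev_R_ne {a : ℕ → ℂ} (ha : Function.Injective a) {j j' : ℕ} (i : ℕ) (h : j ≠ j') :
    ev a i j (Rf a j') ≠ 0 := by
  rw [ev_R]
  exact CX_ne (sub_ne_zero.2 fun e => h (ha e))

lemma ev_L_self (a : ℕ → ℂ) (i j : ℕ) : ev a i j (Lf a i) = 0 := by
  rw [ev_L]; simp

lemma ev_R_self (a : ℕ → ℂ) (i j : ℕ) : ev a i j (Rf a j) = 0 := by
  rw [ev_R]; simp

/-- the kernel of the evaluation at a point -/
lemma exists_of_ev {a : ℕ → ℂ} {i j : ℕ} {F : S} (h : ev a i j F = 0) :
    ∃ A B : S, F = Lf a i * A + Rf a j * B := by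
  set I : Ideal S := Ideal.span {Lf a i, Rf a j} with hI
  have h1 : (Ideal.Quotient.mkₐ ℂ I).comp (ev a i j) = Ideal.Quotient.mkₐ ℂ I := by
    apply MvPolynomial.algHom_ext
    intro n
    fin_cases n
    · change Ideal.Quotient.mk I (ev a i j (X 0)) = Ideal.Quotient.mk I (X 0)
      rw [ev_X0, eq_comm, Ideal.Quotient.eq]
      exact Ideal.subset_span (by simp [Lf])
    · change Ideal.Quotient.mk I (ev a i j (X 1)) = Ideal.Quotient.mk I (X 1)
      rw [ev_X1, eq_comm, Ideal.Quotient.eq]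
      exact Ideal.subset_span (by simp [Rf])
    · change Ideal.Quotient.mk I (ev a i j (X 2)) = Ideal.Quotient.mk I (X 2)
      rw [ev_X2]
  have h2 : F ∈ I := by
    rw [← Ideal.Quotient.eq_zero_iff_mem]
    have h3 := DFunLike.congr_fun h1 F
    change Ideal.Quotient.mk I (ev a i j F) = Ideal.Quotient.mk I F at h3
    rw [← h3, h, map_zero]
  rw [hI, Ideal.mem_span_pair] at h2
  obtain ⟨A, B, hAB⟩ := h2
  exact ⟨A, B, by rw [← hAB]; ring⟩

lemma exists_col {a : ℕ → ℂ} (ha : Function.Injective a) (i : ℕ) (J : Finset ℕ) :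
    ∀ F : S, (∀ j ∈ J, ev a i j F = 0) → ∃ A B : S, F = Lf a i * A + (∏ j ∈ J, Rf a j) * B := by
  classical
  induction J using Finset.induction_on with
  | empty => intro F _; exact ⟨0, F, by simp⟩
  | insert j J hj ih =>
    intro F hF
    obtain ⟨A, B, hAB⟩ := exists_of_ev (hF j (Finset.mem_insert_self _ _))
    obtain ⟨A', B', hAB'⟩ := ih B (by
      intro j' hj'
      have h1 := hF j' (Finset.mem_insert_of_mem hj')
      rw [hAB, map_add, map_mul, map_mul, ev_L_self, zero_mul, zero_add] at h1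
      exact (mul_eq_zero.1 h1).resolve_left (ev_R_ne ha i (by rintro rfl; exact hj hj')))
    refine ⟨A + Rf a j * A', B', ?_⟩
    rw [Finset.prod_insert hj, hAB]
    nth_rewrite 1 [hAB']
    ring

/-- complete intersection Nullstellensatz on a grid -/
lemma exists_grid {a : ℕ → ℂ} (ha : Function.Injective a) (I J : Finset ℕ) :
    ∀ F : S, (∀ i ∈ I, ∀ j ∈ J, ev a i j F = 0) →
      ∃ A B : S, F = (∏ i ∈ I, Lf a i) * A + (∏ j ∈ J, Rf a j) * B := by
  classical
  induction I using Finset.induction_on with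
  | empty => intro F _; exact ⟨F, 0, by simp⟩
  | insert i I hi ih =>
    intro F hF
    obtain ⟨A, B, hAB⟩ := exists_col ha i J F (hF i (Finset.mem_insert_self _ _))
    obtain ⟨A', B', hAB'⟩ := ih A (by
      intro i' hi' j hj
      have h1 := hF i' (Finset.mem_insert_of_mem hi') j hj
      have h2 : ev a i' j (∏ j ∈ J, Rf a j) = 0 := by
        rw [map_prod]
        exact Finset.prod_eq_zero hj (ev_R_self a i' j)
      rw [hAB, map_add, map_mul, map_mul, h2, zero_mul, add_zero] at h1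
      exact (mul_eq_zero.1 h1).resolve_left (ev_L_ne ha j (by rintro rfl; exact hi hi')))
    refine ⟨A', Lf a i * B' + B, ?_⟩
    rw [Finset.prod_insert hi, hAB]
    nth_rewrite 1 [hAB']
    ring

/-- the generators of the ideal of the staircase -/
noncomputable def Fg (a : ℕ → ℂ) (α β : ℕ → ℕ) (l : ℕ) : S :=
  (∏ i ∈ Finset.range (α l), Lf a i) * ∏ j ∈ Finset.range (β l), Rf a j

lemma prod_range_split {M : Type*} [CommMonoid M] (f : ℕ → M) {p q : ℕ} (h : p ≤ q) :
    ∏ i ∈ Finset.range q, f i = (∏ i ∈ Finset.range p, f i) * ∏ i ∈ Finset.Ico p q, f i := by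
  rw [Finset.prod_range_mul_prod_Ico _ h]

/-- staircase Nullstellensatz -/
lemma staircase {a : ℕ → ℂ} (ha : Function.Injective a) {α β : ℕ → ℕ} (hα : Antitone α)
    (hβ : Monotone β) (hβ0 : β 0 = 0) (n : ℕ) :
    ∀ A : S, (∀ i j, α n ≤ i → (∀ l ≤ n, i < α l ∨ j < β l) → ev a i j A = 0) →
      ∃ p : ℕ → S, (∏ i ∈ Finset.range (α n), Lf a i) * A =
        ∑ l ∈ Finset.range (n + 1), p l * Fg a α β l := by
  induction n with
  | zero =>
    intro A _
    refine ⟨fun _ => A, ?_⟩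
    simp [Fg, hβ0, mul_comm]
  | succ n ih =>
    intro A hA
    have hle : α (n + 1) ≤ α n := hα (Nat.le_succ n)
    obtain ⟨A', B, hAB⟩ := exists_grid ha (Finset.Ico (α (n + 1)) (α n))
      (Finset.range (β (n + 1))) A (by
        intro i hi j hj
        rw [Finset.mem_Ico] at hi
        rw [Finset.mem_range] at hj
        apply hA i j hi.1
        intro l hl
        rcases Nat.lt_or_ge l (n + 1) with h | h
        · left
          exact lt_of_lt_of_le hi.2 (hα (by omega))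
        · right
          have : l = n + 1 := by omega
          rw [this]; exact hj)
    obtain ⟨p, hp⟩ := ih A' (by
      intro i j hi hij
      have hjn : j < β n := by
        rcases hij n le_rfl with h | h
        · omega
        · exact h
      have hjn' : j < β (n + 1) := lt_of_lt_of_le hjn (hβ (Nat.le_succ n))
      have h1 : ev a i j A = 0 := by
        apply hA i j (le_trans hle hi)
        intro l hl
        rcases Nat.lt_or_ge l (n + 1) with h | h
        · exact hij l (by omega)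
        · right
          have : l = n + 1 := by omega
          rw [this]; exact hjn'
      have h2 : ev a i j (∏ j ∈ Finset.range (β (n + 1)), Rf a j) = 0 := by
        rw [map_prod]
        exact Finset.prod_eq_zero (Finset.mem_range.2 hjn') (ev_R_self a i j)
      rw [hAB, map_add, map_mul, map_mul, h2, zero_mul, add_zero] at h1
      refine (mul_eq_zero.1 h1).resolve_left ?_
      rw [map_prod]
      refine Finset.prod_ne_zero_iff.2 ?_
      intro i' hi'
      rw [Finset.mem_Ico] at hi'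
      exact ev_L_ne ha j (by omega))
    refine ⟨fun l => if l = n + 1 then B else p l, ?_⟩
    rw [Finset.sum_range_succ]
    have h3 : ∑ l ∈ Finset.range (n + 1), (if l = n + 1 then B else p l) * Fg a α β l
        = ∑ l ∈ Finset.range (n + 1), p l * Fg a α β l := by
      apply Finset.sum_congr rfl
      intro l hl
      rw [Finset.mem_range] at hl
      rw [if_neg (by omega)]
    simp only [h3, ← hp, if_true]
    rw [prod_range_split (Lf a) hle, Fg]
    nth_rewrite 1 [hAB]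
    ring

/-! ### coprimality -/

/-- the substitution `x = a_i z` -/
noncomputable def ph (a : ℕ → ℂ) (i : ℕ) : S →ₐ[ℂ] S := aeval ![C (a i) * X 2, X 1, X 2]

lemma Rf_ne (a : ℕ → ℂ) (j : ℕ) : Rf a j ≠ 0 := by
  intro h
  have h1 := congrArg (MvPolynomial.eval ![(0 : ℂ), 1, 0]) h
  simp [Rf] at h1

lemma Lf_ne (a : ℕ → ℂ) (j : ℕ) : Lf a j ≠ 0 := by
  intro h
  have h1 := congrArg (MvPolynomial.eval ![(1 : ℂ), 0, 0]) h
  simp [Lf] at h1

lemma dvd_of_ph {a : ℕ → ℂ} {i : ℕ} {F : S} (h : ph a i F = 0) : Lf a i ∣ F := by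
  set I : Ideal S := Ideal.span {Lf a i} with hI
  have h1 : (Ideal.Quotient.mkₐ ℂ I).comp (ph a i) = Ideal.Quotient.mkₐ ℂ I := by
    apply MvPolynomial.algHom_ext
    intro n
    fin_cases n
    · change Ideal.Quotient.mk I (ph a i (X 0)) = Ideal.Quotient.mk I (X 0)
      rw [eq_comm, Ideal.Quotient.eq]
      exact Ideal.subset_span (by simp [Lf, ph])
    · change Ideal.Quotient.mk I (ph a i (X 1)) = Ideal.Quotient.mk I (X 1)
      simp [ph]
    · change Ideal.Quotient.mk I (ph a i (X 2)) = Ideal.Quotient.mk I (X 2)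
      simp [ph]
  have h2 : F ∈ I := by
    rw [← Ideal.Quotient.eq_zero_iff_mem]
    have h3 := DFunLike.congr_fun h1 F
    change Ideal.Quotient.mk I (ph a i F) = Ideal.Quotient.mk I F at h3
    rw [← h3, h, map_zero]
  rwa [hI, Ideal.mem_span_singleton] at h2

lemma ph_L (a : ℕ → ℂ) (i : ℕ) : ph a i (Lf a i) = 0 := by
  simp [ph, Lf]

lemma ph_R (a : ℕ → ℂ) (i j : ℕ) : ph a i (Rf a j) = Rf a j := by
  simp [ph, Rf]

lemma prime_Lf (a : ℕ → ℂ) (i : ℕ) : Prime (Lf a i) := by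
  refine ⟨Lf_ne a i, ?_, ?_⟩
  · intro h
    have h1 := (h.map (ph a i)).ne_zero
    exact h1 (ph_L a i)
  · intro p q h
    obtain ⟨r, hr⟩ := h
    have h1 := congrArg (ph a i) hr
    rw [map_mul, map_mul, ph_L, zero_mul] at h1
    rcases mul_eq_zero.1 h1 with h2 | h2
    · exact Or.inl (dvd_of_ph h2)
    · exact Or.inr (dvd_of_ph h2)

lemma relPrime_LR (a : ℕ → ℂ) (i j : ℕ) : IsRelPrime (Lf a i) (Rf a j) := by
  rw [(prime_Lf a i).irreducible.isRelPrime_iff_not_dvd]
  rintro ⟨r, hr⟩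
  have h1 := congrArg (ph a i) hr
  rw [map_mul, ph_L, zero_mul, ph_R] at h1
  exact Rf_ne a j h1

lemma relPrime_prod (a : ℕ → ℂ) (I J : Finset ℕ) :
    IsRelPrime (∏ i ∈ I, Lf a i) (∏ j ∈ J, Rf a j) :=
  IsRelPrime.prod_left fun i _ => IsRelPrime.prod_right fun j _ => relPrime_LR a i j

/-! ### homogeneity -/

lemma Lf_hom (a : ℕ → ℂ) (i : ℕ) : (Lf a i).IsHomogeneous 1 := by
  refine (isHomogeneous_X ℂ 0).sub ?_
  have := (isHomogeneous_C (Fin 3) (a i)).mul (isHomogeneous_X ℂ (2 : Fin 3))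
  simpa using this

lemma Rf_hom (a : ℕ → ℂ) (i : ℕ) : (Rf a i).IsHomogeneous 1 := by
  refine (isHomogeneous_X ℂ 1).sub ?_
  have := (isHomogeneous_C (Fin 3) (a i)).mul (isHomogeneous_X ℂ (2 : Fin 3))
  simpa using this

lemma prodL_hom (a : ℕ → ℂ) (I : Finset ℕ) : (∏ i ∈ I, Lf a i).IsHomogeneous I.card := by
  have := IsHomogeneous.prod I (fun i => Lf a i) (fun _ => 1) fun i _ => Lf_hom a i
  simpa using this

lemma prodR_hom (a : ℕ → ℂ) (I : Finset ℕ) : (∏ i ∈ I, Rf a i).IsHomogeneous I.card := by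
  have := IsHomogeneous.prod I (fun i => Rf a i) (fun _ => 1) fun i _ => Rf_hom a i
  simpa using this

lemma prodL_ne (a : ℕ → ℂ) (I : Finset ℕ) : (∏ i ∈ I, Lf a i) ≠ 0 :=
  Finset.prod_ne_zero_iff.2 fun i _ => Lf_ne a i

lemma prodR_ne (a : ℕ → ℂ) (I : Finset ℕ) : (∏ i ∈ I, Rf a i) ≠ 0 :=
  Finset.prod_ne_zero_iff.2 fun i _ => Rf_ne a i

end Pool.Agent.R689.JP
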