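import Pool.Agent.R689.JP1

/-!
The module of Jacobian syzygies of `z g` when `g_x = g' X`, `g_y = g' Y`.
-/

set_option autoImplicit false

namespace Pool.Agent.R689.JP

open MvPolynomial

lemma hc_mul {A Y : S} {m : ℕ} (n : ℕ) (hY : Y.IsHomogeneous m) :
    homogeneousComponent (n + m) (A * Y) = homogeneousComponent n A * Y := by
  have h0 : A * Y = ∑ i ∈ Finset.range (A.totalDegree + 1), homogeneousComponent i A * Y := by
    rw [← Finset.sum_mul, sum_homogeneousComponent]
  have h1 : ∀ i ∈ Finset.range (A.totalDegree + 1),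
      homogeneousComponent (n + m) (homogeneousComponent i A * Y) =
        if n = i then homogeneousComponent n A * Y else 0 := by
    intro i _
    have h2 : (homogeneousComponent i A * Y).IsHomogeneous (i + m) :=
      (homogeneousComponent_isHomogeneous i A).mul hY
    rw [homogeneousComponent_of_mem (n := i + m) h2]
    by_cases h : n = i
    · subst h; simp
    · rw [if_neg (by omega), if_neg h]
  rw [h0, map_sum, Finset.sum_congr rfl h1, Finset.sum_ite_eq]
  split_ifs with h
  · rfl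
  · rw [homogeneousComponent_eq_zero n A (by rw [Finset.mem_range] at h; omega), zero_mul]

/-- homogeneous lifts -/
lemma exists_hom_lift {P Q G A B : S} {m n : ℕ} (hP : P.IsHomogeneous m) (hQ : Q.IsHomogeneous m)
    (hG : G.IsHomogeneous (n + m)) (h : A * P + B * Q = G) :
    ∃ A' B' : S, A'.IsHomogeneous n ∧ B'.IsHomogeneous n ∧ A' * P + B' * Q = G := by
  refine ⟨homogeneousComponent n A, homogeneousComponent n B,
    homogeneousComponent_isHomogeneous n A, homogeneousComponent_isHomogeneous n B, ?_⟩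
  rw [← hc_mul n hP, ← hc_mul n hQ, ← map_add, h, homogeneousComponent_eq_self hG]

/-- a homogeneous quotient -/
lemma exists_hom_quot {P A q : S} {m n : ℕ} (hP : P.IsHomogeneous m) (hA : A.IsHomogeneous (n + m))
    (hP0 : P ≠ 0) (h : A = q * P) : q.IsHomogeneous n := by
  have h1 : homogeneousComponent n q * P = q * P := by
    rw [← hc_mul n hP, ← h, homogeneousComponent_eq_self hA]
  rw [← mul_right_cancel₀ hP0 h1]
  exact homogeneousComponent_isHomogeneous n q

/-- `z` is prime -/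
lemma prime_z : Prime (X 2 : S) := X_prime

/-- the product of `u - λ z^k` over `T` -/
noncomputable def gT (u : S) (k : ℕ) (T : Finset ℂ) : S := ∏ t ∈ T, (u - C t * X 2 ^ k)

lemma gT_hom {u : S} {k : ℕ} (hu : u.IsHomogeneous k) (T : Finset ℂ) :
    (gT u k T).IsHomogeneous (k * T.card) := by
  have h1 : ∀ t ∈ T, (u - C t * X 2 ^ k).IsHomogeneous k := by
    intro t _
    refine hu.sub ?_
    have := (isHomogeneous_C (Fin 3) t).mul ((isHomogeneous_X ℂ (2 : Fin 3)).pow k)
    simpa using this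
  have h2 := IsHomogeneous.prod T (fun t => u - C t * X 2 ^ k) (fun _ => k) h1
  have e : ∑ _t ∈ T, k = k * T.card := by
    rw [Finset.sum_const, smul_eq_mul, mul_comm]
  rw [e] at h2
  exact h2

lemma z_not_dvd_factor {u : S} {k : ℕ} (hk : 1 ≤ k) (hz : ¬ X 2 ∣ u) (t : ℂ) :
    ¬ (X 2 : S) ∣ u - C t * X 2 ^ k := by
  intro h
  apply hz
  have h1 : (X 2 : S) ∣ C t * X 2 ^ k := Dvd.dvd.mul_left (dvd_pow_self _ (by omega)) _
  have h2 := dvd_add h h1
  simpa using h2

lemma z_not_dvd_gT {u : S} {k : ℕ} (hk : 1 ≤ k) (hz : ¬ X 2 ∣ u) (T : Finset ℂ) :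
    ¬ (X 2 : S) ∣ gT u k T := by
  intro h
  rw [gT, prime_z.dvd_finsetProd_iff] at h
  obtain ⟨t, _, ht⟩ := h
  exact z_not_dvd_factor hk hz t ht

lemma factor_ne {u : S} {k : ℕ} (hk : 1 ≤ k) (hz : ¬ X 2 ∣ u) (t : ℂ) :
    u - C t * X 2 ^ k ≠ 0 := fun h => z_not_dvd_factor hk hz t (by rw [h]; exact dvd_zero _)

lemma gT_ne {u : S} {k : ℕ} (hk : 1 ≤ k) (hz : ¬ X 2 ∣ u) (T : Finset ℂ) : gT u k T ≠ 0 :=
  fun h => z_not_dvd_gT hk hz T (by rw [h]; exact dvd_zero _)

lemma pd_factor {u : S} {k : ℕ} (t : ℂ) {i : Fin 3} (hi : i ≠ 2) :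
    pderiv i (u - C t * X 2 ^ k) = pderiv i u := by
  rw [map_sub, pderiv_C_mul, pderiv_pow, pderiv_X_of_ne (Ne.symm hi)]
  simp

lemma exists_gp {u P Q : S} {k : ℕ} (hk : 1 ≤ k) (hu : u.IsHomogeneous k)
    (h0 : pderiv 0 u = P) (h1 : pderiv 1 u = Q) (hz : ¬ X 2 ∣ u) (T : Finset ℂ) :
    ∃ g' : S, pderiv 0 (gT u k T) = g' * P ∧ pderiv 1 (gT u k T) = g' * Q ∧
      IsRelPrime g' (gT u k T) ∧ (T = ∅ → g' = 0) ∧
      (∀ n, n + k = k * T.card → g'.IsHomogeneous n) := by
  classical
  induction T using Finset.induction_on with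
  | empty =>
    refine ⟨0, by simp [gT], by simp [gT], ?_, fun _ => rfl, fun n _ => isHomogeneous_zero _ _ _⟩
    simp only [gT, Finset.prod_empty]
    exact isRelPrime_one_right
  | insert t T ht ih =>
    obtain ⟨g', e0, e1, hrel, hemp, hhom⟩ := ih
    have hgi : gT u k (insert t T) = (u - C t * X 2 ^ k) * gT u k T := by
      rw [gT, Finset.prod_insert ht]; rfl
    refine ⟨gT u k T + (u - C t * X 2 ^ k) * g', ?_, ?_, ?_, ?_, ?_⟩
    · rw [hgi, pderiv_mul, pd_factor t (by decide), h0, e0]; ring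
    · rw [hgi, pderiv_mul, pd_factor t (by decide), h1, e1]; ring
    · rw [hgi]
      apply WfDvdMonoid.isRelPrime_of_no_irreducible_factors
      · rintro ⟨_, h⟩
        exact mul_ne_zero (factor_ne hk hz t) (gT_ne hk hz T) h
      · intro h hirr hd1 hd2
        have hp : Prime h := hirr.prime
        rcases hp.dvd_or_dvd hd2 with h3 | h3
        · have h4 : h ∣ gT u k T := (dvd_add_left (Dvd.dvd.mul_right h3 _)).1 hd1
          rw [gT, hp.dvd_finsetProd_iff] at h4
          obtain ⟨t', ht', h5⟩ := h4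
          have h6 : h ∣ C (t - t') * X 2 ^ k := by
            have := dvd_sub h5 h3
            have e : (u - C t' * X 2 ^ k) - (u - C t * X 2 ^ k) = C (t - t') * X 2 ^ k := by
              rw [C_sub]; ring
            rwa [e] at this
          have htt : t - t' ≠ 0 := sub_ne_zero.2 (by rintro rfl; exact ht ht')
          have hunit : IsUnit (C (t - t') : S) := (IsUnit.mk0 _ htt).map C
          rw [hunit.dvd_mul_left] at h6
          have h7 : h ∣ X 2 := hp.dvd_of_dvd_pow h6
          have h8 : Associated h (X 2 : S) := hp.irreducible.associated_of_dvd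
            prime_z.irreducible h7
          exact z_not_dvd_factor hk hz t (h8.dvd_iff_dvd_left.1 h3)
        · have h4 : h ∣ (u - C t * X 2 ^ k) * g' := (dvd_add_right h3).1 hd1
          rcases hp.dvd_or_dvd h4 with h5 | h5
          · rw [gT, hp.dvd_finsetProd_iff] at h3
            obtain ⟨t', ht', h3'⟩ := h3
            have h6 : h ∣ C (t - t') * X 2 ^ k := by
              have := dvd_sub h3' h5
              have e : (u - C t' * X 2 ^ k) - (u - C t * X 2 ^ k) = C (t - t') * X 2 ^ k := by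
                rw [C_sub]; ring
              rwa [e] at this
            have htt : t - t' ≠ 0 := sub_ne_zero.2 (by rintro rfl; exact ht ht')
            have hunit : IsUnit (C (t - t') : S) := (IsUnit.mk0 _ htt).map C
            rw [hunit.dvd_mul_left] at h6
            have h7 : h ∣ X 2 := hp.dvd_of_dvd_pow h6
            have h8 : Associated h (X 2 : S) := hp.irreducible.associated_of_dvd
              prime_z.irreducible h7
            exact z_not_dvd_factor hk hz t (h8.dvd_iff_dvd_left.1 h5)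
          · exact hp.not_isUnit (hrel h5 h3)
    · intro h; exact absurd h (Finset.insert_ne_empty _ _)
    · intro n hn
      rw [Finset.card_insert_of_notMem ht] at hn
      have hn' : n = k * T.card := by
        have : k * (T.card + 1) = k * T.card + k := by ring
        omega
      subst hn'
      refine (gT_hom hu T).add ?_
      rcases Finset.eq_empty_or_nonempty T with h | h
      · rw [hemp h, mul_zero]; exact isHomogeneous_zero _ _ _
      · have hc : 1 ≤ T.card := Finset.card_pos.2 h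
        have h3 : k * (T.card - 1) + k = k * T.card := by
          obtain ⟨c, hc'⟩ : ∃ c, T.card = c + 1 := ⟨T.card - 1, by omega⟩
          rw [hc']; simp; ring
        have h4 := hhom (k * (T.card - 1)) h3
        have h5 : (u - C t * X 2 ^ k).IsHomogeneous k := by
          refine hu.sub ?_
          have := (isHomogeneous_C (Fin 3) t).mul ((isHomogeneous_X ℂ (2 : Fin 3)).pow k)
          simpa using this
        have h6 := h5.mul h4
        rwa [add_comm k, h3] at h6

section syz

variable {P Q g g' : S} {n : ℕ}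

lemma pd0 (h0 : pderiv 0 g = g' * P) : pderiv 0 (X 2 * g) = X 2 * (g' * P) := by
  rw [pderiv_mul, pderiv_X_of_ne (by decide), h0]; ring

lemma pd1 (h1 : pderiv 1 g = g' * Q) : pderiv 1 (X 2 * g) = X 2 * (g' * Q) := by
  rw [pderiv_mul, pderiv_X_of_ne (by decide), h1]; ring

lemma pd2 : pderiv 2 (X 2 * g) = g + X 2 * pderiv 2 g := by
  rw [pderiv_mul, pderiv_X_self]; ring

lemma pd2' (hg : g.IsHomogeneous n) (h0 : pderiv 0 g = g' * P) (h1 : pderiv 1 g = g' * Q) :
    pderiv 2 (X 2 * g) = C ((n : ℂ) + 1) * g - g' * (X 0 * P + X 1 * Q) := by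
  have h2 := hg.sum_X_mul_pderiv
  rw [Fin.sum_univ_three, h0, h1, nsmul_eq_mul] at h2
  have h3 : (C ((n : ℂ) + 1) : S) = (n : S) + 1 := by simp
  rw [pd2, h3]
  linear_combination h2

lemma syz_iff (hg : g.IsHomogeneous n) (h0 : pderiv 0 g = g' * P) (h1 : pderiv 1 g = g' * Q)
    (hrel : IsRelPrime g' g) (hz : ¬ X 2 ∣ g) (hg' : g' ≠ 0) (v : Fin 3 → S) :
    (v 0 * pderiv 0 (X 2 * g) + v 1 * pderiv 1 (X 2 * g) + v 2 * pderiv 2 (X 2 * g) = 0) ↔
      ∃ A B μ : S, A * P + B * Q = C ((n : ℂ) + 1) * μ * g ∧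
        v 0 = A - μ * g' * X 0 ∧ v 1 = B - μ * g' * X 1 ∧ v 2 = - (μ * g' * X 2) := by
  have hz0 : (X 2 : S) ≠ 0 := X_ne_zero 2
  constructor
  · intro h
    have hzd : ¬ (X 2 : S) ∣ pderiv 2 (X 2 * g) := by
      rw [pd2]
      intro h
      exact hz ((dvd_add_left (Dvd.intro _ rfl)).1 h)
    have h2 : (X 2 : S) ∣ v 2 * pderiv 2 (X 2 * g) := by
      refine ⟨-(v 0 * (g' * P) + v 1 * (g' * Q)), ?_⟩
      rw [pd0 h0, pd1 h1] at h
      linear_combination h
    obtain ⟨c, hc⟩ := (prime_z.dvd_or_dvd h2).resolve_right hzd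
    have h3 : v 0 * (g' * P) + v 1 * (g' * Q) + c * pderiv 2 (X 2 * g) = 0 := by
      apply mul_left_cancel₀ hz0
      rw [pd0 h0, pd1 h1, hc] at h
      linear_combination h
    rw [pd2' hg h0 h1] at h3
    have h4 : g' * ((v 0 - c * X 0) * P + (v 1 - c * X 1) * Q) =
        -(C ((n : ℂ) + 1) * c) * g := by
      linear_combination h3
    have h5 : g' ∣ -(C ((n : ℂ) + 1) * c) := hrel.dvd_of_dvd_mul_right (Dvd.intro _ h4)
    have hn : (n : ℂ) + 1 ≠ 0 := by exact_mod_cast Nat.succ_ne_zero n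
    have hunit : IsUnit (C ((n : ℂ) + 1) : S) := (IsUnit.mk0 _ hn).map C
    rw [dvd_neg, hunit.dvd_mul_left] at h5
    obtain ⟨μ, hμ⟩ := h5
    refine ⟨v 0 - c * X 0, v 1 - c * X 1, -μ, ?_, ?_, ?_, ?_⟩
    · apply mul_left_cancel₀ hg'
      rw [h4, hμ]; ring
    · rw [hμ]; ring
    · rw [hμ]; ring
    · rw [hc, hμ]; ring
  · rintro ⟨A, B, μ, h, e0, e1, e2⟩
    rw [pd0 h0, pd1 h1, pd2' hg h0 h1, e0, e1, e2]
    linear_combination (X 2 * g') * h

lemma sqf (hg0 : g ≠ 0) (h0 : pderiv 0 g = g' * P) (h1 : pderiv 1 g = g' * Q)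
    (hrel : IsRelPrime g' g) (hPQ : IsRelPrime P Q) (hz : ¬ X 2 ∣ g) :
    Squarefree (X 2 * g) := by
  have hf0 : X 2 * g ≠ 0 := mul_ne_zero (X_ne_zero 2) hg0
  rw [squarefree_iff_irreducible_sq_not_dvd_of_ne_zero hf0]
  intro h hirr hd
  have hp : Prime h := hirr.prime
  have hder : ∀ i : Fin 3, h ∣ pderiv i (X 2 * g) := by
    intro i
    obtain ⟨q, hq⟩ := hd
    rw [hq, pderiv_mul, pderiv_mul]
    refine ⟨pderiv i h * q + pderiv i h * q + h * pderiv i q, by ring⟩
  have hgd : h ∣ g := by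
    by_contra hcon
    have h2 : h ∣ X 2 * g := (Dvd.intro _ rfl).trans hd
    have h3 := (hp.dvd_or_dvd h2).resolve_right hcon
    have h4 : Associated h (X 2 : S) := hp.irreducible.associated_of_dvd prime_z.irreducible h3
    obtain ⟨q, hq⟩ := hd
    have h5 : (X 2 : S) * X 2 ∣ X 2 * g :=
      (mul_dvd_mul h4.symm.dvd h4.symm.dvd).trans ⟨q, hq⟩
    exact hz ((mul_dvd_mul_iff_left (X_ne_zero 2)).1 h5)
  have hnz : ¬ h ∣ X 2 := by
    intro h3
    have h4 : Associated h (X 2 : S) := hp.irreducible.associated_of_dvd prime_z.irreducible h3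
    exact hz (h4.symm.dvd.trans hgd)
  have hng' : ¬ h ∣ g' := fun h3 => hp.not_isUnit (hrel h3 hgd)
  have hP : h ∣ P := by
    have := hder 0
    rw [pd0 h0] at this
    exact (hp.dvd_or_dvd ((hp.dvd_or_dvd this).resolve_left hnz)).resolve_left hng'
  have hQ : h ∣ Q := by
    have := hder 1
    rw [pd1 h1] at this
    exact (hp.dvd_or_dvd ((hp.dvd_or_dvd this).resolve_left hnz)).resolve_left hng'
  exact hp.not_isUnit (hPQ hP hQ)

end syz

end Pool.Agent.R689.JP
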