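import Pool.Agent.R689.JP2

/-!
The resolution of the module of Jacobian syzygies.
-/

set_option autoImplicit false

namespace Pool.Agent.R689.JP

open MvPolynomial

lemma exists_of_relPrime {P Q a b : S} (hPQ : IsRelPrime P Q) (hQ : Q ≠ 0)
    (h : a * P + b * Q = 0) : ∃ q : S, a = q * Q ∧ b = -(q * P) := by
  have h1 : Q ∣ a * P := ⟨-b, by linear_combination h⟩
  obtain ⟨q, hq⟩ := hPQ.symm.dvd_of_dvd_mul_right h1
  refine ⟨q, by rw [hq]; ring, ?_⟩
  apply mul_right_cancel₀ hQ
  rw [hq] at h
  linear_combination h

/-- the Jacobian map `(v₀,v₁,v₂) ↦ v₀ f_x + v₁ f_y + v₂ f_z` -/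
noncomputable abbrev jac (f : S) : (Fin 3 → S) →ₗ[S] S :=
  Fintype.linearCombination S (fun i => pderiv i f)

/-- the generator attached to an element `F l` of the ideal -/
noncomputable def rr (A B F : ℕ → S) (g' : S) (l : ℕ) : Fin 3 → S :=
  ![A l - F l * g' * X 0, B l - F l * g' * X 1, -(F l * g' * X 2)]

/-- the generators of the module of syzygies -/
noncomputable def rmap (P Q g' : S) (A B F : ℕ → S) (s : ℕ) : Fin (s + 2) → Fin 3 → S :=
  Fin.cons ![Q, -P, 0] (fun l : Fin (s + 1) => rr A B F g' l)

/-- the coefficients of the `j`-th relation -/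
noncomputable def rc (U V : ℕ → S) (j l : ℕ) : S :=
  if l = j then V j else if l = j + 1 then -U j else 0

/-- the relations -/
noncomputable def rhomap (U V q : ℕ → S) (s : ℕ) : Fin s → Fin (s + 2) → S :=
  fun j => Fin.cons (-q j) (fun l : Fin (s + 1) => rc U V j l)

lemma rmap_zero (P Q g' : S) (A B F : ℕ → S) (s : ℕ) :
    rmap P Q g' A B F s 0 = ![Q, -P, 0] := rfl

lemma rmap_succ (P Q g' : S) (A B F : ℕ → S) (s : ℕ) (l : Fin (s + 1)) :
    rmap P Q g' A B F s l.succ = rr A B F g' l := rfl

lemma rhomap_zero (U V q : ℕ → S) (s : ℕ) (j : Fin s) : rhomap U V q s j 0 = - q j := rfl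

lemma rhomap_succ (U V q : ℕ → S) (s : ℕ) (j : Fin s) (l : Fin (s + 1)) :
    rhomap U V q s j l.succ = rc U V j l := rfl

lemma lc_rmap (P Q g' : S) (A B F : ℕ → S) (s : ℕ) (p : Fin (s + 2) → S) :
    Fintype.linearCombination S (rmap P Q g' A B F s) p =
      p 0 • ![Q, -P, 0] + ∑ l : Fin (s + 1), p l.succ • rr A B F g' l := by
  rw [Fintype.linearCombination_apply, Fin.sum_univ_succ]
  rfl

section main

variable {P Q g g' : S} {n m s : ℕ} {A B F U V q : ℕ → S}

lemma exact_one (hg : g.IsHomogeneous n) (h0 : pderiv 0 g = g' * P) (h1 : pderiv 1 g = g' * Q)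
    (hrel : IsRelPrime g' g) (hz : ¬ X 2 ∣ g) (hg' : g' ≠ 0) (hPQ : IsRelPrime P Q) (hQ : Q ≠ 0)
    (hgen : ∀ a b μ : S, a * P + b * Q = C ((n : ℂ) + 1) * μ * g →
      ∃ p : ℕ → S, μ = ∑ l ∈ Finset.range (s + 1), p l * F l)
    (hlift : ∀ l ≤ s, A l * P + B l * Q = C ((n : ℂ) + 1) * F l * g) :
    Function.Exact (Fintype.linearCombination S (rmap P Q g' A B F s)) (jac (X 2 * g)) := by
  have hj : ∀ v, jac (X 2 * g) v = v 0 * pderiv 0 (X 2 * g) + v 1 * pderiv 1 (X 2 * g) +
      v 2 * pderiv 2 (X 2 * g) := by
    intro v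
    rw [jac, Fintype.linearCombination_apply, Fin.sum_univ_three]
    rfl
  intro v
  constructor
  · intro hv
    rw [hj, syz_iff hg h0 h1 hrel hz hg'] at hv
    obtain ⟨a, b, μ, hab, e0, e1, e2⟩ := hv
    obtain ⟨p, hp⟩ := hgen a b μ hab
    have h3 : (a - ∑ l ∈ Finset.range (s + 1), p l * A l) * P +
        (b - ∑ l ∈ Finset.range (s + 1), p l * B l) * Q = 0 := by
      have h4 : (∑ l ∈ Finset.range (s + 1), p l * A l) * P +
          (∑ l ∈ Finset.range (s + 1), p l * B l) * Q = C ((n : ℂ) + 1) * μ * g := by
        rw [hp, Finset.sum_mul, Finset.sum_mul, Finset.mul_sum, Finset.sum_mul,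
          ← Finset.sum_add_distrib]
        apply Finset.sum_congr rfl
        intro l hl
        rw [Finset.mem_range] at hl
        linear_combination p l * hlift l (by omega)
      linear_combination hab - h4
    obtain ⟨q, hq1, hq2⟩ := exists_of_relPrime hPQ hQ h3
    refine ⟨Fin.cons q (fun l : Fin (s + 1) => p l), ?_⟩
    rw [lc_rmap]
    have hs : ∀ k : Fin 3, (∑ l : Fin (s + 1),
        (Fin.cons q (fun l : Fin (s + 1) => p l) : Fin (s + 2) → S) l.succ • rr A B F g' l) k =
        ∑ l ∈ Finset.range (s + 1), p l * rr A B F g' l k := by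
      intro k
      rw [Finset.sum_apply, ← Fin.sum_univ_eq_sum_range (fun l => p l * rr A B F g' l k)]
      rfl
    funext k
    rw [Pi.add_apply, hs]
    fin_cases k
    · change q * Q + ∑ l ∈ Finset.range (s + 1), p l * (A l - F l * g' * X 0) = v 0
      rw [e0, hp]
      simp only [mul_sub, Finset.sum_sub_distrib]
      have : ∑ l ∈ Finset.range (s + 1), p l * (F l * g' * X 0) =
          (∑ l ∈ Finset.range (s + 1), p l * F l) * g' * X 0 := by
        rw [Finset.sum_mul, Finset.sum_mul]
        exact Finset.sum_congr rfl fun l _ => by ring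
      rw [this]
      linear_combination -hq1
    · change q * (-P) + ∑ l ∈ Finset.range (s + 1), p l * (B l - F l * g' * X 1) = v 1
      rw [e1, hp]
      simp only [mul_sub, Finset.sum_sub_distrib]
      have : ∑ l ∈ Finset.range (s + 1), p l * (F l * g' * X 1) =
          (∑ l ∈ Finset.range (s + 1), p l * F l) * g' * X 1 := by
        rw [Finset.sum_mul, Finset.sum_mul]
        exact Finset.sum_congr rfl fun l _ => by ring
      rw [this]
      linear_combination -hq2
    · change q * 0 + ∑ l ∈ Finset.range (s + 1), p l * (-(F l * g' * X 2)) = v 2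
      rw [e2, hp]
      have : ∑ l ∈ Finset.range (s + 1), p l * (-(F l * g' * X 2)) =
          -((∑ l ∈ Finset.range (s + 1), p l * F l) * g' * X 2) := by
        rw [Finset.sum_mul, Finset.sum_mul, ← Finset.sum_neg_distrib]
        exact Finset.sum_congr rfl fun l _ => by ring
      rw [this]; ring
  · rintro ⟨p, rfl⟩
    rw [lc_rmap, map_add, map_smul, map_sum]
    have h3 : jac (X 2 * g) ![Q, -P, 0] = 0 := by
      rw [hj, syz_iff hg h0 h1 hrel hz hg']
      exact ⟨Q, -P, 0, by ring, by simp, by simp, by simp⟩
    have h4 : ∀ l : Fin (s + 1), jac (X 2 * g) (rr A B F g' l) = 0 := by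
      intro l
      rw [hj, syz_iff hg h0 h1 hrel hz hg']
      exact ⟨A l, B l, F l, hlift l (by omega), rfl, rfl, rfl⟩
    rw [h3, smul_zero, zero_add]
    apply Finset.sum_eq_zero
    intro l _
    rw [map_smul, h4, smul_zero]

/-- the relations are relations -/
lemma rel_mem (hrelF : ∀ l < s, V l * F l = U l * F (l + 1))
    (hqA : ∀ l < s, V l * A l - U l * A (l + 1) = q l * Q)
    (hqB : ∀ l < s, V l * B l - U l * B (l + 1) = -(q l * P)) (j : Fin s) :
    Fintype.linearCombination S (rmap P Q g' A B F s) (rhomap U V q s j) = 0 := by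
  rw [lc_rmap]
  have hs : ∑ l : Fin (s + 1), rhomap U V q s j l.succ • rr A B F g' l =
      V j • rr A B F g' j - U j • rr A B F g' ((j : ℕ) + 1) := by
    have e : ∀ l : Fin (s + 1), rhomap U V q s j l.succ • rr A B F g' l =
        (fun l : ℕ => rc U V j l • rr A B F g' l) l := fun l => rfl
    rw [Finset.sum_congr rfl fun l _ => e l, Fin.sum_univ_eq_sum_range
      (fun l : ℕ => rc U V j l • rr A B F g' l)]
    have e2 : ∀ l ∈ Finset.range (s + 1), rc U V j l • rr A B F g' l =
        (if l = (j : ℕ) then V j • rr A B F g' j else 0) +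
          (if l = (j : ℕ) + 1 then -(U j • rr A B F g' ((j : ℕ) + 1)) else 0) := by
      intro l _
      unfold rc
      by_cases h : l = (j : ℕ)
      · rw [if_pos h, if_pos h, if_neg (by omega), h, add_zero]
      · rw [if_neg h, if_neg h, zero_add]
        by_cases h' : l = (j : ℕ) + 1
        · rw [if_pos h', if_pos h', h', neg_smul]
        · rw [if_neg h', if_neg h', zero_smul]
    rw [Finset.sum_congr rfl e2, Finset.sum_add_distrib, Finset.sum_ite_eq', Finset.sum_ite_eq',
      if_pos (Finset.mem_range.2 (by omega)), if_pos (Finset.mem_range.2 (by omega))]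
    abel
  rw [hs, rhomap_zero]
  have hF := hrelF j j.2
  have hA := hqA j j.2
  have hB := hqB j j.2
  funext k
  fin_cases k
  · change -q j * Q + (V j * (A j - F j * g' * X 0) -
      U j * (A ((j : ℕ) + 1) - F ((j : ℕ) + 1) * g' * X 0)) = 0
    linear_combination hA - g' * X 0 * hF
  · change -q j * (-P) + (V j * (B j - F j * g' * X 1) -
      U j * (B ((j : ℕ) + 1) - F ((j : ℕ) + 1) * g' * X 1)) = 0
    linear_combination hB - g' * X 1 * hF
  · change -q j * 0 + (V j * (-(F j * g' * X 2)) -
      U j * (-(F ((j : ℕ) + 1) * g' * X 2))) = 0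
    linear_combination - g' * X 2 * hF

lemma exact_two (hg' : g' ≠ 0) (hQ : Q ≠ 0) (hF0 : F 0 ≠ 0)
    (hrelF : ∀ l < s, V l * F l = U l * F (l + 1))
    (hqA : ∀ l < s, V l * A l - U l * A (l + 1) = q l * Q)
    (hqB : ∀ l < s, V l * B l - U l * B (l + 1) = -(q l * P))
    (hdvd : ∀ l < s, ∀ c : ℕ → S, (∀ i, l + 1 < i → c i = 0) →
      ∑ i ∈ Finset.range (s + 1), c i * F i = 0 → U l ∣ c (l + 1)) :
    Function.Exact (Fintype.linearCombination S (rhomap U V q s))
      (Fintype.linearCombination S (rmap P Q g' A B F s)) := by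
  have hthird : ∀ p : Fin (s + 2) → S,
      Fintype.linearCombination S (rmap P Q g' A B F s) p = 0 →
      ∑ l : Fin (s + 1), p l.succ * F l = 0 := by
    intro p hp
    rw [lc_rmap] at hp
    have h1 := congrFun hp 2
    rw [Pi.add_apply, Finset.sum_apply] at h1
    have h2 : ∑ l : Fin (s + 1), (p l.succ • rr A B F g' l) 2 =
        -((∑ l : Fin (s + 1), p l.succ * F l) * (g' * X 2)) := by
      rw [Finset.sum_mul, ← Finset.sum_neg_distrib]
      apply Finset.sum_congr rfl
      intro l _
      change p l.succ * (-(F l * g' * X 2)) = _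
      ring
    rw [h2] at h1
    have h3 : (p 0 • (![Q, -P, 0] : Fin 3 → S)) 2 = 0 := by
      change p 0 * 0 = 0
      rw [mul_zero]
    rw [h3, zero_add, Pi.zero_apply, neg_eq_zero] at h1
    exact (mul_eq_zero.1 h1).resolve_right (mul_ne_zero hg' (X_ne_zero 2))
  have key : ∀ n ≤ s, ∀ p : Fin (s + 2) → S,
      Fintype.linearCombination S (rmap P Q g' A B F s) p = 0 →
      (∀ i : Fin (s + 2), n + 1 < (i : ℕ) → p i = 0) →
      p ∈ LinearMap.range (Fintype.linearCombination S (rhomap U V q s)) := by
    intro n
    induction n with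
    | zero =>
      intro _ p hp hpi
      have h1 := hthird p hp
      rw [Fin.sum_univ_succ] at h1
      have h2 : ∑ i : Fin s, p i.succ.succ * F (i.succ : Fin (s + 1)) = 0 := by
        apply Finset.sum_eq_zero
        intro i _
        rw [hpi i.succ.succ (by simp), zero_mul]
      rw [h2, add_zero] at h1
      have h3 : p (Fin.succ 0) = 0 := (mul_eq_zero.1 h1).resolve_right hF0
      rw [lc_rmap, Fin.sum_univ_succ] at hp
      have h4 : ∑ i : Fin s, p i.succ.succ • rr A B F g' ((i.succ : Fin (s + 1)) : ℕ) = 0 := by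
        apply Finset.sum_eq_zero
        intro i _
        rw [hpi i.succ.succ (by simp), zero_smul]
      rw [h4, h3, zero_smul, add_zero, add_zero] at hp
      have h5 := congrFun hp 0
      have h6 : p 0 * Q = 0 := h5
      have h7 : p 0 = 0 := (mul_eq_zero.1 h6).resolve_right hQ
      have h8 : p = 0 := by
        funext i
        refine Fin.cases h7 (fun i => ?_) i
        refine Fin.cases h3 (fun i => ?_) i
        exact hpi i.succ.succ (by simp)
      rw [h8]
      exact Submodule.zero_mem _
    | succ n ih =>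
      intro hn p hp hpi
      have h1 := hthird p hp
      have hns : n < s := by omega
      set c : ℕ → S := fun l => if h : l < s + 1 then p (Fin.succ ⟨l, h⟩) else 0 with hc
      have hcp : ∀ l : Fin (s + 1), c l = p l.succ := by
        intro l
        simp only [hc]
        rw [dif_pos l.2]
      have h2 : ∑ i ∈ Finset.range (s + 1), c i * F i = 0 := by
        rw [← Fin.sum_univ_eq_sum_range (fun i => c i * F i), ← h1]
        exact Finset.sum_congr rfl fun l _ => by rw [hcp]
      have h3 : ∀ i, n + 1 < i → c i = 0 := by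
        intro i hi
        by_cases h : i < s + 1
        · have := hcp ⟨i, h⟩
          rw [this]
          apply hpi
          simp only [Fin.val_succ]
          omega
        · rw [hc]
          simp [h]
      obtain ⟨x, hx⟩ := hdvd n hns c h3 h2
      set j : Fin s := ⟨n, hns⟩ with hj
      set p' : Fin (s + 2) → S := p + x • rhomap U V q s j with hp'
      have h4 : Fintype.linearCombination S (rmap P Q g' A B F s) p' = 0 := by
        rw [hp', map_add, map_smul, rel_mem hrelF hqA hqB, hp, smul_zero, add_zero]
      have h5 : p' ∈ LinearMap.range (Fintype.linearCombination S (rhomap U V q s)) := by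
        apply ih (by omega) p' h4
        intro i hi
        obtain ⟨l, rfl⟩ : ∃ l : Fin (s + 1), i = l.succ :=
          Fin.exists_succ_eq.2 (by rintro rfl; simp at hi) |>.imp fun _ h => h.symm
        rw [Fin.val_succ] at hi
        rw [hp', Pi.add_apply, Pi.smul_apply, rhomap_succ]
        by_cases hl : (l : ℕ) = n + 1
        · have e1 : p l.succ = c (n + 1) := by rw [← hcp, hl]
          have e2 : rc U V j l = -U n := by
            unfold rc
            rw [if_neg (by rw [hl, hj]; simp), if_pos (by rw [hl, hj])]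
          rw [e1, hx, e2, smul_eq_mul]; ring
        · have e1 : p l.succ = 0 := hpi _ (by rw [Fin.val_succ]; omega)
          have e2 : rc U V j l = 0 := by
            unfold rc
            rw [if_neg (by rw [hj]; simp; omega), if_neg (by rw [hj]; simp; omega)]
          rw [e1, e2, smul_zero, add_zero]
      have h6 : rhomap U V q s j ∈
          LinearMap.range (Fintype.linearCombination S (rhomap U V q s)) := by
        classical
        refine ⟨Pi.single j 1, ?_⟩
        rw [Fintype.linearCombination_apply_single, one_smul]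
      have h7 : p = p' - x • rhomap U V q s j := by rw [hp']; abel
      rw [h7]
      exact Submodule.sub_mem _ h5 (Submodule.smul_mem _ _ h6)
  intro p
  constructor
  · intro hp
    obtain ⟨w, hw⟩ := key s le_rfl p hp (fun i hi => absurd i.2 (by omega))
    exact ⟨w, hw⟩
  · rintro ⟨w, rfl⟩
    rw [Fintype.linearCombination_apply S (rhomap U V q s), map_sum]
    apply Finset.sum_eq_zero
    intro j _
    rw [map_smul, rel_mem hrelF hqA hqB, smul_zero]

lemma inj_three (hV : ∀ l < s, V l ≠ 0) :
    Function.Injective (Fintype.linearCombination S (rhomap U V q s)) := by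
  rw [injective_iff_map_eq_zero]
  intro c hc
  rw [Fintype.linearCombination_apply] at hc
  have key : ∀ k : ℕ, ∀ j : Fin s, (j : ℕ) = k → c j = 0 := by
    intro k
    induction k using Nat.strong_induction_on with
    | _ k ih =>
      intro j hj
      have h1 := congrFun hc (j.castSucc.succ)
      rw [Finset.sum_apply] at h1
      rw [Finset.sum_eq_single j] at h1
      · rw [Pi.smul_apply, rhomap_succ, smul_eq_mul, Pi.zero_apply] at h1
        refine (mul_eq_zero.1 h1).resolve_right ?_
        unfold rc
        rw [if_pos (by simp)]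
        exact hV j j.2
      · intro j' _ hj'
        rw [Pi.smul_apply, rhomap_succ, smul_eq_mul]
        have hne : (j' : ℕ) ≠ j := fun h => hj' (Fin.ext h)
        rcases Nat.lt_or_ge (j' : ℕ) (j : ℕ) with h | h
        · rw [ih j' (by omega) j' rfl, zero_mul]
        · unfold rc
          rw [if_neg (by simp only [Fin.val_castSucc]; omega),
            if_neg (by simp only [Fin.val_castSucc]; omega), mul_zero]
      · intro h; exact absurd (Finset.mem_univ _) h
  funext j
  exact key j j rfl

end main

end Pool.Agent.R689.JP
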