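import Pool.Agent.R689.JP3

/-!
The polynomial `u` with `u_x = x^m - z^m`, `u_y = c (y^m - z^m)`.
-/

set_option autoImplicit false

namespace Pool.Agent.R689.JP

open MvPolynomial

/-- an injective sequence of complex numbers starting with the `m`-th roots of unity -/
lemma exists_seq {m : ℕ} (hm : 1 ≤ m) : ∃ a : ℕ → ℂ, Function.Injective a ∧
    (∀ i < m, a i ^ m = 1) ∧ ∏ i ∈ Finset.range m, Lf a i = X 0 ^ m - X 2 ^ m ∧
      ∏ i ∈ Finset.range m, Rf a i = X 1 ^ m - X 2 ^ m := by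
  classical
  set ζ : ℂ := Complex.exp (2 * Real.pi * Complex.I / m) with hζ
  have hprim : IsPrimitiveRoot ζ m := Complex.isPrimitiveRoot_exp m (by omega)
  set a : ℕ → ℂ := fun i => if i < m then ζ ^ i else ((i : ℂ) + 2) with ha
  have hnorm : ∀ i < m, ‖a i‖ = 1 := by
    intro i hi
    simp only [ha, if_pos hi]
    rw [norm_pow, hprim.norm'_eq_one (by omega), one_pow]
  have hnorm2 : ∀ i, ¬ i < m → ‖a i‖ = (i : ℝ) + 2 := by
    intro i hi
    simp only [ha, if_neg hi]
    have : ((i : ℂ) + 2) = ((i + 2 : ℕ) : ℂ) := by push_cast; ring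
    rw [this, Complex.norm_natCast]
    push_cast; ring
  have hinj : Function.Injective a := by
    intro i j hij
    by_cases hi : i < m
    · by_cases hj : j < m
      · simp only [ha, if_pos hi, if_pos hj] at hij
        exact hprim.pow_inj hi hj hij
      · exfalso
        have h1 := hnorm i hi
        rw [hij, hnorm2 j hj] at h1
        have : (0 : ℝ) ≤ j := Nat.cast_nonneg j
        linarith
    · by_cases hj : j < m
      · exfalso
        have h1 := hnorm j hj
        rw [← hij, hnorm2 i hi] at h1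
        have : (0 : ℝ) ≤ i := Nat.cast_nonneg i
        linarith
      · simp only [ha, if_neg hi, if_neg hj] at hij
        exact_mod_cast add_right_cancel hij
  have hpow : ∀ i < m, a i ^ m = 1 := by
    intro i hi
    simp only [ha, if_pos hi]
    rw [← pow_mul, mul_comm, pow_mul, hprim.pow_eq_one, one_pow]
  have hprimS : IsPrimitiveRoot (C ζ : S) m :=
    hprim.map_of_injective (C_injective (Fin 3) ℂ)
  have hset : Polynomial.nthRootsFinset m (1 : S) =
      (Finset.range m).image fun i => (C (a i) : S) := by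
    symm
    apply Finset.eq_of_subset_of_card_le
    · intro x hx
      rw [Finset.mem_image] at hx
      obtain ⟨i, hi, rfl⟩ := hx
      rw [Polynomial.mem_nthRootsFinset (by omega), ← C_pow, hpow i (Finset.mem_range.1 hi), C_1]
    · have hinj2 : Function.Injective (fun i => (C (a i) : S)) :=
        fun i j h => hinj (C_injective (Fin 3) ℂ h)
      rw [hprimS.card_nthRootsFinset, Finset.card_image_of_injective _ hinj2, Finset.card_range]
  refine ⟨a, hinj, hpow, ?_, ?_⟩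
  · rw [hprimS.pow_sub_pow_eq_prod_sub_mul (X 0) (X 2) (by omega), hset, Finset.prod_image
      (fun i _ j _ h => hinj (C_injective (Fin 3) ℂ h))]
    rfl
  · rw [hprimS.pow_sub_pow_eq_prod_sub_mul (X 1) (X 2) (by omega), hset, Finset.prod_image
      (fun i _ j _ h => hinj (C_injective (Fin 3) ℂ h))]
    rfl

/-- the polynomial `u` -/
noncomputable def uu (m : ℕ) (c : ℂ) : S :=
  (C (1 / ((m : ℂ) + 1)) * X 0 ^ (m + 1) - X 0 * X 2 ^ m) +
    C c * (C (1 / ((m : ℂ) + 1)) * X 1 ^ (m + 1) - X 1 * X 2 ^ m)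

lemma m1_ne (m : ℕ) : (m : ℂ) + 1 ≠ 0 := by exact_mod_cast Nat.succ_ne_zero m

lemma uu_hom (m : ℕ) (c : ℂ) : (uu m c).IsHomogeneous (m + 1) := by
  have h1 : ∀ i : Fin 3, (C (1 / ((m : ℂ) + 1)) * X i ^ (m + 1) : S).IsHomogeneous (m + 1) := by
    intro i
    have := (isHomogeneous_C (Fin 3) (1 / ((m : ℂ) + 1))).mul
      ((isHomogeneous_X ℂ i).pow (m + 1))
    rwa [zero_add, one_mul] at this
  have h2 : ∀ i : Fin 3, (X i * X 2 ^ m : S).IsHomogeneous (m + 1) := by
    intro i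
    have := (isHomogeneous_X ℂ i).mul ((isHomogeneous_X ℂ (2 : Fin 3)).pow m)
    rwa [one_mul, add_comm 1 m] at this
  have h3 := (isHomogeneous_C (Fin 3) c).mul ((h1 1).sub (h2 1))
  rw [zero_add] at h3
  exact ((h1 0).sub (h2 0)).add h3

lemma uu_pd0 (m : ℕ) (c : ℂ) : pderiv 0 (uu m c) = X 0 ^ m - X 2 ^ m := by
  have h1 : (C (1 / ((m : ℂ) + 1)) : S) * ((m : S) + 1) = 1 := by
    have : ((m : S) + 1) = C ((m : ℂ) + 1) := by simp
    rw [this, ← C_mul, one_div, inv_mul_cancel₀ (m1_ne m), C_1]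
  simp only [uu, map_add, map_sub, pderiv_mul, pderiv_C, pderiv_pow, pderiv_X_self,
    pderiv_X_of_ne (show (1 : Fin 3) ≠ 0 by decide), pderiv_X_of_ne (show (2 : Fin 3) ≠ 0 by decide)]
  simp only [Nat.add_sub_cancel, Nat.cast_add, Nat.cast_one]
  linear_combination (X 0 ^ m) * h1

lemma uu_pd1 (m : ℕ) (c : ℂ) : pderiv 1 (uu m c) = C c * (X 1 ^ m - X 2 ^ m) := by
  have h1 : (C (1 / ((m : ℂ) + 1)) : S) * ((m : S) + 1) = 1 := by
    have : ((m : S) + 1) = C ((m : ℂ) + 1) := by simp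
    rw [this, ← C_mul, one_div, inv_mul_cancel₀ (m1_ne m), C_1]
  simp only [uu, map_add, map_sub, pderiv_mul, pderiv_C, pderiv_pow, pderiv_X_self,
    pderiv_X_of_ne (show (0 : Fin 3) ≠ 1 by decide), pderiv_X_of_ne (show (2 : Fin 3) ≠ 1 by decide)]
  simp only [Nat.add_sub_cancel, Nat.cast_add, Nat.cast_one]
  linear_combination (C c * X 1 ^ m) * h1

lemma z_not_dvd_uu {m : ℕ} (hm : 1 ≤ m) (c : ℂ) : ¬ (X 2 : S) ∣ uu m c := by
  rintro ⟨q, hq⟩
  have h1 := congrArg (MvPolynomial.eval ![(1 : ℂ), 0, 0]) hq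
  have h2 : m ≠ 0 := by omega
  have h3 := m1_ne m
  simp [uu, h2] at h1
  exact h3 h1

/-- the value of `u` at a critical point -/
noncomputable def ww (m : ℕ) (c : ℂ) (a : ℕ → ℂ) (p : ℕ × ℕ) : ℂ :=
  (1 / ((m : ℂ) + 1) - 1) * (a p.1 + c * a p.2)

lemma ev_uu {m : ℕ} {c : ℂ} {a : ℕ → ℂ} (ha : ∀ i < m, a i ^ m = 1) {i j : ℕ} (hi : i < m)
    (hj : j < m) : ev a i j (uu m c) = C (ww m c a (i, j)) * X 2 ^ (m + 1) := by
  have h1 : (C (a i) : S) ^ m = 1 := by rw [← C_pow, ha i hi, C_1]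
  have h2 : (C (a j) : S) ^ m = 1 := by rw [← C_pow, ha j hj, C_1]
  have h3 : (C (ww m c a (i, j)) : S) =
      (C (1 / ((m : ℂ) + 1)) - 1) * (C (a i) + C c * C (a j)) := by
    simp only [ww, C_mul, C_sub, C_add, C_1]
  rw [h3]
  simp only [uu, map_add, map_sub, map_mul, map_pow, ev_X0, ev_X1, ev_X2, ev_C]
  linear_combination (C (1 / ((m : ℂ) + 1)) * C (a i) * X 2 ^ (m + 1)) * h1 +
    (C c * C (1 / ((m : ℂ) + 1)) * C (a j) * X 2 ^ (m + 1)) * h2

/-- a generic constant -/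
lemma exists_const {a : ℕ → ℂ} (ha : Function.Injective a) {m : ℕ} (hm : 1 ≤ m) :
    ∃ c : ℂ, c ≠ 0 ∧ ∀ i < m, ∀ j < m, ∀ i' < m, ∀ j' < m,
      ww m c a (i, j) = ww m c a (i', j') → i = i' ∧ j = j' := by
  classical
  set E : Finset ℂ := insert 0 (((Finset.range m ×ˢ Finset.range m) ×ˢ
    (Finset.range m ×ˢ Finset.range m)).image fun p =>
      (a p.1.1 - a p.1.2) / (a p.2.1 - a p.2.2)) with hE
  obtain ⟨c, hc⟩ := Infinite.exists_notMem_finset E
  refine ⟨c, fun h => hc (by rw [h, hE]; exact Finset.mem_insert_self _ _), ?_⟩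
  intro i hi j hj i' hi' j' hj' h
  have hne : (1 / ((m : ℂ) + 1) - 1) ≠ 0 := by
    intro h0
    have h1 := m1_ne m
    field_simp at h0
    have h2 : (m : ℂ) = 0 := by linear_combination -h0
    have h3 : m = 0 := by exact_mod_cast h2
    omega
  have h1 : a i + c * a j = a i' + c * a j' := mul_left_cancel₀ hne h
  have hjj : j = j' := by
    by_contra hjj
    apply hc
    rw [hE]
    apply Finset.mem_insert_of_mem
    rw [Finset.mem_image]
    refine ⟨((i', i), (j, j')), ?_, ?_⟩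
    · simp [hi, hi', hj, hj']
    · have h2 : a j - a j' ≠ 0 := sub_ne_zero.2 fun h => hjj (ha h)
      change (a i' - a i) / (a j - a j') = c
      rw [div_eq_iff h2]
      linear_combination -h1
  refine ⟨?_, hjj⟩
  subst hjj
  exact ha (add_right_cancel h1)

end Pool.Agent.R689.JP
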