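import Pool.Agent.R689.JP4

/-!
Every ordered partition is realised.
-/

set_option autoImplicit false

namespace Pool.Agent.R689.JP

open MvPolynomial

/-- partial sums from the right -/
def al (s : ℕ) (e : ℕ → ℕ) (j : ℕ) : ℕ := ∑ i ∈ Finset.Ico j s, e i

/-- the heights of the staircase -/
def be (s : ℕ) (e : ℕ → ℕ) (l : ℕ) : ℕ := l * al s e 0

lemma al_succ {s : ℕ} {e : ℕ → ℕ} {j : ℕ} (h : j < s) : al s e j = e j + al s e (j + 1) :=
  Finset.sum_eq_sum_Ico_succ_bot h e

lemma al_anti (s : ℕ) (e : ℕ → ℕ) : Antitone (al s e) := by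
  intro i j h
  exact Finset.sum_le_sum_of_subset (Finset.Ico_subset_Ico_left h)

lemma al_ge {s : ℕ} {e : ℕ → ℕ} {j : ℕ} (h : s ≤ j) : al s e j = 0 := by
  unfold al
  rw [Finset.Ico_eq_empty_of_le h, Finset.sum_empty]

lemma e_le {s : ℕ} {e : ℕ → ℕ} {j : ℕ} (h : j < s) : e j ≤ al s e 0 :=
  Finset.single_le_sum (f := e) (fun _ _ => Nat.zero_le _)
    (Finset.mem_Ico.2 ⟨Nat.zero_le j, h⟩)

lemma be_mono (s : ℕ) (e : ℕ → ℕ) : Monotone (be s e) :=
  fun _ _ h => Nat.mul_le_mul_right _ h

lemma be_succ (s : ℕ) (e : ℕ → ℕ) (l : ℕ) : be s e (l + 1) = be s e l + al s e 0 := by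
  unfold be; ring

lemma aa_mono (s : ℕ) (e : ℕ → ℕ) : Monotone fun l => al s e l + be s e l := by
  apply monotone_nat_of_le_succ
  intro l
  rw [be_succ]
  rcases Nat.lt_or_ge l s with h | h
  · rw [al_succ h]
    have := e_le (e := e) h
    omega
  · rw [al_ge h]; omega

lemma constantCoeff_of_hom {φ : S} {n : ℕ} (h : φ.IsHomogeneous n) (hn : 1 ≤ n) :
    constantCoeff φ = 0 := by
  rw [constantCoeff_eq]
  exact h.coeff_eq_zero (by simp; omega)

lemma hom_congr {φ : S} {m n : ℕ} (h : φ.IsHomogeneous m) (e : m = n) : φ.IsHomogeneous n :=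
  e ▸ h

theorem main (s : ℕ) (hs : 1 ≤ s) (e : ℕ → ℕ) (he : ∀ j < s, 1 ≤ e j) :
    ∃ (d : ℕ) (f : S) (δ : Fin (s + 2) → ℕ) (c : Fin s → ℕ) (r : Fin (s + 2) → Fin 3 → S)
      (ρ : Fin s → Fin (s + 2) → S),
      3 ≤ d ∧ f.IsHomogeneous d ∧ Squarefree f ∧ Monotone δ ∧ Monotone c ∧
      Function.Exact (Fintype.linearCombination S r) (jac f) ∧
      Function.Exact (Fintype.linearCombination S ρ) (Fintype.linearCombination S r) ∧
      Function.Injective (Fintype.linearCombination S ρ) ∧
      (∀ i k, (r i k).IsHomogeneous (δ i)) ∧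
      (∀ j i, ρ j i = 0 ∨ ∃ n, 1 ≤ n ∧ c j = (d - 1 + δ i) + n ∧ (ρ j i).IsHomogeneous n) ∧
      (∀ i, 1 ≤ δ i) ∧
      (∀ j : Fin s, c j + 1 = d + δ j.succ.succ + e j) ∧
      δ 0 + δ 1 + 1 = d + ∑ j ∈ Finset.range s, e j := by
  classical
  set t := al s e 0 with ht
  have ht1 : 1 ≤ t := le_trans (he 0 (by omega)) (e_le (by omega))
  set m := s * t + 2 with hm
  have hm1 : 1 ≤ m := by omega
  have hst : t ≤ s * t := Nat.le_mul_of_pos_left t hs
  obtain ⟨a, ha, hroot, hPL, hQR⟩ := exists_seq hm1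
  obtain ⟨c, hc0, hinj⟩ := exists_const ha hm1
  set P : S := X 0 ^ m - X 2 ^ m with hP
  set Q : S := C c * (X 1 ^ m - X 2 ^ m) with hQ
  set α := al s e with hα
  set β := be s e with hβ
  have hα0 : α 0 = t := rfl
  have hαs : α s = 0 := al_ge le_rfl
  have hβ0 : β 0 = 0 := by simp [hβ, be]
  have hαa : Antitone α := al_anti s e
  have hβm : Monotone β := be_mono s e
  have hβs : ∀ l ≤ s, β l ≤ s * t := fun l hl => Nat.mul_le_mul_right _ hl
  have hαt : ∀ l, α l ≤ t := fun l => hαa (Nat.zero_le l)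
  set T : Finset ℂ := ((Finset.range m ×ˢ Finset.range m).filter
    (fun p => ¬ ∀ l ≤ s, p.1 < α l ∨ p.2 < β l)).image (ww m c a) with hT
  have hmemT : ∀ i < m, ∀ j < m, (ww m c a (i, j) ∈ T ↔ ¬ ∀ l ≤ s, i < α l ∨ j < β l) := by
    intro i hi j hj
    rw [hT, Finset.mem_image]
    constructor
    · rintro ⟨⟨i', j'⟩, hmem, hw⟩
      rw [Finset.mem_filter, Finset.mem_product, Finset.mem_range, Finset.mem_range] at hmem
      obtain ⟨⟨hi', hj'⟩, hn⟩ := hmem
      obtain ⟨rfl, rfl⟩ := hinj i' hi' j' hj' i hi j hj hw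
      exact hn
    · intro hn
      refine ⟨(i, j), ?_, rfl⟩
      rw [Finset.mem_filter, Finset.mem_product, Finset.mem_range, Finset.mem_range]
      exact ⟨⟨hi, hj⟩, hn⟩
  have hTcard : 2 ≤ T.card := by
    have h1 : ww m c a (m - 1, 0) ∈ T := by
      rw [hmemT _ (by omega) _ (by omega)]
      intro h
      rcases h 0 (Nat.zero_le s) with h | h
      · omega
      · rw [hβ0] at h; omega
    have h2 : ww m c a (m - 1, 1) ∈ T := by
      rw [hmemT _ (by omega) _ (by omega)]
      intro h
      rcases h 0 (Nat.zero_le s) with h | h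
      · omega
      · rw [hβ0] at h; omega
    have h3 : ww m c a (m - 1, 0) ≠ ww m c a (m - 1, 1) := by
      intro h
      have := (hinj _ (by omega) _ (by omega) _ (by omega) _ (by omega) h).2
      omega
    exact Finset.one_lt_card.2 ⟨_, h1, _, h2, h3⟩
  obtain ⟨N, hN⟩ : ∃ N, T.card = N + 1 := ⟨T.card - 1, by omega⟩
  have hN1 : 1 ≤ N := by omega
  set g := gT (uu m c) (m + 1) T with hg
  have hz : ¬ (X 2 : S) ∣ g := z_not_dvd_gT (by omega) (z_not_dvd_uu hm1 c) T
  have hg0 : g ≠ 0 := gT_ne (by omega) (z_not_dvd_uu hm1 c) T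
  have hghom : g.IsHomogeneous ((m + 1) * (N + 1)) := by
    rw [← hN]; exact gT_hom (uu_hom m c) T
  obtain ⟨g', hd0, hd1, hrel, -, hg'hom⟩ := exists_gp (by omega) (uu_hom m c) (uu_pd0 m c)
    (uu_pd1 m c) (z_not_dvd_uu hm1 c) T
  rw [← hg] at hd0 hd1 hrel
  rw [← hP] at hd0
  rw [← hQ] at hd1
  have hg'h : g'.IsHomogeneous ((m + 1) * N) := hg'hom _ (by rw [hN]; ring)
  have hg'0 : g' ≠ 0 := by
    rintro rfl
    rw [isRelPrime_zero_left] at hrel
    have h1 := hrel.map (constantCoeff (R := ℂ) (σ := Fin 3))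
    rw [constantCoeff_of_hom hghom (Nat.mul_pos (by omega) (by omega))] at h1
    exact not_isUnit_zero h1
  have hCc : IsUnit (C c : S) := (IsUnit.mk0 c hc0).map C
  have hP0 : P ≠ 0 := by rw [← hPL]; exact prodL_ne a _
  have hQ0 : Q ≠ 0 := by
    rw [hQ, ← hQR]; exact mul_ne_zero hCc.ne_zero (prodR_ne a _)
  have hPQ : IsRelPrime P Q := by
    rw [hQ, ← hPL, ← hQR, isRelPrime_mul_unit_left_right hCc]
    exact relPrime_prod a _ _
  have hPhom : P.IsHomogeneous m := by
    rw [← hPL]; exact hom_congr (prodL_hom a _) (Finset.card_range m)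
  have hQhom : Q.IsHomogeneous m := by
    rw [hQ, ← hQR]
    exact hom_congr ((isHomogeneous_C (Fin 3) c).mul (prodR_hom a _))
      (by rw [Finset.card_range]; omega)
  have hevg : ∀ i < m, ∀ j < m, (ev a i j g = 0 ↔ ¬ ∀ l ≤ s, i < α l ∨ j < β l) := by
    intro i hi j hj
    rw [← hmemT i hi j hj, hg, gT, map_prod, Finset.prod_eq_zero_iff]
    have h1 : ∀ x : ℂ, ev a i j (uu m c - C x * X 2 ^ (m + 1)) =
        C (ww m c a (i, j) - x) * X 2 ^ (m + 1) := by
      intro x
      rw [map_sub, ev_uu hroot hi hj, map_mul, map_pow, ev_X2, ev_C, C_sub]; ring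
    constructor
    · rintro ⟨x, hx, h2⟩
      rw [h1] at h2
      have h3 := (mul_eq_zero.1 h2).resolve_right (pow_ne_zero _ (X_ne_zero 2))
      rw [map_eq_zero_iff _ (C_injective (Fin 3) ℂ), sub_eq_zero] at h3
      rwa [h3]
    · intro h2
      exact ⟨_, h2, by rw [h1, sub_self, C_0, zero_mul]⟩
  have hevP : ∀ i < m, ∀ j, ev a i j P = 0 := by
    intro i hi j
    rw [← hPL, map_prod]
    exact Finset.prod_eq_zero (Finset.mem_range.2 hi) (ev_L_self a i j)
  have hevQ : ∀ i, ∀ j < m, ev a i j Q = 0 := by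
    intro i j hj
    rw [hQ, ← hQR, map_mul, map_prod, Finset.prod_eq_zero (Finset.mem_range.2 hj)
      (ev_R_self a i j), mul_zero]
  set n := (m + 1) * (N + 1) with hn
  have hn1 : (n : ℂ) + 1 ≠ 0 := m1_ne n
  set F := Fg a α β with hF
  -- generators of the ideal
  have hgen : ∀ x y μ : S, x * P + y * Q = C ((n : ℂ) + 1) * μ * g →
      ∃ p : ℕ → S, μ = ∑ l ∈ Finset.range (s + 1), p l * F l := by
    intro x y μ h
    obtain ⟨p, hp⟩ := staircase ha hαa hβm hβ0 s μ (by
      intro i j _ hij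
      have hi : i < m := by
        rcases hij 0 (Nat.zero_le s) with h | h
        · omega
        · omega
      have hj : j < m := by
        rcases hij s le_rfl with h | h
        · omega
        · have := hβs s le_rfl
          omega
      have h1 := congrArg (ev a i j) h
      rw [map_add, map_mul, map_mul, hevP i hi, hevQ i j hj, mul_zero, mul_zero, add_zero,
        map_mul, map_mul, ev_C] at h1
      have h2 : ev a i j g ≠ 0 := fun h => (hevg i hi j hj).1 h hij
      have h3 := (mul_eq_zero.1 h1.symm).resolve_right h2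
      refine (mul_eq_zero.1 h3).resolve_left ?_
      intro h
      rw [map_eq_zero_iff _ (C_injective (Fin 3) ℂ)] at h
      exact hn1 h)
    refine ⟨p, ?_⟩
    rw [← hp, hαs]; simp
  have hFhom : ∀ l, (F l).IsHomogeneous (α l + β l) := by
    intro l
    exact hom_congr ((prodL_hom a _).mul (prodR_hom a _))
      (by rw [Finset.card_range, Finset.card_range])
  have hlift : ∀ l, ∃ x y : S, l ≤ s → (x.IsHomogeneous (α l + β l + (m + 1) * N + 1) ∧
      y.IsHomogeneous (α l + β l + (m + 1) * N + 1) ∧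
      x * P + y * Q = C ((n : ℂ) + 1) * F l * g) := by
    intro l
    by_cases hl : l ≤ s
    · obtain ⟨A, B, hAB⟩ := exists_grid ha (Finset.range m) (Finset.range m)
        (C ((n : ℂ) + 1) * F l * g) (by
          intro i hi j hj
          rw [Finset.mem_range] at hi hj
          rw [map_mul, map_mul]
          by_cases hij : ∀ l ≤ s, i < α l ∨ j < β l
          · have : ev a i j (F l) = 0 := by
              rw [hF, Fg, map_mul, map_prod, map_prod]
              rcases hij l hl with h | h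
              · rw [Finset.prod_eq_zero (Finset.mem_range.2 h) (ev_L_self a i j), zero_mul]
              · rw [Finset.prod_eq_zero (Finset.mem_range.2 h) (ev_R_self a i j), mul_zero]
            rw [this, mul_zero, zero_mul]
          · rw [(hevg i hi j hj).2 hij, mul_zero])
      have h1 : A * P + (C c⁻¹ * B) * Q = C ((n : ℂ) + 1) * F l * g := by
        rw [hAB, hPL, hQR, hP, hQ]
        have : (C c⁻¹ : S) * C c = 1 := by rw [← C_mul, inv_mul_cancel₀ hc0, C_1]
        linear_combination (B * (X 1 ^ m - X 2 ^ m)) * this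
      have h2 : (C ((n : ℂ) + 1) * F l * g).IsHomogeneous
          ((α l + β l + (m + 1) * N + 1) + m) := by
        exact hom_congr (((isHomogeneous_C (Fin 3) _).mul (hFhom l)).mul hghom)
          (by rw [hn]; ring)
      obtain ⟨x, y, hx, hy, hxy⟩ := exists_hom_lift hPhom hQhom h2 h1
      exact ⟨x, y, fun _ => ⟨hx, hy, hxy⟩⟩
    · exact ⟨0, 0, fun h => absurd h hl⟩
  choose A B hAB using hlift
  set U : ℕ → S := fun l => ∏ i ∈ Finset.Ico (α (l + 1)) (α l), Lf a i with hU
  set V : ℕ → S := fun l => ∏ j ∈ Finset.Ico (β l) (β (l + 1)), Rf a j with hV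
  have hFl : ∀ l, F l = (∏ i ∈ Finset.range (α l), Lf a i) * ∏ j ∈ Finset.range (β l), Rf a j :=
    fun l => rfl
  have hrelF : ∀ l < s, V l * F l = U l * F (l + 1) := by
    intro l _
    rw [hFl, hFl, prod_range_split (Lf a) (hαa (Nat.le_succ l)),
      prod_range_split (Rf a) (hβm (Nat.le_succ l))]
    ring
  have hq : ∀ l, ∃ q : S, l < s → (V l * A l - U l * A (l + 1) = q * Q ∧
      V l * B l - U l * B (l + 1) = -(q * P)) := by
    intro l
    by_cases hl : l < s
    · have h1 := (hAB l (by omega)).2.2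
      have h2 := (hAB (l + 1) (by omega)).2.2
      have h3 : (V l * A l - U l * A (l + 1)) * P + (V l * B l - U l * B (l + 1)) * Q = 0 := by
        linear_combination V l * h1 - U l * h2 + (C ((n : ℂ) + 1) * g) * hrelF l hl
      obtain ⟨q, h4⟩ := exists_of_relPrime hPQ hQ0 h3
      exact ⟨q, fun _ => h4⟩
    · exact ⟨0, fun h => absurd h hl⟩
  choose q hq using hq
  have hVhom : ∀ l, (V l).IsHomogeneous t := by
    intro l
    refine hom_congr (prodR_hom a _) ?_
    rw [Nat.card_Ico, hβ, be_succ]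
    omega
  have hUhom : ∀ l < s, (U l).IsHomogeneous (e l) := by
    intro l hl
    refine hom_congr (prodL_hom a _) ?_
    rw [Nat.card_Ico, hα, al_succ hl]
    omega
  have hαl : ∀ l < s, α l = e l + α (l + 1) := fun l hl => al_succ hl
  have hβl : ∀ l, β (l + 1) = β l + t := fun l => be_succ s e l
  have hdvd : ∀ l < s, ∀ c : ℕ → S, (∀ i, l + 1 < i → c i = 0) →
      ∑ i ∈ Finset.range (s + 1), c i * F i = 0 → U l ∣ c (l + 1) := by
    intro l hl c hci hsum
    have h1 : (∏ i ∈ Finset.range (α l), Lf a i) ∣ c (l + 1) * F (l + 1) := by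
      rw [← Finset.add_sum_erase _ _ (Finset.mem_range.2 (show l + 1 < s + 1 by omega))] at hsum
      have h2 : c (l + 1) * F (l + 1) =
          -∑ x ∈ (Finset.range (s + 1)).erase (l + 1), c x * F x := by
        linear_combination hsum
      rw [h2, dvd_neg]
      apply Finset.dvd_sum
      intro i hi
      rw [Finset.mem_erase] at hi
      rcases Nat.lt_or_ge i (l + 1) with h | h
      · refine Dvd.dvd.mul_left ?_ _
        rw [hFl]
        refine Dvd.dvd.mul_right ?_ _
        apply Finset.prod_dvd_prod_of_subset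
        exact Finset.range_subset_range.2 (hαa (by omega))
      · rw [hci i (by omega), zero_mul]
        exact dvd_zero _
    rw [hFl, prod_range_split (Lf a) (hαa (Nat.le_succ l))] at h1
    have h3 : (∏ i ∈ Finset.range (α (l + 1)), Lf a i) * U l ∣
        (∏ i ∈ Finset.range (α (l + 1)), Lf a i) *
          (c (l + 1) * ∏ j ∈ Finset.range (β (l + 1)), Rf a j) := by
      refine h1.trans (dvd_of_eq ?_)
      ring
    rw [mul_dvd_mul_iff_left (prodL_ne a _)] at h3
    exact (relPrime_prod a _ _).dvd_of_dvd_mul_right h3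
  have hkN : m + 1 ≤ (m + 1) * N := Nat.le_mul_of_pos_right _ hN1
  have hqhom : ∀ l < s, ∃ k, 1 ≤ k ∧ k + m = α l + β l + (m + 1) * N + 1 + t ∧
      (q l).IsHomogeneous k := by
    intro l hl
    refine ⟨α l + β l + (m + 1) * N + 1 + t - m, by omega, by omega, ?_⟩
    refine exists_hom_quot (A := V l * A l - U l * A (l + 1)) hQhom ?_ hQ0 (hq l hl).1
    refine IsHomogeneous.sub ?_ ?_
    · exact hom_congr ((hVhom l).mul (hAB l (by omega)).1) (by omega)
    · refine hom_congr ((hUhom l hl).mul (hAB (l + 1) (by omega)).1) ?_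
      have h1 := hαl l hl
      have h2 := hβl l
      omega
  set δ : Fin (s + 2) → ℕ := Fin.cons m (fun l : Fin (s + 1) => α l + β l + (m + 1) * N + 1)
    with hδ
  have hδ0 : δ 0 = m := rfl
  have hδs : ∀ l : Fin (s + 1), δ l.succ = α l + β l + (m + 1) * N + 1 := fun l => rfl
  have haam : Monotone fun l => α l + β l := aa_mono s e
  refine ⟨n + 1, X 2 * g, δ, fun j => n + (α ((j : ℕ) + 1) + β ((j : ℕ) + 1) + (m + 1) * N + 1 + e j),
    rmap P Q g' A B F s, rhomap U V q s, ?_, ?_, ?_, ?_, ?_, ?_, ?_, ?_, ?_, ?_, ?_, ?_, ?_⟩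
  · have : 1 ≤ N + 1 := by omega
    have : m + 1 ≤ n := Nat.le_mul_of_pos_right _ (by omega)
    omega
  · exact hom_congr ((isHomogeneous_X ℂ (2 : Fin 3)).mul hghom) (by omega)
  · exact sqf hg0 hd0 hd1 hrel hPQ hz
  · rw [Fin.monotone_iff_le_succ]
    intro i
    refine Fin.cases ?_ (fun i => ?_) i
    · change m ≤ _
      rw [hδs]; omega
    · rw [hδs]
      change δ i.castSucc.succ ≤ _
      rw [hδs]
      have := haam (show (i : ℕ) ≤ (i : ℕ) + 1 from Nat.le_succ _)
      simp only [Fin.val_castSucc, Fin.val_succ] at this ⊢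
      omega
  · intro j j' hjj
    rcases eq_or_lt_of_le hjj with h | h
    · rw [h]
    · have h' : (j : ℕ) < j' := h
      have h1 := hαl j j.2
      have h2 := hαl j' j'.2
      have h3 := hβl j
      have h4 := hβl j'
      have h5 := haam (show (j : ℕ) + 1 ≤ j' from h')
      have h6 : e j ≤ t := e_le (e := e) j.2
      simp only at h5 ⊢
      omega
  · exact exact_one hghom hd0 hd1 hrel hz hg'0 hPQ hQ0 hgen (fun l hl => (hAB l hl).2.2)
  · refine exact_two hg'0 hQ0 ?_ hrelF (fun l hl => (hq l hl).1) (fun l hl => (hq l hl).2) hdvd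
    rw [hFl]
    exact mul_ne_zero (prodL_ne a _) (prodR_ne a _)
  · exact inj_three (fun l _ => prodR_ne a _)
  · intro i k
    refine Fin.cases ?_ (fun l => ?_) i
    · rw [rmap_zero, hδ0]
      fin_cases k
      · exact hQhom
      · exact hPhom.neg
      · exact isHomogeneous_zero _ _ _
    · rw [rmap_succ, hδs]
      obtain ⟨h1, h2, -⟩ := hAB l (by omega)
      have h3 : ∀ k : Fin 3, (F l * g' * X k).IsHomogeneous (α l + β l + (m + 1) * N + 1) :=
        fun k => ((hFhom l).mul hg'h).mul (isHomogeneous_X ℂ k)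
      fin_cases k
      · exact h1.sub (h3 0)
      · exact h2.sub (h3 1)
      · exact (h3 2).neg
  · intro j i
    refine Fin.cases ?_ (fun l => ?_) i
    · right
      obtain ⟨k, hk1, hk2, hk3⟩ := hqhom j j.2
      refine ⟨k, hk1, ?_, by rw [rhomap_zero]; exact hk3.neg⟩
      have h1 := hαl j j.2
      have h3 := hβl j
      simp only [hδ0]
      omega
    · rw [rhomap_succ, hδs]
      unfold rc
      by_cases h : (l : ℕ) = j
      · right
        rw [if_pos h]
        refine ⟨t, ht1, ?_, hVhom j⟩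
        have h1 := hαl j j.2
        have h3 := hβl j
        rw [h]
        simp only
        omega
      · rw [if_neg h]
        by_cases h' : (l : ℕ) = j + 1
        · right
          rw [if_pos h']
          refine ⟨e j, he j j.2, ?_, (hUhom j j.2).neg⟩
          rw [h']
          simp only
          omega
        · left
          rw [if_neg h']
  · intro i
    refine Fin.cases ?_ (fun l => ?_) i
    · rw [hδ0]; omega
    · rw [hδs]; omega
  · intro j
    rw [hδs]
    simp only [Fin.val_succ]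
    omega
  · have h1 : δ 1 = α 0 + β 0 + (m + 1) * N + 1 := rfl
    have h2 : ∑ j ∈ Finset.range s, e j = α 0 := by
      rw [hα, al, Finset.range_eq_Ico]
    rw [h1, h2, hδ0, hβ0, hn]
    ring

end Pool.Agent.R689.JP
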