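import Mathlib

/-! Lech–Mumford constants: definitions and basic lemmas. -/

namespace R689LM

open IsLocalRing Filter
open scoped ENNReal Nat

/-- Krull dimension as a natural number (it is finite for a Noetherian local ring). -/
noncomputable def kdim (S : Type*) [CommRing S] : ℕ := ((ringKrullDim S).unbotD 0).toNat

/-- The length `ℓ(S/I)` of the `S`-module `S/I`, as an extended nonnegative real. -/
noncomputable def len (S : Type*) [CommRing S] (I : Ideal S) : ℝ≥0∞ :=
  ((Module.length S (S ⧸ I) : ℕ∞) : ℝ≥0∞)

/-- The Hilbert–Samuel multiplicity `e(I) = lim_k e! ℓ(S/I^k) / k^e`, `e = dim S`. -/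
noncomputable def mult (S : Type*) [CommRing S] (I : Ideal S) : ℝ≥0∞ :=
  limsup (fun k : ℕ => ((kdim S)! : ℝ≥0∞) * len S (I ^ k) / (k : ℝ≥0∞) ^ (kdim S)) atTop

/-- The ratio `e(I) / (e! ℓ(S/I))`. -/
noncomputable def ratio (S : Type*) [CommRing S] (I : Ideal S) : ℝ≥0∞ :=
  mult S I / (((kdim S)! : ℝ≥0∞) * len S I)

/-- The Lech–Mumford constant. -/
noncomputable def LM (S : Type*) [CommRing S] [IsLocalRing S] : ℝ≥0∞ :=
  ⨆ (I : Ideal S) (_ : I.radical = maximalIdeal S), ratio S I

/-- The supremum restricted to ideals contained in `𝔫^N`. -/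
noncomputable def LMdeep (S : Type*) [CommRing S] [IsLocalRing S] (N : ℕ) : ℝ≥0∞ :=
  ⨆ (I : Ideal S) (_ : I.radical = maximalIdeal S) (_ : I ≤ maximalIdeal S ^ N), ratio S I

/-! ### Length over a subring with the same residue field -/

section lengths

variable {A B : Type*} [CommRing A] [CommRing B] [IsLocalRing B] [Algebra A B]

theorem simple_restrict (hsurj : ∀ b : B, ∃ a : A, b - algebraMap A B a ∈ maximalIdeal B)
    (Q : Type*) [AddCommGroup Q] [Module A Q] [Module B Q] [IsScalarTower A B Q]
    (h : IsSimpleModule B Q) : IsSimpleModule A Q := by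
  rw [isSimpleModule_iff_toSpanSingleton_surjective] at h ⊢
  obtain ⟨hn, hs⟩ := h
  refine ⟨hn, fun x hx y => ?_⟩
  obtain ⟨b, hb⟩ := hs x hx y
  obtain ⟨a, ha⟩ := hsurj b
  have hkill : ∀ c ∈ maximalIdeal B, c • x = 0 := by
    intro c hc
    by_contra hcx
    obtain ⟨d, hd⟩ := hs (c • x) hcx x
    simp only [LinearMap.toSpanSingleton_apply] at hd
    have h1 : (1 - d * c) • x = 0 := by
      rw [sub_smul, one_smul, mul_smul, hd, sub_self]
    have hu : IsUnit (1 - d * c) := by
      have : d * c ∈ maximalIdeal B := Ideal.mul_mem_left _ _ hc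
      by_contra hnu
      have h2 : (1 - d * c) ∈ maximalIdeal B := (mem_maximalIdeal _).mpr hnu
      have h3 : (1 : B) ∈ maximalIdeal B := by
        have h4 := Ideal.add_mem _ h2 this
        rwa [sub_add_cancel] at h4
      exact (Ideal.ne_top_iff_one _).mp (maximalIdeal.isMaximal B).ne_top h3
    rw [hu.smul_eq_zero] at h1
    exact hx h1
  refine ⟨a, ?_⟩
  simp only [LinearMap.toSpanSingleton_apply] at hb ⊢
  have := hkill _ ha
  rw [sub_smul, hb, algebraMap_smul, sub_eq_zero] at this
  exact this.symm

theorem length_restrict_le (hsurj : ∀ b : B, ∃ a : A, b - algebraMap A B a ∈ maximalIdeal B)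
    (N : Type*) [AddCommGroup N] [Module B N] (hN : IsFiniteLength B N) :
    ∀ [Module A N] [IsScalarTower A B N], Module.length A N ≤ Module.length B N := by
  induction hN with
  | of_subsingleton =>
    intro _ _
    rw [Module.length_eq_zero]
    exact bot_le
  | @of_simple_quotient M _ _ N _ _ ih =>
    intro _ _
    have hA := Module.length_eq_add_of_exact (N.subtype.restrictScalars A)
      (N.mkQ.restrictScalars A) N.subtype_injective N.mkQ_surjective
      (LinearMap.exact_subtype_mkQ N)
    have hB := Module.length_eq_add_of_exact N.subtype N.mkQ N.subtype_injective N.mkQ_surjective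
      (LinearMap.exact_subtype_mkQ N)
    rw [hA, hB]
    refine add_le_add ih ?_
    have h1 : IsSimpleModule A (M ⧸ N) := simple_restrict hsurj _ inferInstance
    rw [Module.length_eq_one, Module.length_eq_one]

/-- If `A → B → B/𝔫` is surjective, then lengths of `B`-modules over `A` and `B` agree. -/
theorem length_restrict (hsurj : ∀ b : B, ∃ a : A, b - algebraMap A B a ∈ maximalIdeal B)
    (N : Type*) [AddCommGroup N] [Module A N] [Module B N] [IsScalarTower A B N] :
    Module.length A N = Module.length B N := by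
  apply le_antisymm
  · by_cases hfin : Module.length B N = ⊤
    · rw [hfin]; exact le_top
    exact length_restrict_le hsurj N (Module.length_ne_top_iff.mp hfin)
  · rw [← WithBot.coe_le_coe, Module.coe_length, Module.coe_length]
    exact Order.krullDim_le_of_orderEmbedding (Submodule.restrictScalarsEmbedding A B N)

end lengths

/-! ### Basic facts on `len` -/

section basic

variable {S : Type*} [CommRing S]

theorem len_mono {I J : Ideal S} (h : I ≤ J) : len S J ≤ len S I := by
  unfold len
  rw [ENat.toENNReal_le]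
  exact Module.length_le_of_surjective (Submodule.factor h) (Submodule.factor_surjective h)

theorem len_pos {I : Ideal S} (h : I ≠ ⊤) : len S I ≠ 0 := by
  unfold len
  rw [Ne, ENat.toENNReal_eq_zero, Module.length_eq_zero_iff]
  intro hs
  exact h (Ideal.Quotient.subsingleton_iff.mp hs)

theorem len_inf_le (I J : Ideal S) : len S (I ⊓ J) ≤ len S I + len S J := by
  unfold len
  rw [← ENat.toENNReal_add, ENat.toENNReal_le, ← Module.length_prod]
  refine Module.length_le_of_injective
    (LinearMap.prod (Submodule.factor (inf_le_left : I ⊓ J ≤ I))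
      (Submodule.factor (inf_le_right : I ⊓ J ≤ J))) ?_
  rw [injective_iff_map_eq_zero]
  intro x hx
  obtain ⟨s, rfl⟩ := Submodule.Quotient.mk_surjective _ x
  have h1 : Submodule.factor (inf_le_left : I ⊓ J ≤ I) (Submodule.mkQ _ s) = 0 :=
    congrArg Prod.fst hx
  have h2 : Submodule.factor (inf_le_right : I ⊓ J ≤ J) (Submodule.mkQ _ s) = 0 :=
    congrArg Prod.snd hx
  rw [Submodule.factor_mk, Submodule.mkQ_apply, Submodule.Quotient.mk_eq_zero] at h1 h2
  rw [Submodule.Quotient.mk_eq_zero]
  exact ⟨h1, h2⟩

theorem len_ne_top [IsLocalRing S] [IsNoetherianRing S] {I : Ideal S}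
    (h : maximalIdeal S ≤ I.radical) : len S I ≠ ⊤ := by
  unfold len
  rw [Ne, ENat.toENNReal_eq_top]
  by_cases hI : I = ⊤
  · subst hI
    rw [Module.length_eq_zero]
    exact ENat.zero_ne_top
  have hnt : Nontrivial (S ⧸ I) := Ideal.Quotient.nontrivial_iff.mpr hI
  have hloc : IsLocalRing (S ⧸ I) :=
    IsLocalRing.of_surjective' (Ideal.Quotient.mk I) Ideal.Quotient.mk_surjective
  have hart : IsArtinianRing (S ⧸ I) := by
    rw [isArtinianRing_iff_isNilpotent_maximalIdeal]
    obtain ⟨n, hn⟩ := Ideal.exists_pow_le_of_le_radical_of_fg h (IsNoetherian.noetherian _)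
    refine ⟨n, ?_⟩
    have hm : maximalIdeal (S ⧸ I) = (maximalIdeal S).map (Ideal.Quotient.mk I) := by
      symm
      apply IsLocalRing.eq_maximalIdeal
      have := Ideal.map_eq_top_or_isMaximal_of_surjective (Ideal.Quotient.mk I)
        Ideal.Quotient.mk_surjective (maximalIdeal.isMaximal S)
      rcases this with h1 | h1
      · exfalso
        have h2 : (maximalIdeal S) ⊔ I = ⊤ := by
          have := congrArg (Ideal.comap (Ideal.Quotient.mk I)) h1
          rw [Ideal.comap_map_of_surjective _ Ideal.Quotient.mk_surjective, Ideal.comap_top] at this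
          rw [← this]
          congr 1
          rw [← RingHom.ker_eq_comap_bot, Ideal.mk_ker]
        rw [sup_eq_left.mpr (IsLocalRing.le_maximalIdeal hI)] at h2
        exact (maximalIdeal.isMaximal S).ne_top h2
      · exact h1
    rw [hm, ← Ideal.map_pow, Ideal.zero_eq_bot, Ideal.map_eq_bot_iff_le_ker, Ideal.mk_ker]
    exact hn
  have h1 : Module.length S (S ⧸ I) = Module.length (S ⧸ I) (S ⧸ I) :=
    Module.length_eq_of_surjective Ideal.Quotient.mk_surjective
  rw [h1]
  exact Module.length_ne_top

end basic

end R689LM
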