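import Pool.Agent.R689.LechMumford

/-! Colength inequalities in commutative rings. -/

namespace R689LM

open IsLocalRing Filter
open scoped ENNReal Nat

section

variable {S : Type*} [CommRing S]

/-- The colon ideal `(J : u)`. -/
def col (J : Ideal S) (u : S) : Ideal S := Submodule.comap (LinearMap.lsmul S S u) J

theorem mem_col {J : Ideal S} {u s : S} : s ∈ col J u ↔ u * s ∈ J := Iff.rfl

theorem le_col (J : Ideal S) (u : S) : J ≤ col J u := fun _ hs => J.mul_mem_left u hs

theorem col_mono {J J' : Ideal S} (h : J ≤ J') (u : S) : col J u ≤ col J' u := fun _ hs => h hs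

theorem col_col (J : Ideal S) (u v : S) : col (col J u) v = col J (u * v) := by
  ext s
  rw [mem_col, mem_col, mem_col, mul_assoc]

theorem col_one (J : Ideal S) : col J 1 = J := by
  ext s; rw [mem_col, one_mul]

/-- The map `S/(J:u) → S/J` given by multiplication by `u`. -/
noncomputable def mulMap (J : Ideal S) (u : S) : (S ⧸ col J u) →ₗ[S] (S ⧸ J) :=
  Submodule.mapQ _ _ (LinearMap.lsmul S S u) (le_refl _)

theorem mulMap_mk (J : Ideal S) (u s : S) :
    mulMap J u (Submodule.Quotient.mk s) = Submodule.Quotient.mk (u * s) := rfl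

theorem mulMap_inj (J : Ideal S) (u : S) : Function.Injective (mulMap J u) := by
  rw [injective_iff_map_eq_zero]
  intro x hx
  obtain ⟨s, rfl⟩ := Submodule.Quotient.mk_surjective _ x
  rw [mulMap_mk, Submodule.Quotient.mk_eq_zero] at hx
  rw [Submodule.Quotient.mk_eq_zero]
  exact hx

theorem len_col (J : Ideal S) (u : S) :
    len S J = len S (col J u) + len S (Ideal.span {u} ⊔ J) := by
  unfold len
  rw [← ENat.toENNReal_add]
  congr 1
  have hle : J ≤ Ideal.span {u} ⊔ J := le_sup_right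
  refine Module.length_eq_add_of_exact (mulMap J u) (Submodule.factor hle) (mulMap_inj J u)
    (Submodule.factor_surjective hle) ?_
  intro x
  obtain ⟨s, rfl⟩ := Submodule.Quotient.mk_surjective _ x
  have hkey : Submodule.factor hle (Submodule.Quotient.mk s) = 0 ↔ s ∈ Ideal.span {u} ⊔ J := by
    change Submodule.factor hle (Submodule.mkQ _ s) = 0 ↔ _
    rw [Submodule.factor_mk, Submodule.mkQ_apply, Submodule.Quotient.mk_eq_zero]
  rw [hkey, Ideal.mem_span_singleton_sup]
  constructor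
  · rintro ⟨a, b, hb, hab⟩
    refine ⟨Submodule.Quotient.mk a, ?_⟩
    rw [mulMap_mk, Submodule.Quotient.eq]
    have : u * a - s = -b := by rw [← hab]; ring
    rw [this]; exact J.neg_mem hb
  · rintro ⟨y, hy⟩
    obtain ⟨a, rfl⟩ := Submodule.Quotient.mk_surjective _ y
    rw [mulMap_mk, Submodule.Quotient.eq] at hy
    exact ⟨a, s - u * a, by rw [← neg_sub]; exact J.neg_mem hy, by ring⟩

/-- `λ(Q + (uv)) ≤ λ(Q + (u)) + λ(Q + (v))`. -/
theorem len_sup_mul (Q : Ideal S) (u v : S) :
    len S (Ideal.span {u * v} ⊔ Q) ≤ len S (Ideal.span {v} ⊔ Q) + len S (Ideal.span {u} ⊔ Q) := by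
  rw [len_col (Ideal.span {u * v} ⊔ Q) u]
  refine add_le_add (len_mono ?_) (len_mono ?_)
  · refine sup_le ?_ ?_
    · rw [Ideal.span_singleton_le_iff_mem, mem_col]
      exact Ideal.mem_sup_left (Ideal.mem_span_singleton_self _)
    · exact fun s hs => mem_col.mpr (Ideal.mul_mem_left _ _ (Ideal.mem_sup_right hs))
  · exact sup_le_sup_left le_sup_right _

theorem len_sup_pow (Q : Ideal S) (u : S) (n : ℕ) :
    len S (Ideal.span {u ^ n} ⊔ Q) ≤ n * len S (Ideal.span {u} ⊔ Q) := by
  induction n with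
  | zero =>
    rw [pow_zero, Ideal.span_singleton_one, top_sup_eq]
    unfold len
    rw [Module.length_eq_zero]
    simp
  | succ n ih =>
    rw [pow_succ]
    refine (len_sup_mul Q (u ^ n) u).trans ?_
    rw [Nat.cast_succ, add_mul, one_mul, add_comm]
    exact add_le_add ih le_rfl

/-- `λ(P) + λ(Q) ≤ λ(K) + λ(P+Q)` for `K ⊆ P ∩ Q`. -/
theorem len_add_le {K P Q : Ideal S} (hP : K ≤ P) (hQ : K ≤ Q) :
    len S P + len S Q ≤ len S K + len S (P ⊔ Q) := by
  unfold len
  rw [← ENat.toENNReal_add, ← ENat.toENNReal_add, ENat.toENNReal_le]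
  -- the difference map
  have hPS : P ≤ P ⊔ Q := le_sup_left
  have hQS : Q ≤ P ⊔ Q := le_sup_right
  let g1 : (S ⧸ P) →ₗ[S] (S ⧸ (P ⊔ Q)) := Submodule.factor hPS
  let g2 : (S ⧸ Q) →ₗ[S] (S ⧸ (P ⊔ Q)) := Submodule.factor hQS
  let g : ((S ⧸ P) × (S ⧸ Q)) →ₗ[S] (S ⧸ (P ⊔ Q)) :=
    g1.comp (LinearMap.fst S (S ⧸ P) (S ⧸ Q)) - g2.comp (LinearMap.snd S (S ⧸ P) (S ⧸ Q))
  let f : (S ⧸ K) →ₗ[S] LinearMap.ker g :=
    LinearMap.codRestrict _ (LinearMap.prod (Submodule.factor hP) (Submodule.factor hQ)) (by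
      intro x
      obtain ⟨s, rfl⟩ := Submodule.Quotient.mk_surjective _ x
      rw [LinearMap.mem_ker]
      change Submodule.mkQ (P ⊔ Q) s - Submodule.mkQ (P ⊔ Q) s = 0
      exact sub_self _)
  have hg : Function.Surjective g := by
    intro x
    obtain ⟨s, rfl⟩ := Submodule.Quotient.mk_surjective _ x
    refine ⟨(Submodule.Quotient.mk s, 0), ?_⟩
    change Submodule.mkQ _ s - Submodule.factor hQS 0 = _
    rw [map_zero, sub_zero]
    rfl
  have hf : Function.Surjective f := by
    rintro ⟨⟨x, y⟩, hxy⟩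
    obtain ⟨s, rfl⟩ := Submodule.Quotient.mk_surjective _ x
    obtain ⟨t, rfl⟩ := Submodule.Quotient.mk_surjective _ y
    have h1 : Submodule.mkQ (P ⊔ Q) s - Submodule.mkQ (P ⊔ Q) t = 0 := LinearMap.mem_ker.mp hxy
    rw [← map_sub, Submodule.mkQ_apply, Submodule.Quotient.mk_eq_zero, Submodule.mem_sup] at h1
    obtain ⟨p, hp, q, hq, hpq⟩ := h1
    refine ⟨Submodule.Quotient.mk (s - p), ?_⟩
    apply Subtype.ext
    change (Submodule.mkQ P (s - p), Submodule.mkQ Q (s - p)) = _
    refine Prod.ext ?_ ?_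
    · change Submodule.Quotient.mk (s - p) = Submodule.Quotient.mk s
      rw [Submodule.Quotient.eq]
      simpa using hp
    · change Submodule.Quotient.mk (s - p) = Submodule.Quotient.mk t
      rw [Submodule.Quotient.eq]
      have : s - p - t = q := by
        have : s - t = p + q := hpq.symm
        rw [sub_right_comm, this]; ring
      rw [this]; exact hq
  rw [← Module.length_prod]
  rw [Module.length_eq_add_of_exact (LinearMap.ker g).subtype g (Submodule.subtype_injective _) hg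
    (LinearMap.exact_subtype_ker_map g)]
  exact add_le_add (Module.length_le_of_surjective f hf) le_rfl

/-- Products, when every ideal containing `c` is principal modulo `c`. -/
theorem len_mul_sup (c : Ideal S) (H : ∀ a : Ideal S, c ≤ a → ∃ s, a = Ideal.span {s} ⊔ c)
    {a b : Ideal S} (ha : c ≤ a) : len S (a * b ⊔ c) ≤ len S a + len S b := by
  obtain ⟨s, hs⟩ := H a ha
  rw [len_col (a * b ⊔ c) s, add_comm]
  refine add_le_add (len_mono ?_) (len_mono ?_)
  · have h1 : Ideal.span {s} ≤ Ideal.span {s} ⊔ (a * b ⊔ c) := le_sup_left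
    have h2 : c ≤ Ideal.span {s} ⊔ (a * b ⊔ c) := le_sup_right.trans le_sup_right
    calc a = Ideal.span {s} ⊔ c := hs
      _ ≤ _ := sup_le h1 h2
  · intro t ht
    rw [mem_col]
    refine Ideal.mem_sup_left (Ideal.mul_mem_mul ?_ ht)
    rw [hs]
    exact Ideal.mem_sup_left (Ideal.mem_span_singleton_self _)

theorem len_pow_sup (c : Ideal S) (H : ∀ a : Ideal S, c ≤ a → ∃ s, a = Ideal.span {s} ⊔ c)
    (a b : Ideal S) (m n : ℕ) :
    len S (a ^ m * b ^ n ⊔ c) ≤ m * len S a + n * len S b := by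
  have hred : ∀ x y z : Ideal S, (x * y ⊔ c) * z ⊔ c = x * (y * z) ⊔ c := by
    intro x y z
    rw [Ideal.sup_mul, sup_assoc, mul_assoc, sup_eq_right.mpr (Ideal.mul_le_left : c * z ≤ c)]
  induction m with
  | zero =>
    induction n with
    | zero =>
      have : (a ^ 0 * b ^ 0 ⊔ c : Ideal S) = ⊤ := by simp
      rw [this]
      unfold len
      rw [Module.length_eq_zero]
      simp
    | succ n ih =>
      have h1 : a ^ 0 * b ^ (n + 1) ⊔ c = (a ^ 0 * b ^ n ⊔ c) * b ⊔ c := by
        rw [Ideal.sup_mul, sup_assoc, sup_eq_right.mpr (Ideal.mul_le_left : c * b ≤ c), pow_succ,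
          mul_assoc]
      rw [h1]
      refine (len_mul_sup c H le_sup_right).trans ?_
      push_cast
      rw [add_mul, one_mul, ← add_assoc]
      refine add_le_add ?_ le_rfl
      simpa using ih
  | succ m ih =>
    have h1 : a ^ (m + 1) * b ^ n ⊔ c = (a ^ m * b ^ n ⊔ c) * a ⊔ c := by
      rw [Ideal.sup_mul, sup_assoc, sup_eq_right.mpr (Ideal.mul_le_left : c * a ≤ c), pow_succ]
      congr 1
      ring
    rw [h1]
    refine (len_mul_sup c H le_sup_right).trans ?_
    push_cast
    rw [add_mul, one_mul, add_right_comm]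
    exact add_le_add ih le_rfl

theorem pow_sup_le (I c : Ideal S) (m : ℕ) : (I ⊔ c) ^ m ≤ I ^ m ⊔ c := by
  induction m with
  | zero => simp
  | succ m ih =>
    rw [pow_succ, pow_succ]
    refine (Ideal.mul_mono_left ih).trans ?_
    rw [Ideal.sup_mul, Ideal.mul_sup]
    refine sup_le (sup_le le_sup_left (Ideal.mul_le_right.trans le_sup_right))
      (Ideal.mul_le_left.trans le_sup_right)

theorem col_pow_mul (J : Ideal S) (y : S) (j m n : ℕ) :
    col J (y ^ j) ^ m * col J (y ^ (j + 1)) ^ n ≤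
      col (J ^ (m + n)) (y ^ (j * (m + n) + n)) := by
  have hmul : ∀ (I I' : Ideal S) (a b : S), col I a * col I' b ≤ col (I * I') (a * b) := by
    intro I I' a b
    rw [Ideal.mul_le]
    intro r hr s hs
    rw [mem_col] at *
    have : a * b * (r * s) = (a * r) * (b * s) := by ring
    rw [this]
    exact Ideal.mul_mem_mul hr hs
  have hpow : ∀ (I : Ideal S) (a : S) (m : ℕ), col I a ^ m ≤ col (I ^ m) (a ^ m) := by
    intro I a m
    induction m with
    | zero => simp [col_one]
    | succ m ih =>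
      rw [pow_succ, pow_succ, pow_succ]
      exact (Ideal.mul_mono_left ih).trans (hmul _ _ _ _)
  calc col J (y ^ j) ^ m * col J (y ^ (j + 1)) ^ n
      ≤ col (J ^ m) ((y ^ j) ^ m) * col (J ^ n) ((y ^ (j + 1)) ^ n) :=
        Ideal.mul_mono (hpow _ _ _) (hpow _ _ _)
    _ ≤ col (J ^ m * J ^ n) ((y ^ j) ^ m * (y ^ (j + 1)) ^ n) := hmul _ _ _ _
    _ = col (J ^ (m + n)) (y ^ (j * (m + n) + n)) := by
        rw [← pow_add, ← pow_mul, ← pow_mul, ← pow_add]
        congr 2
        ring

/-- The `b`-numbers of the power `J^k`. -/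
theorem b_ineq (y : S) (H : ∀ a : Ideal S, Ideal.span {y} ≤ a → ∃ s, a = Ideal.span {s} ⊔ Ideal.span {y})
    (J : Ideal S) (j k r : ℕ) (hr : r ≤ k) :
    len S (Ideal.span {y} ⊔ col (J ^ k) (y ^ (k * j + r))) ≤
      ((k - r : ℕ) : ℝ≥0∞) * len S (Ideal.span {y} ⊔ col J (y ^ j)) +
      (r : ℝ≥0∞) * len S (Ideal.span {y} ⊔ col J (y ^ (j + 1))) := by
  refine le_trans (len_mono ?_) (len_pow_sup (Ideal.span {y}) H _ _ (k - r) r)
  refine sup_le ?_ le_sup_left
  calc (Ideal.span {y} ⊔ col J (y ^ j)) ^ (k - r) * (Ideal.span {y} ⊔ col J (y ^ (j + 1))) ^ r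
      ≤ (col J (y ^ j) ^ (k - r) ⊔ Ideal.span {y}) * (col J (y ^ (j + 1)) ^ r ⊔ Ideal.span {y}) := by
        refine Ideal.mul_mono ?_ ?_
        · rw [sup_comm (Ideal.span {y})]; exact pow_sup_le _ _ _
        · rw [sup_comm (Ideal.span {y})]; exact pow_sup_le _ _ _
    _ ≤ (col J (y ^ j) ^ (k - r) * col J (y ^ (j + 1)) ^ r) ⊔ Ideal.span {y} := by
        rw [Ideal.sup_mul, Ideal.mul_sup]
        exact sup_le (sup_le le_sup_left (Ideal.mul_le_right.trans le_sup_right))
          (Ideal.mul_le_left.trans le_sup_right)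
    _ ≤ Ideal.span {y} ⊔ col (J ^ k) (y ^ (k * j + r)) := by
        rw [sup_comm]
        refine sup_le_sup_left ?_ _
        have := col_pow_mul J y j (k - r) r
        rwa [Nat.sub_add_cancel hr, mul_comm j k] at this

theorem len_sum (y : S) (J : Ideal S) (n : ℕ) :
    len S J = (∑ m ∈ Finset.range n, len S (Ideal.span {y} ⊔ col J (y ^ m))) +
      len S (col J (y ^ n)) := by
  induction n with
  | zero => simp [col_one]
  | succ n ih =>
    rw [Finset.sum_range_succ, add_assoc]
    conv_lhs => rw [ih]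
    congr 1
    rw [len_col (col J (y ^ n)) y, col_col, ← pow_succ, add_comm]

theorem len_top : len S (⊤ : Ideal S) = 0 := by
  unfold len
  rw [Module.length_eq_zero]
  simp

theorem col_eq_top {J : Ideal S} {u : S} (h : u ∈ J) : col J u = ⊤ := by
  rw [Ideal.eq_top_iff_one, mem_col, mul_one]; exact h

theorem sum_two_sub (k : ℕ) : 2 * ∑ r ∈ Finset.range k, (k - r) = k * (k + 1) := by
  have h : ∑ r ∈ Finset.range k, (k - r) = ∑ r ∈ Finset.range k, (r + 1) := by
    rw [← Finset.sum_range_reflect]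
    refine Finset.sum_congr rfl fun r hr => ?_
    rw [Finset.mem_range] at hr
    omega
  rw [h, Finset.sum_add_distrib, Finset.sum_const, Finset.card_range, smul_eq_mul, mul_one,
    mul_add, mul_comm 2 (∑ i ∈ Finset.range k, i), Finset.sum_range_id_mul_two]
  cases k with
  | zero => rfl
  | succ k => simp; ring

/-- The main inequality: `2 λ(J^k) + k(k-1) λ(J + (y)) ≤ 2 k² λ(J)`. -/
theorem len_pow_ineq (y : S)
    (H : ∀ a : Ideal S, Ideal.span {y} ≤ a → ∃ s, a = Ideal.span {s} ⊔ Ideal.span {y})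
    (J : Ideal S) (M : ℕ) (hM : y ^ M ∈ J) (k : ℕ) :
    2 * len S (J ^ k) + ((k * (k - 1) : ℕ) : ℝ≥0∞) * len S (Ideal.span {y} ⊔ J) ≤
      2 * (k : ℝ≥0∞) ^ 2 * len S J := by
  set b : ℕ → ℝ≥0∞ := fun m => len S (Ideal.span {y} ⊔ col J (y ^ m)) with hb
  set β : ℕ → ℝ≥0∞ := fun m => len S (Ideal.span {y} ⊔ col (J ^ k) (y ^ m)) with hβ
  have hb0 : len S (Ideal.span {y} ⊔ J) = b 0 := by simp [hb, col_one]
  have hbM : b M = 0 := by
    simp only [hb]
    rw [col_eq_top hM, sup_top_eq, len_top]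
  have hJ : len S J = ∑ m ∈ Finset.range M, b m := by
    rw [len_sum y J M, col_eq_top hM, len_top, add_zero]
  have hJk : len S (J ^ k) = ∑ m ∈ Finset.range (k * M), β m := by
    rw [len_sum y (J ^ k) (k * M), col_eq_top, len_top, add_zero]
    rw [mul_comm, pow_mul]
    exact Ideal.pow_mem_pow hM k
  have hstep : ∀ j, 2 * ∑ r ∈ Finset.range k, β (k * j + r) ≤
      ((k * (k + 1) : ℕ) : ℝ≥0∞) * b j + ((k * (k - 1) : ℕ) : ℝ≥0∞) * b (j + 1) := by
    intro j
    have h1 : ∑ r ∈ Finset.range k, β (k * j + r) ≤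
        ∑ r ∈ Finset.range k, (((k - r : ℕ) : ℝ≥0∞) * b j + (r : ℝ≥0∞) * b (j + 1)) := by
      refine Finset.sum_le_sum fun r hr => ?_
      rw [Finset.mem_range] at hr
      exact b_ineq y H J j k r hr.le
    refine (mul_le_mul_right h1 2).trans ?_
    rw [Finset.sum_add_distrib, ← Finset.sum_mul, ← Finset.sum_mul, mul_add, ← mul_assoc,
      ← mul_assoc]
    refine add_le_add (mul_le_mul_left ?_ _) (mul_le_mul_left ?_ _)
    · rw [← sum_two_sub k]; push_cast; exact le_rfl
    · rw [← Finset.sum_range_id_mul_two k]; push_cast; rw [mul_comm]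
  have hsum : ∀ n, 2 * ∑ m ∈ Finset.range (k * n), β m ≤
      ∑ j ∈ Finset.range n, (((k * (k + 1) : ℕ) : ℝ≥0∞) * b j + ((k * (k - 1) : ℕ) : ℝ≥0∞) * b (j + 1)) := by
    intro n
    induction n with
    | zero => simp
    | succ n ih =>
      rw [Nat.mul_succ, Finset.sum_range_add, mul_add, Finset.sum_range_succ]
      exact add_le_add ih (hstep n)
  rw [hJk, hb0, hJ]
  refine (add_le_add_left (hsum M) _).trans ?_
  rw [Finset.sum_add_distrib, ← Finset.mul_sum, ← Finset.mul_sum, add_assoc, ← mul_add,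
    ← Finset.sum_range_succ', Finset.sum_range_succ, hbM, add_zero, ← add_mul]
  refine le_of_eq ?_
  congr 1
  cases k with
  | zero => simp
  | succ k =>
    rw [Nat.add_sub_cancel]
    push_cast
    ring

/-- Colength of an extension of ideals through a surjection. -/
theorem len_comap {A : Type*} [CommRing A] (f : S →+* A) (hf : Function.Surjective f)
    (J : Ideal A) : len S (J.comap f) = len A J := by
  unfold len
  congr 1
  let _ : Algebra S A := f.toAlgebra
  have hsm : Function.Surjective (algebraMap S A) := hf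
  rw [← Module.length_eq_of_surjective (R := A) (M := A ⧸ J) hsm]
  let g : S →ₗ[S] (A ⧸ J) := (J.mkQ.restrictScalars S).comp (Algebra.linearMap S A)
  have hg : Function.Surjective g := by
    intro x
    obtain ⟨a, rfl⟩ := Submodule.Quotient.mk_surjective _ x
    obtain ⟨s, rfl⟩ := hf a
    exact ⟨s, rfl⟩
  have hk : J.comap f = LinearMap.ker g := by
    ext s
    rw [Ideal.mem_comap, LinearMap.mem_ker]
    change _ ↔ Submodule.mkQ J (f s) = 0
    rw [Submodule.mkQ_apply, Submodule.Quotient.mk_eq_zero]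
  rw [hk]
  exact (LinearMap.quotKerEquivOfSurjective g hg).length_eq

end

end R689LM
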