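import Pool.Agent.R689.VNum

/-!
Exponent vectors in three variables and products of monomial ideals.
-/

set_option autoImplicit false

namespace Pool.Agent.R689.VNum

open MvPolynomial Pointwise

/-- exponent vectors -/
noncomputable def ex (a b c : ℕ) : Fin 3 →₀ ℕ :=
  Finsupp.single 0 a + Finsupp.single 1 b + Finsupp.single 2 c

lemma ex0 (a b c : ℕ) : ex a b c 0 = a := by simp [ex]
lemma ex1 (a b c : ℕ) : ex a b c 1 = b := by simp [ex]
lemma ex2 (a b c : ℕ) : ex a b c 2 = c := by simp [ex]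

lemma ex_le {a b c : ℕ} {u : Fin 3 →₀ ℕ} : ex a b c ≤ u ↔ a ≤ u 0 ∧ b ≤ u 1 ∧ c ≤ u 2 := by
  rw [Finsupp.le_def]
  constructor
  · intro h
    have h0 := h 0
    have h1 := h 1
    have h2 := h 2
    rw [ex0] at h0
    rw [ex1] at h1
    rw [ex2] at h2
    exact ⟨h0, h1, h2⟩
  · rintro ⟨h0, h1, h2⟩ i
    fin_cases i
    · simpa [ex0] using h0
    · simpa [ex1] using h1
    · simpa [ex2] using h2

lemma degree3 (u : Fin 3 →₀ ℕ) : u.degree = u 0 + u 1 + u 2 := by
  rw [Finsupp.degree_eq_sum, Fin.sum_univ_three]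

lemma ex_degree (a b c : ℕ) : (ex a b c).degree = a + b + c := by
  rw [degree3, ex0, ex1, ex2]

lemma ex_ext {a b c : ℕ} {u : Fin 3 →₀ ℕ} (h0 : u 0 = a) (h1 : u 1 = b) (h2 : u 2 = c) :
    u = ex a b c := by
  ext i
  fin_cases i
  · simpa [ex0] using h0
  · simpa [ex1] using h1
  · simpa [ex2] using h2

lemma ex_add (a b c a' b' c' : ℕ) : ex a b c + ex a' b' c' = ex (a + a') (b + b') (c + c') := by
  apply ex_ext <;> simp [ex0, ex1, ex2]

variable {n : ℕ} {K : Type*} [Field K]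

lemma monIdeal_mul (A B : Set (Fin n →₀ ℕ)) :
    monIdeal K A * monIdeal K B = monIdeal K (A + B) := by
  rw [monIdeal, monIdeal, Ideal.span_mul_span', monIdeal]
  congr 1
  ext f
  constructor
  · rintro ⟨_, ⟨a, ha, rfl⟩, _, ⟨b, hb, rfl⟩, rfl⟩
    exact ⟨a + b, Set.add_mem_add ha hb, by simp [monomial_mul]⟩
  · rintro ⟨_, ⟨a, ha, b, hb, rfl⟩, rfl⟩
    exact ⟨monomial a 1, ⟨a, ha, rfl⟩, monomial b 1, ⟨b, hb, rfl⟩, by simp [monomial_mul]⟩

lemma monIdeal_zero : monIdeal K ({0} : Set (Fin n →₀ ℕ)) = 1 := by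
  rw [monIdeal, Set.image_singleton, Ideal.one_eq_top, Ideal.eq_top_iff_one]
  exact Ideal.subset_span rfl

lemma vars_isMaximal : (idealOfVars (Fin n) K).IsMaximal := by
  have h : idealOfVars (Fin n) K = RingHom.ker (constantCoeff (σ := Fin n) (R := K)) := by
    ext g
    rw [mem_vars, RingHom.mem_ker, constantCoeff_eq]
  rw [h]
  exact RingHom.ker_isMaximal_of_surjective _ fun c => ⟨C c, by simp⟩

end Pool.Agent.R689.VNum
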