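import Pool.Agent.R689.TwoBranch

/-! The ring `k⟦z⟧⟦y⟧⟦x⟧`: regular local, complete, dimension 3. -/

namespace R689LM

open IsLocalRing Filter PowerSeries
open scoped ENNReal Nat

section general

variable {R : Type*} [CommRing R]

theorem ker_cc : RingHom.ker (constantCoeff (R := R)) = Ideal.span {(X : R⟦X⟧)} := by
  ext f
  rw [RingHom.mem_ker, Ideal.mem_span_singleton, X_dvd_iff]

theorem cc_surj : Function.Surjective (constantCoeff (R := R)) := fun r => ⟨C r, by simp⟩

variable [IsLocalRing R]

theorem mem_max_ps (f : R⟦X⟧) : f ∈ maximalIdeal R⟦X⟧ ↔ constantCoeff f ∈ maximalIdeal R := by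
  rw [mem_maximalIdeal, mem_nonunits_iff, PowerSeries.isUnit_iff_constantCoeff, mem_maximalIdeal,
    mem_nonunits_iff]

theorem max_ps : maximalIdeal R⟦X⟧ = (maximalIdeal R).map C ⊔ Ideal.span {X} := by
  apply le_antisymm
  · intro f hf
    rw [mem_max_ps] at hf
    have h1 : f = C (constantCoeff f) + X * PowerSeries.mk (fun n => coeff (n + 1) f) := by
      have := PowerSeries.eq_X_mul_shift_add_const f
      rw [add_comm]; exact this
    rw [h1]
    refine Ideal.add_mem _ (Ideal.mem_sup_left (Ideal.mem_map_of_mem _ hf)) (Ideal.mem_sup_right ?_)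
    exact Ideal.mul_mem_right _ _ (Ideal.mem_span_singleton_self _)
  · refine sup_le ?_ ?_
    · rw [Ideal.map_le_iff_le_comap]
      intro a ha
      rw [Ideal.mem_comap, mem_max_ps]; simpa using ha
    · rw [Ideal.span_singleton_le_iff_mem, mem_max_ps]; simp

variable [IsNoetherianRing R]

theorem dim_ps : ringKrullDim R⟦X⟧ = ringKrullDim R + 1 := by
  have hX : (X : R⟦X⟧) ∈ nonZeroDivisors R⟦X⟧ := by
    rw [mem_nonZeroDivisors_iff_right]
    intro f hf
    ext n
    have := congrArg (coeff (n + 1)) hf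
    rwa [coeff_succ_mul_X, map_zero] at this
  have hX2 : (X : R⟦X⟧) ∈ maximalIdeal R⟦X⟧ := by rw [mem_max_ps]; simp
  rw [← ringKrullDim_quotient_span_singleton_succ_eq_ringKrullDim_of_mem_nonZeroDivisors hX hX2]
  congr 1
  refine ringKrullDim_eq_of_ringEquiv ((Ideal.quotEquivOfEq ker_cc.symm).trans
    (RingHom.quotientKerEquivOfSurjective cc_surj))

theorem spanFinrank_ps : (maximalIdeal R⟦X⟧).spanFinrank ≤ (maximalIdeal R).spanFinrank + 1 := by
  classical
  have hfg : (maximalIdeal R).FG := IsNoetherian.noetherian _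
  obtain ⟨s, hs1, hs2⟩ := Submodule.FG.exists_span_finset_card_eq_spanFinrank hfg
  have h1 : maximalIdeal R⟦X⟧ = Ideal.span ((insert X (s.image C) : Finset R⟦X⟧) : Set R⟦X⟧) := by
    rw [max_ps, Finset.coe_insert, Finset.coe_image, Ideal.span_insert, ← Ideal.map_span, sup_comm]
    congr 2
    exact hs2.symm
  rw [h1]
  refine (Submodule.spanFinrank_span_le_ncard_of_finite (Finset.finite_toSet _)).trans ?_
  rw [Set.ncard_coe_finset, ← hs1]
  exact (Finset.card_insert_le _ _).trans (Nat.add_le_add_right Finset.card_image_le 1)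

theorem regular_ps (h : IsRegularLocalRing R) : IsRegularLocalRing R⟦X⟧ := by
  apply IsRegularLocalRing.of_spanFinrank_maximalIdeal_le
  rw [dim_ps, ← (isRegularLocalRing_iff R).mp h]
  exact_mod_cast spanFinrank_ps

end general

/-- Elements of `(𝔪, X)^n` have `i`-th coefficient in `𝔪^(n-i)`, and conversely. -/
theorem mem_pow_iff {R : Type*} [CommRing R] [IsLocalRing R] (n : ℕ) (f : R⟦X⟧) :
    f ∈ maximalIdeal R⟦X⟧ ^ n ↔ ∀ i, coeff i f ∈ maximalIdeal R ^ (n - i) := by
  constructor
  · intro hf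
    let W : ℕ → Ideal R⟦X⟧ := fun n =>
      { carrier := {f | ∀ i, coeff i f ∈ maximalIdeal R ^ (n - i)}
        add_mem' := fun {a b} ha hb i => by
          rw [map_add]; exact Ideal.add_mem _ (ha i) (hb i)
        zero_mem' := fun i => by rw [map_zero]; exact Ideal.zero_mem _
        smul_mem' := fun c a ha i => by
          rw [smul_eq_mul, coeff_mul]
          refine Ideal.sum_mem _ fun p hp => Ideal.mul_mem_left _ _ ?_
          rw [Finset.HasAntidiagonal.mem_antidiagonal] at hp
          exact Ideal.pow_le_pow_right (by omega) (ha p.2) }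
    have hmul : ∀ n m, W n * W m ≤ W (n + m) := by
      intro n m
      rw [Ideal.mul_le]
      intro a ha b hb i
      rw [coeff_mul]
      refine Ideal.sum_mem _ fun p hp => ?_
      rw [Finset.HasAntidiagonal.mem_antidiagonal] at hp
      have h1 := Ideal.mul_mem_mul (ha p.1) (hb p.2)
      rw [← pow_add] at h1
      exact Ideal.pow_le_pow_right (by omega) h1
    have hle : ∀ n, maximalIdeal R⟦X⟧ ^ n ≤ W n := by
      intro n
      induction n with
      | zero =>
        intro f _ i
        simp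
      | succ n ih =>
        rw [pow_succ]
        refine (Ideal.mul_mono ih ?_).trans (hmul n 1)
        intro f hf i
        rw [mem_max_ps] at hf
        cases i with
        | zero => simpa using hf
        | succ i => simp
    exact hle n hf
  · intro hf
    have hX : (X : R⟦X⟧) ∈ maximalIdeal R⟦X⟧ := by rw [mem_max_ps]; simp
    have hC : ∀ (m : ℕ) (a : R), a ∈ maximalIdeal R ^ m → C a ∈ maximalIdeal R⟦X⟧ ^ m := by
      intro m a ha
      have h1 : (maximalIdeal R).map C ≤ maximalIdeal R⟦X⟧ := by rw [max_ps]; exact le_sup_left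
      have h2 := Ideal.mem_map_of_mem C ha
      rw [Ideal.map_pow] at h2
      exact Ideal.pow_right_mono h1 m h2
    have h1 : f = (∑ i ∈ Finset.range n, C (coeff i f) * X ^ i) +
        X ^ n * PowerSeries.mk (fun i => coeff (i + n) f) := by
      ext m
      rw [map_add, map_sum, coeff_X_pow_mul']
      by_cases hm : m < n
      · rw [if_neg (by omega), add_zero, Finset.sum_eq_single m]
        · simp
        · intro b _ hb
          rw [coeff_C_mul_X_pow, if_neg (Ne.symm hb)]
        · intro h; exact absurd (Finset.mem_range.mpr hm) h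
      · rw [if_pos (by omega), Finset.sum_eq_zero, zero_add, coeff_mk, Nat.sub_add_cancel (by omega)]
        intro b hb
        rw [Finset.mem_range] at hb
        rw [coeff_C_mul_X_pow, if_neg (by omega)]
    rw [h1]
    refine Ideal.add_mem _ (Ideal.sum_mem _ fun i hi => ?_) (Ideal.mul_mem_right _ _ (Ideal.pow_mem_pow hX n))
    rw [Finset.mem_range] at hi
    have h2 := Ideal.mul_mem_mul (hC _ _ (hf i)) (Ideal.pow_mem_pow hX i)
    rw [← pow_add, Nat.sub_add_cancel hi.le] at h2
    exact h2

theorem complete_ps {R : Type*} [CommRing R] [IsLocalRing R]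
    [IsAdicComplete (maximalIdeal R) R] : IsAdicComplete (maximalIdeal R⟦X⟧) R⟦X⟧ := by
  have hR : ∀ (m : ℕ) (a : R), a ∈ (maximalIdeal R ^ m • ⊤ : Submodule R R) ↔
      a ∈ maximalIdeal R ^ m := by
    intro m a; rw [smul_eq_mul, Ideal.mul_top]
  have hS : ∀ (m : ℕ) (a : R⟦X⟧), a ∈ (maximalIdeal R⟦X⟧ ^ m • ⊤ : Submodule R⟦X⟧ R⟦X⟧) ↔
      a ∈ maximalIdeal R⟦X⟧ ^ m := by
    intro m a; rw [smul_eq_mul, Ideal.mul_top]
  have haus : IsHausdorff (maximalIdeal R⟦X⟧) R⟦X⟧ := by
    constructor
    intro f hf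
    ext i
    rw [map_zero]
    apply IsHausdorff.haus (I := maximalIdeal R) inferInstance
    intro n
    have h1 := hf (n + i)
    rw [SModEq.zero, hS, mem_pow_iff] at h1
    rw [SModEq.zero, hR]
    have := h1 i
    rwa [Nat.add_sub_cancel] at this
  have prec : IsPrecomplete (maximalIdeal R⟦X⟧) R⟦X⟧ := by
    constructor
    intro f hf
    have h1 : ∀ i, ∃ L : R, ∀ n, coeff i (f (n + i)) ≡ L
        [SMOD (maximalIdeal R ^ n • ⊤ : Submodule R R)] := by
      intro i
      apply IsPrecomplete.prec (I := maximalIdeal R) inferInstance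
      intro m n hmn
      have h2 := hf (show m + i ≤ n + i by omega)
      rw [SModEq.sub_mem, hS, mem_pow_iff] at h2
      rw [SModEq.sub_mem, hR]
      have := h2 i
      rwa [Nat.add_sub_cancel, map_sub] at this
    choose L hL using h1
    refine ⟨PowerSeries.mk L, fun n => ?_⟩
    rw [SModEq.sub_mem, hS, mem_pow_iff]
    intro i
    rw [map_sub, coeff_mk]
    by_cases hi : i ≤ n
    · have h3 := hL i (n - i)
      rw [Nat.sub_add_cancel hi, SModEq.sub_mem, hR] at h3
      exact h3
    · have : n - i = 0 := by omega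
      rw [this, pow_zero, Ideal.one_eq_top]
      trivial
  exact { haus, prec with }

/-! ### The ring `k⟦z⟧⟦y⟧⟦x⟧` -/

section P3

variable (k : Type*) [Field k]

/-- `k⟦z⟧⟦y⟧⟦x⟧`. -/
abbrev P3 := PowerSeries (PowerSeries (PowerSeries k))

/-- The variable `x`. -/
noncomputable def px : P3 k := X
/-- The variable `y`. -/
noncomputable def py : P3 k := C X
/-- The variable `z`. -/
noncomputable def pz : P3 k := C (C X)

theorem P3_regular : IsRegularLocalRing (P3 k) :=
  regular_ps (regular_ps (regular_ps inferInstance))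

theorem P3_dim : ringKrullDim (P3 k) = 3 := by
  rw [dim_ps, dim_ps, dim_ps, ringKrullDim_eq_zero_of_field]
  rfl

theorem P3_complete : IsAdicComplete (maximalIdeal (P3 k)) (P3 k) := by
  have h0 : IsAdicComplete (maximalIdeal k) k := by
    rw [IsLocalRing.maximalIdeal_eq_bot]; infer_instance
  have h1 : IsAdicComplete (maximalIdeal k⟦X⟧) k⟦X⟧ := complete_ps
  have h2 : IsAdicComplete (maximalIdeal k⟦X⟧⟦X⟧) k⟦X⟧⟦X⟧ := complete_ps
  exact complete_ps

theorem P3_max : maximalIdeal (P3 k) =
    Ideal.span {px k} ⊔ (Ideal.span {py k} ⊔ Ideal.span {pz k}) := by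
  rw [max_ps, max_ps, max_ps, IsLocalRing.maximalIdeal_eq_bot, Ideal.map_bot, bot_sup_eq,
    Ideal.map_sup, Ideal.map_span, Ideal.map_span, Ideal.map_span, Set.image_singleton,
    Set.image_singleton, Set.image_singleton, sup_comm]
  congr 1
  rw [sup_comm]; rfl

/-- The quotient map onto `k⟦z⟧`. -/
noncomputable def toK1 : P3 k →+* k⟦X⟧ := (constantCoeff).comp (constantCoeff)

theorem toK1_surj : Function.Surjective (toK1 k) := cc_surj.comp cc_surj

theorem toK1_ker : RingHom.ker (toK1 k) = Ideal.span {px k} ⊔ Ideal.span {py k} := by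
  unfold toK1
  rw [← RingHom.comap_ker, ker_cc]
  have h1 : Ideal.span {(X : k⟦X⟧⟦X⟧)} = Ideal.map constantCoeff (Ideal.span {py k}) := by
    rw [Ideal.map_span, Set.image_singleton]
    congr 1
  rw [h1, Ideal.comap_map_of_surjective _ cc_surj, ← RingHom.ker_eq_comap_bot, ker_cc, sup_comm]
  rfl

theorem P3_H (a : Ideal (P3 k)) (ha : Ideal.span {px k} ⊔ Ideal.span {py k} ≤ a) :
    ∃ s, a = Ideal.span {s} ⊔ (Ideal.span {px k} ⊔ Ideal.span {py k}) := by
  obtain ⟨c, hc⟩ := (IsPrincipalIdealRing.principal (Ideal.map (toK1 k) a)).principal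
  obtain ⟨s, hs⟩ := toK1_surj k c
  refine ⟨s, ?_⟩
  have h1 : a = Ideal.comap (toK1 k) (Ideal.map (toK1 k) a) := by
    rw [Ideal.comap_map_of_surjective _ (toK1_surj k), ← RingHom.ker_eq_comap_bot, toK1_ker]
    exact (sup_eq_left.mpr ha).symm
  have h2 : Ideal.map (toK1 k) a = Ideal.map (toK1 k) (Ideal.span {s}) := by
    rw [Ideal.map_span, Set.image_singleton, hs, hc]
  rw [h1, h2, Ideal.comap_map_of_surjective _ (toK1_surj k), ← RingHom.ker_eq_comap_bot, toK1_ker]

end P3

end R689LM
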