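import Pool.Agent.R689.PS3

/-! Lower bound for the Lech–Mumford constant of `k⟦x,y,z⟧/(x²)`. -/

namespace R689LM

open IsLocalRing Filter PowerSeries
open scoped ENNReal Nat

section W

variable (k : Type*) [Field k]

/-- Weighted filtration (weights `M,1,1`), modulo `x²`. -/
def W (M n : ℕ) : Ideal (P3 k) where
  carrier := {f | ∀ j i l, j < 2 → M * j + i + l < n → coeff l (coeff i (coeff j f)) = 0}
  add_mem' := fun {a b} ha hb j i l h1 h2 => by
    simp only [map_add, ha j i l h1 h2, hb j i l h1 h2, add_zero]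
  zero_mem' := fun j i l h1 h2 => by simp
  smul_mem' := fun c a ha j i l h1 h2 => by
    rw [smul_eq_mul, coeff_mul, map_sum, map_sum]
    refine Finset.sum_eq_zero fun p hp => ?_
    rw [coeff_mul, map_sum]
    refine Finset.sum_eq_zero fun q hq => ?_
    rw [coeff_mul]
    refine Finset.sum_eq_zero fun r hr => ?_
    rw [Finset.HasAntidiagonal.mem_antidiagonal] at hp hq hr
    rw [ha p.2 q.2 r.2 (by omega) ?_, mul_zero]
    have : M * p.2 ≤ M * j := Nat.mul_le_mul_left M (by omega)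
    omega

theorem mem_W {M n : ℕ} {f : P3 k} : f ∈ W k M n ↔
    ∀ j i l, j < 2 → M * j + i + l < n → coeff l (coeff i (coeff j f)) = 0 := Iff.rfl

theorem W_mul (M n m : ℕ) : W k M n * W k M m ≤ W k M (n + m) := by
  rw [Ideal.mul_le]
  intro a ha b hb j i l h1 h2
  rw [coeff_mul, map_sum, map_sum]
  refine Finset.sum_eq_zero fun p hp => ?_
  rw [coeff_mul, map_sum]
  refine Finset.sum_eq_zero fun q hq => ?_
  rw [coeff_mul]
  refine Finset.sum_eq_zero fun r hr => ?_
  rw [Finset.HasAntidiagonal.mem_antidiagonal] at hp hq hr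
  have hj : M * j = M * p.1 + M * p.2 := by rw [← mul_add, hp]
  by_cases h : M * p.1 + q.1 + r.1 < n
  · rw [ha p.1 q.1 r.1 (by omega) h, zero_mul]
  · rw [hb p.2 q.2 r.2 (by omega) (by omega), mul_zero]

theorem W_zero (M : ℕ) : W k M 0 = ⊤ := by
  rw [Ideal.eq_top_iff_one]
  intro j i l _ h2
  exact absurd h2 (Nat.not_lt_zero _)

theorem W_pow (M n m : ℕ) : W k M n ^ m ≤ W k M (n * m) := by
  induction m with
  | zero => rw [mul_zero, W_zero]; exact le_top
  | succ m ih =>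
    rw [pow_succ, Nat.mul_succ]
    exact (Ideal.mul_mono_left ih).trans (W_mul k M _ _)

theorem px_mem (M : ℕ) : px k ∈ W k M M := by
  intro j i l h1 h2
  unfold px
  rw [coeff_X]
  split_ifs with h
  · subst h; omega
  · simp

theorem px_sq_mem (M n : ℕ) : px k ^ 2 ∈ W k M n := by
  intro j i l h1 h2
  unfold px
  rw [coeff_X_pow, if_neg (by omega)]
  simp

theorem py_mem (M : ℕ) : py k ∈ W k M 1 := by
  intro j i l h1 h2
  unfold py
  have hi : i = 0 := by omega
  have hl : l = 0 := by omega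
  subst hi hl
  rw [coeff_C]
  split_ifs with h
  · simp
  · simp

theorem pz_mem (M : ℕ) : pz k ∈ W k M 1 := by
  intro j i l h1 h2
  unfold pz
  have hi : i = 0 := by omega
  have hl : l = 0 := by omega
  subst hi hl
  rw [coeff_C]
  split_ifs with h
  · simp
  · simp

/-- The ideal `(x) + (y,z)^M`. -/
noncomputable def KM (M : ℕ) : Ideal (P3 k) :=
  Ideal.span {px k} ⊔ (Ideal.span {py k} ⊔ Ideal.span {pz k}) ^ M

theorem KM_le (M : ℕ) : KM k M ≤ W k M M := by
  refine sup_le ?_ ?_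
  · rw [Ideal.span_singleton_le_iff_mem]; exact px_mem k M
  · refine (Ideal.pow_right_mono (sup_le ?_ ?_) M).trans ((W_pow k M 1 M).trans (by rw [one_mul]))
    · rw [Ideal.span_singleton_le_iff_mem]; exact py_mem k M
    · rw [Ideal.span_singleton_le_iff_mem]; exact pz_mem k M

theorem KM_pow_le (M n : ℕ) : Ideal.span {px k ^ 2} ⊔ KM k M ^ n ≤ W k M (M * n) := by
  refine sup_le ?_ ((Ideal.pow_right_mono (KM_le k M) n).trans (W_pow k M M n))
  rw [Ideal.span_singleton_le_iff_mem]; exact px_sq_mem k M _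

/-- Index set of monomials below the staircase. -/
abbrev Lam (M n : ℕ) : Type := ((i : Fin n) × Fin (n - i)) ⊕ ((i : Fin (n - M)) × Fin (n - M - i))

/-- The coefficient map. -/
noncomputable def Phi (M n : ℕ) : P3 k →ₗ[k] (Lam M n → k) where
  toFun f p := match p with
    | Sum.inl q => coeff (q.2 : ℕ) (coeff (q.1 : ℕ) (coeff 0 f))
    | Sum.inr q => coeff (q.2 : ℕ) (coeff (q.1 : ℕ) (coeff 1 f))
  map_add' f g := by
    funext p
    rcases p with q | q <;> simp
  map_smul' a f := by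
    funext p
    rcases p with q | q <;> rfl

theorem Phi_inl (M n : ℕ) (f : P3 k) (q : (i : Fin n) × Fin (n - i)) :
    Phi k M n f (Sum.inl q) = coeff (q.2 : ℕ) (coeff (q.1 : ℕ) (coeff 0 f)) := rfl

theorem Phi_inr (M n : ℕ) (f : P3 k) (q : (i : Fin (n - M)) × Fin (n - M - i)) :
    Phi k M n f (Sum.inr q) = coeff (q.2 : ℕ) (coeff (q.1 : ℕ) (coeff 1 f)) := rfl

theorem Phi_surj (M n : ℕ) : Function.Surjective (Phi k M n) := by
  intro v
  refine ⟨PowerSeries.mk fun j => PowerSeries.mk fun i => PowerSeries.mk fun l =>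
    if j = 0 then
      if h : ∃ (h1 : i < n), l < n - i then v (Sum.inl ⟨⟨i, h.1⟩, ⟨l, h.2⟩⟩) else 0
    else
      if h : ∃ (h1 : i < n - M), l < n - M - i then v (Sum.inr ⟨⟨i, h.1⟩, ⟨l, h.2⟩⟩) else 0, ?_⟩
  funext p
  rcases p with ⟨⟨i, hi⟩, ⟨l, hl⟩⟩ | ⟨⟨i, hi⟩, ⟨l, hl⟩⟩
  · rw [Phi_inl]
    simp only [coeff_mk, if_true]
    rw [dif_pos ⟨hi, hl⟩]
  · rw [Phi_inr]
    simp only [coeff_mk, one_ne_zero, if_false]
    rw [dif_pos ⟨hi, hl⟩]

theorem Phi_W (M n : ℕ) {f : P3 k} (hf : f ∈ W k M n) : Phi k M n f = 0 := by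
  funext p
  rcases p with ⟨⟨i, hi⟩, ⟨l, hl⟩⟩ | ⟨⟨i, hi⟩, ⟨l, hl⟩⟩
  · change coeff l (coeff i (coeff 0 f)) = 0
    exact hf 0 i l (by omega) (by simp at hl ⊢; omega)
  · change coeff l (coeff i (coeff 1 f)) = 0
    exact hf 1 i l (by omega) (by simp at hl ⊢; omega)

theorem card_Lam (M n : ℕ) : 2 * Fintype.card (Lam M n) = n * (n + 1) + (n - M) * (n - M + 1) := by
  rw [Fintype.card_sum, Fintype.card_sigma, Fintype.card_sigma, mul_add]
  simp only [Fintype.card_fin]
  rw [Fin.sum_univ_eq_sum_range (fun i => n - i), Fin.sum_univ_eq_sum_range (fun i => n - M - i),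
    sum_two_sub, sum_two_sub]

theorem hsurj3 (b : P3 k) : ∃ a : k, b - algebraMap k (P3 k) a ∈ maximalIdeal (P3 k) := by
  refine ⟨constantCoeff (constantCoeff (constantCoeff b)), ?_⟩
  rw [mem_max_ps, mem_max_ps, mem_max_ps, IsLocalRing.maximalIdeal_eq_bot, Ideal.mem_bot]
  simp only [map_sub]
  rw [sub_eq_zero]
  rfl

theorem le_len_of_le_W (M n : ℕ) (I : Ideal (P3 k)) (hI : I ≤ W k M n) :
    (Fintype.card (Lam M n) : ℝ≥0∞) ≤ len (P3 k) I := by
  unfold len
  rw [← length_restrict (A := k) (hsurj3 k)]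
  have h1 : Module.length k (Lam M n → k) = (Fintype.card (Lam M n) : ℕ∞) := by
    rw [Module.length_pi_of_fintype]
    simp
  have h2 : ((Fintype.card (Lam M n) : ℕ∞) : ℝ≥0∞) = (Fintype.card (Lam M n) : ℝ≥0∞) :=
    ENat.toENNReal_coe _
  rw [← h2, ENat.toENNReal_le, ← h1]
  let g : (P3 k ⧸ I.restrictScalars k) →ₗ[k] (Lam M n → k) :=
    Submodule.liftQ _ (Phi k M n) (fun f hf => Phi_W k M n (hI hf))
  have hg : Function.Surjective g := by
    intro v
    obtain ⟨f, hf⟩ := Phi_surj k M n v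
    exact ⟨Submodule.Quotient.mk f, hf⟩
  have e := (Submodule.Quotient.restrictScalarsEquiv k I).length_eq
  rw [← e]
  exact Module.length_le_of_surjective g hg

end W

end R689LM
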