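import Pool.Agent.R689.PS3Lower

/-! `LM(k⟦x,y,z⟧/(x²)) ≥ 2` and `LM(k⟦x,y,z⟧/(x² - x y^N)) ≤ 2 - 1/N`. -/

namespace R689LM

open IsLocalRing Filter PowerSeries
open scoped ENNReal Nat Topology

theorem len_max {S : Type*} [CommRing S] [IsLocalRing S] : len S (maximalIdeal S) = 1 := by
  unfold len
  have : IsSimpleModule S (S ⧸ maximalIdeal S) :=
    isSimpleModule_iff_isCoatom.mpr (maximalIdeal.isMaximal S).out
  rw [Module.length_eq_one]
  simp

section

variable (k : Type*) [Field k]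

theorem len_KM (M : ℕ) : 2 * len (P3 k) (KM k M) ≤ ((M * (M + 1) : ℕ) : ℝ≥0∞) := by
  induction M with
  | zero =>
    unfold KM
    rw [pow_zero, Ideal.one_eq_top, sup_top_eq, len_top]
    simp
  | succ M ih =>
    rw [len_col (KM k (M + 1)) (py k), mul_add]
    have h1 : len (P3 k) (col (KM k (M + 1)) (py k)) ≤ len (P3 k) (KM k M) := by
      apply len_mono
      unfold KM
      refine sup_le ?_ ?_
      · rw [Ideal.span_singleton_le_iff_mem, mem_col]
        exact Ideal.mul_mem_left _ _ (Ideal.mem_sup_left (Ideal.mem_span_singleton_self _))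
      · intro f hf
        rw [mem_col]
        refine Ideal.mem_sup_right ?_
        rw [pow_succ']
        exact Ideal.mul_mem_mul (Ideal.mem_sup_left (Ideal.mem_span_singleton_self _)) hf
    have h2 : len (P3 k) (Ideal.span {py k} ⊔ KM k (M + 1)) ≤ ((M + 1 : ℕ) : ℝ≥0∞) := by
      have h3 := len_sup_pow (Ideal.span {px k} ⊔ Ideal.span {py k}) (pz k) (M + 1)
      have h4 : Ideal.span {pz k} ⊔ (Ideal.span {px k} ⊔ Ideal.span {py k}) =
          maximalIdeal (P3 k) := by
        rw [P3_max, sup_comm, sup_assoc]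
      rw [h4, len_max, mul_one] at h3
      refine le_trans (len_mono ?_) h3
      unfold KM
      refine sup_le ?_ (sup_le (le_sup_left.trans le_sup_right) (le_sup_left))
      rw [Ideal.span_singleton_le_iff_mem]
      refine Ideal.mem_sup_right (Ideal.mem_sup_right ?_)
      exact Ideal.pow_mem_pow (Ideal.mem_sup_right (Ideal.mem_span_singleton_self _)) _
    calc 2 * len (P3 k) (col (KM k (M + 1)) (py k)) +
          2 * len (P3 k) (Ideal.span {py k} ⊔ KM k (M + 1))
        ≤ ((M * (M + 1) : ℕ) : ℝ≥0∞) + 2 * ((M + 1 : ℕ) : ℝ≥0∞) :=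
          add_le_add ((mul_le_mul_right h1 2).trans ih) (mul_le_mul_right h2 2)
      _ = (((M + 1) * (M + 1 + 1) : ℕ) : ℝ≥0∞) := by push_cast; ring

theorem kdim_quot (h : P3 k) (h0 : h ≠ 0) (hm : h ∈ maximalIdeal (P3 k)) :
    kdim (P3 k ⧸ Ideal.span {h}) = 2 := by
  have h1 := ringKrullDim_quotient_span_singleton_succ_eq_ringKrullDim_of_mem_nonZeroDivisors
    (mem_nonZeroDivisors_of_ne_zero h0) hm
  rw [P3_dim] at h1
  unfold kdim
  generalize ringKrullDim (P3 k ⧸ Ideal.span {h}) = d at h1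
  induction d with
  | bot => simp at h1
  | coe n =>
    have h2 : n + 1 = 3 := by
      have h2' : ((n + 1 : ℕ∞) : WithBot ℕ∞) = ((3 : ℕ∞) : WithBot ℕ∞) := h1
      exact WithBot.coe_injective h2'
    induction n using ENat.recTopCoe with
    | top => simp at h2
    | coe n =>
      have h3 : n + 1 = 3 := by exact_mod_cast h2
      have : n = 2 := by omega
      subst this
      rfl

theorem local_quot (h : P3 k) (hm : h ∈ maximalIdeal (P3 k)) :
    IsLocalRing (P3 k ⧸ Ideal.span {h}) := by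
  have hne : Ideal.span {h} ≠ ⊤ := by
    intro ht
    have : Ideal.span {h} ≤ maximalIdeal (P3 k) := by
      rwa [Ideal.span_singleton_le_iff_mem]
    rw [ht] at this
    exact (maximalIdeal.isMaximal (P3 k)).ne_top (top_le_iff.mp this)
  have : Nontrivial (P3 k ⧸ Ideal.span {h}) := Ideal.Quotient.nontrivial_iff.mpr hne
  exact IsLocalRing.of_surjective' (Ideal.Quotient.mk _) Ideal.Quotient.mk_surjective

theorem px_max : px k ∈ maximalIdeal (P3 k) := by
  rw [P3_max]; exact Ideal.mem_sup_left (Ideal.mem_span_singleton_self _)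

theorem py_max : py k ∈ maximalIdeal (P3 k) := by
  rw [P3_max]; exact Ideal.mem_sup_right (Ideal.mem_sup_left (Ideal.mem_span_singleton_self _))

theorem pz_max : pz k ∈ maximalIdeal (P3 k) := by
  rw [P3_max]; exact Ideal.mem_sup_right (Ideal.mem_sup_right (Ideal.mem_span_singleton_self _))

theorem KM_radical (M : ℕ) (hM : 1 ≤ M) : (KM k M).radical = maximalIdeal (P3 k) := by
  apply le_antisymm
  · have hp : (maximalIdeal (P3 k)).IsPrime := (maximalIdeal.isMaximal _).isPrime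
    rw [hp.radical_le_iff]
    unfold KM
    rw [P3_max]
    refine sup_le_sup_left ?_ _
    exact Ideal.pow_le_self (by omega)
  · rw [P3_max]
    refine sup_le ?_ (sup_le ?_ ?_)
    · rw [Ideal.span_singleton_le_iff_mem]
      exact Ideal.le_radical (Ideal.mem_sup_left (Ideal.mem_span_singleton_self _))
    · rw [Ideal.span_singleton_le_iff_mem]
      exact ⟨M, Ideal.mem_sup_right (Ideal.pow_mem_pow
        (Ideal.mem_sup_left (Ideal.mem_span_singleton_self _)) _)⟩
    · rw [Ideal.span_singleton_le_iff_mem]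
      exact ⟨M, Ideal.mem_sup_right (Ideal.pow_mem_pow
        (Ideal.mem_sup_right (Ideal.mem_span_singleton_self _)) _)⟩

theorem sq_ne : px k ^ 2 ≠ 0 := pow_ne_zero _ X_ne_zero

theorem sq_max : px k ^ 2 ∈ maximalIdeal (P3 k) := Ideal.pow_mem_of_mem _ (px_max k) 2 (by norm_num)

theorem ratio_ge (M : ℕ) (hM : 1 ≤ M) :
    ENNReal.ofReal (2 * M / (M + 1)) ≤ ratio (P3 k ⧸ Ideal.span {px k ^ 2})
      (Ideal.map (Ideal.Quotient.mk _) (KM k M)) := by
  have hdim := kdim_quot k (px k ^ 2) (sq_ne k) (sq_max k)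
  set f : P3 k →+* P3 k ⧸ Ideal.span {px k ^ 2} := Ideal.Quotient.mk _ with hf
  have hfs : Function.Surjective f := Ideal.Quotient.mk_surjective
  have hcm : ∀ J : Ideal (P3 k), Ideal.comap f (Ideal.map f J) = Ideal.span {px k ^ 2} ⊔ J := by
    intro J
    rw [Ideal.comap_map_of_surjective f hfs, ← RingHom.ker_eq_comap_bot, hf, Ideal.mk_ker, sup_comm]
  have hsup : Ideal.span {px k ^ 2} ⊔ KM k M = KM k M := by
    refine sup_eq_right.mpr ?_
    rw [Ideal.span_singleton_le_iff_mem]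
    exact Ideal.mem_sup_left (Ideal.mem_span_singleton.mpr (dvd_pow_self _ (by norm_num)))
  have hlen : len _ (Ideal.map f (KM k M)) = len (P3 k) (KM k M) := by
    rw [← len_comap f hfs, hcm, hsup]
  have hlenk : ∀ n, len _ (Ideal.map f (KM k M) ^ n) =
      len (P3 k) (Ideal.span {px k ^ 2} ⊔ KM k M ^ n) := by
    intro n
    rw [← Ideal.map_pow, ← len_comap f hfs, hcm]
  have hM' : (1 : ℝ) ≤ M := by exact_mod_cast hM
  have hup : len (P3 k) (KM k M) ≤ ENNReal.ofReal (M * (M + 1) / 2) := by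
    have h1 := len_KM k M
    have h2 : ((M * (M + 1) : ℕ) : ℝ≥0∞) = 2 * ENNReal.ofReal (M * (M + 1) / 2) := by
      have : (2 : ℝ≥0∞) = ENNReal.ofReal 2 := by norm_num
      rw [this, ← ENNReal.ofReal_mul (by norm_num), ← ENNReal.ofReal_natCast]
      congr 1
      push_cast; ring
    rw [h2] at h1
    exact (ENNReal.mul_le_mul_iff_right (by norm_num) (by norm_num)).mp h1
  have hmult : ENNReal.ofReal (2 * M ^ 2) ≤ mult _ (Ideal.map f (KM k M)) := by
    have hbound : ∀ᶠ n : ℕ in atTop,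
        ENNReal.ofReal (M ^ 2 * (1 + (1 - 1 / (n : ℝ)) ^ 2)) ≤
        ((kdim (P3 k ⧸ Ideal.span {px k ^ 2}))! : ℝ≥0∞) * len _ (Ideal.map f (KM k M) ^ n) /
          (n : ℝ≥0∞) ^ (kdim (P3 k ⧸ Ideal.span {px k ^ 2})) := by
      filter_upwards [eventually_ge_atTop 1] with n hn
      have hn' : (1 : ℝ) ≤ n := by exact_mod_cast hn
      rw [hdim, hlenk]
      have h1 := le_len_of_le_W k M (M * n) _ (KM_pow_le k M n)
      refine le_trans ?_ (ENNReal.div_le_div_right (mul_le_mul_right h1 _) _)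
      rw [Nat.factorial_two]
      have h2 : ((2 : ℕ) : ℝ≥0∞) * (Fintype.card (Lam M (M * n)) : ℝ≥0∞) =
          ((M * n * (M * n + 1) + (M * n - M) * (M * n - M + 1) : ℕ) : ℝ≥0∞) := by
        rw [← Nat.cast_mul, card_Lam]
      rw [h2]
      have h3 : ((M * n * (M * n + 1) + (M * n - M) * (M * n - M + 1) : ℕ) : ℝ≥0∞) / (n : ℝ≥0∞) ^ 2 =
          ENNReal.ofReal (((M * n * (M * n + 1) + (M * n - M) * (M * n - M + 1) : ℕ) : ℝ) / n ^ 2) := by
        rw [ENNReal.ofReal_div_of_pos (by positivity), ENNReal.ofReal_pow (by positivity),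
          ENNReal.ofReal_natCast, ENNReal.ofReal_natCast]
      rw [h3]
      apply ENNReal.ofReal_le_ofReal
      rw [le_div_iff₀ (by positivity)]
      have h4 : M ≤ M * n := Nat.le_mul_of_pos_right M hn
      push_cast [Nat.cast_sub h4]
      have h5 : (M : ℝ) ^ 2 * (1 + (1 - 1 / (n : ℝ)) ^ 2) * n ^ 2 =
          (M * n) ^ 2 + (M * n - M) ^ 2 := by
        field_simp
      rw [h5]
      have h6 : (0 : ℝ) ≤ M * n - M := by nlinarith
      nlinarith
    have hlim : Tendsto (fun n : ℕ => ENNReal.ofReal (M ^ 2 * (1 + (1 - 1 / (n : ℝ)) ^ 2)))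
        atTop (𝓝 (ENNReal.ofReal (M ^ 2 * (1 + (1 - 0) ^ 2)))) := by
      refine ENNReal.tendsto_ofReal ?_
      refine Tendsto.const_mul _ (Tendsto.const_add _ (Tendsto.pow (Tendsto.const_sub _ ?_) 2))
      exact tendsto_one_div_atTop_nhds_zero_nat
    have h7 : ((M : ℝ) ^ 2 * (1 + (1 - 0) ^ 2)) = 2 * M ^ 2 := by ring
    rw [h7] at hlim
    unfold mult
    rw [← hlim.limsup_eq]
    exact limsup_le_limsup hbound
  unfold ratio
  rw [hdim, hlen, Nat.factorial_two]
  have h8 : ENNReal.ofReal (2 * M / (M + 1)) =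
      ENNReal.ofReal (2 * M ^ 2) / (((2 : ℕ) : ℝ≥0∞) * ENNReal.ofReal (M * (M + 1) / 2)) := by
    have : ((2 : ℕ) : ℝ≥0∞) = ENNReal.ofReal 2 := by norm_num
    rw [this, ← ENNReal.ofReal_mul (by norm_num), ← ENNReal.ofReal_div_of_pos (by positivity)]
    congr 1
    field_simp
  rw [h8]
  exact ENNReal.div_le_div hmult (mul_le_mul_right hup _)

theorem ofReal_lim : Tendsto (fun m : ℕ => ENNReal.ofReal (2 * ((m + 1 : ℕ) : ℝ) / (((m + 1 : ℕ) : ℝ) + 1)))
    atTop (𝓝 2) := by
  have h1 : Tendsto (fun m : ℕ => (2 : ℝ) - 2 * (1 / (((m + 1 : ℕ) : ℝ) + 1))) atTop (𝓝 (2 - 2 * 0)) := by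
    refine Tendsto.const_sub _ (Tendsto.const_mul _ ?_)
    exact (tendsto_one_div_add_atTop_nhds_zero_nat (𝕜 := ℝ)).comp (tendsto_add_atTop_nat 1)
  have h2 : (fun m : ℕ => 2 * ((m + 1 : ℕ) : ℝ) / (((m + 1 : ℕ) : ℝ) + 1)) =
      fun m : ℕ => (2 : ℝ) - 2 * (1 / (((m + 1 : ℕ) : ℝ) + 1)) := by
    funext m
    have : (((m + 1 : ℕ) : ℝ) + 1) ≠ 0 := by positivity
    field_simp
    ring
  have h3 : (2 : ℝ≥0∞) = ENNReal.ofReal (2 - 2 * 0) := by norm_num
  rw [h3]
  refine ENNReal.tendsto_ofReal ?_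
  rw [h2]
  exact h1

theorem two_le_LM [IsLocalRing (P3 k ⧸ Ideal.span {px k ^ 2})] :
    2 ≤ LM (P3 k ⧸ Ideal.span {px k ^ 2}) := by
  refine le_of_tendsto' ofReal_lim fun m => ?_
  have hM : 1 ≤ m + 1 := by omega
  refine (ratio_ge k (m + 1) hM).trans ?_
  have hrad : (Ideal.map (Ideal.Quotient.mk (Ideal.span {px k ^ 2})) (KM k (m + 1))).radical =
      maximalIdeal (P3 k ⧸ Ideal.span {px k ^ 2}) := by
    set f : P3 k →+* P3 k ⧸ Ideal.span {px k ^ 2} := Ideal.Quotient.mk _ with hf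
    have hfs : Function.Surjective f := Ideal.Quotient.mk_surjective
    have h1 : Ideal.comap f (Ideal.map f (KM k (m + 1))).radical = maximalIdeal (P3 k) := by
      rw [Ideal.comap_radical, Ideal.comap_map_of_surjective f hfs, ← RingHom.ker_eq_comap_bot, hf,
        Ideal.mk_ker]
      have h2 : KM k (m + 1) ⊔ Ideal.span {px k ^ 2} = KM k (m + 1) := by
        refine sup_eq_left.mpr ?_
        rw [Ideal.span_singleton_le_iff_mem]
        exact Ideal.mem_sup_left (Ideal.mem_span_singleton.mpr (dvd_pow_self _ (by norm_num)))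
      rw [h2, KM_radical k (m + 1) hM]
    have h3 : (Ideal.comap f (maximalIdeal (P3 k ⧸ Ideal.span {px k ^ 2}))) = maximalIdeal (P3 k) := by
      have : (Ideal.comap f (maximalIdeal (P3 k ⧸ Ideal.span {px k ^ 2}))).IsMaximal :=
        Ideal.comap_isMaximal_of_surjective f hfs
      exact IsLocalRing.eq_maximalIdeal this
    rw [← Ideal.map_comap_of_surjective f hfs (Ideal.map f (KM k (m + 1))).radical, h1, ← h3,
      Ideal.map_comap_of_surjective f hfs]
  unfold LM
  exact le_iSup_of_le _ (le_iSup_of_le hrad le_rfl)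

theorem LM_le (N : ℕ) (hN : 1 ≤ N)
    [IsLocalRing (P3 k ⧸ Ideal.span {px k * (px k - py k ^ N)})] :
    LM (P3 k ⧸ Ideal.span {px k * (px k - py k ^ N)}) ≤ ENNReal.ofReal (2 - 1 / N) := by
  have hne : px k * (px k - py k ^ N) ≠ 0 := by
    refine mul_ne_zero X_ne_zero ?_
    intro h
    have := congrArg (coeff 1) h
    rw [map_sub, map_zero] at this
    unfold px py at this
    rw [← map_pow, coeff_C, if_neg one_ne_zero, coeff_one_X, sub_zero] at this
    exact one_ne_zero this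
  have hmax : px k * (px k - py k ^ N) ∈ maximalIdeal (P3 k) := Ideal.mul_mem_right _ _ (px_max k)
  have hdim := kdim_quot k _ hne hmax
  unfold LM
  refine iSup_le fun I => iSup_le fun hI => ?_
  exact ratio_le (px k) (py k) (P3_H k) N hN (py_max k) hdim I hI

end

end R689LM
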