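import Mathlib

/-!
Rationalization of arbitrary groups: construction and universal property.
-/

set_option autoImplicit false

universe u v

namespace Pool.Agent.R689.Ratn

/-- The group `T` is local for rationalization: `x ↦ x ^ p` is bijective for every prime `p`. -/
def IsLocalGroup (T : Type u) [Group T] : Prop :=
  ∀ p : ℕ, p.Prime → Function.Bijective (fun x : T => x ^ p)

lemma IsLocalGroup.pow {T : Type u} [Group T] (h : IsLocalGroup T) {n : ℕ} (hn : n ≠ 0) :
    Function.Bijective (fun x : T => x ^ n) := by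
  induction n using Nat.recOnMul with
  | zero => exact absurd rfl hn
  | one => simp only [pow_one]; exact Function.bijective_id
  | prime p hp => exact h p hp
  | mul a b ha hb =>
    have ha0 : a ≠ 0 := fun h0 => hn (by rw [h0, zero_mul])
    have hb0 : b ≠ 0 := fun h0 => hn (by rw [h0, mul_zero])
    have : (fun x : T => x ^ (a * b)) = (fun x : T => x ^ b) ∘ (fun x : T => x ^ a) := by
      funext x
      simp [pow_mul]
    rw [this]
    exact (hb hb0).comp (ha ha0)

/-- formal terms in the elements of `G`, products, inverses and roots -/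
inductive Tm (G : Type u) : Type u
  | of (g : G) : Tm G
  | mul (a b : Tm G) : Tm G
  | inv (a : Tm G) : Tm G
  | root (n : ℕ) (a : Tm G) : Tm G

/-- the term for `a ^ (n + 1)` -/
def Tm.pw {G : Type u} (a : Tm G) : ℕ → Tm G
  | 0 => a
  | n + 1 => Tm.mul (Tm.pw a n) a

variable {G : Type u} [Group G]

/-- the congruence generated by the axioms of groups with unique roots -/
inductive Rel (G : Type u) [Group G] : Tm G → Tm G → Prop
  | refl (a) : Rel G a a
  | symm {a b} : Rel G a b → Rel G b a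
  | trans {a b c} : Rel G a b → Rel G b c → Rel G a c
  | mul {a b c d} : Rel G a b → Rel G c d → Rel G (Tm.mul a c) (Tm.mul b d)
  | inv {a b} : Rel G a b → Rel G (Tm.inv a) (Tm.inv b)
  | root {n a b} : Rel G a b → Rel G (Tm.root n a) (Tm.root n b)
  | of_mul (g h : G) : Rel G (Tm.of (g * h)) (Tm.mul (Tm.of g) (Tm.of h))
  | assoc (a b c) : Rel G (Tm.mul (Tm.mul a b) c) (Tm.mul a (Tm.mul b c))
  | one_mul (a) : Rel G (Tm.mul (Tm.of 1) a) a
  | inv_mul (a) : Rel G (Tm.mul (Tm.inv a) a) (Tm.of 1)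
  | root_pow (n a) : Rel G (Tm.pw (Tm.root n a) n) a
  | pow_root (n a) : Rel G (Tm.root n (Tm.pw a n)) a

/-- the setoid -/
def std (G : Type u) [Group G] : Setoid (Tm G) := ⟨Rel G, Rel.refl, Rel.symm, Rel.trans⟩

/-- the rationalization of `G` -/
def LG (G : Type u) [Group G] : Type u := Quotient (std G)

/-- the class of a term -/
def mk (a : Tm G) : LG G := Quotient.mk (std G) a

lemma sound {a b : Tm G} (h : Rel G a b) : mk a = mk b := Quotient.sound (s := std G) h

lemma mk_surj (x : LG G) : ∃ a, mk a = x := Quotient.exists_rep x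

instance : Mul (LG G) := ⟨Quotient.map₂ Tm.mul fun _ _ h _ _ h' => Rel.mul h h'⟩
instance : Inv (LG G) := ⟨Quotient.map Tm.inv fun _ _ h => Rel.inv h⟩
instance : One (LG G) := ⟨mk (Tm.of 1)⟩

lemma mk_mul (a b : Tm G) : mk (Tm.mul a b) = mk a * mk b := rfl
lemma mk_inv (a : Tm G) : mk (Tm.inv a) = (mk a)⁻¹ := rfl
lemma mk_one : mk (Tm.of (1 : G)) = 1 := rfl

instance : Group (LG G) :=
  Group.ofLeftAxioms
    (by
      intro x y z
      obtain ⟨a, rfl⟩ := mk_surj x
      obtain ⟨b, rfl⟩ := mk_surj y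
      obtain ⟨c, rfl⟩ := mk_surj z
      exact sound (Rel.assoc a b c))
    (by
      intro x
      obtain ⟨a, rfl⟩ := mk_surj x
      exact sound (Rel.one_mul a))
    (by
      intro x
      obtain ⟨a, rfl⟩ := mk_surj x
      exact sound (Rel.inv_mul a))

/-- the root of an element -/
def rt (n : ℕ) : LG G → LG G := Quotient.map (Tm.root n) fun _ _ h => Rel.root h

lemma mk_root (n : ℕ) (a : Tm G) : mk (Tm.root n a) = rt n (mk a) := rfl

lemma mk_pw (a : Tm G) (n : ℕ) : mk (Tm.pw a n) = mk a ^ (n + 1) := by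
  induction n with
  | zero => rw [Tm.pw, pow_one]
  | succ n ih => rw [Tm.pw, mk_mul, ih, ← pow_succ]

lemma rt_pow (n : ℕ) (x : LG G) : rt n x ^ (n + 1) = x := by
  obtain ⟨a, rfl⟩ := mk_surj x
  rw [← mk_root, ← mk_pw]
  exact sound (Rel.root_pow n a)

lemma pow_rt (n : ℕ) (x : LG G) : rt n (x ^ (n + 1)) = x := by
  obtain ⟨a, rfl⟩ := mk_surj x
  rw [← mk_pw, ← mk_root]
  exact sound (Rel.pow_root n a)

lemma isLocalGroup (G : Type u) [Group G] : IsLocalGroup (LG G) := by
  intro p hp
  obtain ⟨n, rfl⟩ : ∃ n, p = n + 1 := ⟨p - 1, by have := hp.pos; omega⟩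
  constructor
  · intro x y hxy
    have h : x ^ (n + 1) = y ^ (n + 1) := hxy
    rw [← pow_rt n x, h, pow_rt]
  · intro y
    exact ⟨rt n y, rt_pow n y⟩

/-- the unit -/
def unit (G : Type u) [Group G] : G →* LG G where
  toFun g := mk (Tm.of g)
  map_one' := rfl
  map_mul' g h := sound (Rel.of_mul g h)

variable {T : Type v} [Group T]

/-- the root in a local group -/
noncomputable def lrt (h : IsLocalGroup T) (n : ℕ) (x : T) : T :=
  ((h.pow (Nat.succ_ne_zero n)).2 x).choose

lemma lrt_pow (h : IsLocalGroup T) (n : ℕ) (x : T) : lrt h n x ^ (n + 1) = x :=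
  ((h.pow (Nat.succ_ne_zero n)).2 x).choose_spec

lemma pow_lrt (h : IsLocalGroup T) (n : ℕ) (x : T) : lrt h n (x ^ (n + 1)) = x := by
  apply (h.pow (Nat.succ_ne_zero n)).1
  exact lrt_pow h n _

/-- evaluation of terms -/
noncomputable def ev (h : IsLocalGroup T) (f : G →* T) : Tm G → T
  | Tm.of g => f g
  | Tm.mul a b => ev h f a * ev h f b
  | Tm.inv a => (ev h f a)⁻¹
  | Tm.root n a => lrt h n (ev h f a)

lemma ev_pw (h : IsLocalGroup T) (f : G →* T) (a : Tm G) (n : ℕ) :
    ev h f (Tm.pw a n) = ev h f a ^ (n + 1) := by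
  induction n with
  | zero => rw [Tm.pw, pow_one]
  | succ n ih => rw [Tm.pw, ev, ih, ← pow_succ]

lemma ev_rel (h : IsLocalGroup T) (f : G →* T) {a b : Tm G} (hab : Rel G a b) :
    ev h f a = ev h f b := by
  induction hab with
  | refl a => rfl
  | symm _ ih => exact ih.symm
  | trans _ _ ih ih' => exact ih.trans ih'
  | mul _ _ ih ih' => rw [ev, ev, ih, ih']
  | inv _ ih => rw [ev, ev, ih]
  | root _ ih => rw [ev, ev, ih]
  | of_mul g h => rw [ev, ev, ev, ev, map_mul]
  | assoc a b c => rw [ev, ev, ev, ev, mul_assoc]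
  | one_mul a => rw [ev, ev, map_one, one_mul]
  | inv_mul a => rw [ev, ev, ev, map_one, inv_mul_cancel]
  | root_pow n a => rw [ev_pw, ev, lrt_pow]
  | pow_root n a => rw [ev, ev_pw, pow_lrt]

/-- the universal property: existence -/
noncomputable def lift (h : IsLocalGroup T) (f : G →* T) : LG G →* T where
  toFun := Quotient.lift (ev h f) fun _ _ hab => ev_rel h f hab
  map_one' := map_one f
  map_mul' x y := by
    obtain ⟨a, rfl⟩ := mk_surj x
    obtain ⟨b, rfl⟩ := mk_surj y
    rfl

lemma lift_unit (h : IsLocalGroup T) (f : G →* T) (g : G) : lift h f (unit G g) = f g := rfl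

/-- the universal property: uniqueness -/
lemma hom_ext (h : IsLocalGroup T) {f g : LG G →* T} (hfg : ∀ x, f (unit G x) = g (unit G x)) :
    f = g := by
  ext x
  obtain ⟨a, rfl⟩ := mk_surj x
  induction a with
  | of x => exact hfg x
  | mul a b ha hb => rw [mk_mul, map_mul, map_mul, ha, hb]
  | inv a ha => rw [mk_inv, map_inv, map_inv, ha]
  | root n a ha =>
    apply (h.pow (Nat.succ_ne_zero n)).1
    change f (mk (Tm.root n a)) ^ (n + 1) = g (mk (Tm.root n a)) ^ (n + 1)
    rw [← map_pow, ← map_pow, mk_root, rt_pow, ha]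

end Pool.Agent.R689.Ratn
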