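import Pool.Agent.R689.LenLemmas

/-! Upper bound for the Lech–Mumford constant of `S/(x(x-y^N))`. -/

namespace R689LM

open IsLocalRing Filter
open scoped ENNReal Nat

section

variable {S : Type*} [CommRing S] (x y : S)

theorem branch (H : ∀ a : Ideal S, Ideal.span {x} ⊔ Ideal.span {y} ≤ a →
      ∃ s, a = Ideal.span {s} ⊔ (Ideal.span {x} ⊔ Ideal.span {y}))
    (u : S) (hu : Ideal.span {u} ⊔ Ideal.span {y} = Ideal.span {x} ⊔ Ideal.span {y})
    (K : Ideal S) (M : ℕ) (hM : y ^ M ∈ K) (k : ℕ) :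
    2 * len S (Ideal.span {u} ⊔ K ^ k) +
      ((k * (k - 1) : ℕ) : ℝ≥0∞) * len S (Ideal.span {x} ⊔ (Ideal.span {y} ⊔ K)) ≤
      2 * (k : ℝ≥0∞) ^ 2 * len S (Ideal.span {u} ⊔ K) := by
  set f : S →+* S ⧸ Ideal.span {u} := Ideal.Quotient.mk _ with hf
  have hfs : Function.Surjective f := Ideal.Quotient.mk_surjective
  have hcm : ∀ I : Ideal S, Ideal.comap f (Ideal.map f I) = Ideal.span {u} ⊔ I := by
    intro I
    rw [Ideal.comap_map_of_surjective f hfs, ← RingHom.ker_eq_comap_bot, hf, Ideal.mk_ker, sup_comm]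
  have HA : ∀ a : Ideal (S ⧸ Ideal.span {u}), Ideal.span {f y} ≤ a →
      ∃ s, a = Ideal.span {s} ⊔ Ideal.span {f y} := by
    intro a ha
    have hmap : Ideal.map f (Ideal.comap f a) = a := Ideal.map_comap_of_surjective f hfs a
    have h1 : Ideal.span {u} ⊔ Ideal.span {y} ≤ Ideal.comap f a := by
      refine sup_le ?_ ?_
      · rw [Ideal.span_singleton_le_iff_mem, Ideal.mem_comap]
        have : f u = 0 := Ideal.Quotient.eq_zero_iff_mem.mpr (Ideal.mem_span_singleton_self u)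
        rw [this]; exact a.zero_mem
      · rw [Ideal.span_singleton_le_iff_mem, Ideal.mem_comap]
        exact ha (Ideal.mem_span_singleton_self _)
    rw [hu] at h1
    obtain ⟨s, hs⟩ := H _ h1
    refine ⟨f s, ?_⟩
    rw [← hmap, hs, ← hu, Ideal.map_sup, Ideal.map_sup, Ideal.map_span, Ideal.map_span,
      Ideal.map_span, Set.image_singleton, Set.image_singleton, Set.image_singleton]
    have : f u = 0 := Ideal.Quotient.eq_zero_iff_mem.mpr (Ideal.mem_span_singleton_self u)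
    rw [this, Ideal.span_singleton_zero, bot_sup_eq]
  have hM' : (f y) ^ M ∈ Ideal.map f K := by
    rw [← map_pow]; exact Ideal.mem_map_of_mem _ hM
  have main := len_pow_ineq (f y) HA (Ideal.map f K) M hM' k
  have e1 : len (S ⧸ Ideal.span {u}) (Ideal.map f K ^ k) = len S (Ideal.span {u} ⊔ K ^ k) := by
    rw [← Ideal.map_pow, ← len_comap f hfs, hcm]
  have e2 : len (S ⧸ Ideal.span {u}) (Ideal.map f K) = len S (Ideal.span {u} ⊔ K) := by
    rw [← len_comap f hfs, hcm]
  have e3 : len (S ⧸ Ideal.span {u}) (Ideal.span {f y} ⊔ Ideal.map f K) =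
      len S (Ideal.span {x} ⊔ (Ideal.span {y} ⊔ K)) := by
    have : Ideal.span {f y} ⊔ Ideal.map f K = Ideal.map f (Ideal.span {y} ⊔ K) := by
      rw [Ideal.map_sup, Ideal.map_span, Set.image_singleton]
    rw [this, ← len_comap f hfs, hcm, ← sup_assoc, hu, sup_assoc]
  rwa [e1, e2, e3] at main

theorem branch_total (H : ∀ a : Ideal S, Ideal.span {x} ⊔ Ideal.span {y} ≤ a →
      ∃ s, a = Ideal.span {s} ⊔ (Ideal.span {x} ⊔ Ideal.span {y}))
    (N : ℕ) (hN : 1 ≤ N) (K : Ideal S) (M : ℕ) (hM : y ^ M ∈ K)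
    (hfin : len S K ≠ ⊤) (k : ℕ) (hkfin : len S (K ^ k) ≠ ⊤) :
    (N : ℝ) * (len S (Ideal.span {x * (x - y ^ N)} ⊔ K ^ k)).toReal ≤
      (len S K).toReal * (2 * N * k ^ 2 - k ^ 2 + k) := by
  have hu1 : Ideal.span {x} ⊔ Ideal.span {y} = Ideal.span {x} ⊔ Ideal.span {y} := rfl
  have hu2 : Ideal.span {x - y ^ N} ⊔ Ideal.span {y} = Ideal.span {x} ⊔ Ideal.span {y} := by
    have hyN : y ^ N ∈ Ideal.span {y} :=
      Ideal.mem_span_singleton.mpr (dvd_pow_self y (by omega))
    apply le_antisymm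
    · refine sup_le ?_ le_sup_right
      rw [Ideal.span_singleton_le_iff_mem]
      exact Ideal.sub_mem _ (Ideal.mem_sup_left (Ideal.mem_span_singleton_self _))
        (Ideal.mem_sup_right hyN)
    · refine sup_le ?_ le_sup_right
      rw [Ideal.span_singleton_le_iff_mem]
      have : x = (x - y ^ N) + y ^ N := by ring
      rw [this]
      refine Ideal.add_mem _ (Ideal.mem_sup_left ?_) (Ideal.mem_sup_right hyN)
      rw [sub_add_cancel]
      exact Ideal.mem_span_singleton_self _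
  set b := len S (Ideal.span {x} ⊔ (Ideal.span {y} ⊔ K)) with hb
  have h1 := branch x y H x hu1 K M hM k
  have h2 := branch x y H (x - y ^ N) hu2 K M hM k
  rw [← hb] at h1 h2
  have h3 := len_sup_mul (K ^ k) x (x - y ^ N)
  have hP : len S (Ideal.span {x} ⊔ K) ≤ len S K := len_mono le_sup_right
  have hQ : len S (Ideal.span {x - y ^ N} ⊔ K) ≤ len S K := len_mono le_sup_right
  have hPQ : len S (Ideal.span {x} ⊔ K) + len S (Ideal.span {x - y ^ N} ⊔ K) ≤
      len S K + N * b := by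
    refine (len_add_le (K := K) le_sup_right le_sup_right).trans (add_le_add le_rfl ?_)
    have h4 := len_sup_pow (Ideal.span {x} ⊔ K) y N
    have h5 : Ideal.span {y} ⊔ (Ideal.span {x} ⊔ K) = Ideal.span {x} ⊔ (Ideal.span {y} ⊔ K) :=
      sup_left_comm _ _ _
    rw [h5] at h4
    refine le_trans (len_mono ?_) h4
    refine sup_le ?_ (sup_le (le_sup_left.trans le_sup_left) (le_sup_right.trans le_sup_left))
    rw [Ideal.span_singleton_le_iff_mem]
    have h6 : x - (x - y ^ N) ∈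
        Ideal.span {x} ⊔ K ⊔ (Ideal.span {x - y ^ N} ⊔ K) :=
      Ideal.sub_mem _ (Ideal.mem_sup_left (Ideal.mem_sup_left (Ideal.mem_span_singleton_self _)))
        (Ideal.mem_sup_right (Ideal.mem_sup_left (Ideal.mem_span_singleton_self _)))
    rwa [sub_sub_cancel] at h6
  -- finiteness
  have fb : b ≠ ⊤ := ne_top_of_le_ne_top hfin (len_mono (le_sup_right.trans le_sup_right))
  have fP : len S (Ideal.span {x} ⊔ K) ≠ ⊤ := ne_top_of_le_ne_top hfin hP
  have fQ : len S (Ideal.span {x - y ^ N} ⊔ K) ≠ ⊤ := ne_top_of_le_ne_top hfin hQ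
  have fh : len S (Ideal.span {x * (x - y ^ N)} ⊔ K ^ k) ≠ ⊤ :=
    ne_top_of_le_ne_top hkfin (len_mono le_sup_right)
  have fPk : len S (Ideal.span {x} ⊔ K ^ k) ≠ ⊤ :=
    ne_top_of_le_ne_top hkfin (len_mono le_sup_right)
  have fQk : len S (Ideal.span {x - y ^ N} ⊔ K ^ k) ≠ ⊤ :=
    ne_top_of_le_ne_top hkfin (len_mono le_sup_right)
  -- pass to reals
  generalize len S K = L at *
  generalize len S (Ideal.span {x} ⊔ K) = lP at *
  generalize len S (Ideal.span {x - y ^ N} ⊔ K) = lQ at *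
  generalize len S (Ideal.span {x * (x - y ^ N)} ⊔ K ^ k) = lh at *
  generalize len S (Ideal.span {x} ⊔ K ^ k) = lPk at *
  generalize len S (Ideal.span {x - y ^ N} ⊔ K ^ k) = lQk at *
  clear_value b
  lift L to NNReal using hfin
  lift lP to NNReal using fP
  lift lQ to NNReal using fQ
  lift lh to NNReal using fh
  lift lPk to NNReal using fPk
  lift lQk to NNReal using fQk
  lift b to NNReal using fb
  have h1' : 2 * (lPk : ℝ) + ((k * (k - 1) : ℕ) : ℝ) * b ≤ 2 * (k : ℝ) ^ 2 * lP := by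
    exact_mod_cast h1
  have h2' : 2 * (lQk : ℝ) + ((k * (k - 1) : ℕ) : ℝ) * b ≤ 2 * (k : ℝ) ^ 2 * lQ := by
    exact_mod_cast h2
  have h3' : (lh : ℝ) ≤ lQk + lPk := by exact_mod_cast h3
  have hP' : (lP : ℝ) ≤ L := by exact_mod_cast hP
  have hQ' : (lQ : ℝ) ≤ L := by exact_mod_cast hQ
  have hPQ' : (lP : ℝ) + lQ ≤ L + N * b := by exact_mod_cast hPQ
  have hkk : ((k * (k - 1) : ℕ) : ℝ) = (k : ℝ) * (k - 1) := by
    cases k with
    | zero => simp
    | succ k => push_cast; simp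
  rw [hkk] at h1' h2'
  simp only [ENNReal.coe_toReal]
  have hN' : (1 : ℝ) ≤ N := by exact_mod_cast hN
  have hk0 : (0 : ℝ) ≤ k := Nat.cast_nonneg k
  have hkk0 : (0 : ℝ) ≤ (k : ℝ) * (k - 1) := by
    rw [← hkk]; exact Nat.cast_nonneg _
  have e1 : (N : ℝ) * lh ≤ N * k ^ 2 * (lP + lQ) - N * (k * (k - 1)) * b := by
    nlinarith
  have e2 : (k * (k - 1) : ℝ) * (lP + lQ) ≤ (k * (k - 1)) * (L + N * b) :=
    mul_le_mul_of_nonneg_left hPQ' hkk0
  have e3 : (0 : ℝ) ≤ N * k ^ 2 - k * (k - 1) := by nlinarith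
  have e4 : (N * k ^ 2 - k * (k - 1) : ℝ) * (lP + lQ) ≤ (N * k ^ 2 - k * (k - 1)) * (2 * L) :=
    mul_le_mul_of_nonneg_left (by linarith) e3
  nlinarith

theorem ratio_le [IsLocalRing S] [IsNoetherianRing S]
    (H : ∀ a : Ideal S, Ideal.span {x} ⊔ Ideal.span {y} ≤ a →
      ∃ s, a = Ideal.span {s} ⊔ (Ideal.span {x} ⊔ Ideal.span {y}))
    (N : ℕ) (hN : 1 ≤ N) (hy : y ∈ maximalIdeal S)
    (hdim : kdim (S ⧸ Ideal.span {x * (x - y ^ N)}) = 2)
    [IsLocalRing (S ⧸ Ideal.span {x * (x - y ^ N)})]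
    (I : Ideal (S ⧸ Ideal.span {x * (x - y ^ N)})) (hI : I.radical = maximalIdeal _) :
    ratio _ I ≤ ENNReal.ofReal (2 - 1 / N) := by
  set f : S →+* S ⧸ Ideal.span {x * (x - y ^ N)} := Ideal.Quotient.mk _ with hf
  have hfs : Function.Surjective f := Ideal.Quotient.mk_surjective
  set K : Ideal S := I.comap f with hK
  have hmap : Ideal.map f K = I := Ideal.map_comap_of_surjective f hfs I
  have hcm : ∀ J : Ideal S, Ideal.comap f (Ideal.map f J) = Ideal.span {x * (x - y ^ N)} ⊔ J := by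
    intro J
    rw [Ideal.comap_map_of_surjective f hfs, ← RingHom.ker_eq_comap_bot, hf, Ideal.mk_ker, sup_comm]
  have hKrad : K.radical = maximalIdeal S := by
    rw [hK, ← Ideal.comap_radical, hI]
    have : (Ideal.comap f (maximalIdeal (S ⧸ Ideal.span {x * (x - y ^ N)}))).IsMaximal :=
      Ideal.comap_isMaximal_of_surjective f hfs
    exact IsLocalRing.eq_maximalIdeal this
  obtain ⟨M, hM⟩ : ∃ M, y ^ M ∈ K := by
    have : y ∈ K.radical := hKrad ▸ hy
    exact this
  have hKfin : len S K ≠ ⊤ := len_ne_top hKrad.ge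
  have hKtop : K ≠ ⊤ := by
    rintro h
    rw [h, Ideal.radical_top] at hKrad
    exact (maximalIdeal.isMaximal S).ne_top hKrad.symm
  have hKpos : 0 < (len S K).toReal := ENNReal.toReal_pos (len_pos hKtop) hKfin
  have hKkfin : ∀ k, len S (K ^ k) ≠ ⊤ := by
    intro k
    apply len_ne_top
    rcases Nat.eq_zero_or_pos k with h | h
    · subst h; rw [pow_zero, Ideal.one_eq_top, Ideal.radical_top]; exact le_top
    · rw [Ideal.radical_pow _ h.ne', hKrad]
  have hlenI : len _ I = len S K := (len_comap f hfs I).symm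
  have hlenIk : ∀ k, len _ (I ^ k) = len S (Ideal.span {x * (x - y ^ N)} ⊔ K ^ k) := by
    intro k
    rw [← hmap, ← Ideal.map_pow, ← len_comap f hfs, hcm]
  set L := (len S K).toReal with hL
  have hN' : (0 : ℝ) < N := by exact_mod_cast hN
  have hmult : mult _ I ≤ ENNReal.ofReal (2 * L * (2 - 1 / N)) := by
    have hbound : ∀ᶠ k : ℕ in atTop,
        ((kdim (S ⧸ Ideal.span {x * (x - y ^ N)}))! : ℝ≥0∞) * len _ (I ^ k) /
          (k : ℝ≥0∞) ^ (kdim (S ⧸ Ideal.span {x * (x - y ^ N)})) ≤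
        ENNReal.ofReal (2 * L * (2 - 1 / N + 1 / N * (1 / (k : ℝ)))) := by
      filter_upwards [eventually_ge_atTop 1] with k hk
      have hk' : (0 : ℝ) < k := by exact_mod_cast hk
      rw [hdim, hlenIk]
      have hfin : len S (Ideal.span {x * (x - y ^ N)} ⊔ K ^ k) ≠ ⊤ :=
        ne_top_of_le_ne_top (hKkfin k) (len_mono le_sup_right)
      have hb := branch_total x y H N hN K M hM hKfin k (hKkfin k)
      set l := (len S (Ideal.span {x * (x - y ^ N)} ⊔ K ^ k)).toReal with hl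
      have hl' : len S (Ideal.span {x * (x - y ^ N)} ⊔ K ^ k) = ENNReal.ofReal l := by
        rw [hl, ENNReal.ofReal_toReal hfin]
      have hl0 : 0 ≤ l := ENNReal.toReal_nonneg
      rw [hl', Nat.factorial_two]
      have e1 : ((2 : ℕ) : ℝ≥0∞) * ENNReal.ofReal l / (k : ℝ≥0∞) ^ 2 =
          ENNReal.ofReal (2 * l / k ^ 2) := by
        rw [ENNReal.ofReal_div_of_pos (by positivity), ENNReal.ofReal_mul (by norm_num),
          ENNReal.ofReal_pow (by positivity), ENNReal.ofReal_natCast]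
        norm_num
      rw [e1]
      apply ENNReal.ofReal_le_ofReal
      rw [div_le_iff₀ (by positivity)]
      have e2 : 2 * L * (2 - 1 / N + 1 / N * (1 / (k : ℝ))) * k ^ 2 =
          2 * (L * (2 * N * k ^ 2 - k ^ 2 + k)) / N := by
        field_simp
      rw [e2, le_div_iff₀ hN']
      nlinarith
    have hlim : Tendsto (fun k : ℕ => ENNReal.ofReal (2 * L * (2 - 1 / N + 1 / N * (1 / (k : ℝ)))))
        atTop (nhds (ENNReal.ofReal (2 * L * (2 - 1 / N + 1 / N * 0)))) := by
      refine ENNReal.tendsto_ofReal ?_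
      refine Tendsto.const_mul _ (Tendsto.const_add _ (Tendsto.const_mul _ ?_))
      exact tendsto_one_div_atTop_nhds_zero_nat
    rw [mul_zero, add_zero] at hlim
    unfold mult
    rw [← hlim.limsup_eq]
    exact limsup_le_limsup hbound
  unfold ratio
  rw [hdim, hlenI, Nat.factorial_two]
  have hlK : len S K = ENNReal.ofReal L := by rw [hL, ENNReal.ofReal_toReal hKfin]
  rw [hlK]
  refine (ENNReal.div_le_div_right hmult _).trans ?_
  have e3 : ((2 : ℕ) : ℝ≥0∞) * ENNReal.ofReal L = ENNReal.ofReal (2 * L) := by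
    rw [ENNReal.ofReal_mul (by norm_num)]; norm_num
  rw [e3, ← ENNReal.ofReal_div_of_pos (by positivity)]
  apply ENNReal.ofReal_le_ofReal
  rw [mul_div_assoc, mul_comm (2 * L), div_mul_eq_mul_div, mul_div_assoc, div_self (by positivity),
    mul_one]

end

end R689LM
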