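import Mathlib

/-!
Local v-numbers of homogeneous ideals of a polynomial ring: definitions and basic lemmas.
-/

set_option autoImplicit false

namespace Pool.Agent.R689.VNum

open MvPolynomial

variable {n : ℕ} {K : Type*} [Field K]

/-- `(J : f) = p` -/
def ColonEq (J : Ideal (MvPolynomial (Fin n) K)) (f : MvPolynomial (Fin n) K)
    (p : Ideal (MvPolynomial (Fin n) K)) : Prop :=
  ∀ g, g ∈ p ↔ g * f ∈ J

/-- The associated primes of `J`: the prime ideals of the form `(J : f)`. -/
def Ass (J : Ideal (MvPolynomial (Fin n) K)) : Set (Ideal (MvPolynomial (Fin n) K)) :=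
  {p | p.IsPrime ∧ ∃ f, ColonEq J f p}

/-- The local v-number of `J` at `p`: the least degree of a homogeneous `f` with `(J : f) = p`. -/
noncomputable def vnum (p J : Ideal (MvPolynomial (Fin n) K)) : ℕ :=
  sInf {d | ∃ f : MvPolynomial (Fin n) K, f.IsHomogeneous d ∧ ColonEq J f p}

/-- The ideal `J` is homogeneous: the homogeneous components of its elements are in `J`. -/
def Homog (J : Ideal (MvPolynomial (Fin n) K)) : Prop :=
  ∀ f ∈ J, ∀ d, homogeneousComponent d f ∈ J

lemma mem_vars (g : MvPolynomial (Fin n) K) : g ∈ idealOfVars (Fin n) K ↔ coeff 0 g = 0 := by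
  have := mem_pow_idealOfVars_iff' (σ := Fin n) (R := K) 1 g
  rw [pow_one] at this
  rw [this]
  constructor
  · intro h
    exact h 0 (by simp)
  · intro h x hx
    have : x = 0 := by
      rw [Nat.lt_one_iff, Finsupp.degree_eq_zero_iff] at hx
      exact hx
    rw [this, h]

lemma vars_isPrime : (idealOfVars (Fin n) K).IsPrime := by
  have h : idealOfVars (Fin n) K = RingHom.ker (constantCoeff (σ := Fin n) (R := K)) := by
    ext g
    rw [mem_vars, RingHom.mem_ker, constantCoeff_eq]
  rw [h]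
  exact RingHom.ker_isPrime _

/-- The colon ideal is the maximal ideal as soon as it contains the variables and is proper. -/
lemma colonEq_vars {J : Ideal (MvPolynomial (Fin n) K)} {f : MvPolynomial (Fin n) K}
    (h1 : f ∉ J) (h2 : ∀ i, X i * f ∈ J) : ColonEq J f (idealOfVars (Fin n) K) := by
  have h3 : ∀ g ∈ idealOfVars (Fin n) K, g * f ∈ J := by
    intro g hg
    rw [idealOfVars] at hg
    induction hg using Submodule.span_induction with
    | mem x hx => obtain ⟨i, rfl⟩ := hx; exact h2 i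
    | zero => rw [zero_mul]; exact J.zero_mem
    | add x y _ _ hx hy => rw [add_mul]; exact J.add_mem hx hy
    | smul a x _ hx => rw [smul_eq_mul, mul_assoc]; exact J.mul_mem_left a hx
  intro g
  refine ⟨h3 g, fun h => ?_⟩
  rw [mem_vars]
  by_contra hc
  apply h1
  have h4 : g - C (coeff 0 g) ∈ idealOfVars (Fin n) K := by
    rw [mem_vars]
    simp
  have h5 := J.sub_mem h (h3 _ h4)
  have h6 : g * f - (g - C (coeff 0 g)) * f = C (coeff 0 g) * f := by ring
  rw [h6] at h5
  have h7 := J.mul_mem_left (C (coeff 0 g)⁻¹) h5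
  rwa [← mul_assoc, ← C_mul, inv_mul_cancel₀ hc, C_1, one_mul] at h7

lemma ColonEq.vars {J : Ideal (MvPolynomial (Fin n) K)} {f : MvPolynomial (Fin n) K}
    (h : ColonEq J f (idealOfVars (Fin n) K)) : f ∉ J ∧ ∀ i, X i * f ∈ J := by
  constructor
  · intro h1
    have h2 : (1 : MvPolynomial (Fin n) K) ∈ idealOfVars (Fin n) K := by
      rw [h 1, one_mul]; exact h1
    rw [mem_vars] at h2
    simp at h2
  · intro i
    rw [← h]
    exact Ideal.subset_span ⟨i, rfl⟩

/-- the monomial ideal of a set of exponents -/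
noncomputable def monIdeal (K : Type*) [Field K] (A : Set (Fin n →₀ ℕ)) : Ideal (MvPolynomial (Fin n) K) :=
  Ideal.span ((fun s => monomial s (1 : K)) '' A)

lemma mem_monIdeal {A : Set (Fin n →₀ ℕ)} {f : MvPolynomial (Fin n) K} :
    f ∈ monIdeal K A ↔ ∀ u ∈ f.support, ∃ a ∈ A, a ≤ u := mem_ideal_span_monomial_image

lemma monomial_mem {A : Set (Fin n →₀ ℕ)} {u : Fin n →₀ ℕ} :
    monomial u (1 : K) ∈ monIdeal K A ↔ ∃ a ∈ A, a ≤ u := by
  classical
  rw [mem_monIdeal, support_monomial, if_neg one_ne_zero]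
  simp

lemma monIdeal_homogeneous (A : Set (Fin n →₀ ℕ)) : Homog (monIdeal K A) := by
  intro f hf d
  rw [mem_monIdeal] at hf ⊢
  intro u hu
  apply hf
  rw [mem_support_iff] at hu ⊢
  rw [coeff_homogeneousComponent] at hu
  intro h
  apply hu
  rw [h, ite_self]

/-- a socle element of a monomial ideal has a socle monomial in its support -/
lemma exists_socle {A : Set (Fin n →₀ ℕ)} {f : MvPolynomial (Fin n) K} {d : ℕ}
    (hf : f.IsHomogeneous d) (h : ColonEq (monIdeal K A) f (idealOfVars (Fin n) K)) :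
    ∃ u : Fin n →₀ ℕ, u.degree = d ∧ (¬ ∃ a ∈ A, a ≤ u) ∧
      ∀ i, ∃ a ∈ A, a ≤ u + Finsupp.single i 1 := by
  classical
  obtain ⟨h1, h2⟩ := h.vars
  rw [mem_monIdeal] at h1
  push Not at h1
  obtain ⟨u, hu, h3⟩ := h1
  refine ⟨u, ?_, ?_, ?_⟩
  · have := hf (mem_support_iff.mp hu)
    rw [← this, Finsupp.degree_eq_weight_one]
    rfl
  · rintro ⟨a, ha, hau⟩
    exact h3 a ha hau
  · intro i
    have h4 := mem_monIdeal.mp (h2 i) (u + Finsupp.single i 1) (by
      rw [mem_support_iff, mul_comm, coeff_mul_X]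
      exact mem_support_iff.mp hu)
    exact h4

/-- monomials with the socle property -/
lemma colonEq_monomial {A : Set (Fin n →₀ ℕ)} {u : Fin n →₀ ℕ} (h1 : ¬ ∃ a ∈ A, a ≤ u)
    (h2 : ∀ i, ∃ a ∈ A, a ≤ u + Finsupp.single i 1) :
    ColonEq (monIdeal K A) (monomial u 1) (idealOfVars (Fin n) K) := by
  apply colonEq_vars
  · rw [monomial_mem]; exact h1
  · intro i
    have : X i * monomial u (1 : K) = monomial (u + Finsupp.single i 1) 1 := by
      rw [X, monomial_mul, one_mul, add_comm]
    rw [this, monomial_mem]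
    exact h2 i

end Pool.Agent.R689.VNum
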