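import Mathlib

/-! Koszul exactness for three variables in a polynomial ring. -/

namespace R689VR

open MvPolynomial

section PP

variable {V : Type*} [CommRing V] [IsDomain V]


theorem X_ndvd (i j : Fin 3) (h : i ≠ j) (t : ℕ) : ¬ (X i : (MvPolynomial (Fin 3) V)) ∣ X j ^ t := by
  intro hd
  have h1 := (X_prime (R := V) (i := i)).dvd_of_dvd_pow hd
  rw [MvPolynomial.X_dvd_X] at h1
  exact h h1

theorem div_of_mul {i j : Fin 3} (h : i ≠ j) (t : ℕ) (p : (MvPolynomial (Fin 3) V)) (hd : (X i : (MvPolynomial (Fin 3) V)) ^ t ∣ X j ^ t * p) :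
    (X i : (MvPolynomial (Fin 3) V)) ^ t ∣ p :=
  (X_prime (R := V) (i := i)).pow_dvd_of_dvd_mul_left t (X_ndvd i j h t) hd

theorem X_pow_ne (i : Fin 3) (t : ℕ) : (X i : (MvPolynomial (Fin 3) V)) ^ t ≠ 0 := pow_ne_zero _ (X_ne_zero i)

theorem P1 (t : ℕ) (c0 c1 c2 : (MvPolynomial (Fin 3) V)) (h01 : X 0 ^ t * c1 = X 1 ^ t * c0)
    (h02 : X 0 ^ t * c2 = X 2 ^ t * c0) :
    ∃ b : (MvPolynomial (Fin 3) V), c0 = X 0 ^ t * b ∧ c1 = X 1 ^ t * b ∧ c2 = X 2 ^ t * b := by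
  obtain ⟨b, hb⟩ := div_of_mul (i := 0) (j := 1) (by decide) t c0 (h01 ▸ Dvd.intro _ rfl)
  refine ⟨b, hb, ?_, ?_⟩
  · apply mul_left_cancel₀ (X_pow_ne 0 t)
    rw [h01, hb]; ring
  · apply mul_left_cancel₀ (X_pow_ne 0 t)
    rw [h02, hb]; ring

/-- Division by `X 0 ^ t`. -/
noncomputable def q0 (t : ℕ) (p : (MvPolynomial (Fin 3) V)) : (MvPolynomial (Fin 3) V) := p.divMonomial (Finsupp.single 0 t)

omit [IsDomain V] in
theorem q0_X0 (t : ℕ) (p : (MvPolynomial (Fin 3) V)) : q0 t (X 0 ^ t * p) = p := by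
  ext m
  unfold q0
  rw [coeff_divMonomial, X_pow_eq_monomial, coeff_monomial_mul', if_pos (by simp), one_mul]
  congr 1
  simp

omit [IsDomain V] in
theorem q0_comm (i : Fin 3) (hi : i ≠ 0) (t : ℕ) (p : (MvPolynomial (Fin 3) V)) :
    q0 t (X i ^ t * p) = X i ^ t * q0 t p := by
  ext m
  unfold q0
  rw [coeff_divMonomial, X_pow_eq_monomial, coeff_monomial_mul', coeff_monomial_mul']
  have h1 : Finsupp.single i t ≤ Finsupp.single 0 t + m ↔ Finsupp.single i t ≤ m := by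
    rw [Finsupp.single_le_iff, Finsupp.single_le_iff, Finsupp.add_apply,
      Finsupp.single_eq_of_ne hi, zero_add]
  by_cases h : Finsupp.single i t ≤ m
  · rw [if_pos (h1.mpr h), if_pos h, coeff_divMonomial]
    congr 2
    ext k
    have := h k
    simp only [Finsupp.tsub_apply, Finsupp.add_apply]
    omega
  · rw [if_neg (fun h' => h (h1.mp h')), if_neg h]

omit [IsDomain V] in
theorem q0_sub (t : ℕ) (p p' : (MvPolynomial (Fin 3) V)) : q0 t (p - p') = q0 t p - q0 t p' := by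
  ext m
  unfold q0
  rw [coeff_sub, coeff_divMonomial, coeff_divMonomial, coeff_divMonomial, coeff_sub]

theorem P2 (t : ℕ) (c01 c02 c12 : (MvPolynomial (Fin 3) V))
    (h : X 0 ^ t * c12 - X 1 ^ t * c02 + X 2 ^ t * c01 = 0) :
    ∃ b0 b1 b2 : (MvPolynomial (Fin 3) V), c01 = X 0 ^ t * b1 - X 1 ^ t * b0 ∧ c02 = X 0 ^ t * b2 - X 2 ^ t * b0 ∧
      c12 = X 1 ^ t * b2 - X 2 ^ t * b1 := by
  have h1 : X 0 ^ t * c12 = X 1 ^ t * c02 - X 2 ^ t * c01 := by linear_combination h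
  have h2 : c12 = X 1 ^ t * q0 t c02 - X 2 ^ t * q0 t c01 := by
    have := congrArg (q0 t) h1
    rwa [q0_X0, q0_sub, q0_comm 1 (by decide), q0_comm 2 (by decide)] at this
  have h3 : X 1 ^ t * (c02 - X 0 ^ t * q0 t c02) = X 2 ^ t * (c01 - X 0 ^ t * q0 t c01) := by
    rw [h2] at h1
    linear_combination -h1
  obtain ⟨k, hk⟩ := div_of_mul (i := 1) (j := 2) (by decide) t _ (h3 ▸ Dvd.intro _ rfl)
  have h4 : c02 - X 0 ^ t * q0 t c02 = X 2 ^ t * k := by
    apply mul_left_cancel₀ (X_pow_ne 1 t)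
    rw [h3, hk]; ring
  exact ⟨-k, q0 t c01, q0 t c02, by linear_combination hk, by linear_combination h4, h2⟩

omit [IsDomain V] in
theorem P3 (t n : ℕ) (c : (MvPolynomial (Fin 3) V)) (hc : c.IsHomogeneous n) (hn : 3 * t ≤ n + 2) :
    ∃ b0 b1 b2 : (MvPolynomial (Fin 3) V), c = X 0 ^ t * b0 - X 1 ^ t * b1 + X 2 ^ t * b2 := by
  have h1 : c ∈ Ideal.span {X 0 ^ t, X 1 ^ t, (X 2 ^ t : (MvPolynomial (Fin 3) V))} := by
    rw [MvPolynomial.as_sum c]
    refine Ideal.sum_mem _ fun m hm => ?_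
    have hdeg := hc (mem_support_iff.mp hm)
    have hsum : m 0 + m 1 + m 2 = n := by
      rw [← hdeg]
      simp [Finsupp.weight_apply, Finsupp.sum_fintype, Fin.sum_univ_three]
    have hex : ∃ i : Fin 3, t ≤ m i := by
      by_contra hcon
      push Not at hcon
      have := hcon 0; have := hcon 1; have := hcon 2
      omega
    obtain ⟨i, hi⟩ := hex
    have h2 : monomial m (coeff m c) = X i ^ t * monomial (m - Finsupp.single i t) (coeff m c) := by
      rw [X_pow_eq_monomial, monomial_mul, one_mul,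
        add_tsub_cancel_of_le (Finsupp.single_le_iff.mpr hi)]
    rw [h2]
    apply Ideal.mul_mem_right
    apply Ideal.subset_span
    fin_cases i <;> simp
  rw [Ideal.mem_span_insert] at h1
  obtain ⟨a, z, hz, rfl⟩ := h1
  rw [Ideal.mem_span_pair] at hz
  obtain ⟨b, d, rfl⟩ := hz
  exact ⟨a, -b, d, by ring⟩

end PP

end R689VR
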