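import Pool.Agent.R689.VReg1

/-! Koszul vanishing for modules over a polynomial ring in three variables. -/

namespace R689VR

/-- Polynomials in three variables. -/
abbrev Pol (V : Type*) [CommRing V] := MvPolynomial (Fin 3) V

open MvPolynomial

section PP

variable {V : Type*} [CommRing V]


/-- Homogeneous of integer degree. -/
def HP (D : ℤ) (p : (Pol V)) : Prop := p = 0 ∨ ∃ n : ℕ, (n : ℤ) = D ∧ p.IsHomogeneous n

/-- Projection to degree `D`. -/
noncomputable def piP (D : ℤ) (p : (Pol V)) : (Pol V) :=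
  if 0 ≤ D then homogeneousComponent D.toNat p else 0

theorem piP_add (D : ℤ) (p q : (Pol V)) : piP D (p + q) = piP D p + piP D q := by
  unfold piP; split_ifs <;> simp

theorem piP_sub (D : ℤ) (p q : (Pol V)) : piP D (p - q) = piP D p - piP D q := by
  unfold piP; split_ifs <;> simp

theorem piP_neg (D : ℤ) (p : (Pol V)) : piP D (-p) = - piP D p := by
  unfold piP; split_ifs <;> simp

theorem piP_C (D : ℤ) (a : V) (p : (Pol V)) : piP D (C a * p) = C a * piP D p := by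
  unfold piP; split_ifs
  · rw [homogeneousComponent_C_mul]
  · simp

theorem HP_piP (D : ℤ) (p : (Pol V)) : HP D (piP D p) := by
  unfold piP; split_ifs with h
  · exact Or.inr ⟨D.toNat, Int.toNat_of_nonneg h, homogeneousComponent_isHomogeneous _ _⟩
  · exact Or.inl rfl

theorem piP_of_HP {D : ℤ} {p : (Pol V)} (h : HP D p) : piP D p = p := by
  rcases h with rfl | ⟨n, rfl, hn⟩
  · unfold piP; split_ifs <;> simp
  · unfold piP
    rw [if_pos (Int.natCast_nonneg n), Int.toNat_natCast]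
    exact homogeneousComponent_of_mem hn |>.trans (by simp)

theorem piP_X (D : ℤ) (i : Fin 3) (p : (Pol V)) : piP (D + 1) (X i * p) = X i * piP D p := by
  ext m
  unfold piP
  by_cases hD : 0 ≤ D
  · rw [if_pos (by omega), if_pos hD, coeff_homogeneousComponent, coeff_X_mul', coeff_X_mul',
      coeff_homogeneousComponent]
    by_cases hm : i ∈ m.support
    · rw [if_pos hm, if_pos hm]
      have hmi : 1 ≤ m i := Nat.one_le_iff_ne_zero.mpr (Finsupp.mem_support_iff.mp hm)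
      have hdeg : m.degree = (m - Finsupp.single i 1).degree + 1 := by
        have h1 : m = (m - Finsupp.single i 1) + Finsupp.single i 1 :=
          (tsub_add_cancel_of_le (Finsupp.single_le_iff.mpr hmi)).symm
        conv_lhs => rw [h1]
        rw [map_add, Finsupp.degree_single]
      have h2 : m.degree = (D + 1).toNat ↔ (m - Finsupp.single i 1).degree = D.toNat := by
        rw [hdeg]; omega
      simp only [h2]
    · rw [if_neg hm, if_neg hm]; simp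
  · rw [if_neg hD, mul_zero, coeff_zero]
    split_ifs with h0
    · rw [coeff_homogeneousComponent]
      split_ifs with h1
      · rw [coeff_X_mul', if_neg]
        intro hm
        have hmi : m i ≠ 0 := Finsupp.mem_support_iff.mp hm
        have h2 : m.degree = 0 := by rw [h1]; omega
        rw [Finsupp.degree_eq_zero_iff] at h2
        exact hmi (by rw [h2]; rfl)
      · rfl
    · rfl

theorem HP_zero (D : ℤ) : HP D (0 : (Pol V)) := Or.inl rfl

/-- A `(Pol V)`-module `M` with integer-graded projections compatible with the variables. -/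
structure Gr (M : Type*) [AddCommGroup M] [Module (Pol V) M] where
  /-- projection to degree `D` -/
  pi : ℤ → M →+ M
  pi_pi : ∀ D m, pi D (pi D m) = pi D m
  pi_X : ∀ D (i : Fin 3) m, pi (D + 1) ((X i : (Pol V)) • m) = (X i : (Pol V)) • pi D m

namespace Gr

variable {M : Type*} [AddCommGroup M] [Module (Pol V) M] (G : Gr (V := V) M)

/-- homogeneous of degree `D` -/
def H (D : ℤ) (m : M) : Prop := G.pi D m = m

theorem H_pi (D : ℤ) (m : M) : G.H D (G.pi D m) := G.pi_pi D m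

theorem pi_Xpow (t : ℕ) (D : ℤ) (i : Fin 3) (m : M) :
    G.pi (D + t) ((X i : (Pol V)) ^ t • m) = (X i : (Pol V)) ^ t • G.pi D m := by
  induction t generalizing D with
  | zero => simp
  | succ t ih =>
    have h1 : D + ((t + 1 : ℕ) : ℤ) = (D + t) + 1 := by push_cast; ring
    rw [h1, pow_succ', mul_smul, G.pi_X, ih, mul_smul]

theorem pi_Xpow' (t : ℕ) (D D' : ℤ) (h : D' = D + t) (i : Fin 3) (m : M) :
    G.pi D' ((X i : (Pol V)) ^ t • m) = (X i : (Pol V)) ^ t • G.pi D m := by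
  rw [h]; exact G.pi_Xpow t D i m

/-- Koszul vanishing (without homogeneity of the solutions). -/
structure KV : Prop where
  z0 : ∀ (t : ℕ) (m : M), 1 ≤ t → (X 0 : (Pol V)) ^ t • m = 0 → (X 1 : (Pol V)) ^ t • m = 0 →
    (X 2 : (Pol V)) ^ t • m = 0 → m = 0
  z1 : ∀ (t : ℕ) (m0 m1 m2 : M), 1 ≤ t → (X 0 : (Pol V)) ^ t • m1 = (X 1 : (Pol V)) ^ t • m0 →
    (X 0 : (Pol V)) ^ t • m2 = (X 2 : (Pol V)) ^ t • m0 → (X 1 : (Pol V)) ^ t • m2 = (X 2 : (Pol V)) ^ t • m1 →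
    ∃ b : M, m0 = (X 0 : (Pol V)) ^ t • b ∧ m1 = (X 1 : (Pol V)) ^ t • b ∧ m2 = (X 2 : (Pol V)) ^ t • b
  z2 : ∀ (t : ℕ) (D : ℤ) (m01 m02 m12 : M), 1 ≤ t → -1 ≤ D → G.H (D + 2 * t) m01 →
    G.H (D + 2 * t) m02 → G.H (D + 2 * t) m12 →
    (X 0 : (Pol V)) ^ t • m12 - (X 1 : (Pol V)) ^ t • m02 + (X 2 : (Pol V)) ^ t • m01 = 0 →
    ∃ b0 b1 b2 : M, m01 = (X 0 : (Pol V)) ^ t • b1 - (X 1 : (Pol V)) ^ t • b0 ∧
      m02 = (X 0 : (Pol V)) ^ t • b2 - (X 2 : (Pol V)) ^ t • b0 ∧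
      m12 = (X 1 : (Pol V)) ^ t • b2 - (X 2 : (Pol V)) ^ t • b1
  z3 : ∀ (t : ℕ) (D : ℤ) (m : M), 1 ≤ t → -2 ≤ D → G.H (D + 3 * t) m →
    ∃ b0 b1 b2 : M, m = (X 0 : (Pol V)) ^ t • b0 - (X 1 : (Pol V)) ^ t • b1 + (X 2 : (Pol V)) ^ t • b2

/-- Strong form: all cocycles in cohomological degrees `0,1,2` are coboundaries. -/
structure KVs : Prop where
  z0 : ∀ (t : ℕ) (m : M), 1 ≤ t → (X 0 : (Pol V)) ^ t • m = 0 → m = 0
  z1 : ∀ (t : ℕ) (m0 m1 m2 : M), 1 ≤ t → (X 0 : (Pol V)) ^ t • m1 = (X 1 : (Pol V)) ^ t • m0 →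
    (X 0 : (Pol V)) ^ t • m2 = (X 2 : (Pol V)) ^ t • m0 →
    ∃ b : M, m0 = (X 0 : (Pol V)) ^ t • b ∧ m1 = (X 1 : (Pol V)) ^ t • b ∧
      m2 = (X 2 : (Pol V)) ^ t • b
  z2 : ∀ (t : ℕ) (m01 m02 m12 : M), 1 ≤ t →
    (X 0 : (Pol V)) ^ t • m12 - (X 1 : (Pol V)) ^ t • m02 + (X 2 : (Pol V)) ^ t • m01 = 0 →
    ∃ b0 b1 b2 : M, m01 = (X 0 : (Pol V)) ^ t • b1 - (X 1 : (Pol V)) ^ t • b0 ∧
      m02 = (X 0 : (Pol V)) ^ t • b2 - (X 2 : (Pol V)) ^ t • b0 ∧
      m12 = (X 1 : (Pol V)) ^ t • b2 - (X 2 : (Pol V)) ^ t • b1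
  z3 : ∀ (t : ℕ) (D : ℤ) (m : M), 1 ≤ t → -2 ≤ D → G.H (D + 3 * t) m →
    ∃ b0 b1 b2 : M, m = (X 0 : (Pol V)) ^ t • b0 - (X 1 : (Pol V)) ^ t • b1 +
      (X 2 : (Pol V)) ^ t • b2

theorem KVs.weak {G : Gr (V := V) M} (h : G.KVs) : G.KV where
  z0 t m ht h0 _ _ := h.z0 t m ht h0
  z1 t m0 m1 m2 ht h1 h2 _ := h.z1 t m0 m1 m2 ht h1 h2
  z2 t _ m01 m02 m12 ht _ _ _ _ h' := h.z2 t m01 m02 m12 ht h'
  z3 := h.z3

end Gr

/-- The graded structure on `(Pol V)`. -/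
noncomputable def grP : Gr (V := V) (Pol V) where
  pi D := { toFun := piP D, map_zero' := by unfold piP; split_ifs <;> simp, map_add' := piP_add D }
  pi_pi D m := piP_of_HP (HP_piP D m)
  pi_X D i m := piP_X D i m

theorem grP_KVs [IsDomain V] : (grP (V := V)).KVs where
  z0 t m _ h := by
    rw [smul_eq_mul] at h
    exact (mul_eq_zero.mp h).resolve_left (X_pow_ne 0 t)
  z1 t m0 m1 m2 _ h1 h2 := P1 t m0 m1 m2 h1 h2
  z2 t m01 m02 m12 _ h := P2 t m01 m02 m12 h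
  z3 t D m ht hD hm := by
    have h1 : piP (D + 3 * t) m = m := hm
    have h2 := HP_piP (D + 3 * t) m
    rw [h1] at h2
    rcases h2 with h2 | ⟨n, hn, hh⟩
    · exact ⟨0, 0, 0, by rw [h2]; simp⟩
    · exact P3 t n m hh (by omega)

section prod

variable {M N : Type*} [AddCommGroup M] [Module (Pol V) M] [AddCommGroup N] [Module (Pol V) N]

/-- Product of graded structures. -/
def Gr.prod (G : Gr (V := V) M) (K : Gr (V := V) N) : Gr (V := V) (M × N) where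
  pi D := { toFun := fun m => (G.pi D m.1, K.pi D m.2)
            map_zero' := by simp
            map_add' := fun a b => by simp }
  pi_pi D m := Prod.ext (G.pi_pi D m.1) (K.pi_pi D m.2)
  pi_X D i m := Prod.ext (G.pi_X D i m.1) (K.pi_X D i m.2)

theorem Gr.prod_H (G : Gr (V := V) M) (K : Gr (V := V) N) (D : ℤ) (m : M × N) :
    (G.prod K).H D m ↔ G.H D m.1 ∧ K.H D m.2 := by
  constructor
  · intro h
    exact ⟨congrArg Prod.fst h, congrArg Prod.snd h⟩
  · rintro ⟨h1, h2⟩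
    exact Prod.ext h1 h2

theorem Gr.prod_KV {G : Gr (V := V) M} {K : Gr (V := V) N} (hG : G.KV) (hK : K.KV) :
    (G.prod K).KV where
  z0 t m ht h0 h1 h2 := Prod.ext
    (hG.z0 t m.1 ht (congrArg Prod.fst h0) (congrArg Prod.fst h1) (congrArg Prod.fst h2))
    (hK.z0 t m.2 ht (congrArg Prod.snd h0) (congrArg Prod.snd h1) (congrArg Prod.snd h2))
  z1 t m0 m1 m2 ht h0 h1 h2 := by
    obtain ⟨b, hb0, hb1, hb2⟩ := hG.z1 t m0.1 m1.1 m2.1 ht (congrArg Prod.fst h0)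
      (congrArg Prod.fst h1) (congrArg Prod.fst h2)
    obtain ⟨b', hb0', hb1', hb2'⟩ := hK.z1 t m0.2 m1.2 m2.2 ht (congrArg Prod.snd h0)
      (congrArg Prod.snd h1) (congrArg Prod.snd h2)
    exact ⟨(b, b'), Prod.ext hb0 hb0', Prod.ext hb1 hb1', Prod.ext hb2 hb2'⟩
  z2 t D m01 m02 m12 ht hD h01 h02 h12 h := by
    rw [Gr.prod_H] at h01 h02 h12
    obtain ⟨b0, b1, b2, h1, h2, h3⟩ := hG.z2 t D m01.1 m02.1 m12.1 ht hD h01.1 h02.1 h12.1
      (congrArg Prod.fst h)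
    obtain ⟨b0', b1', b2', h1', h2', h3'⟩ := hK.z2 t D m01.2 m02.2 m12.2 ht hD h01.2 h02.2 h12.2
      (congrArg Prod.snd h)
    exact ⟨(b0, b0'), (b1, b1'), (b2, b2'), Prod.ext h1 h1', Prod.ext h2 h2', Prod.ext h3 h3'⟩
  z3 t D m ht hD hm := by
    rw [Gr.prod_H] at hm
    obtain ⟨b0, b1, b2, h1⟩ := hG.z3 t D m.1 ht hD hm.1
    obtain ⟨b0', b1', b2', h1'⟩ := hK.z3 t D m.2 ht hD hm.2
    exact ⟨(b0, b0'), (b1, b1'), (b2, b2'), Prod.ext h1 h1'⟩

theorem Gr.prod_KVs {G : Gr (V := V) M} {K : Gr (V := V) N} (hG : G.KVs) (hK : K.KVs) :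
    (G.prod K).KVs where
  z0 t m ht h0 := Prod.ext
    (hG.z0 t m.1 ht (congrArg Prod.fst h0)) (hK.z0 t m.2 ht (congrArg Prod.snd h0))
  z1 t m0 m1 m2 ht h0 h1 := by
    obtain ⟨b, hb0, hb1, hb2⟩ := hG.z1 t m0.1 m1.1 m2.1 ht (congrArg Prod.fst h0)
      (congrArg Prod.fst h1)
    obtain ⟨b', hb0', hb1', hb2'⟩ := hK.z1 t m0.2 m1.2 m2.2 ht (congrArg Prod.snd h0)
      (congrArg Prod.snd h1)
    exact ⟨(b, b'), Prod.ext hb0 hb0', Prod.ext hb1 hb1', Prod.ext hb2 hb2'⟩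
  z2 t m01 m02 m12 ht h := by
    obtain ⟨b0, b1, b2, h1, h2, h3⟩ := hG.z2 t m01.1 m02.1 m12.1 ht (congrArg Prod.fst h)
    obtain ⟨b0', b1', b2', h1', h2', h3'⟩ := hK.z2 t m01.2 m02.2 m12.2 ht (congrArg Prod.snd h)
    exact ⟨(b0, b0'), (b1, b1'), (b2, b2'), Prod.ext h1 h1', Prod.ext h2 h2', Prod.ext h3 h3'⟩
  z3 t D m ht hD hm := by
    rw [Gr.prod_H] at hm
    obtain ⟨b0, b1, b2, h1⟩ := hG.z3 t D m.1 ht hD hm.1
    obtain ⟨b0', b1', b2', h1'⟩ := hK.z3 t D m.2 ht hD hm.2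
    exact ⟨(b0, b0'), (b1, b1'), (b2, b2'), Prod.ext h1 h1'⟩

end prod

section coker

variable {M : Type*} [AddCommGroup M] [Module (Pol V) M]

/-- The graded structure on the cokernel of a linear map of degree one. -/
noncomputable def Gr.coker (G : Gr (V := V) M) (A : M →ₗ[Pol V] M)
    (hA : ∀ D m, G.pi (D + 1) (A m) = A (G.pi D m)) : Gr (V := V) (M ⧸ LinearMap.range A) where
  pi D := QuotientAddGroup.map (LinearMap.range A).toAddSubgroup (LinearMap.range A).toAddSubgroup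
    (G.pi D) (by
      rintro _ ⟨m, rfl⟩
      refine ⟨G.pi (D - 1) m, ?_⟩
      rw [← hA]; simp)
  pi_pi D m := by
    obtain ⟨m, rfl⟩ := Submodule.Quotient.mk_surjective _ m
    exact congrArg (Submodule.Quotient.mk) (G.pi_pi D m)
  pi_X D i m := by
    obtain ⟨m, rfl⟩ := Submodule.Quotient.mk_surjective _ m
    exact congrArg (Submodule.Quotient.mk) (G.pi_X D i m)

theorem Gr.coker_mk (G : Gr (V := V) M) (A : M →ₗ[Pol V] M)
    (hA : ∀ D m, G.pi (D + 1) (A m) = A (G.pi D m)) (D : ℤ) (m : M) :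
    (G.coker A hA).pi D (Submodule.Quotient.mk m) = Submodule.Quotient.mk (G.pi D m) := rfl

theorem Gr.coker_lift (G : Gr (V := V) M) (A : M →ₗ[Pol V] M)
    (hA : ∀ D m, G.pi (D + 1) (A m) = A (G.pi D m)) (D : ℤ) (n : M ⧸ LinearMap.range A)
    (hn : (G.coker A hA).H D n) : ∃ m, G.H D m ∧ Submodule.Quotient.mk m = n := by
  obtain ⟨m, rfl⟩ := Submodule.Quotient.mk_surjective _ n
  refine ⟨G.pi D m, G.H_pi D m, ?_⟩
  rw [← G.coker_mk A hA]; exact hn

theorem Gr.coker_KV {G : Gr (V := V) M} (hG : G.KVs) (A : M →ₗ[(Pol V)] M)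
    (hA : ∀ D m, G.pi (D + 1) (A m) = A (G.pi D m)) (hinj : Function.Injective A) :
    (G.coker A hA).KV where
  z0 t n ht h0 h1 h2 := by
    obtain ⟨m, rfl⟩ := Submodule.Quotient.mk_surjective _ n
    rw [← Submodule.Quotient.mk_smul, Submodule.Quotient.mk_eq_zero] at h0 h1 h2
    obtain ⟨e0, he0⟩ := h0
    obtain ⟨e1, he1⟩ := h1
    obtain ⟨e2, he2⟩ := h2
    obtain ⟨b, hb0, hb1, hb2⟩ := hG.z1 t e0 e1 e2 ht
      (hinj (by rw [map_smul, map_smul, he0, he1, smul_comm]))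
      (hinj (by rw [map_smul, map_smul, he0, he2, smul_comm]))
    have h3 : m = A b := by
      have : (X 0 : (Pol V)) ^ t • (m - A b) = 0 := by
        rw [smul_sub, ← he0, ← map_smul, ← hb0, sub_self]
      exact sub_eq_zero.mp (hG.z0 t _ ht this)
    rw [Submodule.Quotient.mk_eq_zero]
    exact ⟨b, h3.symm⟩
  z1 t n0 n1 n2 ht h0 h1 h2 := by
    obtain ⟨m0, rfl⟩ := Submodule.Quotient.mk_surjective _ n0
    obtain ⟨m1, rfl⟩ := Submodule.Quotient.mk_surjective _ n1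
    obtain ⟨m2, rfl⟩ := Submodule.Quotient.mk_surjective _ n2
    rw [← Submodule.Quotient.mk_smul, ← Submodule.Quotient.mk_smul, Submodule.Quotient.eq]
      at h0 h1 h2
    obtain ⟨e01, he01⟩ := h0
    obtain ⟨e02, he02⟩ := h1
    obtain ⟨e12, he12⟩ := h2
    have hcoc : (X 0 : (Pol V)) ^ t • e12 - (X 1 : (Pol V)) ^ t • e02 +
        (X 2 : (Pol V)) ^ t • e01 = 0 := by
      apply hinj
      rw [map_add, map_sub, map_smul, map_smul, map_smul, he01, he02, he12, map_zero]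
      simp only [smul_sub, smul_smul]
      rw [mul_comm ((X 1 : (Pol V)) ^ t) (X 0 ^ t), mul_comm ((X 2 : (Pol V)) ^ t) (X 0 ^ t),
        mul_comm ((X 2 : (Pol V)) ^ t) (X 1 ^ t)]
      abel
    obtain ⟨g0, g1, g2, hg1, hg2, hg3⟩ := hG.z2 t e01 e02 e12 ht hcoc
    obtain ⟨b, hb0, hb1, hb2⟩ := hG.z1 t (m0 - A g0) (m1 - A g1) (m2 - A g2) ht
      (by
        have : (X 0 : (Pol V)) ^ t • A g1 - (X 1 : (Pol V)) ^ t • A g0 =
            (X 0 : (Pol V)) ^ t • m1 - (X 1 : (Pol V)) ^ t • m0 := by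
          rw [← he01, hg1, map_sub, map_smul, map_smul]
        rw [smul_sub, smul_sub, sub_eq_sub_iff_add_eq_add]
        rw [sub_eq_sub_iff_add_eq_add] at this
        rw [← this, add_comm])
      (by
        have : (X 0 : (Pol V)) ^ t • A g2 - (X 2 : (Pol V)) ^ t • A g0 =
            (X 0 : (Pol V)) ^ t • m2 - (X 2 : (Pol V)) ^ t • m0 := by
          rw [← he02, hg2, map_sub, map_smul, map_smul]
        rw [smul_sub, smul_sub, sub_eq_sub_iff_add_eq_add]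
        rw [sub_eq_sub_iff_add_eq_add] at this
        rw [← this, add_comm])
    refine ⟨Submodule.Quotient.mk b, ?_, ?_, ?_⟩
    · rw [← Submodule.Quotient.mk_smul, Submodule.Quotient.eq, ← hb0]; exact ⟨g0, by simp⟩
    · rw [← Submodule.Quotient.mk_smul, Submodule.Quotient.eq, ← hb1]; exact ⟨g1, by simp⟩
    · rw [← Submodule.Quotient.mk_smul, Submodule.Quotient.eq, ← hb2]; exact ⟨g2, by simp⟩
  z2 t D n01 n02 n12 ht hD h01 h02 h12 h := by
    obtain ⟨m01, hm01, rfl⟩ := G.coker_lift A hA _ n01 h01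
    obtain ⟨m02, hm02, rfl⟩ := G.coker_lift A hA _ n02 h02
    obtain ⟨m12, hm12, rfl⟩ := G.coker_lift A hA _ n12 h12
    rw [← Submodule.Quotient.mk_smul, ← Submodule.Quotient.mk_smul, ← Submodule.Quotient.mk_smul,
      ← Submodule.Quotient.mk_sub, ← Submodule.Quotient.mk_add, Submodule.Quotient.mk_eq_zero] at h
    obtain ⟨e, he⟩ := h
    have hpi : A (G.pi (D - 1 + 3 * t) e) = A e := by
      rw [← hA, he]
      have e1 : D - 1 + 3 * (t : ℤ) + 1 = (D + 2 * t) + t := by ring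
      rw [e1, map_add, map_sub, G.pi_Xpow, G.pi_Xpow, G.pi_Xpow, hm12, hm02, hm01]
    obtain ⟨e0, e1, e2, hee⟩ := hG.z3 t (D - 1) (G.pi (D - 1 + 3 * t) e) ht (by omega) (G.H_pi _ _)
    obtain ⟨b0, b1, b2, h1, h2, h3⟩ := hG.z2 t (m01 - A e2) (m02 - A e1) (m12 - A e0) ht (by
      have h4 : A e = (X 0 : (Pol V)) ^ t • A e0 - (X 1 : (Pol V)) ^ t • A e1 +
          (X 2 : (Pol V)) ^ t • A e2 := by
        rw [← hpi, hee, map_add, map_sub, map_smul, map_smul, map_smul]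
      rw [he] at h4
      simp only [smul_sub]
      have h5 : (X 0 : (Pol V)) ^ t • m12 - (X 0 : (Pol V)) ^ t • A e0 -
          ((X 1 : (Pol V)) ^ t • m02 - (X 1 : (Pol V)) ^ t • A e1) +
          ((X 2 : (Pol V)) ^ t • m01 - (X 2 : (Pol V)) ^ t • A e2) =
          ((X 0 : (Pol V)) ^ t • m12 - (X 1 : (Pol V)) ^ t • m02 + (X 2 : (Pol V)) ^ t • m01) -
          ((X 0 : (Pol V)) ^ t • A e0 - (X 1 : (Pol V)) ^ t • A e1 + (X 2 : (Pol V)) ^ t • A e2) := by
        abel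
      rw [h5, h4, sub_self])
    refine ⟨Submodule.Quotient.mk b0, Submodule.Quotient.mk b1, Submodule.Quotient.mk b2, ?_, ?_, ?_⟩
    · rw [← Submodule.Quotient.mk_smul, ← Submodule.Quotient.mk_smul, ← Submodule.Quotient.mk_sub,
        Submodule.Quotient.eq, ← h1]
      exact ⟨e2, by simp⟩
    · rw [← Submodule.Quotient.mk_smul, ← Submodule.Quotient.mk_smul, ← Submodule.Quotient.mk_sub,
        Submodule.Quotient.eq, ← h2]
      exact ⟨e1, by simp⟩
    · rw [← Submodule.Quotient.mk_smul, ← Submodule.Quotient.mk_smul, ← Submodule.Quotient.mk_sub,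
        Submodule.Quotient.eq, ← h3]
      exact ⟨e0, by simp⟩
  z3 t D n ht hD hn := by
    obtain ⟨m, hm, rfl⟩ := G.coker_lift A hA _ n hn
    obtain ⟨b0, b1, b2, h⟩ := hG.z3 t D m ht hD hm
    exact ⟨Submodule.Quotient.mk b0, Submodule.Quotient.mk b1, Submodule.Quotient.mk b2,
      congrArg Submodule.Quotient.mk h⟩

end coker

end PP

end R689VR
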