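import Pool.Agent.R689.VReg2

/-! Graded filtrations, v-number, regularity: general definitions. -/

namespace R689VR

open MvPolynomial

section defs

variable {V R : Type*} [CommRing V] [CommRing R] [Algebra V R] (𝒜 : ℕ → Submodule V R)

/-- The degree `d` part (`d ∈ ℤ`) of an ideal `I` of the graded ring `R`. -/
def part (I : Ideal R) (d : ℤ) : Set R :=
  {r | r ∈ I ∧ (r = 0 ∨ ∃ n : ℕ, (n : ℤ) = d ∧ r ∈ 𝒜 n)}

/-- The Koszul differential on the powers `y_0^t, …, y_{n-1}^t`; cochains are families indexed by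
subsets `T` of `{0,…,n-1}`. -/
def kos {n : ℕ} (y : Fin n → R) (t : ℕ) (c : Finset (Fin n) → R) (T : Finset (Fin n)) : R :=
  ∑ j ∈ T, (-1) ^ (T.filter (· < j)).card * y j ^ t * c (T.erase j)

/-- `H^p_{(y)}(I)_d = 0`, where `H^p_{(y)}(I) = colim_t H^p(y^t; I)` (direct limit of Koszul
cohomology, transition maps: multiplication by `∏_{j ∈ T} y_j` on the `T` component) and
`y_j` is homogeneous of degree `e j`. -/
def LCZero {n : ℕ} (I : Ideal R) (y : Fin n → R) (e : Fin n → ℕ) (p : ℕ) (d : ℤ) : Prop :=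
  ∀ (t : ℕ) (c : Finset (Fin n) → R),
    (∀ T, T.card = p → c T ∈ part 𝒜 I (d + t * ∑ j ∈ T, (e j : ℤ))) →
    (∀ T, T.card = p + 1 → kos y t c T = 0) →
    ∃ (s : ℕ) (b : Finset (Fin n) → R),
      (∀ T, T.card + 1 = p → b T ∈ part 𝒜 I (d + (t + s : ℕ) * ∑ j ∈ T, (e j : ℤ))) ∧
      ∀ T, T.card = p → (∏ j ∈ T, y j) ^ s * c T = kos y (t + s) b T

/-- `reg(I) = max_p (a_p(I) + p)`, `a_p(I) = sup {d : H^p_{(y)}(I)_d ≠ 0}`. -/
noncomputable def reg {n : ℕ} (I : Ideal R) (y : Fin n → R) (e : Fin n → ℕ) : EReal :=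
  ⨆ (p : ℕ) (d : ℤ) (_ : ¬ LCZero 𝒜 I y e p d), (((d + p : ℤ) : ℝ) : EReal)

/-- The colon ideal `(I : f)`. -/
def colonIdeal (I : Ideal R) (f : R) : Ideal R := Submodule.comap (LinearMap.lsmul R R f) I

/-- The v-number: least degree of a homogeneous `f` such that `(I : f)` is a prime ideal. -/
noncomputable def vnum (I : Ideal R) : EReal :=
  ⨅ (d : ℕ) (_ : ∃ f ∈ 𝒜 d, (colonIdeal I f).IsPrime), ((d : ℝ) : EReal)

/-- Graded filtrations. -/
structure IsGradedFiltration [GradedAlgebra 𝒜] (I : ℕ → Ideal R) : Prop where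
  homog : ∀ k, (I k).IsHomogeneous 𝒜
  zero : I 0 = ⊤
  anti : ∀ k, I (k + 1) ≤ I k
  mul : ∀ k l, I k * I l ≤ I (k + l)

/-- The Rees algebra of a filtration, as a subring of `R[X]`. -/
def ReesRing [GradedAlgebra 𝒜] (I : ℕ → Ideal R) (h : IsGradedFiltration 𝒜 I) :
    Subring (Polynomial R) where
  carrier := {f | ∀ k, f.coeff k ∈ I k}
  mul_mem' := fun {f g} hf hg k => by
    rw [Polynomial.coeff_mul]
    refine Ideal.sum_mem _ fun p hp => ?_
    rw [← Finset.HasAntidiagonal.mem_antidiagonal.mp hp]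
    exact h.mul _ _ (Ideal.mul_mem_mul (hf p.1) (hg p.2))
  one_mem' := fun k => by
    rw [Polynomial.coeff_one]
    split_ifs with hk
    · subst hk; rw [h.zero]; trivial
    · exact Ideal.zero_mem _
  add_mem' := fun {f g} hf hg k => by
    rw [Polynomial.coeff_add]; exact Ideal.add_mem _ (hf k) (hg k)
  zero_mem' := fun k => by rw [Polynomial.coeff_zero]; exact Ideal.zero_mem _
  neg_mem' := fun {f} hf k => by rw [Polynomial.coeff_neg]; exact Submodule.neg_mem _ (hf k)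

theorem mem_colon {I : Ideal R} {f g : R} : g ∈ colonIdeal I f ↔ f * g ∈ I := Iff.rfl

end defs

/-! ### The example -/

/-- `V = ℚ⟦u⟧`. -/
abbrev V0 := PowerSeries ℚ
/-- `P = V[x,y,z]`. -/
abbrev P0 := Pol V0
/-- `F = P³`. -/
abbrev F0 := P0 × P0 × P0

/-- The linear matrix whose columns are the relations
`z e₂ - y e₃`, `x e₂ - y e₁`, `z e₁ - 2 x e₃`. -/
noncomputable def A0 : F0 →ₗ[P0] F0 where
  toFun c := (X 2 * c.2.2 - X 1 * c.2.1, X 2 * c.1 + X 0 * c.2.1,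
    - (X 1 * c.1) - X 0 * c.2.2 - X 0 * c.2.2)
  map_add' a b := by
    refine Prod.ext ?_ (Prod.ext ?_ ?_)
    · change X 2 * (a.2.2 + b.2.2) - X 1 * (a.2.1 + b.2.1) =
        (X 2 * a.2.2 - X 1 * a.2.1) + (X 2 * b.2.2 - X 1 * b.2.1)
      ring
    · change X 2 * (a.1 + b.1) + X 0 * (a.2.1 + b.2.1) =
        (X 2 * a.1 + X 0 * a.2.1) + (X 2 * b.1 + X 0 * b.2.1)
      ring
    · change - (X 1 * (a.1 + b.1)) - X 0 * (a.2.2 + b.2.2) - X 0 * (a.2.2 + b.2.2) =
        (- (X 1 * a.1) - X 0 * a.2.2 - X 0 * a.2.2) + (- (X 1 * b.1) - X 0 * b.2.2 - X 0 * b.2.2)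
      ring
  map_smul' r a := by
    refine Prod.ext ?_ (Prod.ext ?_ ?_)
    · change X 2 * (r * a.2.2) - X 1 * (r * a.2.1) = r * (X 2 * a.2.2 - X 1 * a.2.1)
      ring
    · change X 2 * (r * a.1) + X 0 * (r * a.2.1) = r * (X 2 * a.1 + X 0 * a.2.1)
      ring
    · change - (X 1 * (r * a.1)) - X 0 * (r * a.2.2) - X 0 * (r * a.2.2) =
        r * (- (X 1 * a.1) - X 0 * a.2.2 - X 0 * a.2.2)
      ring

theorem A0_apply (a b c : P0) : A0 (a, b, c) =
    (X 2 * c - X 1 * b, X 2 * a + X 0 * b, - (X 1 * a) - X 0 * c - X 0 * c) := rfl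

/-- The graded structure of `F`. -/
noncomputable def gF : Gr (V := V0) F0 := grP.prod (grP.prod grP)

theorem gF_pi (D : ℤ) (a b c : P0) : gF.pi D (a, b, c) = (piP D a, piP D b, piP D c) := rfl

theorem gF_KVs : gF.KVs := Gr.prod_KVs grP_KVs (Gr.prod_KVs grP_KVs grP_KVs)

theorem A0_pi (D : ℤ) (m : F0) : gF.pi (D + 1) (A0 m) = A0 (gF.pi D m) := by
  obtain ⟨a, b, c⟩ := m
  rw [A0_apply, gF_pi, gF_pi, A0_apply]
  simp only [piP_sub, piP_add, piP_neg, piP_X]

theorem A0_inj : Function.Injective A0 := by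
  rw [injective_iff_map_eq_zero]
  rintro ⟨a, b, c⟩ h
  rw [A0_apply] at h
  have h1 : X 2 * c - X 1 * b = 0 := congrArg Prod.fst h
  have h2 : X 2 * a + X 0 * b = 0 := congrArg (fun q => q.2.1) h
  have h3 : - (X 1 * a) - X 0 * c - X 0 * c = 0 := congrArg (fun q => q.2.2) h
  have h4 : (X 0 * X 1 : P0) * b = 0 := by
    linear_combination (-(X 2 : P0)) * h3 - 2 * X 0 * h1 - X 1 * h2
  have hb : b = 0 := by
    rcases mul_eq_zero.mp h4 with h | h
    · exact absurd h (mul_ne_zero (X_ne_zero 0) (X_ne_zero 1))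
    · exact h
  subst hb
  have ha : a = 0 := by
    rw [mul_zero, add_zero] at h2
    exact (mul_eq_zero.mp h2).resolve_left (X_ne_zero 2)
  have hc : c = 0 := by
    rw [mul_zero, sub_zero] at h1
    exact (mul_eq_zero.mp h1).resolve_left (X_ne_zero 2)
  rw [ha, hc]; rfl

/-- `N = coker A`. -/
abbrev N0 := F0 ⧸ LinearMap.range A0

/-- The graded structure of `N`. -/
noncomputable def gN : Gr (V := V0) N0 := gF.coker A0 A0_pi

theorem gN_KV : gN.KV := Gr.coker_KV gF_KVs A0 A0_pi A0_inj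

/-- The ring `R = P ⊕ N`, `N² = 0`. -/
abbrev R0 := TrivSqZeroExt P0 N0

/-- The graded structure of `R`, as a `P`-module. -/
noncomputable def gR : Gr (V := V0) R0 := grP.prod gN

theorem gR_KV : gR.KV := Gr.prod_KV grP_KVs.weak gN_KV

/-- The generators of the irrelevant ideal. -/
noncomputable def y0 (j : Fin 3) : R0 := TrivSqZeroExt.inl (X j)

theorem y0_pow_mul (j : Fin 3) (t : ℕ) (r : R0) : y0 j ^ t * r = (X j : P0) ^ t • r := by
  unfold y0
  rw [TrivSqZeroExt.inl_pow]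
  apply TrivSqZeroExt.ext
  · simp
  · simp

end R689VR
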