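import Pool.Agent.R689.VReg3

/-! The Koszul vanishing theorem in the example. -/

namespace R689VR

open MvPolynomial

theorem kos_pair {n : ℕ} {R : Type*} [CommRing R] (y : Fin n → R) (t : ℕ)
    (c : Finset (Fin n) → R) (i j : Fin n) (h : i < j) :
    kos y t c {i, j} = y i ^ t * c {j} - y j ^ t * c {i} := by
  unfold kos
  have hne : i ≠ j := h.ne
  rw [Finset.sum_pair hne]
  have h1 : (({i, j} : Finset (Fin n)).filter (· < i)).card = 0 := by
    rw [Finset.card_eq_zero, Finset.filter_eq_empty_iff]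
    intro x hx
    simp only [Finset.mem_insert, Finset.mem_singleton] at hx
    rcases hx with rfl | rfl
    · exact lt_irrefl _
    · exact not_lt.mpr h.le
  have h2 : (({i, j} : Finset (Fin n)).filter (· < j)).card = 1 := by
    rw [Finset.card_eq_one]
    refine ⟨i, ?_⟩
    ext x
    simp only [Finset.mem_filter, Finset.mem_insert, Finset.mem_singleton]
    constructor
    · rintro ⟨rfl | rfl, h3⟩
      · rfl
      · exact absurd h3 (lt_irrefl _)
    · rintro rfl
      exact ⟨Or.inl rfl, h⟩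
  have h3 : ({i, j} : Finset (Fin n)).erase i = {j} := by
    ext x; simp only [Finset.mem_erase, Finset.mem_insert, Finset.mem_singleton]
    constructor
    · rintro ⟨h4, h5 | h5⟩
      · exact absurd h5 h4
      · exact h5
    · rintro rfl; exact ⟨hne.symm, Or.inr rfl⟩
  have h4 : ({i, j} : Finset (Fin n)).erase j = {i} := by
    ext x; simp only [Finset.mem_erase, Finset.mem_insert, Finset.mem_singleton]
    constructor
    · rintro ⟨h4, h5 | h5⟩
      · exact h5
      · exact absurd h5 h4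
    · rintro rfl; exact ⟨hne, Or.inl rfl⟩
  rw [h1, h2, h3, h4]
  ring

theorem kos_single {n : ℕ} {R : Type*} [CommRing R] (y : Fin n → R) (t : ℕ)
    (c : Finset (Fin n) → R) (i : Fin n) : kos y t c {i} = y i ^ t * c ∅ := by
  unfold kos
  rw [Finset.sum_singleton]
  have h1 : (({i} : Finset (Fin n)).filter (· < i)).card = 0 := by
    rw [Finset.card_eq_zero, Finset.filter_eq_empty_iff]
    intro x hx
    rw [Finset.mem_singleton] at hx
    subst hx; exact lt_irrefl _
  have h2 : ({i} : Finset (Fin n)).erase i = ∅ := by simp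
  rw [h1, h2]; ring

theorem kos_empty {n : ℕ} {R : Type*} [CommRing R] (y : Fin n → R) (t : ℕ)
    (c : Finset (Fin n) → R) : kos y t c ∅ = 0 := by
  unfold kos; simp

theorem kos_triple {R : Type*} [CommRing R] (y : Fin 3 → R) (t : ℕ)
    (c : Finset (Fin 3) → R) :
    kos y t c {0, 1, 2} = y 0 ^ t * c {1, 2} - y 1 ^ t * c {0, 2} + y 2 ^ t * c {0, 1} := by
  unfold kos
  have e0 : (({0, 1, 2} : Finset (Fin 3)).filter (· < 0)).card = 0 := by decide
  have e1 : (({0, 1, 2} : Finset (Fin 3)).filter (· < 1)).card = 1 := by decide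
  have e2 : (({0, 1, 2} : Finset (Fin 3)).filter (· < 2)).card = 2 := by decide
  have f0 : ({0, 1, 2} : Finset (Fin 3)).erase 0 = {1, 2} := by decide
  have f1 : ({0, 1, 2} : Finset (Fin 3)).erase 1 = {0, 2} := by decide
  have f2 : ({0, 1, 2} : Finset (Fin 3)).erase 2 = {0, 1} := by decide
  rw [Finset.sum_insert (by decide), Finset.sum_insert (by decide), Finset.sum_singleton,
    e0, e1, e2, f0, f1, f2]
  ring

theorem kos_shift {n : ℕ} {R : Type*} [CommRing R] (y : Fin n → R) (t : ℕ)
    (c : Finset (Fin n) → R) (T : Finset (Fin n)) :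
    kos y (t + 1) (fun T => (∏ j ∈ T, y j) * c T) T = (∏ j ∈ T, y j) * kos y t c T := by
  unfold kos
  rw [Finset.mul_sum]
  refine Finset.sum_congr rfl fun j hj => ?_
  rw [← Finset.mul_prod_erase T y hj]
  ring

theorem kos_mul {n : ℕ} {R : Type*} [CommRing R] (y : Fin n → R) (t : ℕ) (a : R)
    (c : Finset (Fin n) → R) (T : Finset (Fin n)) :
    kos y t (fun T => a * c T) T = a * kos y t c T := by
  unfold kos
  rw [Finset.mul_sum]
  refine Finset.sum_congr rfl fun j hj => ?_
  ring

theorem cards1 : ∀ T : Finset (Fin 3), T.card = 1 → T = {0} ∨ T = {1} ∨ T = {2} := by decide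
theorem cards2 : ∀ T : Finset (Fin 3), T.card = 2 → T = {0, 1} ∨ T = {0, 2} ∨ T = {1, 2} := by
  decide
theorem cards3 : ∀ T : Finset (Fin 3), T.card = 3 → T = {0, 1, 2} := by decide
theorem cards4 : ∀ T : Finset (Fin 3), T.card ≤ 3 := by decide

theorem vanish (t : ℕ) (ht : 1 ≤ t) (p : ℕ) (d : ℤ) (hd : 1 ≤ d + p) (c : Finset (Fin 3) → R0)
    (hc : ∀ T, T.card = p → gR.H (d + t * p) (c T))
    (hcoc : ∀ T, T.card = p + 1 → kos y0 t c T = 0) :
    ∃ b : Finset (Fin 3) → R0, (∀ T, T.card + 1 = p → gR.H (d + t * T.card) (b T)) ∧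
      ∀ T, T.card = p → c T = kos y0 t b T := by
  rcases p with _ | _ | _ | _ | p
  · refine ⟨fun _ => 0, fun T hT => absurd hT (by omega), fun T hT => ?_⟩
    have hT' : T = ∅ := Finset.card_eq_zero.mp hT
    subst hT'
    rw [kos_empty]
    have h0 := hcoc {0} (by decide)
    have h1 := hcoc {1} (by decide)
    have h2 := hcoc {2} (by decide)
    rw [kos_single, y0_pow_mul] at h0 h1 h2
    exact gR_KV.z0 t _ ht h0 h1 h2
  · have h01 := hcoc {0, 1} (by decide)
    have h02 := hcoc {0, 2} (by decide)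
    have h12 := hcoc {1, 2} (by decide)
    rw [kos_pair _ _ _ _ _ (by decide), y0_pow_mul, y0_pow_mul, sub_eq_zero] at h01 h02 h12
    obtain ⟨b, hb0, hb1, hb2⟩ := gR_KV.z1 t _ _ _ ht h01 h02 h12
    have key : ∀ j : Fin 3, c {j} = (X j : P0) ^ t • b → c {j} = (X j : P0) ^ t • gR.pi d b := by
      intro j hj
      have h1 := hc {j} (by simp)
      rw [Gr.H, hj, gR.pi_Xpow' t d _ (by push_cast; ring)] at h1
      rw [hj, ← h1]
    refine ⟨fun _ => gR.pi d b, fun T hT => ?_, fun T hT => ?_⟩
    · have hT' : T = ∅ := Finset.card_eq_zero.mp (by omega)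
      subst hT'
      simpa using gR.H_pi d b
    · rcases cards1 T hT with rfl | rfl | rfl
      · rw [kos_single, y0_pow_mul]; exact key 0 hb0
      · rw [kos_single, y0_pow_mul]; exact key 1 hb1
      · rw [kos_single, y0_pow_mul]; exact key 2 hb2
  · have h := hcoc {0, 1, 2} (by decide)
    rw [kos_triple, y0_pow_mul, y0_pow_mul, y0_pow_mul] at h
    have e : d + (t : ℤ) * ((0 + 1 + 1 : ℕ) : ℤ) = d + 2 * t := by push_cast; ring
    have H01 := hc {0, 1} (by decide)
    have H02 := hc {0, 2} (by decide)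
    have H12 := hc {1, 2} (by decide)
    rw [e] at H01 H02 H12
    obtain ⟨b0, b1, b2, h1, h2, h3⟩ := gR_KV.z2 t d _ _ _ ht (by push_cast at hd; omega) H01 H02 H12 h
    have e' : d + 2 * (t : ℤ) = (d + t) + t := by ring
    have key : ∀ (m : R0) (i j : Fin 3) (b b' : R0), gR.H (d + 2 * t) m →
        m = (X i : P0) ^ t • b - (X j : P0) ^ t • b' →
        m = (X i : P0) ^ t • gR.pi (d + t) b - (X j : P0) ^ t • gR.pi (d + t) b' := by
      intro m i j b b' hm hb
      have h4 : gR.pi (d + 2 * t) m = m := hm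
      rw [← h4]
      conv_lhs => rw [hb]
      rw [map_sub, gR.pi_Xpow' t (d + t) _ e', gR.pi_Xpow' t (d + t) _ e']
    refine ⟨fun T => if T = {0} then gR.pi (d + t) b0 else if T = {1} then gR.pi (d + t) b1 else
      gR.pi (d + t) b2, fun T hT => ?_, fun T hT => ?_⟩
    · have hT1 : T.card = 1 := by omega
      have e2 : d + (t : ℤ) * (T.card : ℤ) = d + t := by rw [hT1]; push_cast; ring
      rw [e2]
      simp only
      split_ifs <;> exact gR.H_pi _ _
    · have d01 : ({1} : Finset (Fin 3)) ≠ {0} := by decide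
      have d02 : ({2} : Finset (Fin 3)) ≠ {0} := by decide
      have d12 : ({2} : Finset (Fin 3)) ≠ {1} := by decide
      rcases cards2 T hT with rfl | rfl | rfl
      · rw [kos_pair _ _ _ _ _ (by decide), y0_pow_mul, y0_pow_mul]
        simp only [d01, if_true, if_false]
        exact key _ 0 1 _ _ H01 h1
      · rw [kos_pair _ _ _ _ _ (by decide), y0_pow_mul, y0_pow_mul]
        simp only [d02, d12, if_true, if_false]
        exact key _ 0 2 _ _ H02 h2
      · rw [kos_pair _ _ _ _ _ (by decide), y0_pow_mul, y0_pow_mul]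
        simp only [d01, d02, d12, if_true, if_false]
        exact key _ 1 2 _ _ H12 h3
  · have e : d + (t : ℤ) * ((0 + 1 + 1 + 1 : ℕ) : ℤ) = d + 3 * t := by push_cast; ring
    have H := hc {0, 1, 2} (by decide)
    rw [e] at H
    obtain ⟨b0, b1, b2, h1⟩ := gR_KV.z3 t d _ ht (by push_cast at hd; omega) H
    have e' : d + 3 * (t : ℤ) = (d + 2 * t) + t := by ring
    have h2 : c {0, 1, 2} = (X 0 : P0) ^ t • gR.pi (d + 2 * t) b0 -
        (X 1 : P0) ^ t • gR.pi (d + 2 * t) b1 + (X 2 : P0) ^ t • gR.pi (d + 2 * t) b2 := by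
      have h4 : gR.pi (d + 3 * t) (c {0, 1, 2}) = c {0, 1, 2} := H
      rw [← h4]
      conv_lhs => rw [h1]
      rw [map_add, map_sub, gR.pi_Xpow' t (d + 2 * t) _ e', gR.pi_Xpow' t (d + 2 * t) _ e',
        gR.pi_Xpow' t (d + 2 * t) _ e']
    refine ⟨fun T => if T = {1, 2} then gR.pi (d + 2 * t) b0 else if T = {0, 2} then
      gR.pi (d + 2 * t) b1 else gR.pi (d + 2 * t) b2, fun T hT => ?_, fun T hT => ?_⟩
    · have hT1 : T.card = 2 := by omega
      have e2 : d + (t : ℤ) * (T.card : ℤ) = d + 2 * t := by rw [hT1]; push_cast; ring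
      rw [e2]
      simp only
      split_ifs <;> exact gR.H_pi _ _
    · have d01 : ({0, 2} : Finset (Fin 3)) ≠ {1, 2} := by decide
      have d02 : ({0, 1} : Finset (Fin 3)) ≠ {1, 2} := by decide
      have d12 : ({0, 1} : Finset (Fin 3)) ≠ {0, 2} := by decide
      rw [cards3 T hT, kos_triple, y0_pow_mul, y0_pow_mul, y0_pow_mul]
      simp only [d01, d02, d12, if_true, if_false]
      exact h2
  · refine ⟨fun _ => 0, fun T hT => ?_, fun T hT => ?_⟩
    · have := gR.pi (d + t * T.card) |>.map_zero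
      exact this
    · have := cards4 T
      omega

end R689VR
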