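import Pool.Agent.R689.VReg4

/-! The grading of the example. -/

namespace R689VR

open MvPolynomial

/-- Orthogonality and exhaustion of a graded structure. -/
structure Gr.Full {V : Type*} [CommRing V] {M : Type*} [AddCommGroup M] [Module (Pol V) M]
    (G : Gr (V := V) M) : Prop where
  orth : ∀ D D' m, D ≠ D' → G.pi D (G.pi D' m) = 0
  exh : ∀ m, ∃ n0 : ℕ, ∀ n, n0 ≤ n → ∑ i ∈ Finset.range n, G.pi (i : ℤ) m = m

section

variable {V : Type*} [CommRing V]

theorem grP_full : (grP (V := V)).Full where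
  orth D D' m h := by
    change piP D (piP D' m) = 0
    unfold piP
    split_ifs with h1 h2
    · rw [homogeneousComponent_of_mem (homogeneousComponent_mem _ _), if_neg]
      intro h3; apply h; omega
    · simp
    · rfl
  exh m := by
    refine ⟨m.totalDegree + 1, fun n hn => ?_⟩
    change ∑ i ∈ Finset.range n, piP (i : ℤ) m = m
    have h1 : ∀ i : ℕ, piP (i : ℤ) m = homogeneousComponent i m := by
      intro i; unfold piP; rw [if_pos (Int.natCast_nonneg i), Int.toNat_natCast]
    simp only [h1]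
    rw [← Finset.sum_subset (Finset.range_mono hn)]
    · exact sum_homogeneousComponent m
    · intro i _ hi
      apply homogeneousComponent_eq_zero
      rw [Finset.mem_range] at hi
      omega

theorem Gr.prod_full {M N : Type*} [AddCommGroup M] [Module (Pol V) M] [AddCommGroup N]
    [Module (Pol V) N] {G : Gr (V := V) M} {K : Gr (V := V) N} (hG : G.Full) (hK : K.Full) :
    (G.prod K).Full where
  orth D D' m h := Prod.ext (hG.orth D D' m.1 h) (hK.orth D D' m.2 h)
  exh m := by
    obtain ⟨n1, h1⟩ := hG.exh m.1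
    obtain ⟨n2, h2⟩ := hK.exh m.2
    refine ⟨max n1 n2, fun n hn => ?_⟩
    refine Prod.ext ?_ ?_
    · rw [Prod.fst_sum]
      exact h1 n (le_trans (le_max_left _ _) hn)
    · rw [Prod.snd_sum]
      exact h2 n (le_trans (le_max_right _ _) hn)

theorem Gr.coker_full {M : Type*} [AddCommGroup M] [Module (Pol V) M] {G : Gr (V := V) M}
    (hG : G.Full) (A : M →ₗ[Pol V] M) (hA : ∀ D m, G.pi (D + 1) (A m) = A (G.pi D m)) :
    (G.coker A hA).Full where
  orth D D' m h := by
    obtain ⟨m, rfl⟩ := Submodule.Quotient.mk_surjective _ m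
    rw [G.coker_mk, G.coker_mk, hG.orth D D' m h]; rfl
  exh m := by
    obtain ⟨m, rfl⟩ := Submodule.Quotient.mk_surjective _ m
    obtain ⟨n0, h⟩ := hG.exh m
    refine ⟨n0, fun n hn => ?_⟩
    simp only [G.coker_mk]
    rw [← Submodule.mkQ_apply]
    conv_rhs => rw [← h n hn, map_sum]
    rfl

end

theorem gR_full : gR.Full :=
  Gr.prod_full grP_full (Gr.coker_full (Gr.prod_full grP_full (Gr.prod_full grP_full grP_full)) A0
    A0_pi)

theorem gR_pi (D : ℤ) (r : R0) : gR.pi D r = (piP D r.fst, gN.pi D r.snd) := rfl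

theorem gR_fst (D : ℤ) (r : R0) : (gR.pi D r).fst = piP D r.fst := rfl

theorem gR_snd (D : ℤ) (r : R0) : (gR.pi D r).snd = gN.pi D r.snd := rfl

theorem smul_mk (v : V0) (m : F0) :
    v • (Submodule.Quotient.mk m : N0) = Submodule.Quotient.mk (v • m) := rfl

theorem gF_smul (D : ℤ) (v : V0) (m : F0) : gF.pi D (v • m) = v • gF.pi D m := by
  obtain ⟨a, b, c⟩ := m
  rw [gF_pi]
  have h1 : v • ((a, b, c) : F0) = (v • a, v • b, v • c) := rfl
  rw [h1, gF_pi]
  have h2 : ∀ q : P0, piP D (v • q) = v • piP D q := by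
    intro q
    rw [MvPolynomial.smul_eq_C_mul, piP_C, MvPolynomial.smul_eq_C_mul]
  rw [h2, h2, h2]
  rfl

theorem gN_smul (D : ℤ) (v : V0) (n : N0) : gN.pi D (v • n) = v • gN.pi D n := by
  obtain ⟨m, rfl⟩ := Submodule.Quotient.mk_surjective _ n
  rw [smul_mk]
  change Submodule.Quotient.mk (gF.pi D (v • m)) = v • (Submodule.Quotient.mk (gF.pi D m) : N0)
  rw [gF_smul, smul_mk]

theorem gR_smul (D : ℤ) (v : V0) (r : R0) : gR.pi D (v • r) = v • gR.pi D r := by
  apply TrivSqZeroExt.ext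
  · rw [gR_fst, TrivSqZeroExt.fst_smul, TrivSqZeroExt.fst_smul, gR_fst,
      MvPolynomial.smul_eq_C_mul, piP_C, MvPolynomial.smul_eq_C_mul]
  · rw [gR_snd, TrivSqZeroExt.snd_smul, TrivSqZeroExt.snd_smul, gR_snd, gN_smul]

/-- The projection to degree `d`, `V`-linear. -/
noncomputable def PI (D : ℤ) : R0 →ₗ[V0] R0 where
  toFun := gR.pi D
  map_add' := (gR.pi D).map_add
  map_smul' v r := gR_smul D v r

/-- The grading of `R`. -/
noncomputable def AA (d : ℕ) : Submodule V0 R0 := LinearMap.range (PI d)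

theorem mem_AA {d : ℕ} {r : R0} : r ∈ AA d ↔ gR.H d r := by
  constructor
  · rintro ⟨s, rfl⟩
    exact gR.H_pi d s
  · intro h
    exact ⟨r, h⟩

theorem AA_internal : DirectSum.IsInternal AA := by
  rw [DirectSum.isInternal_submodule_iff_iSupIndep_and_iSup_eq_top]
  constructor
  · intro i
    rw [Submodule.disjoint_def]
    intro r hr hr'
    have h1 : (⨆ (j) (_ : j ≠ i), AA j) ≤ LinearMap.ker (PI i) := by
      refine iSup_le fun j => iSup_le fun hj => ?_
      rintro _ ⟨s, rfl⟩
      rw [LinearMap.mem_ker]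
      exact gR_full.orth i j s (by exact_mod_cast hj.symm)
    have h2 := h1 hr'
    rw [LinearMap.mem_ker] at h2
    have h3 : gR.pi i r = r := mem_AA.mp hr
    rw [← h3]; exact h2
  · rw [eq_top_iff]
    intro r _
    obtain ⟨n, hn⟩ := gR_full.exh r
    rw [← hn n le_rfl]
    refine Submodule.sum_mem _ fun i _ => ?_
    exact Submodule.mem_iSup_of_mem i ⟨r, rfl⟩

theorem HP_nat {d : ℕ} {p : P0} : piP (d : ℤ) p = p ↔ p.IsHomogeneous d := by
  constructor
  · intro h
    rw [← h]
    unfold piP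
    rw [if_pos (Int.natCast_nonneg d), Int.toNat_natCast]
    exact homogeneousComponent_isHomogeneous _ _
  · intro h
    exact piP_of_HP (Or.inr ⟨d, rfl, h⟩)

theorem gN_smul_P {i j : ℕ} {p : P0} {n : N0} (hp : p.IsHomogeneous i) (hn : gN.H j n) :
    gN.H ((i + j : ℕ) : ℤ) (p • n) := by
  obtain ⟨⟨a, b, c⟩, hm, rfl⟩ := Gr.coker_lift gF A0 A0_pi j n hn
  have hm' : gF.pi j (a, b, c) = (a, b, c) := hm
  rw [gF_pi] at hm'
  have ha := HP_nat.mp (congrArg Prod.fst hm')
  have hb := HP_nat.mp (congrArg (fun q => q.2.1) hm')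
  have hc := HP_nat.mp (congrArg (fun q => q.2.2) hm')
  have h1 : p • (Submodule.Quotient.mk ((a, b, c) : F0) : N0) =
      Submodule.Quotient.mk ((p * a, p * b, p * c) : F0) := rfl
  rw [h1]
  change (Submodule.Quotient.mk (gF.pi ((i + j : ℕ) : ℤ) (p * a, p * b, p * c)) : N0) = _
  rw [gF_pi, HP_nat.mpr (hp.mul ha), HP_nat.mpr (hp.mul hb), HP_nat.mpr (hp.mul hc)]

noncomputable instance : SetLike.GradedMonoid AA where
  one_mem := by
    rw [mem_AA]
    apply TrivSqZeroExt.ext
    · rw [gR_fst, TrivSqZeroExt.fst_one]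
      exact HP_nat.mpr (isHomogeneous_one _ _)
    · rw [gR_snd, TrivSqZeroExt.snd_one, map_zero]
  mul_mem := by
    intro i j r s hr hs
    rw [mem_AA] at hr hs ⊢
    have hr1 : piP (i : ℤ) r.fst = r.fst := congrArg TrivSqZeroExt.fst hr
    have hr2 : gN.pi (i : ℤ) r.snd = r.snd := congrArg TrivSqZeroExt.snd hr
    have hs1 : piP (j : ℤ) s.fst = s.fst := congrArg TrivSqZeroExt.fst hs
    have hs2 : gN.pi (j : ℤ) s.snd = s.snd := congrArg TrivSqZeroExt.snd hs
    rw [HP_nat] at hr1 hs1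
    apply TrivSqZeroExt.ext
    · rw [gR_fst, TrivSqZeroExt.fst_mul]
      exact HP_nat.mpr (hr1.mul hs1)
    · rw [gR_snd, TrivSqZeroExt.snd_mul, map_add, op_smul_eq_smul]
      have h1 : gN.pi ((i + j : ℕ) : ℤ) (r.fst • s.snd) = r.fst • s.snd := gN_smul_P hr1 hs2
      have h2 : gN.pi ((i + j : ℕ) : ℤ) (s.fst • r.snd) = s.fst • r.snd := by
        rw [add_comm i j]; exact gN_smul_P hs1 hr2
      rw [h1, h2]

noncomputable instance : DirectSum.Decomposition AA := AA_internal.chooseDecomposition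

noncomputable instance : GradedAlgebra AA where

theorem decompose_eq (r : R0) (i : ℕ) :
    ((DirectSum.decompose AA r i : AA i) : R0) = gR.pi i r := by
  obtain ⟨n, hn⟩ := gR_full.exh r
  conv_lhs => rw [← hn n le_rfl]
  rw [DirectSum.decompose_sum, DFinsupp.finsetSum_apply, AddSubmonoidClass.coe_finsetSum]
  have h1 : ∀ j ∈ Finset.range n, ((DirectSum.decompose AA (gR.pi (j : ℤ) r) i : AA i) : R0) =
      if j = i then gR.pi (i : ℤ) r else 0 := by
    intro j _
    have hj : gR.pi (j : ℤ) r ∈ AA j := ⟨r, rfl⟩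
    split_ifs with h
    · subst h
      rw [DirectSum.decompose_of_mem_same AA hj]
    · rw [DirectSum.decompose_of_mem_ne AA hj h]
  rw [Finset.sum_congr rfl h1, Finset.sum_ite_eq']
  split_ifs with h
  · rfl
  · rw [Finset.mem_range, not_lt] at h
    have h2 := hn (i + 1) (by omega)
    rw [Finset.sum_range_succ] at h2
    have h3 := hn i (by omega)
    rw [h3] at h2
    have h4 : gR.pi (i : ℤ) r = 0 := by
      have := h2
      rwa [add_eq_left] at this
    exact h4.symm

theorem y0_mem (j : Fin 3) : y0 j ∈ AA 1 := by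
  rw [mem_AA]
  apply TrivSqZeroExt.ext
  · rw [gR_fst]
    exact HP_nat.mpr (isHomogeneous_X _ _)
  · rw [gR_snd]
    exact map_zero _

theorem irr : Ideal.span (Set.range y0) = (HomogeneousIdeal.irrelevant AA).toIdeal := by
  apply le_antisymm
  · rw [Ideal.span_le]
    rintro _ ⟨j, rfl⟩
    exact HomogeneousIdeal.mem_irrelevant_of_mem AA (by norm_num) (y0_mem j)
  · intro r hr
    have h0 : gR.pi 0 r = 0 := by
      have h1 := (HomogeneousIdeal.mem_irrelevant_iff AA r).mp hr
      rw [GradedRing.proj_apply, decompose_eq] at h1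
      exact_mod_cast h1
    obtain ⟨n, hn⟩ := gR_full.exh r
    rw [← hn n le_rfl]
    refine Ideal.sum_mem _ fun i _ => ?_
    rcases Nat.eq_zero_or_pos i with hi | hi
    · subst hi
      rw [Nat.cast_zero, h0]; exact Ideal.zero_mem _
    · obtain ⟨b0, b1, b2, hb⟩ := gR_KV.z3 1 ((i : ℤ) - 3) (gR.pi i r) le_rfl (by omega) (by
        have : (i : ℤ) - 3 + 3 * ((1 : ℕ) : ℤ) = i := by push_cast; ring
        rw [this]; exact gR.H_pi _ _)
      rw [hb]
      have hy : ∀ (j : Fin 3) (b : R0), (X j : P0) ^ 1 • b ∈ Ideal.span (Set.range y0) := by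
        intro j b
        rw [← y0_pow_mul, pow_one]
        exact Ideal.mul_mem_right _ _ (Ideal.subset_span ⟨j, rfl⟩)
      exact Ideal.add_mem _ (Ideal.sub_mem _ (hy 0 b0) (hy 1 b1)) (hy 2 b2)

end R689VR
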