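import Pool.Agent.R689.VReg5

/-! The filtration `I_[k] = (u^k)`, regularity and v-number. -/

namespace R689VR

open MvPolynomial

/-! ### `u` is a nonzerodivisor -/

/-- The element `u` of `V`. -/
noncomputable def u0 : V0 := PowerSeries.X

theorem u0_prime : Prime u0 := PowerSeries.X_prime

theorem Cu_prime : Prime (C u0 : P0) := (MvPolynomial.prime_C_iff (Fin 3)).mpr u0_prime

theorem Cu_ndvd (i : Fin 3) : ¬ (C u0 : P0) ∣ X i := by
  rintro ⟨q, hq⟩
  have h1 := congrArg (coeff (Finsupp.single i 1)) hq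
  rw [coeff_C_mul, coeff_X, if_pos rfl] at h1
  exact u0_prime.not_isUnit (IsUnit.of_mul_eq_one _ h1.symm)

theorem A0_dvd (c m : F0) (h : A0 c = u0 • m) : ∃ c' : F0, c = u0 • c' := by
  obtain ⟨c0, c1, c2⟩ := c
  obtain ⟨m0, m1, m2⟩ := m
  rw [A0_apply] at h
  have hs : u0 • ((m0, m1, m2) : F0) = (C u0 * m0, C u0 * m1, C u0 * m2) := by
    simp only [← MvPolynomial.smul_eq_C_mul]; rfl
  rw [hs] at h
  have h1 : X 2 * c2 - X 1 * c1 = C u0 * m0 := congrArg Prod.fst h
  have h2 : X 2 * c0 + X 0 * c1 = C u0 * m1 := congrArg (fun q => q.2.1) h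
  have h3 : - (X 1 * c0) - X 0 * c2 - X 0 * c2 = C u0 * m2 := congrArg (fun q => q.2.2) h
  have h4 : (X 0 * X 1 : P0) * c1 = C u0 * (-(X 2) * m2 - 2 * X 0 * m0 - X 1 * m1) := by
    linear_combination (-(X 2 : P0)) * h3 - 2 * X 0 * h1 - X 1 * h2
  have hc1 : (C u0 : P0) ∣ c1 := by
    have h5 : (C u0 : P0) ∣ (X 0 * X 1 : P0) * c1 := ⟨_, h4⟩
    rcases Cu_prime.dvd_or_dvd h5 with h6 | h6
    · rcases Cu_prime.dvd_or_dvd h6 with h7 | h7
      · exact absurd h7 (Cu_ndvd 0)
      · exact absurd h7 (Cu_ndvd 1)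
    · exact h6
  obtain ⟨d1, rfl⟩ := hc1
  have hc0 : (C u0 : P0) ∣ c0 := by
    have h5 : (C u0 : P0) ∣ (X 2 : P0) * c0 := ⟨m1 - X 0 * d1, by linear_combination h2⟩
    exact (Cu_prime.dvd_or_dvd h5).resolve_left (Cu_ndvd 2)
  have hc2 : (C u0 : P0) ∣ c2 := by
    have h5 : (C u0 : P0) ∣ (X 2 : P0) * c2 := ⟨m0 + X 1 * d1, by linear_combination h1⟩
    exact (Cu_prime.dvd_or_dvd h5).resolve_left (Cu_ndvd 2)
  obtain ⟨d0, rfl⟩ := hc0
  obtain ⟨d2, rfl⟩ := hc2
  refine ⟨(d0, d1, d2), ?_⟩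
  simp only [← MvPolynomial.smul_eq_C_mul]; rfl

theorem u0_smul_inj_F (m : F0) (h : u0 • m = 0) : m = 0 := by
  obtain ⟨m0, m1, m2⟩ := m
  have hne : (C u0 : P0) ≠ 0 := Cu_prime.ne_zero
  have h0 : C u0 * m0 = 0 := by
    rw [← MvPolynomial.smul_eq_C_mul]; exact congrArg Prod.fst h
  have h1 : C u0 * m1 = 0 := by
    rw [← MvPolynomial.smul_eq_C_mul]; exact congrArg (fun q : F0 => q.2.1) h
  have h2 : C u0 * m2 = 0 := by
    rw [← MvPolynomial.smul_eq_C_mul]; exact congrArg (fun q : F0 => q.2.2) h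
  rw [(mul_eq_zero.mp h0).resolve_left hne, (mul_eq_zero.mp h1).resolve_left hne,
    (mul_eq_zero.mp h2).resolve_left hne]
  rfl

theorem A0_smul (v : V0) (m : F0) : A0 (v • m) = v • A0 m := by
  have h1 : ∀ q : F0, v • q = (C v : P0) • q := by
    rintro ⟨a, b, c⟩
    change ((v • a, v • b, v • c) : F0) = (C v * a, C v * b, C v * c)
    simp only [MvPolynomial.smul_eq_C_mul]
  rw [h1, h1, map_smul]

theorem u0_smul_inj_N (n : N0) (h : u0 • n = 0) : n = 0 := by
  obtain ⟨m, rfl⟩ := Submodule.Quotient.mk_surjective _ n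
  rw [smul_mk, Submodule.Quotient.mk_eq_zero] at h
  obtain ⟨c, hc⟩ := h
  obtain ⟨c', rfl⟩ := A0_dvd c m hc
  rw [Submodule.Quotient.mk_eq_zero]
  refine ⟨c', ?_⟩
  rw [A0_smul] at hc
  have : u0 • (A0 c' - m) = 0 := by rw [smul_sub, hc, sub_self]
  exact sub_eq_zero.mp (u0_smul_inj_F _ this)

/-- The element `u` of `R`. -/
noncomputable def U0 : R0 := TrivSqZeroExt.inl (C u0)

theorem C_smul_N (v : V0) (n : N0) : (C v : P0) • n = v • n := algebraMap_smul P0 v n

theorem U0_pow_mul (k : ℕ) (r : R0) : U0 ^ k * r = (u0 ^ k) • r := by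
  unfold U0
  rw [TrivSqZeroExt.inl_pow]
  apply TrivSqZeroExt.ext
  · rw [TrivSqZeroExt.fst_mul, TrivSqZeroExt.fst_inl, TrivSqZeroExt.fst_smul,
      MvPolynomial.smul_eq_C_mul, map_pow]
  · rw [TrivSqZeroExt.snd_mul, TrivSqZeroExt.fst_inl, TrivSqZeroExt.snd_inl, smul_zero, add_zero,
      TrivSqZeroExt.snd_smul, ← map_pow, C_smul_N]

theorem u0_smul_inj_R (r : R0) (h : u0 • r = 0) : r = 0 := by
  apply TrivSqZeroExt.ext
  · have h1 : u0 • r.fst = 0 := congrArg TrivSqZeroExt.fst h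
    rw [MvPolynomial.smul_eq_C_mul] at h1
    exact (mul_eq_zero.mp h1).resolve_left Cu_prime.ne_zero
  · exact u0_smul_inj_N _ (congrArg TrivSqZeroExt.snd h)

theorem upow_inj_R (k : ℕ) (r : R0) (h : (u0 ^ k) • r = 0) : r = 0 := by
  induction k with
  | zero => simpa using h
  | succ k ih =>
    rw [pow_succ', mul_smul] at h
    exact ih (u0_smul_inj_R _ h)

theorem upow_inj_N (k : ℕ) (n : N0) (h : (u0 ^ k) • n = 0) : n = 0 := by
  induction k with
  | zero => simpa using h
  | succ k ih =>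
    rw [pow_succ', mul_smul] at h
    exact ih (u0_smul_inj_N _ h)

/-! ### The filtration -/

/-- `I_[k] = (u^k)`. -/
noncomputable def II (k : ℕ) : Ideal R0 := Ideal.span {U0 ^ k}

theorem mem_II {k : ℕ} {r : R0} : r ∈ II k ↔ ∃ s : R0, (u0 ^ k) • s = r := by
  unfold II
  rw [Ideal.mem_span_singleton']
  constructor
  · rintro ⟨a, ha⟩
    exact ⟨a, by rw [← U0_pow_mul, mul_comm]; exact ha⟩
  · rintro ⟨s, hs⟩
    exact ⟨s, by rw [mul_comm, U0_pow_mul]; exact hs⟩

theorem one_AA : (1 : R0) ∈ AA 0 := SetLike.GradedOne.one_mem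

theorem U0_mem : U0 ∈ AA 0 := by
  have : U0 = u0 • (1 : R0) := by
    have h := U0_pow_mul 1 1
    rwa [pow_one, mul_one, pow_one] at h
  rw [this]
  exact Submodule.smul_mem _ _ one_AA

theorem II_filtration : IsGradedFiltration AA II where
  homog k := by
    unfold II
    apply Ideal.homogeneous_span
    rintro x hx
    rw [Set.mem_singleton_iff] at hx
    subst hx
    refine ⟨0, ?_⟩
    have := SetLike.pow_mem_graded (A := AA) k U0_mem
    simpa using this
  zero := by
    unfold II; rw [pow_zero, Ideal.span_singleton_one]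
  anti k := by
    unfold II
    rw [Ideal.span_singleton_le_span_singleton, pow_succ]
    exact Dvd.intro _ rfl
  mul k l := by
    unfold II
    rw [Ideal.span_singleton_mul_span_singleton, ← pow_add]

theorem II_eq_pow (k : ℕ) : II k = (Ideal.span {U0}) ^ k := by
  unfold II; rw [Ideal.span_singleton_pow]

/-! ### Finiteness -/

theorem R0_finite : Module.Finite P0 R0 := by
  have : Module.Finite P0 (P0 × N0) := inferInstance
  exact this

instance : IsScalarTower P0 R0 R0 := ⟨fun x y z => by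
  apply TrivSqZeroExt.ext
  · simp [mul_assoc]
  · simp [mul_smul, smul_add]
    rw [smul_comm]⟩

theorem R0_noeth : IsNoetherianRing R0 := by
  have := R0_finite
  exact IsNoetherianRing.of_finite P0 R0

theorem R0_ft : Algebra.FiniteType V0 R0 := by
  have h1 := R0_finite
  have h2 : Algebra.FiniteType P0 R0 := inferInstance
  have h3 : Algebra.FiniteType V0 P0 := inferInstance
  exact Algebra.FiniteType.trans h3 h2

theorem rees_noeth : IsNoetherianRing (ReesRing AA II II_filtration) := by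
  have := R0_noeth
  have h1 : IsNoetherianRing (reesAlgebra (Ideal.span {U0})) := inferInstance
  have h2 : ReesRing AA II II_filtration = (reesAlgebra (Ideal.span {U0})).toSubring := by
    ext f
    change (∀ k, f.coeff k ∈ II k) ↔ (∀ k, f.coeff k ∈ (Ideal.span {U0}) ^ k)
    simp only [II_eq_pow]
  rw [h2]
  exact h1

/-! ### The maximal graded ideal -/

/-- The residue map `R → ℚ`. -/
noncomputable def eps : R0 →+* ℚ :=
  (PowerSeries.constantCoeff).comp ((MvPolynomial.constantCoeff).comp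
    (TrivSqZeroExt.fstHom V0 P0 N0).toRingHom)

theorem eps_apply (r : R0) : eps r = PowerSeries.constantCoeff (MvPolynomial.constantCoeff r.fst) :=
  rfl

theorem eps_surj : Function.Surjective eps := by
  intro q
  refine ⟨TrivSqZeroExt.inl (C (PowerSeries.C q)), ?_⟩
  rw [eps_apply]; simp

theorem eps_pi (r : R0) : eps (gR.pi 0 r) = eps r := by
  rw [eps_apply, eps_apply, gR_fst]
  congr 1
  have h1 : piP 0 r.fst = homogeneousComponent 0 r.fst := by
    unfold piP; simp
  rw [h1, homogeneousComponent_zero]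
  simp [MvPolynomial.constantCoeff_eq]

theorem eps_pi_pos (i : ℕ) (hi : 0 < i) (r : R0) : eps (gR.pi i r) = 0 := by
  rw [eps_apply, gR_fst]
  have h1 : (piP (i : ℤ) r.fst).IsHomogeneous i := by
    rw [← HP_nat]; exact piP_of_HP (HP_piP _ _)
  rw [MvPolynomial.constantCoeff_eq]
  have h2 : coeff 0 (piP (i : ℤ) r.fst) = 0 := by
    apply h1.coeff_eq_zero
    simp; omega
  rw [h2, map_zero]

theorem max_ideal : (RingHom.ker eps).IsMaximal :=
  RingHom.ker_isMaximal_of_surjective eps eps_surj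

theorem max_homog : (RingHom.ker eps).IsHomogeneous AA := by
  intro i r hr
  rw [RingHom.mem_ker] at hr ⊢
  rw [decompose_eq]
  rcases Nat.eq_zero_or_pos i with hi | hi
  · subst hi; rw [Nat.cast_zero, eps_pi, hr]
  · exact eps_pi_pos i hi r

theorem max_greatest (J : Ideal R0) (hJ : J.IsHomogeneous AA) (hne : J ≠ ⊤) :
    J ≤ RingHom.ker eps := by
  intro r hr
  rw [RingHom.mem_ker]
  by_contra hcon
  apply hne
  have h1 : gR.pi 0 r ∈ J := by
    have := hJ 0 hr
    rwa [decompose_eq, Nat.cast_zero] at this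
  apply Ideal.eq_top_of_isUnit_mem _ h1
  rw [TrivSqZeroExt.isUnit_iff_isUnit_fst, gR_fst]
  have h2 : piP 0 r.fst = C (coeff 0 r.fst) := by
    have h1 : piP 0 r.fst = homogeneousComponent 0 r.fst := by
      unfold piP; simp
    rw [h1, homogeneousComponent_zero]
  rw [h2]
  apply IsUnit.map
  rw [PowerSeries.isUnit_iff_constantCoeff]
  rw [eps_apply, MvPolynomial.constantCoeff_eq] at hcon
  exact isUnit_iff_ne_zero.mpr hcon

theorem residue_infinite : Infinite (R0 ⧸ RingHom.ker eps) := by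
  have e : (R0 ⧸ RingHom.ker eps) ≃+* ℚ := RingHom.quotientKerEquivOfSurjective eps_surj
  exact Infinite.of_injective e.symm e.symm.injective

/-! ### Regularity -/

theorem LCZero_II (k p : ℕ) (d : ℤ) (hd : 1 ≤ d + p) :
    LCZero AA (II k) y0 (fun _ => 1) p d := by
  intro t c hc hcoc
  have hsum : ∀ T : Finset (Fin 3), (∑ _j ∈ T, ((1 : ℕ) : ℤ)) = T.card := by
    intro T; simp
  have hpartH : ∀ (D : ℤ) (r : R0), r ∈ part AA (II k) D → gR.H D r := by
    rintro D r ⟨_, h | ⟨n, rfl, h⟩⟩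
    · rw [h]; exact map_zero _
    · exact mem_AA.mp h
  have hHpart : ∀ (D : ℤ) (r : R0), gR.H D r → (u0 ^ k) • r ∈ part AA (II k) D := by
    intro D r h
    refine ⟨mem_II.mpr ⟨r, rfl⟩, ?_⟩
    by_cases hD : 0 ≤ D
    · right
      refine ⟨D.toNat, Int.toNat_of_nonneg hD, Submodule.smul_mem _ _ ?_⟩
      rw [mem_AA, Int.toNat_of_nonneg hD]; exact h
    · left
      have h1 : gR.pi D r = r := h
      have h2 : r = 0 := by
        rw [← h1]
        apply TrivSqZeroExt.ext
        · rw [gR_fst]; unfold piP; rw [if_neg hD]; rfl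
        · rw [gR_snd]
          obtain ⟨⟨a, b, e⟩, hm⟩ := Submodule.Quotient.mk_surjective _ r.snd
          rw [← hm]
          change (Submodule.Quotient.mk (gF.pi D (a, b, e)) : N0) = _
          rw [gF_pi]; unfold piP; rw [if_neg hD, if_neg hD, if_neg hD]; rfl
      rw [h2, smul_zero]
  -- divide by `u^k`
  have hex : ∀ T : Finset (Fin 3), ∃ r : R0, T.card = p →
      (gR.H (d + t * p) r ∧ c T = (u0 ^ k) • r) := by
    intro T
    by_cases hT : T.card = p
    · have h1 := hc T hT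
      rw [hsum, hT] at h1
      have h2 := hpartH _ _ h1
      obtain ⟨s, hs⟩ := mem_II.mp h1.1
      refine ⟨gR.pi (d + t * p) s, fun _ => ⟨gR.H_pi _ _, ?_⟩⟩
      rw [← gR_smul, hs]
      exact h2.symm
    · exact ⟨0, fun h => absurd h hT⟩
  choose r hr using hex
  have hcoc' : ∀ T, T.card = p + 1 → kos y0 t r T = 0 := by
    intro T hT
    apply upow_inj_R k
    have h1 : kos y0 t c T = kos y0 t (fun T => U0 ^ k * r T) T := by
      unfold kos
      refine Finset.sum_congr rfl fun j hj => ?_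
      congr 1
      change c (T.erase j) = U0 ^ k * r (T.erase j)
      rw [U0_pow_mul]
      exact (hr _ (by rw [Finset.card_erase_of_mem hj, hT]; rfl)).2
    have h2 := hcoc T hT
    rw [h1, kos_mul, U0_pow_mul] at h2
    exact h2
  have hprod : ∀ (T : Finset (Fin 3)) (D : ℤ) (x : R0), gR.H D x →
      gR.H (D + T.card) ((∏ j ∈ T, y0 j) * x) := by
    intro T
    induction T using Finset.induction_on with
    | empty => intro D x hx; simpa using hx
    | insert a T ha ih =>
      intro D x hx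
      rw [Finset.prod_insert ha, mul_assoc, Finset.card_insert_of_notMem ha]
      have h1 := ih D x hx
      have h2 : y0 a * ((∏ j ∈ T, y0 j) * x) = (X a : P0) ^ 1 • ((∏ j ∈ T, y0 j) * x) := by
        rw [← y0_pow_mul, pow_one]
      rw [h2, Gr.H, gR.pi_Xpow' 1 (D + T.card) _ (by push_cast; ring)]
      rw [show gR.pi (D + T.card) ((∏ j ∈ T, y0 j) * x) = (∏ j ∈ T, y0 j) * x from h1]
  obtain ⟨b, hb1, hb2⟩ := vanish (t + 1) (by omega) p d hd (fun T => (∏ j ∈ T, y0 j) * r T)
    (fun T hT => by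
      have h1 := hprod T _ _ (hr T hT).1
      rw [hT] at h1
      have e : d + (t : ℤ) * p + p = d + ((t + 1 : ℕ) : ℤ) * p := by push_cast; ring
      rwa [e] at h1)
    (fun T hT => by rw [kos_shift, hcoc' T hT, mul_zero])
  refine ⟨1, fun T => U0 ^ k * b T, fun T hT => ?_, fun T hT => ?_⟩
  · simp only
    rw [U0_pow_mul, hsum]
    exact hHpart _ _ (hb1 T hT)
  · rw [kos_mul, ← hb2 T hT, (hr T hT).2, pow_one, ← U0_pow_mul]
    ring

theorem reg_II (k : ℕ) : reg AA (II k) y0 (fun _ => 1) ≤ 0 := by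
  unfold reg
  refine iSup_le fun p => iSup_le fun d => iSup_le fun h => ?_
  have h1 : d + p ≤ 0 := by
    by_contra hcon
    exact h (LCZero_II k p d (by omega))
  have h2 : ((d + p : ℤ) : ℝ) ≤ 0 := by exact_mod_cast h1
  exact_mod_cast h2

end R689VR
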