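import Pool.Agent.R689.VReg6

/-! The v-number of `(u^k)` is at least one. -/

namespace R689VR

open MvPolynomial

theorem piP_C_const (a : V0) : piP 0 (C a : P0) = C a := by
  have h1 : piP 0 (C a : P0) = homogeneousComponent 0 (C a) := by
    unfold piP; simp
  rw [h1, homogeneousComponent_zero]
  simp

theorem piP_zero_eq (p : P0) : piP 0 p = C (coeff 0 p) := by
  have h1 : piP 0 p = homogeneousComponent 0 p := by
    unfold piP; simp
  rw [h1, homogeneousComponent_zero]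

theorem piP_neg_one (p : P0) : piP (-1) p = 0 := by
  unfold piP; rw [if_neg (by norm_num)]

/-- No nonzero element of `N/uN` of degree zero is killed by a single variable. -/
theorem no_single (j : Fin 3) (m : F0) (n : N0)
    (h : (X j : P0) • (Submodule.Quotient.mk m : N0) = u0 • n) :
    ∃ m' : F0, gF.pi 0 m = u0 • m' := by
  obtain ⟨q, rfl⟩ := Submodule.Quotient.mk_surjective _ n
  rw [smul_mk, ← Submodule.Quotient.mk_smul, Submodule.Quotient.eq] at h
  obtain ⟨c, hc⟩ := h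
  obtain ⟨a0, a1, a2⟩ := m
  obtain ⟨q0, q1, q2⟩ := q
  obtain ⟨c0, c1, c2⟩ := c
  have hs : (X j : P0) • ((a0, a1, a2) : F0) - u0 • ((q0, q1, q2) : F0) =
      (X j * a0 - C u0 * q0, X j * a1 - C u0 * q1, X j * a2 - C u0 * q2) := by
    simp only [← MvPolynomial.smul_eq_C_mul]; rfl
  rw [hs, A0_apply] at hc
  have e0 : X 2 * c2 - X 1 * c1 = X j * a0 - C u0 * q0 := congrArg Prod.fst hc
  have e1 : X 2 * c0 + X 0 * c1 = X j * a1 - C u0 * q1 := congrArg (fun q => q.2.1) hc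
  have e2 : - (X 1 * c0) - X 0 * c2 - X 0 * c2 = X j * a2 - C u0 * q2 :=
    congrArg (fun q => q.2.2) hc
  -- coefficient extraction
  have cx : ∀ (i l : Fin 3) (p : P0), coeff (Finsupp.single l 1) (X i * p) =
      if i = l then coeff 0 p else 0 := by
    intro i l p
    rw [coeff_X_mul']
    by_cases hil : i = l
    · subst hil
      simp
    · rw [if_neg, if_neg hil]
      rw [Finsupp.mem_support_iff, not_not, Finsupp.single_apply, if_neg (Ne.symm hil)]
  have key : ∀ l : Fin 3,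
      ((if (2 : Fin 3) = l then coeff 0 c2 else 0) - (if (1 : Fin 3) = l then coeff 0 c1 else 0) =
        (if j = l then coeff 0 a0 else 0) - u0 * coeff (Finsupp.single l 1) q0) ∧
      ((if (2 : Fin 3) = l then coeff 0 c0 else 0) + (if (0 : Fin 3) = l then coeff 0 c1 else 0) =
        (if j = l then coeff 0 a1 else 0) - u0 * coeff (Finsupp.single l 1) q1) ∧
      (-(if (1 : Fin 3) = l then coeff 0 c0 else 0) - (if (0 : Fin 3) = l then coeff 0 c2 else 0)
        - (if (0 : Fin 3) = l then coeff 0 c2 else 0) =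
        (if j = l then coeff 0 a2 else 0) - u0 * coeff (Finsupp.single l 1) q2) := by
    intro l
    have f0 := congrArg (coeff (Finsupp.single l 1)) e0
    have f1 := congrArg (coeff (Finsupp.single l 1)) e1
    have f2 := congrArg (coeff (Finsupp.single l 1)) e2
    simp only [coeff_sub, coeff_add, coeff_neg, coeff_C_mul, cx] at f0 f1 f2
    exact ⟨f0, f1, f2⟩
  have two : IsUnit (2 : V0) := by
    rw [PowerSeries.isUnit_iff_constantCoeff, map_ofNat]
    exact isUnit_iff_ne_zero.mpr (by norm_num)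
  have goal : u0 ∣ coeff 0 a0 ∧ u0 ∣ coeff 0 a1 ∧ u0 ∣ coeff 0 a2 := by
    obtain ⟨k00, k01, k02⟩ := key 0
    obtain ⟨k10, k11, k12⟩ := key 1
    obtain ⟨k20, k21, k22⟩ := key 2
    have n10 : ¬ (1 : Fin 3) = 0 := by decide
    have n20 : ¬ (2 : Fin 3) = 0 := by decide
    have n01 : ¬ (0 : Fin 3) = 1 := by decide
    have n21 : ¬ (2 : Fin 3) = 1 := by decide
    have n02 : ¬ (0 : Fin 3) = 2 := by decide
    have n12 : ¬ (1 : Fin 3) = 2 := by decide
    generalize coeff (0 : Fin 3 →₀ ℕ) a0 = α0 at *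
    generalize coeff (0 : Fin 3 →₀ ℕ) a1 = α1 at *
    generalize coeff (0 : Fin 3 →₀ ℕ) a2 = α2 at *
    generalize coeff (0 : Fin 3 →₀ ℕ) c0 = γ0 at *
    generalize coeff (0 : Fin 3 →₀ ℕ) c1 = γ1 at *
    generalize coeff (0 : Fin 3 →₀ ℕ) c2 = γ2 at *
    generalize coeff (Finsupp.single (0 : Fin 3) 1) q0 = s00 at *
    generalize coeff (Finsupp.single (0 : Fin 3) 1) q1 = s01 at *
    generalize coeff (Finsupp.single (0 : Fin 3) 1) q2 = s02 at *
    generalize coeff (Finsupp.single (1 : Fin 3) 1) q0 = s10 at *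
    generalize coeff (Finsupp.single (1 : Fin 3) 1) q1 = s11 at *
    generalize coeff (Finsupp.single (1 : Fin 3) 1) q2 = s12 at *
    generalize coeff (Finsupp.single (2 : Fin 3) 1) q0 = s20 at *
    generalize coeff (Finsupp.single (2 : Fin 3) 1) q1 = s21 at *
    generalize coeff (Finsupp.single (2 : Fin 3) 1) q2 = s22 at *
    have dvd_two : ∀ g : V0, u0 ∣ 2 * g → u0 ∣ g := by
      intro g hg
      exact (u0_prime.dvd_or_dvd hg).resolve_left
        (fun h => u0_prime.not_isUnit (isUnit_of_dvd_unit h two))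
    fin_cases j
    · -- `X 0`
      simp only [n10, n20, n01, n21, n02, n12, if_true, if_false, Fin.zero_eta, Fin.mk_one,
        Fin.reduceFinMk] at k00 k01 k02 k10 k11 k12 k20 k21 k22
      have h0 : u0 ∣ α0 := ⟨s00, by linear_combination -k00⟩
      have g1 : u0 ∣ γ1 := ⟨s10, by linear_combination -k10⟩
      have g2 : u0 ∣ γ2 := ⟨-s20, by linear_combination k20⟩
      obtain ⟨g1, rfl⟩ := g1
      obtain ⟨g2, rfl⟩ := g2
      exact ⟨h0, ⟨s01 + g1, by linear_combination -k01⟩,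
        ⟨s02 - 2 * g2, by linear_combination -k02⟩⟩
    · simp only [n10, n20, n01, n21, n02, n12, if_true, if_false, Fin.zero_eta, Fin.mk_one,
        Fin.reduceFinMk] at k00 k01 k02 k10 k11 k12 k20 k21 k22
      have g0 : u0 ∣ γ0 := ⟨-s21, by linear_combination k21⟩
      have g1 : u0 ∣ γ1 := ⟨-s01, by linear_combination k01⟩
      obtain ⟨g0, rfl⟩ := g0
      obtain ⟨g1, rfl⟩ := g1
      exact ⟨⟨s10 - g1, by linear_combination -k10⟩, ⟨s11, by linear_combination -k11⟩,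
        ⟨s12 - g0, by linear_combination -k12⟩⟩
    · simp only [n10, n20, n01, n21, n02, n12, if_true, if_false, Fin.zero_eta, Fin.mk_one,
        Fin.reduceFinMk] at k00 k01 k02 k10 k11 k12 k20 k21 k22
      have g0 : u0 ∣ γ0 := ⟨s12, by linear_combination -k12⟩
      have g2 : u0 ∣ γ2 := dvd_two _ ⟨s02, by linear_combination -k02⟩
      obtain ⟨g0, rfl⟩ := g0
      obtain ⟨g2, rfl⟩ := g2
      exact ⟨⟨s20 + g2, by linear_combination -k20⟩, ⟨s21 + g0, by linear_combination -k21⟩,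
        ⟨s22, by linear_combination -k22⟩⟩
  obtain ⟨⟨b0, h0⟩, ⟨b1, h1⟩, ⟨b2, h2⟩⟩ := goal
  refine ⟨(C b0, C b1, C b2), ?_⟩
  rw [gF_pi, piP_zero_eq, piP_zero_eq, piP_zero_eq, h0, h1, h2]
  have hs2 : u0 • ((C b0, C b1, C b2) : F0) = (C u0 * C b0, C u0 * C b1, C u0 * C b2) := by
    simp only [← MvPolynomial.smul_eq_C_mul]; rfl
  rw [hs2, C_mul, C_mul, C_mul]

/-- `xyz N = 0`. -/
theorem xyz_N (n : N0) : (X 0 * X 1 * X 2 : P0) • n = 0 := by
  obtain ⟨⟨a, b, c⟩, rfl⟩ := Submodule.Quotient.mk_surjective _ n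
  rw [← Submodule.Quotient.mk_smul, Submodule.Quotient.mk_eq_zero]
  refine ⟨(2 * X 0 ^ 2 * a + 2 * X 0 * X 1 * b + X 0 * X 2 * c,
    - 2 * X 0 * X 2 * a - X 1 * X 2 * b - X 2 ^ 2 * c,
    - X 0 * X 1 * a - X 1 ^ 2 * b - X 1 * X 2 * c), ?_⟩
  rw [A0_apply]
  refine Prod.ext ?_ (Prod.ext ?_ ?_)
  · change X 2 * (- X 0 * X 1 * a - X 1 ^ 2 * b - X 1 * X 2 * c) -
      X 1 * (- 2 * X 0 * X 2 * a - X 1 * X 2 * b - X 2 ^ 2 * c) = X 0 * X 1 * X 2 * a
    ring
  · change X 2 * (2 * X 0 ^ 2 * a + 2 * X 0 * X 1 * b + X 0 * X 2 * c) +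
      X 0 * (- 2 * X 0 * X 2 * a - X 1 * X 2 * b - X 2 ^ 2 * c) = X 0 * X 1 * X 2 * b
    ring
  · change - (X 1 * (2 * X 0 ^ 2 * a + 2 * X 0 * X 1 * b + X 0 * X 2 * c)) -
      X 0 * (- X 0 * X 1 * a - X 1 ^ 2 * b - X 1 * X 2 * c) -
      X 0 * (- X 0 * X 1 * a - X 1 ^ 2 * b - X 1 * X 2 * c) = X 0 * X 1 * X 2 * c
    ring

theorem inr_mem {k : ℕ} {n : N0} :
    (TrivSqZeroExt.inr n : R0) ∈ II k ↔ ∃ n' : N0, (u0 ^ k) • n' = n := by
  rw [mem_II]
  constructor
  · rintro ⟨s, hs⟩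
    exact ⟨s.snd, congrArg TrivSqZeroExt.snd hs⟩
  · rintro ⟨n', hn'⟩
    refine ⟨TrivSqZeroExt.inr n', ?_⟩
    rw [← TrivSqZeroExt.inr_smul, hn']

theorem not_prime (k : ℕ) (hk : 1 ≤ k) (f : R0) (hf : f ∈ AA 0) :
    ¬ (colonIdeal (II k) f).IsPrime := by
  intro hp
  rw [mem_AA] at hf
  have hf1 : piP 0 f.fst = f.fst := congrArg TrivSqZeroExt.fst hf
  have hf2 : gN.pi 0 f.snd = f.snd := congrArg TrivSqZeroExt.snd hf
  obtain ⟨l, rfl⟩ : ∃ l, k = l + 1 := ⟨k - 1, by omega⟩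
  -- nilpotents lie in the prime
  have hnil : ∀ n : N0, (TrivSqZeroExt.inr n : R0) ∈ colonIdeal (II (l + 1)) f := by
    intro n
    have h1 : (TrivSqZeroExt.inr n : R0) * TrivSqZeroExt.inr n = 0 := TrivSqZeroExt.inr_mul_inr _ _ _
    have h2 : (TrivSqZeroExt.inr n : R0) * TrivSqZeroExt.inr n ∈ colonIdeal (II (l + 1)) f := by
      rw [h1]; exact Ideal.zero_mem _
    rcases hp.mem_or_mem h2 with h | h <;> exact h
  -- the polynomial part is divisible by `u^k`
  have hfst : ∃ q : P0, f.fst = C (u0 ^ (l + 1)) * q := by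
    have h1 := hnil (Submodule.Quotient.mk (1, 0, 0))
    rw [mem_colon] at h1
    have h2 : f * (TrivSqZeroExt.inr (Submodule.Quotient.mk ((1, 0, 0) : F0)) : R0) =
        TrivSqZeroExt.inr (f.fst • (Submodule.Quotient.mk ((1, 0, 0) : F0) : N0)) := by
      apply TrivSqZeroExt.ext
      · simp
      · simp
    rw [h2, inr_mem] at h1
    obtain ⟨n', hn'⟩ := h1
    obtain ⟨⟨q0, q1, q2⟩, rfl⟩ := Submodule.Quotient.mk_surjective _ n'
    rw [smul_mk, ← Submodule.Quotient.mk_smul] at hn'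
    have h3 := hn'.symm
    rw [Submodule.Quotient.eq] at h3
    obtain ⟨c, hc⟩ := h3
    have h4 := congrArg (gF.pi 0) hc
    have h5 : gF.pi 0 (A0 c) = A0 (gF.pi (-1) c) := by
      rw [← A0_pi]; norm_num
    obtain ⟨c0, c1, c2⟩ := c
    rw [h5, gF_pi, piP_neg_one, piP_neg_one, piP_neg_one] at h4
    have h6 : (f.fst • ((1, 0, 0) : F0) - u0 ^ (l + 1) • ((q0, q1, q2) : F0)).1 =
        f.fst - C (u0 ^ (l + 1)) * q0 := by
      rw [← MvPolynomial.smul_eq_C_mul]
      change f.fst * 1 - u0 ^ (l + 1) • q0 = _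
      rw [mul_one]
    have h7 := congrArg Prod.fst h4
    have h8 : (A0 ((0 : P0), (0 : P0), (0 : P0))).1 = 0 := by
      rw [A0_apply]; simp
    rw [h8] at h7
    have h9 : (gF.pi 0 (f.fst • ((1, 0, 0) : F0) - u0 ^ (l + 1) • ((q0, q1, q2) : F0))).1 =
        piP 0 (f.fst • ((1, 0, 0) : F0) - u0 ^ (l + 1) • ((q0, q1, q2) : F0)).1 := rfl
    rw [h9, h6, piP_sub, piP_C, hf1] at h7
    exact ⟨piP 0 q0, (sub_eq_zero.mp h7.symm)⟩
  obtain ⟨q, hq⟩ := hfst
  -- hence the colon ideal only depends on the `N` part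
  have hcol : ∀ g : R0, g ∈ colonIdeal (II (l + 1)) f ↔ ∃ n' : N0, (u0 ^ (l + 1)) • n' = g.fst • f.snd := by
    intro g
    rw [mem_colon, ← inr_mem]
    have h1 : f * g = TrivSqZeroExt.inr (g.fst • f.snd) +
        (u0 ^ (l + 1)) • ((TrivSqZeroExt.inl q : R0) * g) := by
      apply TrivSqZeroExt.ext
      · simp [hq, MvPolynomial.smul_eq_C_mul, mul_assoc]
      · rw [TrivSqZeroExt.snd_mul, TrivSqZeroExt.snd_add, TrivSqZeroExt.snd_inr,
          TrivSqZeroExt.snd_smul, TrivSqZeroExt.snd_mul, TrivSqZeroExt.fst_inl,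
          TrivSqZeroExt.snd_inl, smul_zero, add_zero, op_smul_eq_smul, hq, mul_smul, C_smul_N,
          add_comm]
    rw [h1]
    constructor
    · intro h
      have h2 := Ideal.sub_mem _ h (mem_II.mpr ⟨(TrivSqZeroExt.inl q : R0) * g, rfl⟩)
      rwa [add_sub_cancel_right] at h2
    · intro h
      exact Ideal.add_mem _ h (mem_II.mpr ⟨_, rfl⟩)
  -- `f` is not in the ideal
  have hnotin : ¬ ∃ n' : N0, (u0 ^ (l + 1)) • n' = f.snd := by
    rintro ⟨n', hn'⟩
    apply hp.ne_top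
    rw [Ideal.eq_top_iff_one, hcol]
    exact ⟨n', by rw [hn']; simp⟩
  -- `u` is in the prime
  have hu : (U0 : R0) ∈ colonIdeal (II (l + 1)) f := by
    apply hp.mem_of_pow_mem (l + 1)
    rw [mem_colon]
    exact Ideal.mul_mem_left _ _ (Ideal.mem_span_singleton_self _)
  obtain ⟨n1, hn1⟩ := (hcol _).mp hu
  have hn2 : f.snd = (u0 ^ l) • n1 := by
    have h1 : u0 • (f.snd - (u0 ^ l) • n1) = 0 := by
      rw [smul_sub, smul_smul, ← pow_succ', hn1]
      have : (U0 : R0).fst = C u0 := rfl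
      rw [this, C_smul_N, sub_self]
    exact sub_eq_zero.mp (u0_smul_inj_N _ h1)
  -- a variable is in the prime
  have hxyz : y0 0 * y0 1 * y0 2 ∈ colonIdeal (II (l + 1)) f := by
    rw [hcol]
    refine ⟨0, ?_⟩
    have : (y0 0 * y0 1 * y0 2).fst = X 0 * X 1 * X 2 := rfl
    rw [this, xyz_N, smul_zero]
  have hj : ∃ j : Fin 3, y0 j ∈ colonIdeal (II (l + 1)) f := by
    rcases hp.mem_or_mem hxyz with h | h
    · rcases hp.mem_or_mem h with h | h
      · exact ⟨0, h⟩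
      · exact ⟨1, h⟩
    · exact ⟨2, h⟩
  obtain ⟨j, hj⟩ := hj
  obtain ⟨n3, hn3⟩ := (hcol _).mp hj
  have hn4 : (X j : P0) • n1 = u0 • n3 := by
    have h1 : (u0 ^ l) • ((X j : P0) • n1 - u0 • n3) = 0 := by
      rw [smul_sub, smul_smul, ← pow_succ, hn3]
      have : (y0 j : R0).fst = X j := rfl
      rw [this, hn2, ← C_smul_N, ← C_smul_N, smul_smul, smul_smul, mul_comm, sub_self]
    exact sub_eq_zero.mp (upow_inj_N _ _ h1)
  obtain ⟨m, rfl⟩ := Submodule.Quotient.mk_surjective _ n1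
  obtain ⟨m', hm'⟩ := no_single j m n3 hn4
  apply hnotin
  refine ⟨Submodule.Quotient.mk m', ?_⟩
  rw [← hf2, hn2, gN_smul]
  change (u0 ^ (l + 1)) • (Submodule.Quotient.mk m' : N0) =
    (u0 ^ l) • (Submodule.Quotient.mk (gF.pi 0 m) : N0)
  rw [hm', ← smul_mk, smul_smul, ← pow_succ]

theorem vnum_II (k : ℕ) (hk : 1 ≤ k) : 1 ≤ vnum AA (II k) := by
  unfold vnum
  refine le_iInf fun d => le_iInf fun h => ?_
  obtain ⟨f, hf, hp⟩ := h
  rcases Nat.eq_zero_or_pos d with hd | hd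
  · subst hd
    exact absurd hp (not_prime k hk f hf)
  · have : (1 : ℝ) ≤ d := by exact_mod_cast hd
    exact_mod_cast this

end R689VR
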